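import Mathlib

set_option autoImplicit false

/-!
Library for the hand-in `MP_4c9d8f_co.ConvexOrConic`: admissible point sets of the plane which are
in strictly convex position or lie on a conic.
-/

namespace Cvc

/-- the plane -/
abbrev P := ℝ × ℝ

/-- the cross product -/
def cr (u v : P) : ℝ := u.1 * v.2 - u.2 * v.1

/-- twice the signed area of the triangle `p q r` (positive when it is counterclockwise) -/
def tri (p q r : P) : ℝ := cr (q - p) (r - p)

/-- `S` is admissible with bound `K`: for every direction `d` and every line of direction `d` through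
two points of `S` at most `K` values of `cr d` on `S` are larger than the value of the line. (With
`-d` in place of `d` this bounds the number of smaller values.) -/
def Adm (S : Finset P) (K : ℕ) : Prop :=
  ∀ d : P, ∀ p ∈ S, ∀ q ∈ S, p ≠ q → cr d p = cr d q →
    ((S.image (cr d)).filter (fun y => cr d p < y)).card ≤ K

/-- `v` runs through the vertices of a strictly convex `n`-gon, counterclockwise, with period `n` -/
structure Poly (n : ℕ) (v : ℤ → P) : Prop where
  per : ∀ i : ℤ, v (i + n) = v i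
  ccw : ∀ i j k : ℤ, i < j → j < k → k < i + n → 0 < tri (v i) (v j) (v k)

/-- the angle from `u` to `w` divided by `π`, a number in `(-1, 1]` -/
noncomputable def an (u w : P) : ℝ := Complex.arg ((⟨w.1, w.2⟩ : ℂ) / ⟨u.1, u.2⟩) / Real.pi

/-- `Θ i j` (used only for `i < j < i + n`) is a lifted direction of the chord from `v i` to `v j`,
in units of `π` -/
structure Th (n : ℕ) (v : ℤ → P) (Θ : ℤ → ℤ → ℝ) : Prop where
  up : ∀ i j : ℤ, i < j → j + 1 < i + n → Θ i j < Θ i (j + 1)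
  lf : ∀ i j : ℤ, i + 1 < j → j < i + n → Θ i j < Θ (i + 1) j
  half : ∀ i j : ℤ, i < j → j < i + n → Θ j (i + n) = Θ i j + 1
  par : ∀ i j k l : ℤ, i < j → j < i + n → k < l → l < k + n → Θ i j = Θ k l →
    cr (v j - v i) (v l - v k) = 0
  con : ∀ i j k l : ℤ, i < k → k < l → l < j → j < i + n → cr (v j - v i) (v l - v k) = 0 →
    Θ k l = Θ i j

/-- the combinatorial core: the directions of the chords of an admissible strictly convex
`(2b+1)`-gon -/
structure Core (b : ℕ) (Θ : ℤ → ℤ → ℝ) : Prop where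
  up : ∀ i j : ℤ, i < j → j + 1 < i + (2 * b + 1) → Θ i j < Θ i (j + 1)
  lf : ∀ i j : ℤ, i + 1 < j → j < i + (2 * b + 1) → Θ i j < Θ (i + 1) j
  half : ∀ i j : ℤ, i < j → j < i + (2 * b + 1) → Θ j (i + (2 * b + 1)) = Θ i j + 1
  cnt : ∀ i j : ℤ, i < j → j < i + (2 * b + 1) →
    j - i - 1 - b ≤ ((((Finset.Ioo i j) ×ˢ (Finset.Ioo i j)).filter
      (fun q => q.1 < q.2 ∧ Θ q.1 q.2 = Θ i j)).card : ℤ)

/-- the chords with sum `2x+1`; `t = 0` is the side `(x, x+1)`, `t = b-1` cuts off one vertex -/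
def O (Θ : ℤ → ℤ → ℝ) (x : ℤ) (t : ℕ) : ℝ := Θ (x - t) (x + 1 + t)

/-- the chords with sum `2y`; `r = 0` cuts off the vertex `y`, `r = b-1` is a side -/
def G (Θ : ℤ → ℤ → ℝ) (y : ℤ) (r : ℕ) : ℝ := Θ (y - 1 - r) (y + 1 + r)

/-- all chords with sum `2x+1` are parallel -/
def St (Θ : ℤ → ℤ → ℝ) (b : ℕ) (x : ℤ) : Prop := ∀ t, t < b → O Θ x t = O Θ x 0

/-- all chords with sum `2y` are parallel -/
def Se (Θ : ℤ → ℤ → ℝ) (b : ℕ) (y : ℤ) : Prop := ∀ r, r < b → G Θ y r = G Θ y 0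

/-- tile: the `p` chords with sum `2x+1` nearest to the side `(x, x+1)` and the `b-p` chords with
sum `2x+2` nearest to the opposite side are parallel -/
def Tl (Θ : ℤ → ℤ → ℝ) (b : ℕ) (x : ℤ) (p : ℕ) : Prop :=
  1 ≤ p ∧ p < b ∧ (∀ t, t < p → O Θ x t = O Θ x 0) ∧
    ∀ r, p ≤ r → r < b → G Θ (x + 1) r = O Θ x 0

/-- the mirror image of a tile: the `p` chords with sum `2x+1` nearest to the side `(x, x+1)` and the
`b-p` chords with sum `2x` nearest to the opposite side are parallel -/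
def Tr (Θ : ℤ → ℤ → ℝ) (b : ℕ) (x : ℤ) (p : ℕ) : Prop :=
  1 ≤ p ∧ p < b ∧ (∀ t, t < p → O Θ x t = O Θ x 0) ∧
    ∀ r, p ≤ r → r < b → G Θ x r = O Θ x 0

/-- the vertices of the regular `N`-gon -/
noncomputable def g (N j : ℕ) : P :=
  (Real.cos (2 * Real.pi * j / N), Real.sin (2 * Real.pi * j / N))

/-- the vertex set of the regular `N`-gon -/
def Reg (N : ℕ) : Set P := Set.range (g N)

/-- the `2 × k` grid -/
def Grid (k : ℕ) : Set P := {p | ∃ i : ℕ, i < k ∧ (p = ((i : ℝ), 0) ∨ p = ((i : ℝ), 1))}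

/-- the points `(z^i, z^(-i))`, `0 ≤ i < n` -/
def Hy (z : ℝ) (n : ℕ) : Set P := {p | ∃ i : ℕ, i < n ∧ p = (z ^ i, (z ^ i)⁻¹)}

/-- the origin and the points `(ρ^i, 0)`, `(0, ρ^i)`, `0 ≤ i < b` -/
def Vee (ρ : ℝ) (b : ℕ) : Set P :=
  {p | p = (0, 0) ∨ ∃ i : ℕ, i < b ∧ (p = (ρ ^ i, 0) ∨ p = (0, ρ ^ i))}

/-- `S` lies on a conic (degenerate conics included) -/
def OnConic (S : Finset P) : Prop :=
  ∃ a b c d e f : ℝ, ¬ (a = 0 ∧ b = 0 ∧ c = 0 ∧ d = 0 ∧ e = 0 ∧ f = 0) ∧
    ∀ p ∈ S, a * p.1 ^ 2 + b * (p.1 * p.2) + c * p.2 ^ 2 + d * p.1 + e * p.2 + f = 0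

/-- two-row condition for `A, B ⊆ ℝ` (rows `A × {0}`, `B × {1}`): in every direction joining the rows
at most `K` levels above and at most `K'` levels below -/
def Row (A B : Finset ℝ) (K K' : ℕ) : Prop :=
  ∀ a ∈ A, ∀ b ∈ B,
    ((A ∪ B.image (fun x => x - (b - a))).filter (fun x => a < x)).card ≤ K ∧
    ((A ∪ B.image (fun x => x - (b - a))).filter (fun x => x < a)).card ≤ K'

end Cvc
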