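import Mathlib
import Pool.Agent.MP_4c9d8f_co.Defs
import Pool.Agent.MP_4c9d8f_co.Final
import Pool.Agent.Cvc.Defs

set_option autoImplicit false

open Finset

namespace Cvc

private theorem oa_lin (L : P →ₗ[ℝ] P) (d : P) : ∃ d' : P, ∀ z, cr d (L z) = cr d' z := by
  refine ⟨(cr d (L (0, 1)), -cr d (L (1, 0))), ?_⟩
  intro z
  have hz : z = z.1 • ((1, 0) : P) + z.2 • ((0, 1) : P) := by
    ext <;> simp
  have h1 : L z = z.1 • L (1, 0) + z.2 • L (0, 1) := by
    conv_lhs => rw [hz]
    rw [map_add, map_smul, map_smul]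
  rw [h1]
  simp only [cr, Prod.fst_add, Prod.snd_add, Prod.smul_fst, Prod.smul_snd, smul_eq_mul]
  ring

private theorem oa_fun (Φ : P ≃ᵃ[ℝ] P) (d : P) :
    ∃ d' : P, ∃ c : ℝ, ∀ z, cr d (Φ z) = cr d' z + c := by
  obtain ⟨d', hd'⟩ := oa_lin (Φ.linear : P →ₗ[ℝ] P) d
  refine ⟨d', cr d (Φ 0), ?_⟩
  intro z
  have h1 : Φ z = Φ.linear z + Φ 0 := by
    have := Φ.map_vadd 0 z
    simpa using this
  rw [h1, ← hd' z]
  simp only [cr, Prod.fst_add, Prod.snd_add, LinearEquiv.coe_coe]
  ring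

/-- oa (M). Admissibility is invariant under affine bijections: `cr d ∘ Φ` is `δ cr d' + const`. -/
theorem adm_affine (Φ : P ≃ᵃ[ℝ] P) {S T : Finset P} {K : ℕ} (h : (T : Set P) = Φ '' S)
    (hA : Adm S K) : Adm T K := by
  classical
  have hT : T = S.image Φ := by
    apply Finset.coe_injective
    rw [h, Finset.coe_image]
  subst hT
  intro d p hp q hq hpq he
  rw [Finset.mem_image] at hp hq
  obtain ⟨x, hx, rfl⟩ := hp
  obtain ⟨y, hy, rfl⟩ := hq
  obtain ⟨d', c, hd⟩ := oa_fun Φ d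
  have hxy : x ≠ y := fun h' => hpq (by rw [h'])
  have he' : cr d' x = cr d' y := by
    have := hd x
    have := hd y
    linarith
  refine le_trans ?_ (hA d' x hx y hy hxy he')
  apply Finset.card_le_card_of_injOn (fun t => t - c)
  · intro t ht
    rw [Finset.mem_coe, Finset.mem_filter, Finset.mem_image] at ht
    obtain ⟨⟨w, hw, rfl⟩, hlt⟩ := ht
    rw [Finset.mem_image] at hw
    obtain ⟨z, hz, rfl⟩ := hw
    rw [Finset.mem_coe, Finset.mem_filter, Finset.mem_image]
    refine ⟨⟨z, hz, ?_⟩, ?_⟩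
    · have := hd z
      simp only
      linarith
    · have h1 := hd z
      have h2 := hd x
      simp only
      linarith
  · intro s _ t _ hst
    simp only at hst
    linarith

/-- ob (S). Convex independence and non-collinearity are invariant too. -/
theorem indep_affine (Φ : P ≃ᵃ[ℝ] P) {S T : Finset P} (h : (T : Set P) = Φ '' S)
    (hS : ConvexIndependent ℝ (fun x : T => (x : P))) :
    ConvexIndependent ℝ (fun x : S => (x : P)) := by
  have h1 := (convexIndependent_set_iff_notMem_convexHull_sdiff (s := (T : Set P))).mp hS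
  refine (convexIndependent_set_iff_notMem_convexHull_sdiff (s := (S : Set P))).mpr ?_
  intro p hp hp'
  have h2 : Φ p ∈ (T : Set P) := by rw [h]; exact ⟨p, hp, rfl⟩
  apply h1 (Φ p) h2
  have h3 : (T : Set P) \ {Φ p} = Φ '' ((S : Set P) \ {p}) := by
    rw [Set.image_sdiff Φ.injective, h, Set.image_singleton]
  rw [h3]
  have h4 : Φ '' convexHull ℝ ((S : Set P) \ {p}) = convexHull ℝ (Φ '' ((S : Set P) \ {p})) :=
    AffineMap.image_convexHull (Φ : P →ᵃ[ℝ] P) _
  rw [← h4]
  exact ⟨p, hp', rfl⟩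

/-- the identification of `Fin 2 → ℝ` with `ℝ × ℝ` -/
noncomputable def ε : (Fin 2 → ℝ) ≃ₗ[ℝ] P := LinearEquiv.finTwoArrow ℝ ℝ

private theorem oc_e (p : Fin 2 → ℝ) : ε p = (p 0, p 1) := rfl

private noncomputable def oc_l (d : P) : (Fin 2 → ℝ) →ₗ[ℝ] ℝ :=
  (-d.2) • LinearMap.proj 0 + d.1 • LinearMap.proj 1

private theorem oc_lv (d : P) (x : Fin 2 → ℝ) : oc_l d x = cr d (ε x) := by
  simp only [oc_l, LinearMap.add_apply, LinearMap.smul_apply, LinearMap.proj_apply, smul_eq_mul,
    oc_e, cr]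
  ring

private theorem oc_up {S : Finset (Fin 2 → ℝ)} (d : P) (c : ℝ) :
    (((S.image ε).image (cr d)).filter (fun y => c < y)).card =
      (oc_l d '' {s | s ∈ S ∧ c < oc_l d s}).ncard := by
  classical
  rw [← Set.ncard_coe_finset]
  congr 1
  ext v
  simp only [coe_filter, Set.mem_image, Set.mem_ofPred_eq, Finset.mem_image]
  constructor
  · rintro ⟨⟨u, ⟨z, hz, rfl⟩, rfl⟩, hlt⟩
    exact ⟨z, ⟨hz, by rw [oc_lv]; exact hlt⟩, oc_lv d z⟩
  · rintro ⟨z, ⟨hz, hlt⟩, rfl⟩
    rw [oc_lv] at hlt ⊢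
    exact ⟨⟨ε z, ⟨z, hz, rfl⟩, rfl⟩, hlt⟩

private theorem oc_neg (d z : P) : cr (-d) z = -cr d z := by
  simp only [cr, Prod.fst_neg, Prod.snd_neg]; ring

private theorem oc_dn {S : Finset (Fin 2 → ℝ)} (d : P) (c : ℝ) :
    (((S.image ε).image (cr (-d))).filter (fun y => -c < y)).card =
      (oc_l d '' {s | s ∈ S ∧ oc_l d s < c}).ncard := by
  classical
  rw [← Set.ncard_coe_finset]
  have : ((((S.image ε).image (cr (-d))).filter (fun y => -c < y) : Finset ℝ) : Set ℝ) =
      (fun t => -t) '' (oc_l d '' {s | s ∈ S ∧ oc_l d s < c}) := by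
    ext v
    simp only [coe_filter, Set.mem_image, Set.mem_ofPred_eq, Finset.mem_image]
    constructor
    · rintro ⟨⟨u, ⟨z, hz, rfl⟩, rfl⟩, hlt⟩
      rw [oc_neg] at hlt ⊢
      exact ⟨oc_l d z, ⟨z, ⟨hz, by rw [oc_lv]; linarith⟩, rfl⟩, by rw [oc_lv]⟩
    · rintro ⟨w, ⟨z, ⟨hz, hlt⟩, rfl⟩, rfl⟩
      rw [oc_lv] at hlt ⊢
      exact ⟨⟨ε z, ⟨z, hz, rfl⟩, oc_neg d (ε z)⟩, by linarith⟩
  rw [this]
  exact Set.ncard_image_of_injective _ neg_injective

/-- oc (M). Transfer of admissibility. -/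
theorem adm_iff (S : Finset (Fin 2 → ℝ)) {T : Finset P} (h : (T : Set P) = ε '' S) :
    Pool.Agent.MP4c9d8f.Admissible S ↔ Adm T ((S.card - 1) / 2) := by
  classical
  have hT : T = S.image ε := by
    apply Finset.coe_injective
    rw [h, Finset.coe_image]
  subst hT
  constructor
  · intro hS d p hp q hq hpq he
    rw [Finset.mem_image] at hp hq
    obtain ⟨x, hx, rfl⟩ := hp
    obtain ⟨y, hy, rfl⟩ := hq
    have hxy : x ≠ y := fun h' => hpq (by rw [h'])
    by_cases hd : d = 0
    · subst hd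
      have : ((S.image ε).image (cr 0)).filter (fun y => cr 0 (ε x) < y) = ∅ := by
        rw [Finset.filter_eq_empty_iff]
        intro t ht
        rw [Finset.mem_image] at ht
        obtain ⟨z, _, rfl⟩ := ht
        simp [cr]
      rw [this]
      simp
    · have hl0 : oc_l d ≠ 0 := by
        intro h0
        apply hd
        have h1 := congrArg (fun f : (Fin 2 → ℝ) →ₗ[ℝ] ℝ => f ![1, 0]) h0
        have h2 := congrArg (fun f : (Fin 2 → ℝ) →ₗ[ℝ] ℝ => f ![0, 1]) h0
        simp only [oc_lv, oc_e, cr, LinearMap.zero_apply] at h1 h2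
        simp at h1 h2
        ext
        · exact h2
        · exact h1
      have hA := hS ![x, y] (by
        intro i; fin_cases i
        · exact hx
        · exact hy) (affineIndependent_of_ne ℝ hxy) (oc_l d) (cr d (ε x)) hl0 (by
        intro i; fin_cases i
        · exact oc_lv d x
        · change oc_l d y = _
          rw [oc_lv, he])
      rw [oc_up]
      exact le_trans (le_max_left _ _) hA
  · intro hT p hp hi l c hl0 hl
    set d : P := (l ![0, 1], -l ![1, 0]) with hd
    have hld : l = oc_l d := by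
      apply LinearMap.pi_ext'
      intro i
      ext
      fin_cases i
      · simp only [LinearMap.comp_apply]
        rw [oc_lv, oc_e]
        have : (LinearMap.single ℝ (fun _ : Fin 2 => ℝ) (0 : Fin 2)) 1 = ![(1 : ℝ), 0] := by
          ext j; fin_cases j <;> simp
        simp only [Fin.zero_eta]
        rw [this]
        simp [cr, hd]
      · simp only [LinearMap.comp_apply]
        rw [oc_lv, oc_e]
        have : (LinearMap.single ℝ (fun _ : Fin 2 => ℝ) (1 : Fin 2)) 1 = ![(0 : ℝ), 1] := by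
          ext j; fin_cases j <;> simp
        simp only [Fin.mk_one]
        rw [this]
        simp [cr, hd]
    have hne : p 0 ≠ p 1 := fun h' => by
      have := hi.injective h'
      exact absurd this (by decide)
    have hne' : ε (p 0) ≠ ε (p 1) := fun h' => hne (ε.injective h')
    have h0 : cr d (ε (p 0)) = c := by rw [← oc_lv, ← hld]; exact hl 0
    have h1 : cr d (ε (p 1)) = c := by rw [← oc_lv, ← hld]; exact hl 1
    have hm0 : ε (p 0) ∈ S.image ε := Finset.mem_image_of_mem _ (hp 0)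
    have hm1 : ε (p 1) ∈ S.image ε := Finset.mem_image_of_mem _ (hp 1)
    have hu := hT d _ hm0 _ hm1 hne' (by rw [h0, h1])
    have hw := hT (-d) _ hm0 _ hm1 hne' (by rw [oc_neg, oc_neg, h0, h1])
    rw [h0, oc_up] at hu
    rw [oc_neg, h0, oc_dn] at hw
    rw [hld]
    exact max_le hu hw

/-- od (S). The classification of the even sets in general position (already landed), for `P`. -/
theorem even_P {S : Finset P} (h4 : 4 ≤ S.card) (he : Even S.card)
    (hg : ∀ p ∈ S, ∀ q ∈ S, ∀ r ∈ S, p ≠ q → q ≠ r → p ≠ r → tri p q r ≠ 0)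
    (hA : Adm S ((S.card - 1) / 2)) : ∃ Φ : P ≃ᵃ[ℝ] P, (S : Set P) = Φ '' Reg S.card := by
  classical
  set S' : Finset (Fin 2 → ℝ) := S.image ε.symm with hS'
  have hc : S'.card = S.card := Finset.card_image_of_injective _ ε.symm.injective
  have hSS : (S : Set P) = ε '' S' := by
    rw [hS', Finset.coe_image, ← Set.image_comp]
    have : (ε : (Fin 2 → ℝ) → P) ∘ (ε.symm : P → (Fin 2 → ℝ)) = id := by
      funext p
      exact ε.apply_symm_apply p
    rw [this, Set.image_id]
  have hadm : Pool.Agent.MP4c9d8f.Admissible S' := by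
    rw [adm_iff S' hSS, hc]; exact hA
  have hgen : ∀ x ∈ S', ∀ y ∈ S', ∀ z ∈ S', x ≠ y → y ≠ z → x ≠ z →
      ¬ Collinear ℝ ({x, y, z} : Set (Fin 2 → ℝ)) := by
    intro x hx y hy z hz hxy hyz hxz hcol
    have hmem : ∀ w ∈ S', ε w ∈ S := by
      intro w hw
      have : ε w ∈ (S : Set P) := by rw [hSS]; exact ⟨w, hw, rfl⟩
      exact this
    apply hg (ε x) (hmem x hx) (ε y) (hmem y hy) (ε z) (hmem z hz)
      (fun h' => hxy (ε.injective h')) (fun h' => hyz (ε.injective h'))
      (fun h' => hxz (ε.injective h'))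
    rw [collinear_iff_of_mem (p₀ := x) (by simp)] at hcol
    obtain ⟨v, hv⟩ := hcol
    obtain ⟨a, ha⟩ := hv y (by simp)
    obtain ⟨b, hb⟩ := hv z (by simp)
    have e1 : ε y - ε x = a • ε v := by
      rw [ha, vadd_eq_add, map_add, map_smul]; abel
    have e2 : ε z - ε x = b • ε v := by
      rw [hb, vadd_eq_add, map_add, map_smul]; abel
    rw [tri, e1, e2]
    simp only [cr, Prod.smul_fst, Prod.smul_snd, smul_eq_mul]
    ring
  obtain ⟨Φ, hΦ⟩ := Pool.Agent.MP4c9d8f.main S' (by omega) (by rw [hc]; exact he) hgen hadm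
  refine ⟨(ε.toAffineEquiv.symm.trans Φ).trans ε.toAffineEquiv, ?_⟩
  have hreg : ε '' Pool.Agent.MP4c9d8f.regularPolygon S'.card = Reg S.card := by
    rw [hc]
    ext p
    constructor
    · rintro ⟨_, ⟨j, rfl⟩, rfl⟩
      exact ⟨j, rfl⟩
    · rintro ⟨j, rfl⟩
      have hN : 0 < S.card := by omega
      have hN' : (S.card : ℝ) ≠ 0 := by exact_mod_cast hN.ne'
      refine ⟨_, ⟨⟨j % S.card, Nat.mod_lt _ hN⟩, rfl⟩, ?_⟩
      have key : 2 * Real.pi * (j : ℝ) / S.card =
          2 * Real.pi * ((j % S.card : ℕ) : ℝ) / S.card +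
            ((j / S.card : ℕ) : ℝ) * (2 * Real.pi) := by
        have : (j : ℝ) = ((j % S.card : ℕ) : ℝ) + S.card * ((j / S.card : ℕ) : ℝ) := by
          exact_mod_cast (Nat.mod_add_div j S.card).symm
        rw [this]
        field_simp
        try ring
      unfold g
      rw [key, Real.cos_add_nat_mul_two_pi, Real.sin_add_nat_mul_two_pi]
      rfl
  rw [hSS, hΦ, ← hreg, ← Set.image_comp, ← Set.image_comp]
  congr 1
  funext x
  simp only [Function.comp_apply, AffineEquiv.trans_apply]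
  have : ε.toAffineEquiv.symm (ε x) = x := ε.symm_apply_apply x
  rw [this]
  rfl

end Cvc
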