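import Mathlib
import Pool.Agent.Cvc.Defs

set_option autoImplicit false

open Finset

namespace Cvc

/-- a nested family of pairs inside the open interval `(lo, hi)` -/
structure Nest (lo hi : ℤ) (C : Finset (ℤ × ℤ)) : Prop where
  ins : ∀ q ∈ C, lo < q.1 ∧ q.1 < q.2 ∧ q.2 < hi
  nes : ∀ q ∈ C, ∀ q' ∈ C, q ≠ q' → (q.1 < q'.1 ∧ q'.2 < q.2) ∨ (q'.1 < q.1 ∧ q.2 < q'.2)

/-- da (S). A nested family in `(lo, hi)` has at most `(hi - lo - 1) / 2` members (the endpoints are
distinct). -/
theorem nest_card {lo hi : ℤ} {C : Finset (ℤ × ℤ)} (h : Nest lo hi C) (hlt : lo < hi) :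
    2 * (C.card : ℤ) ≤ hi - lo - 1 := by
  have h1 : (C.image Prod.fst).card = C.card := by
    apply card_image_of_injOn
    intro q hq q' hq' e
    by_contra hne
    have := h.nes q hq q' hq' hne
    omega
  have h2 : (C.image Prod.snd).card = C.card := by
    apply card_image_of_injOn
    intro q hq q' hq' e
    by_contra hne
    have := h.nes q hq q' hq' hne
    omega
  have h3 : Disjoint (C.image Prod.fst) (C.image Prod.snd) := by
    rw [Finset.disjoint_left]
    intro x hx hx'
    obtain ⟨q, hq, e⟩ := mem_image.1 hx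
    obtain ⟨q', hq', e'⟩ := mem_image.1 hx'
    have a := h.ins q hq
    have a' := h.ins q' hq'
    by_cases hqq : q = q'
    · subst hqq
      omega
    · have := h.nes q hq q' hq' hqq
      omega
  have h4 : C.image Prod.fst ∪ C.image Prod.snd ⊆ Ioo lo hi := by
    intro x hx
    rw [mem_union] at hx
    rw [mem_Ioo]
    rcases hx with hx | hx
    · obtain ⟨q, hq, e⟩ := mem_image.1 hx
      have a := h.ins q hq
      omega
    · obtain ⟨q, hq, e⟩ := mem_image.1 hx
      have a := h.ins q hq
      omega
  have h5 := card_le_card h4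
  rw [card_union_of_disjoint h3, h1, h2, Int.card_Ioo] at h5
  omega

private theorem db_split {lo hi : ℤ} {C : Finset (ℤ × ℤ)} (h : Nest lo hi C)
    (hn : (lo + 1, hi - 1) ∉ C) : Nest (lo + 1) hi C ∨ Nest lo (hi - 1) C := by
  by_cases hs : ∃ q ∈ C, q.1 = lo + 1
  · right
    obtain ⟨q, hq, e⟩ := hs
    refine ⟨fun q' hq' => ?_, h.nes⟩
    have a := h.ins q hq
    have a' := h.ins q' hq'
    have hne : q.2 ≠ hi - 1 := by
      intro e2
      apply hn
      have : q = (lo + 1, hi - 1) := Prod.ext e e2
      rw [← this]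
      exact hq
    by_cases hqq : q = q'
    · subst hqq
      omega
    · have := h.nes q hq q' hq' hqq
      omega
  · left
    push Not at hs
    refine ⟨fun q' hq' => ?_, h.nes⟩
    have a' := h.ins q' hq'
    have := hs q' hq'
    omega

private theorem db_erase {lo hi : ℤ} {C : Finset (ℤ × ℤ)} (h : Nest lo hi C)
    (hn : (lo + 1, hi - 1) ∈ C) : Nest (lo + 1) (hi - 1) (C.erase (lo + 1, hi - 1)) := by
  refine ⟨fun q hq => ?_, fun q hq q' hq' => h.nes q (mem_of_mem_erase hq) q' (mem_of_mem_erase hq')⟩
  have h1 := mem_of_mem_erase hq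
  have h2 := ne_of_mem_erase hq
  have a := h.ins q h1
  have := h.nes q h1 _ hn h2
  simp only at this
  omega

/-- db (S). `2m` points and `m` nested pairs: all points are used, symmetrically. Induction on `m`:
if `(lo+1, hi-1) ∉ C` then all members lie in `(lo+1, hi)` or all lie in `(lo, hi-1)`
(a member starting at `lo+1` is outermost), against `nest_card`; remove it and recurse. -/
theorem nest_even (m : ℕ) {lo hi : ℤ} {C : Finset (ℤ × ℤ)} (h : Nest lo hi C)
    (hh : hi = lo + 2 * m + 1) (hc : m ≤ C.card) :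
    ∀ t : ℕ, 1 ≤ t → t ≤ m → (lo + t, hi - t) ∈ C := by
  induction m generalizing lo hi C with
  | zero => intro t h1 h2; omega
  | succ m ih =>
    intro t h1 h2
    push_cast at hh
    by_cases hn : (lo + 1, hi - 1) ∈ C
    · have he := db_erase h hn
      have hcard : (C.erase (lo + 1, hi - 1)).card = C.card - 1 := card_erase_of_mem hn
      have := ih he (by omega) (by omega) (t - 1)
      rcases Nat.eq_or_lt_of_le h1 with h3 | h3
      · subst h3
        simpa using hn
      · have h4 := mem_of_mem_erase (this (by omega) (by omega))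
        have e1 : lo + 1 + ((t - 1 : ℕ) : ℤ) = lo + t := by omega
        have e2 : hi - 1 - ((t - 1 : ℕ) : ℤ) = hi - t := by omega
        rwa [e1, e2] at h4
    · exfalso
      rcases db_split h hn with h3 | h3
      · have := nest_card h3 (by omega)
        omega
      · have := nest_card h3 (by omega)
        omega

/-- dc (M). `2m-1` points and `m-1` nested pairs: exactly one point is skipped. Induction on `m`: if
`(lo+1, hi-1) ∈ C` remove it and recurse (`p` becomes `p + 1`); otherwise `C` lies in `(lo+1, hi)` or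
in `(lo, hi-1)` and `nest_even` gives the last two cases with `p = 1`. -/
theorem nest_odd (m : ℕ) {lo hi : ℤ} {C : Finset (ℤ × ℤ)} (h : Nest lo hi C)
    (hh : hi = lo + 2 * m) (hm : 1 ≤ m) (hc : m ≤ C.card + 1) :
    (∀ t : ℕ, 1 ≤ t → t < m → (lo + t, hi - t) ∈ C) ∨
    (∃ p : ℕ, 1 ≤ p ∧ p < m ∧ (∀ t : ℕ, 1 ≤ t → t < p → (lo + t, hi - t) ∈ C) ∧
      ∀ t : ℕ, p ≤ t → t < m → (lo + t + 1, hi - t) ∈ C) ∨
    (∃ p : ℕ, 1 ≤ p ∧ p < m ∧ (∀ t : ℕ, 1 ≤ t → t < p → (lo + t, hi - t) ∈ C) ∧
      ∀ t : ℕ, p ≤ t → t < m → (lo + t, hi - t - 1) ∈ C) := by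
  induction m generalizing lo hi C with
  | zero => omega
  | succ m ih =>
    push_cast at hh
    rcases Nat.eq_zero_or_pos m with h0 | h0
    · subst h0
      left
      intro t h1 h2
      omega
    by_cases hn : (lo + 1, hi - 1) ∈ C
    · have he := db_erase h hn
      have hcard : (C.erase (lo + 1, hi - 1)).card = C.card - 1 := card_erase_of_mem hn
      have hpos : 0 < C.card := card_pos.2 ⟨_, hn⟩
      rcases ih he (by omega) (by omega) (by omega) with h3 | ⟨p, hp1, hp2, h3, h4⟩ | ⟨p, hp1, hp2, h3, h4⟩
      · left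
        intro t h1 h2
        rcases Nat.eq_or_lt_of_le h1 with h5 | h5
        · subst h5
          simpa using hn
        · have h4 := mem_of_mem_erase (h3 (t - 1) (by omega) (by omega))
          have e1 : lo + 1 + ((t - 1 : ℕ) : ℤ) = lo + t := by omega
          have e2 : hi - 1 - ((t - 1 : ℕ) : ℤ) = hi - t := by omega
          rwa [e1, e2] at h4
      · right; left
        refine ⟨p + 1, by omega, by omega, fun t h1 h2 => ?_, fun t h1 h2 => ?_⟩
        · rcases Nat.eq_or_lt_of_le h1 with h5 | h5
          · subst h5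
            simpa using hn
          · have h4 := mem_of_mem_erase (h3 (t - 1) (by omega) (by omega))
            have e1 : lo + 1 + ((t - 1 : ℕ) : ℤ) = lo + t := by omega
            have e2 : hi - 1 - ((t - 1 : ℕ) : ℤ) = hi - t := by omega
            rwa [e1, e2] at h4
        · have h5 := mem_of_mem_erase (h4 (t - 1) (by omega) (by omega))
          have e1 : lo + 1 + ((t - 1 : ℕ) : ℤ) + 1 = lo + t + 1 := by omega
          have e2 : hi - 1 - ((t - 1 : ℕ) : ℤ) = hi - t := by omega
          rwa [e1, e2] at h5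
      · right; right
        refine ⟨p + 1, by omega, by omega, fun t h1 h2 => ?_, fun t h1 h2 => ?_⟩
        · rcases Nat.eq_or_lt_of_le h1 with h5 | h5
          · subst h5
            simpa using hn
          · have h4 := mem_of_mem_erase (h3 (t - 1) (by omega) (by omega))
            have e1 : lo + 1 + ((t - 1 : ℕ) : ℤ) = lo + t := by omega
            have e2 : hi - 1 - ((t - 1 : ℕ) : ℤ) = hi - t := by omega
            rwa [e1, e2] at h4
        · have h5 := mem_of_mem_erase (h4 (t - 1) (by omega) (by omega))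
          have e1 : lo + 1 + ((t - 1 : ℕ) : ℤ) = lo + t := by omega
          have e2 : hi - 1 - ((t - 1 : ℕ) : ℤ) - 1 = hi - t - 1 := by omega
          rwa [e1, e2] at h5
    · right
      rcases db_split h hn with h3 | h3
      · left
        have h4 := nest_even m h3 (by omega) (by omega)
        refine ⟨1, le_refl _, by omega, fun t h1 h2 => by omega, fun t h1 h2 => ?_⟩
        have h5 := h4 t h1 (by omega)
        have e1 : lo + 1 + (t : ℤ) = lo + t + 1 := by ring
        rwa [e1] at h5
      · right
        have h4 := nest_even m h3 (by omega) (by omega)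
        refine ⟨1, le_refl _, by omega, fun t h1 h2 => by omega, fun t h1 h2 => ?_⟩
        have h5 := h4 t h1 (by omega)
        have e1 : hi - 1 - (t : ℤ) = hi - t - 1 := by ring
        rwa [e1] at h5

/-- dd (S). The extremal case of the ear lemma, on `{0, ..., b-1}`: if `R'` avoids `R ∪ (R + 1)`,
`0 ∈ R`, `R ⊆ [0, q)` with `q < b` and `|R| + |R'| ≥ b - 1` then `R = [0, r₀)`, `R' = [r₀+1, b)`. -/
theorem ear_sets {b q : ℕ} {R R' : Finset ℕ} (hR' : R' ⊆ range b) (h0 : 0 ∈ R)
    (hq : ∀ r ∈ R, r < q) (hqb : q < b) (hd : ∀ r ∈ R, r ∉ R') (hd' : ∀ r ∈ R, r + 1 ∉ R')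
    (hc : b ≤ R.card + R'.card + 1) :
    ∃ r₀, 1 ≤ r₀ ∧ r₀ ≤ q ∧ R = range r₀ ∧ R' = Ico (r₀ + 1) b := by
  classical
  have hex : ∃ x, x ∉ R := ⟨q, fun hx => lt_irrefl _ (hq q hx)⟩
  obtain ⟨x, hx1, hx2⟩ : ∃ x, x ∉ R ∧ ∀ y < x, y ∈ R :=
    ⟨Nat.find hex, Nat.find_spec hex, fun y hy => not_not.1 (Nat.find_min hex hy)⟩
  have hx0 : 1 ≤ x := by
    rcases Nat.eq_zero_or_pos x with h | h
    · subst h; exact absurd h0 hx1
    · exact h
  have hxm : x - 1 ∈ R := hx2 _ (by omega)
  have hxq : x ≤ q := by have := hq _ hxm; omega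
  have hxR' : x ∉ R' := by
    have := hd' _ hxm
    rwa [Nat.sub_add_cancel hx0] at this
  have hRR : Disjoint R R' := Finset.disjoint_left.2 hd
  have hRx : R = range x := by
    apply Subset.antisymm
    · intro y hy
      rw [mem_range]
      by_contra hyx
      push Not at hyx
      have hyx' : x < y := lt_of_le_of_ne hyx (fun e => hx1 (e ▸ hy))
      obtain ⟨M, hM, hMm⟩ := exists_max_image R id ⟨y, hy⟩
      simp only [id] at hMm
      have hM1 : M + 1 ∉ R := fun h => by have := hMm _ h; omega
      have hM2 : M + 1 ∉ R' := hd' _ hM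
      have hyM := hMm y hy
      have hMq := hq M hM
      have hsub : insert (M + 1) (insert x (R ∪ R')) ⊆ range b := by
        intro z hz
        rw [mem_insert, mem_insert, mem_union] at hz
        rw [mem_range]
        rcases hz with hz | hz | hz | hz
        · omega
        · omega
        · have := hq z hz; omega
        · exact mem_range.1 (hR' hz)
      have hcard := card_le_card hsub
      rw [card_insert_of_notMem, card_insert_of_notMem, card_union_of_disjoint hRR, card_range] at hcard
      · omega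
      · rw [mem_union]; tauto
      · rw [mem_insert, mem_union]
        push Not
        exact ⟨by omega, hM1, hM2⟩
    · intro y hy
      exact hx2 y (mem_range.1 hy)
  refine ⟨x, hx0, hxq, hRx, ?_⟩
  have hsub : R' ⊆ Ico (x + 1) b := by
    intro y hy
    rw [mem_Ico]
    have h1 := mem_range.1 (hR' hy)
    refine ⟨?_, h1⟩
    by_contra h2
    push Not at h2
    rcases Nat.lt_or_ge y x with h3 | h3
    · exact hd y (hx2 y h3) hy
    · have : y = x := by omega
      subst this
      exact hxR' hy
  apply eq_of_subset_of_card_le hsub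
  rw [Nat.card_Ico]
  rw [hRx, card_range] at hc
  omega

end Cvc
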