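import Mathlib
import Pool.Agent.Cvc.Defs

set_option autoImplicit false

open Finset

namespace Cvc

/-- ca (S). The points `v k`, `i < k < j`, lie above the chord `(i,j)` in the direction
`v i - v j`. -/
theorem above_chord {n : ℕ} {v : ℤ → P} (h : Poly n v) {i j k : ℤ} (hik : i < k) (hkj : k < j)
    (hj : j < i + n) : cr (v i - v j) (v i) < cr (v i - v j) (v k) := by
  have h1 := h.ccw i k j hik hkj hj
  simp only [tri, cr, Prod.fst_sub, Prod.snd_sub] at h1 ⊢
  nlinarith

/-- cb (M). At least `(j-i-1) - #(nested parallel pairs)` levels above the chord: a level contains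
at most two of the points `v k`, `i < k < j` (three would be collinear), and a level with two of them
gives a nested pair `(k,l)` with `cr (v j - v i) (v l - v k) = 0`. -/
theorem levels_ge {n : ℕ} {v : ℤ → P} {S : Finset P} (h : Poly n v) (hS : ∀ i, v i ∈ S)
    {i j : ℤ} (hij : i < j) (hj : j < i + n) :
    j - i - 1 ≤ (((S.image (cr (v i - v j))).filter
        (fun y => cr (v i - v j) (v i) < y)).card : ℤ) +
      ((((Ioo i j) ×ˢ (Ioo i j)).filter
        (fun q => q.1 < q.2 ∧ cr (v j - v i) (v q.2 - v q.1) = 0)).card : ℤ) := by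
  classical
  set f : ℤ → ℝ := fun k => cr (v i - v j) (v k) with hf
  set A := Ioo i j with hA
  set A1 := A.filter (fun k => ∀ k' ∈ A, k' < k → f k' ≠ f k) with hA1
  set A2 := A.filter (fun k => ¬ ∀ k' ∈ A, k' < k → f k' ≠ f k) with hA2
  have hcard : A1.card + A2.card = A.card := Finset.card_filter_add_card_filter_not _
  have h1 : A1.card ≤ ((S.image (cr (v i - v j))).filter
      (fun y => cr (v i - v j) (v i) < y)).card := by
    apply Finset.card_le_card_of_injOn f
    · intro k hk
      rw [Finset.mem_coe, hA1, Finset.mem_filter, hA, Finset.mem_Ioo] at hk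
      rw [Finset.mem_coe, Finset.mem_filter]
      exact ⟨Finset.mem_image_of_mem _ (hS k), above_chord h hk.1.1 hk.1.2 hj⟩
    · intro k hk l hl hkl
      rw [Finset.mem_coe, hA1, Finset.mem_filter] at hk hl
      rcases lt_trichotomy k l with h' | h' | h'
      · exact absurd hkl (hl.2 k hk.1 h')
      · exact h'
      · exact absurd hkl.symm (hk.2 l hl.1 h')
  have h2 : A2.card ≤ ((A ×ˢ A).filter
      (fun q => q.1 < q.2 ∧ cr (v j - v i) (v q.2 - v q.1) = 0)).card := by
    have hex : ∀ k ∈ A2, ∃ k' ∈ A, k' < k ∧ f k' = f k := by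
      intro k hk
      rw [hA2, Finset.mem_filter] at hk
      have := hk.2
      push Not at this
      exact this
    choose! F hF using hex
    apply Finset.card_le_card_of_injOn (fun k => (F k, k))
    · intro k hk
      rw [Finset.mem_coe] at hk
      obtain ⟨h3, h4, h5⟩ := hF k hk
      rw [hA2, Finset.mem_filter] at hk
      rw [Finset.mem_coe, Finset.mem_filter, Finset.mem_product]
      refine ⟨⟨h3, hk.1⟩, h4, ?_⟩
      simp only [hf] at h5
      simp only [cr, Prod.fst_sub, Prod.snd_sub] at h5 ⊢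
      linarith
    · intro k _ l _ hkl
      exact (Prod.ext_iff.mp hkl).2
  have h3 : (A.card : ℤ) = j - i - 1 := by
    rw [hA, Int.card_Ioo, Int.toNat_of_nonneg (by omega)]
  have h4 : (A.card : ℤ) = A1.card + A2.card := by rw [← hcard]; push_cast; rfl
  have h1' : (A1.card : ℤ) ≤ _ := Int.ofNat_le.mpr h1
  have h2' : (A2.card : ℤ) ≤ _ := Int.ofNat_le.mpr h2
  calc j - i - 1 = (A.card : ℤ) := h3.symm
    _ = A1.card + A2.card := h4
    _ ≤ _ := add_le_add h1' h2'

/-- cc (S). Admissible strictly convex polygons with `2b+1` vertices satisfy `Core`. -/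
theorem core_of_adm {b : ℕ} {v : ℤ → P} {Θ : ℤ → ℤ → ℝ} {S : Finset P} (hb : 1 ≤ b)
    (hv : Poly (2 * b + 1) v) (hΘ : Th (2 * b + 1) v Θ) (hS : ∀ i, v i ∈ S) (hA : Adm S b) :
    Core b Θ := by
  classical
  refine ⟨?_, ?_, ?_, ?_⟩
  · intro i j h1 h2
    exact hΘ.up i j h1 (by push_cast; omega)
  · intro i j h1 h2
    exact hΘ.lf i j h1 (by push_cast; omega)
  · intro i j h1 h2
    have := hΘ.half i j h1 (by push_cast; omega)
    push_cast at this
    exact this
  · intro i j h1 h2
    have h2' : j < i + ((2 * b + 1 : ℕ) : ℤ) := by push_cast; omega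
    have hne : v i ≠ v j := by
      intro he
      -- a third vertex
      have key : ∀ k : ℤ, tri (v i) (v j) (v k) = 0 ∧ tri (v i) (v k) (v j) = 0 := by
        intro k
        rw [he]
        simp [tri, cr]
      rcases lt_or_ge (i + 1) j with h3 | h3
      · have := hv.ccw i (i + 1) j (by omega) h3 h2'
        rw [(key (i + 1)).2] at this
        exact lt_irrefl _ this
      · have h4 : j = i + 1 := by omega
        have := hv.ccw i j (j + 1) h1 (by omega) (by push_cast; omega)
        rw [(key (j + 1)).1] at this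
        exact lt_irrefl _ this
    have h3 := hA (v i - v j) (v i) (hS i) (v j) (hS j) hne (by
      simp only [cr, Prod.fst_sub, Prod.snd_sub]; ring)
    have h4 := levels_ge hv hS h1 h2'
    have h5 : (((Ioo i j) ×ˢ (Ioo i j)).filter
        (fun q => q.1 < q.2 ∧ cr (v j - v i) (v q.2 - v q.1) = 0)).card ≤
        (((Ioo i j) ×ˢ (Ioo i j)).filter (fun q => q.1 < q.2 ∧ Θ q.1 q.2 = Θ i j)).card := by
      apply Finset.card_le_card
      intro q hq
      rw [Finset.mem_filter, Finset.mem_product, Finset.mem_Ioo, Finset.mem_Ioo] at hq ⊢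
      exact ⟨hq.1, hq.2.1, hΘ.con i j q.1 q.2 hq.1.1.1 hq.2.1 hq.1.2.2 h2' hq.2.2⟩
    have h3' : ((((S.image (cr (v i - v j))).filter
        (fun y => cr (v i - v j) (v i) < y)).card : ℕ) : ℤ) ≤ b := Int.ofNat_le.mpr h3
    have h5' : (((((Ioo i j) ×ˢ (Ioo i j)).filter
        (fun q => q.1 < q.2 ∧ cr (v j - v i) (v q.2 - v q.1) = 0)).card : ℕ) : ℤ) ≤ _ :=
      Int.ofNat_le.mpr h5
    linarith

end Cvc
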