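import Mathlib
import Pool.Agent.Cvc.Defs

set_option autoImplicit false

open Finset

namespace Cvc

/-- ma (S). The affine bijection `(x, y) ↦ (a x + b y + s, c x + d y + t)`. -/
theorem exists_aff (a b c d s t : ℝ) (h : a * d - b * c ≠ 0) :
    ∃ Φ : P ≃ᵃ[ℝ] P, ∀ p : P, Φ p = (a * p.1 + b * p.2 + s, c * p.1 + d * p.2 + t) := by
  let L : P ≃ₗ[ℝ] P :=
    { toFun := fun p => (a * p.1 + b * p.2, c * p.1 + d * p.2)
      invFun := fun p => ((d * p.1 - b * p.2) / (a * d - b * c),
        (-c * p.1 + a * p.2) / (a * d - b * c))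
      map_add' := by
        intro p q
        ext <;> simp <;> ring
      map_smul' := by
        intro r p
        ext <;> simp <;> ring
      left_inv := by
        intro p
        ext
        · simp only
          rw [div_eq_iff h]
          ring
        · simp only
          rw [div_eq_iff h]
          ring
      right_inv := by
        intro p
        ext
        · simp only
          rw [mul_div_assoc', mul_div_assoc', ← add_div, div_eq_iff h]
          ring
        · simp only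
          rw [mul_div_assoc', mul_div_assoc', ← add_div, div_eq_iff h]
          ring }
  refine ⟨L.toAffineEquiv.trans (AffineEquiv.constVAdd ℝ P (s, t)), fun p => ?_⟩
  change (s, t) +ᵥ ((a * p.1 + b * p.2, c * p.1 + d * p.2) : P) = _
  ext <;> simp <;> ring

private theorem mb_ne {S : Finset P} (hnc : ¬ Collinear ℝ (S : Set P)) : S.Nonempty := by
  rcases S.eq_empty_or_nonempty with h | h
  · exact absurd (by rw [h]; simpa using collinear_empty ℝ P) hnc
  · exact h

private theorem mb_coll {S : Finset P} (Φ : P ≃ᵃ[ℝ] P) {α β γ : ℝ} (h0 : α ≠ 0 ∨ β ≠ 0)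
    (h : ∀ p ∈ S, α * (Φ p).1 + β * (Φ p).2 + γ = 0) : Collinear ℝ (S : Set P) := by
  have hn : α ^ 2 + β ^ 2 ≠ 0 := by
    rcases h0 with h0 | h0
    · have := pow_pos (abs_pos.2 h0) 2
      rw [sq_abs] at this
      nlinarith [sq_nonneg β]
    · have := pow_pos (abs_pos.2 h0) 2
      rw [sq_abs] at this
      nlinarith [sq_nonneg α]
  rw [collinear_iff_exists_forall_eq_smul_vadd]
  refine ⟨Φ.symm (-γ * α / (α ^ 2 + β ^ 2), -γ * β / (α ^ 2 + β ^ 2)),
    Φ.symm.linear (-β, α), fun p hp => ⟨(-β * (Φ p).1 + α * (Φ p).2) / (α ^ 2 + β ^ 2), ?_⟩⟩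
  have e := h p (by simpa using hp)
  rw [← map_smul]
  have key : (((-β * (Φ p).1 + α * (Φ p).2) / (α ^ 2 + β ^ 2)) • ((-β, α) : P)) +ᵥ
      ((-γ * α / (α ^ 2 + β ^ 2), -γ * β / (α ^ 2 + β ^ 2)) : P) = Φ p := by
    have hg : γ = -(α * (Φ p).1 + β * (Φ p).2) := by linarith
    ext
    · simp only [Prod.smul_mk, smul_eq_mul, vadd_eq_add, Prod.mk_add_mk]
      rw [hg]
      field_simp
      ring
    · simp only [Prod.smul_mk, smul_eq_mul, vadd_eq_add, Prod.mk_add_mk]
      rw [hg]
      field_simp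
      ring
  have k2 := congrArg Φ.symm key
  rw [AffineEquiv.symm_apply_apply] at k2
  exact k2.symm.trans (Φ.symm.map_vadd _ _)

/-- mb (M). First reduction: not on a line, so the quadratic part is not zero; if `a = c = 0` it is
`b x y` and a translation removes the linear terms; otherwise (exchange `x`, `y` if `a = 0`)
completing squares gives `x ^ 2 + k y ^ 2 + l y = m`. -/
theorem conic_reduce {S : Finset P} (hnc : ¬ Collinear ℝ (S : Set P)) (h : OnConic S) :
    ∃ Φ : P ≃ᵃ[ℝ] P, (∃ m : ℝ, ∀ p ∈ S, (Φ p).1 * (Φ p).2 = m) ∨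
      ∃ k l m : ℝ, ∀ p ∈ S, (Φ p).1 ^ 2 + k * (Φ p).2 ^ 2 + l * (Φ p).2 = m := by
  obtain ⟨a, b, c, d, e, f, h0, h⟩ := h
  by_cases ha : a = 0
  · by_cases hc : c = 0
    · by_cases hb : b = 0
      · subst ha hb hc
        exfalso
        by_cases hde : d ≠ 0 ∨ e ≠ 0
        · apply hnc
          apply mb_coll (AffineEquiv.refl ℝ P) (γ := f) hde
          intro p hp
          have := h p hp
          simpa using this
        · push Not at hde
          obtain ⟨hd, he⟩ := hde
          subst hd he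
          obtain ⟨p, hp⟩ := mb_ne hnc
          have := h p hp
          apply h0
          refine ⟨rfl, rfl, rfl, rfl, rfl, ?_⟩
          simpa using this
      · obtain ⟨Φ, hΦ⟩ := exists_aff 1 0 0 1 (e / b) (d / b) (by norm_num)
        refine ⟨Φ, Or.inl ⟨d * e / b ^ 2 - f / b, fun p hp => ?_⟩⟩
        have := h p hp
        rw [hΦ p]
        subst ha hc
        simp only
        have h2 : p.1 * p.2 = -(d * p.1 + e * p.2 + f) / b := by
          rw [eq_div_iff hb]
          linarith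
        have : (1 * p.1 + 0 * p.2 + e / b) * (0 * p.1 + 1 * p.2 + d / b) =
            p.1 * p.2 + p.1 * d / b + e * p.2 / b + e * d / b ^ 2 := by
          field_simp
          ring
        rw [this, h2]
        field_simp
        ring
    · obtain ⟨Φ, hΦ⟩ := exists_aff (b / (2 * c)) 1 1 0 (e / (2 * c)) 0 (by norm_num)
      refine ⟨Φ, Or.inr ⟨a / c - b ^ 2 / (4 * c ^ 2), d / c - b * e / (2 * c ^ 2),
        e ^ 2 / (4 * c ^ 2) - f / c, fun p hp => ?_⟩⟩
      have := h p hp
      rw [hΦ p]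
      simp only
      have h2 : f = -(a * p.1 ^ 2 + b * (p.1 * p.2) + c * p.2 ^ 2 + d * p.1 + e * p.2) := by
        linarith
      rw [h2]
      field_simp
      ring
  · obtain ⟨Φ, hΦ⟩ := exists_aff 1 (b / (2 * a)) 0 1 (d / (2 * a)) 0 (by norm_num)
    refine ⟨Φ, Or.inr ⟨c / a - b ^ 2 / (4 * a ^ 2), e / a - b * d / (2 * a ^ 2),
      d ^ 2 / (4 * a ^ 2) - f / a, fun p hp => ?_⟩⟩
    have := h p hp
    rw [hΦ p]
    simp only
    have h2 : f = -(a * p.1 ^ 2 + b * (p.1 * p.2) + c * p.2 ^ 2 + d * p.1 + e * p.2) := by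
      linarith
    rw [h2]
    field_simp
    ring

private theorem mc_prod {S : Finset P} (Φ : P ≃ᵃ[ℝ] P) {m : ℝ}
    (h : ∀ p ∈ S, (Φ p).1 * (Φ p).2 = m) :
    ∃ Φ : P ≃ᵃ[ℝ] P, (∀ p ∈ S, (Φ p).1 ^ 2 + (Φ p).2 ^ 2 = 1) ∨
      (∀ p ∈ S, (Φ p).2 = (Φ p).1 ^ 2) ∨ (∀ p ∈ S, (Φ p).1 * (Φ p).2 = 1) ∨
      (∀ p ∈ S, (Φ p).1 * (Φ p).2 = 0) ∨ ∀ p ∈ S, (Φ p).2 = 0 ∨ (Φ p).2 = 1 := by
  by_cases hm : m = 0
  · subst hm
    exact ⟨Φ, Or.inr (Or.inr (Or.inr (Or.inl h)))⟩
  · obtain ⟨Ψ, hΨ⟩ := exists_aff m⁻¹ 0 0 1 0 0 (by simpa using hm)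
    refine ⟨Φ.trans Ψ, Or.inr (Or.inr (Or.inl fun p hp => ?_))⟩
    rw [AffineEquiv.trans_apply, hΨ]
    have := h p hp
    simp only [zero_mul, add_zero, zero_add, one_mul]
    rw [mul_assoc, this]
    exact inv_mul_cancel₀ hm

private theorem mc_point {S : Finset P} (Φ : P ≃ᵃ[ℝ] P) (q : P)
    (h : ∀ p ∈ S, Φ p = q) : Collinear ℝ (S : Set P) := by
  apply mb_coll Φ (α := 1) (β := 0) (γ := -q.1) (Or.inl one_ne_zero)
  intro p hp
  rw [h p hp]
  ring

/-- mc (M). Normal forms. From `conic_reduce`: `x y = m`: scale, `m = 0` or `m = 1`.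
`x^2 + k y^2 + l y = m`: `k > 0`: circle (at most one point if the radius is not positive, but `S` has
two points); `k = 0`, `l ≠ 0`: parabola; `k = l = 0`: `m < 0` no point, `m = 0` a line, `m > 0` two
parallel lines; `k < 0`: difference of squares, `x y = const`. -/
theorem conic_nf {S : Finset P} (hnc : ¬ Collinear ℝ (S : Set P)) (h : OnConic S) :
    ∃ Φ : P ≃ᵃ[ℝ] P, (∀ p ∈ S, (Φ p).1 ^ 2 + (Φ p).2 ^ 2 = 1) ∨
      (∀ p ∈ S, (Φ p).2 = (Φ p).1 ^ 2) ∨ (∀ p ∈ S, (Φ p).1 * (Φ p).2 = 1) ∨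
      (∀ p ∈ S, (Φ p).1 * (Φ p).2 = 0) ∨ ∀ p ∈ S, (Φ p).2 = 0 ∨ (Φ p).2 = 1 := by
  obtain ⟨Φ, h1 | h1⟩ := conic_reduce hnc h
  · obtain ⟨m, h1⟩ := h1
    exact mc_prod Φ h1
  obtain ⟨k, l, m, h1⟩ := h1
  rcases lt_trichotomy k 0 with hk | hk | hk
  · -- k < 0
    set s := Real.sqrt (-k) with hs
    have hs0 : 0 < s := Real.sqrt_pos.2 (by linarith)
    have hs2 : s ^ 2 = -k := Real.sq_sqrt (by linarith)
    have hk0 : k ≠ 0 := hk.ne
    obtain ⟨Ψ, hΨ⟩ := exists_aff 1 (-s) 1 s (-(s * (l / (2 * k)))) (s * (l / (2 * k)))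
      (by nlinarith)
    apply mc_prod (Φ.trans Ψ) (m := m + l ^ 2 / (4 * k))
    intro p hp
    rw [AffineEquiv.trans_apply, hΨ]
    have e := h1 p hp
    simp only
    have : (1 * (Φ p).1 + -s * (Φ p).2 + -(s * (l / (2 * k)))) *
        (1 * (Φ p).1 + s * (Φ p).2 + s * (l / (2 * k))) =
        (Φ p).1 ^ 2 - s ^ 2 * ((Φ p).2 + l / (2 * k)) ^ 2 := by ring
    rw [this, hs2, ← e]
    field_simp
    ring
  · -- k = 0
    subst hk
    by_cases hl : l = 0
    · subst hl
      rcases lt_trichotomy m 0 with hm | hm | hm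
      · exfalso
        obtain ⟨p, hp⟩ := mb_ne hnc
        have := h1 p hp
        nlinarith [sq_nonneg (Φ p).1]
      · exfalso
        subst hm
        apply hnc
        apply mb_coll Φ (α := 1) (β := 0) (γ := 0) (Or.inl one_ne_zero)
        intro p hp
        have := h1 p hp
        have : (Φ p).1 ^ 2 = 0 := by linarith
        have : (Φ p).1 = 0 := by simpa using this
        linarith
      · set s := Real.sqrt m with hs
        have hs0 : 0 < s := Real.sqrt_pos.2 hm
        have hs2 : s ^ 2 = m := Real.sq_sqrt hm.le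
        obtain ⟨Ψ, hΨ⟩ := exists_aff 0 1 (1 / (2 * s)) 0 0 (1 / 2) (by
          have : (0:ℝ) < 1 / (2 * s) := by positivity
          linarith)
        refine ⟨Φ.trans Ψ, Or.inr (Or.inr (Or.inr (Or.inr fun p hp => ?_)))⟩
        rw [AffineEquiv.trans_apply, hΨ]
        have e := h1 p hp
        simp only
        have e2 : ((Φ p).1 - s) * ((Φ p).1 + s) = 0 := by
          have : (Φ p).1 ^ 2 = s ^ 2 := by rw [hs2]; linarith
          nlinarith
        rcases mul_eq_zero.1 e2 with e2 | e2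
        · right
          have : (Φ p).1 = s := by linarith
          rw [this]
          field_simp
          ring
        · left
          have : (Φ p).1 = -s := by linarith
          rw [this]
          field_simp
          ring
    · obtain ⟨Ψ, hΨ⟩ := exists_aff 1 0 0 (-l) 0 m (by simpa using hl)
      refine ⟨Φ.trans Ψ, Or.inr (Or.inl fun p hp => ?_)⟩
      rw [AffineEquiv.trans_apply, hΨ]
      have e := h1 p hp
      simp only
      linarith
  · -- k > 0
    have hk0 : k ≠ 0 := hk.ne'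
    have h2 : ∀ p ∈ S, (Φ p).1 ^ 2 + k * ((Φ p).2 + l / (2 * k)) ^ 2 = m + l ^ 2 / (4 * k) := by
      intro p hp
      rw [← h1 p hp]
      field_simp
      ring
    set r := m + l ^ 2 / (4 * k) with hr
    by_cases hr0 : r ≤ 0
    · exfalso
      apply hnc
      apply mc_point Φ (0, -(l / (2 * k)))
      intro p hp
      have e := h2 p hp
      have a1 : 0 ≤ (Φ p).1 ^ 2 := sq_nonneg _
      have a2 : 0 ≤ k * ((Φ p).2 + l / (2 * k)) ^ 2 := by positivity
      have a3 : (Φ p).1 ^ 2 = 0 := by linarith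
      have a4 : k * ((Φ p).2 + l / (2 * k)) ^ 2 = 0 := by linarith
      have a5 : (Φ p).1 = 0 := by simpa using a3
      have a6 : (Φ p).2 + l / (2 * k) = 0 := by
        rcases mul_eq_zero.1 a4 with h | h
        · exact absurd h hk0
        · simpa using h
      ext
      · exact a5
      · simp only
        linarith
    · push Not at hr0
      set s := Real.sqrt r with hs
      have hs0 : 0 < s := Real.sqrt_pos.2 hr0
      have hs2 : s ^ 2 = r := Real.sq_sqrt hr0.le
      set q := Real.sqrt k with hq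
      have hq0 : 0 < q := Real.sqrt_pos.2 hk
      have hq2 : q ^ 2 = k := Real.sq_sqrt hk.le
      obtain ⟨Ψ, hΨ⟩ := exists_aff (1 / s) 0 0 (q / s) 0 (q / s * (l / (2 * k)))
        (by
          have : 0 < 1 / s * (q / s) := by positivity
          linarith)
      refine ⟨Φ.trans Ψ, Or.inl fun p hp => ?_⟩
      rw [AffineEquiv.trans_apply, hΨ]
      have e := h2 p hp
      simp only
      have : (1 / s * (Φ p).1 + 0 * (Φ p).2 + 0) ^ 2 +
          (0 * (Φ p).1 + q / s * (Φ p).2 + q / s * (l / (2 * k))) ^ 2 =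
          ((Φ p).1 ^ 2 + q ^ 2 * ((Φ p).2 + l / (2 * k)) ^ 2) / s ^ 2 := by
        field_simp
        ring
      rw [this, hq2, e, hs2]
      exact div_self hr0.ne'

/-- md (S). Points of the unit circle are convex independent. -/
theorem circle_indep {S : Finset P} (h : ∀ p ∈ S, p.1 ^ 2 + p.2 ^ 2 = 1) :
    ConvexIndependent ℝ (fun x : S => (x : P)) := by
  intro s x hx
  by_contra hxs
  have hc : Convex ℝ {q : P | (x : P).1 * q.1 + (x : P).2 * q.2 < 1} := by
    intro u hu v hv a b ha hb hab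
    simp only [Set.mem_ofPred_eq] at hu hv ⊢
    have e : (x : P).1 * (a • u + b • v).1 + (x : P).2 * (a • u + b • v).2 =
        a * ((x : P).1 * u.1 + (x : P).2 * u.2) + b * ((x : P).1 * v.1 + (x : P).2 * v.2) := by
      simp only [Prod.fst_add, Prod.smul_fst, smul_eq_mul, Prod.snd_add, Prod.smul_snd]
      ring
    rw [e]
    rcases ha.eq_or_lt with h0 | h0
    · subst h0
      have : b = 1 := by linarith
      subst this
      linarith
    · nlinarith
  have hsub : (fun x : S => (x : P)) '' s ⊆ {q : P | (x : P).1 * q.1 + (x : P).2 * q.2 < 1} := by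
    rintro _ ⟨y, hy, rfl⟩
    simp only [Set.mem_ofPred_eq]
    have hne : (y : P) ≠ x := by
      intro e
      have : y = x := Subtype.ext e
      exact hxs (this ▸ hy)
    have h1 := h _ x.2
    have h2 := h _ y.2
    have hpos : 0 < ((x : P).1 - (y : P).1) ^ 2 + ((x : P).2 - (y : P).2) ^ 2 := by
      by_contra hcon
      push Not at hcon
      have a1 : ((x : P).1 - (y : P).1) ^ 2 = 0 := by
        nlinarith [sq_nonneg ((x : P).1 - (y : P).1), sq_nonneg ((x : P).2 - (y : P).2)]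
      have a2 : ((x : P).2 - (y : P).2) ^ 2 = 0 := by
        nlinarith [sq_nonneg ((x : P).1 - (y : P).1), sq_nonneg ((x : P).2 - (y : P).2)]
      apply hne
      ext
      · have := pow_eq_zero_iff (two_ne_zero) |>.1 a1
        linarith
      · have := pow_eq_zero_iff (two_ne_zero) |>.1 a2
        linarith
    nlinarith
  have := convexHull_min hsub hc hx
  simp only [Set.mem_ofPred_eq] at this
  have h1 := h _ x.2
  nlinarith

/-- me (S). Points of the graph of a function which is strictly convex on a convex set are convex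
independent. -/
theorem graph_indep {S : Finset P} {f : ℝ → ℝ} {D : Set ℝ} (hf : StrictConvexOn ℝ D f)
    (h : ∀ p ∈ S, p.1 ∈ D ∧ p.2 = f p.1) : ConvexIndependent ℝ (fun x : S => (x : P)) := by
  have hE : Convex ℝ {p : ℝ × ℝ | p.1 ∈ D ∧ f p.1 ≤ p.2} := hf.convexOn.convex_epigraph
  have hsub : ((S : Finset P) : Set P) ⊆
      Set.extremePoints ℝ {p : ℝ × ℝ | p.1 ∈ D ∧ f p.1 ≤ p.2} := by
    intro x hx
    obtain ⟨hxD, hx2⟩ := h x hx
    rw [mem_extremePoints]
    refine ⟨⟨hxD, hx2.ge⟩, ?_⟩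
    rintro u ⟨huD, hu⟩ v ⟨hvD, hv⟩ ⟨a, b, ha, hb, hab, e⟩
    have e1 : a * u.1 + b * v.1 = x.1 := by rw [← e]; simp
    have e2 : a * u.2 + b * v.2 = x.2 := by rw [← e]; simp
    by_cases huv : u.1 = v.1
    · have hb' : b = 1 - a := by linarith
      have e3 : u.1 = x.1 := by rw [← e1, ← huv, hb']; ring
      have e4 : v.1 = x.1 := by rw [← huv]; exact e3
      rw [e3, ← hx2] at hu
      rw [e4, ← hx2] at hv
      have e5 : u.2 = x.2 := by
        have : a * (u.2 - x.2) + b * (v.2 - x.2) = 0 := by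
          rw [hb'] at e2 ⊢
          linarith
        have h1 : 0 ≤ a * (u.2 - x.2) := mul_nonneg ha.le (by linarith)
        have h2 : 0 ≤ b * (v.2 - x.2) := mul_nonneg hb.le (by linarith)
        have h3 : a * (u.2 - x.2) = 0 := by linarith
        rcases mul_eq_zero.1 h3 with h | h
        · exact absurd h ha.ne'
        · linarith
      have e6 : v.2 = x.2 := by
        have : a * (u.2 - x.2) + b * (v.2 - x.2) = 0 := by
          rw [hb'] at e2 ⊢
          linarith
        have h1 : 0 ≤ a * (u.2 - x.2) := mul_nonneg ha.le (by linarith)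
        have h2 : 0 ≤ b * (v.2 - x.2) := mul_nonneg hb.le (by linarith)
        have h3 : b * (v.2 - x.2) = 0 := by linarith
        rcases mul_eq_zero.1 h3 with h | h
        · exact absurd h hb.ne'
        · linarith
      exact ⟨Prod.ext e3 e5, Prod.ext e4 e6⟩
    · exfalso
      have := hf.2 huD hvD huv ha hb hab
      simp only [smul_eq_mul] at this
      rw [e1, ← hx2, ← e2] at this
      nlinarith [mul_le_mul_of_nonneg_left hu ha.le, mul_le_mul_of_nonneg_left hv hb.le]
  exact hE.convexIndependent_extremePoints.mono hsub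

/-- mf (S). Parabola, and one branch of a hyperbola. -/
theorem parabola_indep {S : Finset P} (h : ∀ p ∈ S, p.2 = p.1 ^ 2) :
    ConvexIndependent ℝ (fun x : S => (x : P)) :=
  graph_indep (even_two.strictConvexOn_pow two_ne_zero) (fun p hp => ⟨Set.mem_univ _, h p hp⟩)

theorem branch_indep {S : Finset P} (h : ∀ p ∈ S, p.1 * p.2 = 1) (h' : ∀ p ∈ S, 0 < p.1) :
    ConvexIndependent ℝ (fun x : S => (x : P)) := by
  refine graph_indep (strictConvexOn_zpow (m := -1) (by norm_num) (by norm_num))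
    (fun p hp => ⟨h' p hp, ?_⟩)
  have h1 := h' p hp
  have h2 := h p hp
  rw [zpow_neg_one]
  exact eq_inv_of_mul_eq_one_right h2

/-- mg (S). No three points of the hyperbola `x y = 1` are on a line. -/
theorem tri_ne_hyp {p q r : P} (hp : p.1 * p.2 = 1) (hq : q.1 * q.2 = 1) (hr : r.1 * r.2 = 1)
    (hpq : p ≠ q) (hqr : q ≠ r) (hpr : p ≠ r) : tri p q r ≠ 0 := by
  have key : ∀ {u v : P}, u.1 * u.2 = 1 → v.1 * v.2 = 1 → u ≠ v → u.1 ≠ v.1 := by
    intro u v hu hv hne e
    apply hne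
    have hv0 : v.1 ≠ 0 := left_ne_zero_of_mul_eq_one hv
    ext
    · exact e
    · rw [e] at hu
      exact mul_left_cancel₀ hv0 (hu.trans hv.symm)
  have hp0 : p.1 ≠ 0 := left_ne_zero_of_mul_eq_one hp
  have hq0 : q.1 ≠ 0 := left_ne_zero_of_mul_eq_one hq
  have hr0 : r.1 ≠ 0 := left_ne_zero_of_mul_eq_one hr
  have h1 := sub_ne_zero.2 (key hp hq hpq)
  have h2 := sub_ne_zero.2 (key hq hr hqr)
  have h3 := sub_ne_zero.2 (key hp hr hpr)
  have ep : p.2 = p.1⁻¹ := eq_inv_of_mul_eq_one_right hp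
  have eq : q.2 = q.1⁻¹ := eq_inv_of_mul_eq_one_right hq
  have er : r.2 = r.1⁻¹ := eq_inv_of_mul_eq_one_right hr
  have e : tri p q r = -((p.1 - q.1) * (q.1 - r.1) * (p.1 - r.1)) / (p.1 * q.1 * r.1) := by
    unfold tri cr
    simp only [Prod.fst_sub, Prod.snd_sub]
    rw [ep, eq, er]
    field_simp
    ring
  rw [e]
  exact div_ne_zero (neg_ne_zero.2 (mul_ne_zero (mul_ne_zero h1 h2) h3))
    (mul_ne_zero (mul_ne_zero hp0 hq0) hr0)

end Cvc
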