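import Mathlib
import Pool.Agent.Cvc.Defs

set_option autoImplicit false

open Finset

namespace Cvc

/-- na (S). The cross product on the polygon: with `g j = (cos (2πj/N), sin (2πj/N))` and a line of
direction `d` through `g a ≠ g b` we have, up to a nonzero factor `ρ`,
`cr d (g j) = ρ cos (π (2j - s) / N)`, `s = a + b`. -/
theorem cr_poly {N a b : ℕ} (hN : 0 < N) {d : P} (hab : g N a ≠ g N b)
    (h : cr d (g N a) = cr d (g N b)) :
    ∃ ρ : ℝ, ∀ j : ℕ, cr d (g N j) = ρ * Real.cos (Real.pi * (2 * j - (a + b)) / N) := by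
  have _ := hN
  obtain ⟨τ, hτ⟩ : ∃ τ : ℝ, τ = Real.pi * (a + b) / N := ⟨_, rfl⟩
  obtain ⟨μ, hμ⟩ : ∃ μ : ℝ, μ = Real.pi * (a - b) / N := ⟨_, rfl⟩
  have ha : 2 * Real.pi * a / N = τ + μ := by rw [hτ, hμ]; ring
  have hb : 2 * Real.pi * b / N = τ - μ := by rw [hτ, hμ]; ring
  have hs : Real.sin μ ≠ 0 := by
    intro h0
    apply hab
    unfold g
    rw [ha, hb, Real.cos_add, Real.cos_sub, Real.sin_add, Real.sin_sub, h0]
    simp
  have h1 : d.1 * Real.cos τ + d.2 * Real.sin τ = 0 := by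
    unfold cr g at h
    rw [ha, hb, Real.cos_add, Real.cos_sub, Real.sin_add, Real.sin_sub] at h
    have h2 : 2 * Real.sin μ * (d.1 * Real.cos τ + d.2 * Real.sin τ) = 0 := by
      linear_combination h
    rcases mul_eq_zero.mp h2 with h3 | h3
    · exact absurd (by linarith) hs
    · exact h3
  refine ⟨d.1 * Real.sin τ - d.2 * Real.cos τ, fun j => ?_⟩
  have e1 : Real.pi * (2 * j - (a + b)) / N = 2 * Real.pi * j / N - τ := by rw [hτ]; ring
  rw [e1, Real.cos_sub]
  unfold cr g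
  have e2 := Real.sin_sq_add_cos_sq τ
  linear_combination (-Real.sin (2 * Real.pi * j / N) * d.1 + Real.cos (2 * Real.pi * j / N) * d.2) * e2 + (Real.sin (2 * Real.pi * j / N) * Real.cos τ - Real.cos (2 * Real.pi * j / N) * Real.sin τ) * h1

private theorem nb_red {N : ℕ} (hN : 0 < N) (x : ℤ) :
    ∃ t : ℕ, t ≤ N ∧ Real.cos (Real.pi * x / N) = Real.cos (Real.pi * t / N) ∧
      ∃ k : ℤ, (t : ℤ) = x + 2 * N * k ∨ (t : ℤ) = -x + 2 * N * k := by
  have hN0 : (N : ℝ) ≠ 0 := by exact_mod_cast hN.ne'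
  obtain ⟨y, hy⟩ : ∃ y : ℤ, y = x % (2 * N) := ⟨_, rfl⟩
  have hy0 : 0 ≤ y := by rw [hy]; exact Int.emod_nonneg _ (by omega)
  have hy1 : y < 2 * N := by rw [hy]; exact Int.emod_lt_of_pos _ (by omega)
  have hy2 : y = x - 2 * N * (x / (2 * N)) := by
    have := Int.emod_add_mul_ediv x (2 * N)
    rw [hy]; linarith
  have hc : Real.cos (Real.pi * x / N) = Real.cos (Real.pi * y / N) := by
    have e : Real.pi * y / N = Real.pi * x / N - ((x / (2 * N) : ℤ) : ℝ) * (2 * Real.pi) := by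
      rw [hy2]; push_cast; field_simp
    rw [e, Real.cos_sub_int_mul_two_pi]
  by_cases h : y ≤ N
  · refine ⟨y.toNat, by omega, ?_, -(x / (2 * N)), Or.inl ?_⟩
    · rw [hc]
      have : ((y.toNat : ℕ) : ℝ) = ((y.toNat : ℤ) : ℝ) := by norm_cast
      rw [this, Int.toNat_of_nonneg hy0]
    · rw [Int.toNat_of_nonneg hy0, hy2]; ring
  · refine ⟨(2 * N - y).toNat, by omega, ?_, 1 + x / (2 * N), Or.inr ?_⟩
    · rw [hc]
      have e1 : (((2 * (N : ℤ) - y).toNat : ℕ) : ℝ) = (((2 * (N : ℤ) - y).toNat : ℤ) : ℝ) := by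
        norm_cast
      rw [e1, Int.toNat_of_nonneg (by omega)]
      have e2 : Real.pi * ((2 * (N : ℤ) - y : ℤ) : ℝ) / N = 2 * Real.pi - Real.pi * y / N := by
        push_cast; field_simp
      rw [e2, Real.cos_two_pi_sub]
    · rw [Int.toNat_of_nonneg (by omega), hy2]; ring

private theorem nb_lt {N : ℕ} (hN : 0 < N) {t t' : ℕ} (h : t ≤ N) (h' : t' ≤ N)
    (hc : Real.cos (Real.pi * t / N) < Real.cos (Real.pi * t' / N)) : t' < t := by
  have hN0 : (0 : ℝ) < N := by exact_mod_cast hN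
  have hm : ∀ t : ℕ, t ≤ N → Real.pi * t / N ∈ Set.Icc 0 Real.pi := by
    intro t ht
    refine ⟨by positivity, ?_⟩
    rw [div_le_iff₀ hN0]
    have : (t : ℝ) ≤ N := by exact_mod_cast ht
    exact mul_le_mul_of_nonneg_left this Real.pi_pos.le
  have h1 := (Real.strictAntiOn_cos.lt_iff_gt (hm t h) (hm t' h')).mp hc
  by_contra hh
  have h2 : (t : ℝ) ≤ t' := by exact_mod_cast not_lt.mp hh
  have h3 : Real.pi * t / N ≤ Real.pi * t' / N := by
    apply div_le_div_of_nonneg_right _ hN0.le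
    exact mul_le_mul_of_nonneg_left h2 Real.pi_pos.le
  linarith

/-- nb (M). Subsets of a regular `N`-gon: the values of `cos (π (2j - s)/N)` are the
`cos (π t / N)` with `0 ≤ t ≤ N`, `t ≡ s` mod 2; the value of the chord has `0 < t₀ < N`, so on either
side there are at most `(N - 1)/2` of them. -/
theorem adm_reg {N : ℕ} (hN : 3 ≤ N) {S : Finset P} (hS : (S : Set P) ⊆ Reg N) :
    Adm S ((N - 1) / 2) := by
  intro d p hp q hq hpq h
  have hN' : 0 < N := by omega
  have hNr : (N : ℝ) ≠ 0 := by exact_mod_cast hN'.ne'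
  obtain ⟨a, rfl⟩ := hS hp
  obtain ⟨b, rfl⟩ := hS hq
  obtain ⟨ρ, hρ⟩ := cr_poly hN' hpq h
  -- the chord
  obtain ⟨t₀, ht₀, hc₀, k₀, hk₀⟩ := nb_red hN' ((a : ℤ) - b)
  have hgv : ∀ m : ℤ, (a : ℤ) - b = N * m → False := by
    intro m hm
    apply hpq
    have hm' : (a : ℝ) = b + N * m := by
      have : ((a : ℤ) : ℝ) = ((b + N * m : ℤ) : ℝ) := by
        congr 1; linarith
      push_cast at this; exact this
    have e : 2 * Real.pi * a / N = 2 * Real.pi * b / N + m * (2 * Real.pi) := by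
      rw [hm']; field_simp
    unfold g
    rw [e, Real.cos_add_int_mul_two_pi, Real.sin_add_int_mul_two_pi]
  have h0 : t₀ ≠ 0 := by
    rintro rfl
    rcases hk₀ with hk | hk
    · exact hgv (-(2 * k₀)) (by push_cast at hk; linarith)
    · exact hgv (2 * k₀) (by push_cast at hk; linarith)
  have hNe : t₀ ≠ N := by
    intro hh
    rw [hh] at hk₀
    rcases hk₀ with hk | hk
    · exact hgv (1 - 2 * k₀) (by linarith)
    · exact hgv (2 * k₀ - 1) (by linarith)
  have hva : cr d (g N a) = ρ * Real.cos (Real.pi * t₀ / N) := by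
    rw [hρ a, ← hc₀]; congr 2; push_cast; ring
  have hpar : ∀ j : ℕ, ∃ t : ℕ, t ≤ N ∧ cr d (g N j) = ρ * Real.cos (Real.pi * t / N) ∧
      (t : ℤ) % 2 = t₀ % 2 := by
    intro j
    obtain ⟨t, ht, hc, k, hk⟩ := nb_red hN' (2 * (j : ℤ) - (a + b))
    refine ⟨t, ht, ?_, ?_⟩
    · rw [hρ j, ← hc]; congr 2; push_cast; ring
    · have e1 : ∀ x y : ℤ, 2 * (N : ℤ) * x = 2 * (N * x) := fun x _ => by ring
      rcases hk with hk | hk <;> rcases hk₀ with hk' | hk' <;>
        rw [e1 _ 0] at hk hk' <;> omega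
  rcases lt_trichotomy ρ 0 with hneg | hz | hpos
  · have hsub : (S.image (cr d)).filter (fun y => cr d (g N a) < y) ⊆
        (range ((N - t₀) / 2)).image
          (fun m : ℕ => ρ * Real.cos (Real.pi * ((t₀ + 2 * (m + 1) : ℕ) : ℝ) / N)) := by
      intro y hy
      rw [mem_filter, mem_image] at hy
      obtain ⟨⟨s, hs, rfl⟩, hy⟩ := hy
      obtain ⟨j, rfl⟩ := hS hs
      obtain ⟨t, ht, hc, hp2⟩ := hpar j
      rw [hva, hc] at hy
      have hlt : t₀ < t := by
        apply nb_lt hN' ht ht₀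
        by_contra hh
        have := mul_le_mul_of_nonpos_left (not_lt.mp hh) hneg.le
        linarith
      rw [mem_image]
      refine ⟨(t - t₀) / 2 - 1, ?_, ?_⟩
      · rw [mem_range]; omega
      · rw [hc]
        have : t₀ + 2 * ((t - t₀) / 2 - 1 + 1) = t := by omega
        rw [this]
    calc _ ≤ _ := card_le_card hsub
      _ ≤ _ := card_image_le
      _ = (N - t₀) / 2 := card_range _
      _ ≤ (N - 1) / 2 := by omega
  · have : (S.image (cr d)).filter (fun y => cr d (g N a) < y) = ∅ := by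
      rw [filter_eq_empty_iff]
      intro y hy
      rw [mem_image] at hy
      obtain ⟨s, hs, rfl⟩ := hy
      obtain ⟨j, rfl⟩ := hS hs
      rw [hρ a, hρ j, hz]; simp
    rw [this]; simp
  · have hsub : (S.image (cr d)).filter (fun y => cr d (g N a) < y) ⊆
        (range (t₀ / 2)).image
          (fun m : ℕ => ρ * Real.cos (Real.pi * ((t₀ - 2 * (m + 1) : ℕ) : ℝ) / N)) := by
      intro y hy
      rw [mem_filter, mem_image] at hy
      obtain ⟨⟨s, hs, rfl⟩, hy⟩ := hy
      obtain ⟨j, rfl⟩ := hS hs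
      obtain ⟨t, ht, hc, hp2⟩ := hpar j
      rw [hva, hc] at hy
      have hlt : t < t₀ := by
        apply nb_lt hN' ht₀ ht
        by_contra hh
        have := mul_le_mul_of_nonneg_left (not_lt.mp hh) hpos.le
        linarith
      rw [mem_image]
      refine ⟨(t₀ - t) / 2 - 1, ?_, ?_⟩
      · rw [mem_range]; omega
      · rw [hc]
        have : t₀ - 2 * ((t₀ - t) / 2 - 1 + 1) = t := by omega
        rw [this]
    calc _ ≤ _ := card_le_card hsub
      _ ≤ _ := card_image_le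
      _ = t₀ / 2 := card_range _
      _ ≤ (N - 1) / 2 := by omega

private theorem nc_count {T : Finset ℝ} {v c : ℝ} {K : ℕ}
    (h : ∀ y ∈ T, ∃ z : ℤ, |z| ≤ K ∧ y = v + c * z) :
    (T.filter (fun y => v < y)).card ≤ K := by
  have hsub : T.filter (fun y => v < y) ⊆
      (range K).image (fun m : ℕ => v + |c| * ((m : ℝ) + 1)) := by
    intro y hy
    rw [mem_filter] at hy
    obtain ⟨hy, hv⟩ := hy
    obtain ⟨z, hz, rfl⟩ := h y hy
    have hcz : 0 < c * z := by linarith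
    have hz0 : z ≠ 0 := by rintro rfl; simp at hcz
    have hz1 : 1 ≤ |z| := Int.one_le_abs hz0
    rw [mem_image]
    refine ⟨(|z| - 1).toNat, ?_, ?_⟩
    · rw [mem_range]; omega
    · have e1 : (((|z| - 1).toNat : ℕ) : ℝ) = (((|z| - 1).toNat : ℤ) : ℝ) := by norm_cast
      show v + |c| * ((((|z| - 1).toNat : ℕ) : ℝ) + 1) = _
      rw [e1, Int.toNat_of_nonneg (by omega)]
      push_cast
      have e2 : |c| * (|(z : ℝ)| - 1 + 1) = |c * z| := by rw [abs_mul]; ring
      rw [e2, abs_of_pos hcz]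
  calc _ ≤ _ := card_le_card hsub
    _ ≤ _ := card_image_le
    _ = K := card_range _

/-- nc (M). Subsets of the `2 × k` grid. -/
theorem adm_grid {k : ℕ} (hk : 2 ≤ k) {S : Finset P} (hS : (S : Set P) ⊆ Grid k) :
    Adm S (k - 1) := by
  intro d p hp q hq hpq h
  by_cases hd : d.2 = 0
  · -- two values
    apply nc_count (c := d.1)
    intro y hy
    rw [mem_image] at hy
    obtain ⟨s, hs, rfl⟩ := hy
    obtain ⟨i, hi, hsi⟩ := hS hs
    obtain ⟨j, hj, hpj⟩ := hS hp
    have k1 : (1 : ℤ) ≤ (k - 1 : ℕ) := by omega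
    rcases hsi with rfl | rfl <;> rcases hpj with rfl | rfl
    · exact ⟨0, by simp, by simp [cr, hd]⟩
    · exact ⟨-1, by simpa using k1, by simp [cr, hd]⟩
    · exact ⟨1, by simpa using k1, by simp [cr, hd]⟩
    · exact ⟨0, by simp, by simp [cr, hd]⟩
  · apply nc_count (c := -d.2)
    intro y hy
    rw [mem_image] at hy
    obtain ⟨s, hs, rfl⟩ := hy
    obtain ⟨m, hm, hsm⟩ := hS hs
    obtain ⟨i, hi, hpi⟩ := hS hp
    obtain ⟨j, hj, hqj⟩ := hS hq
    have habs : ∀ x y : ℕ, x < k → y < k → |(x : ℤ) - y| ≤ ((k - 1 : ℕ) : ℤ) := by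
      intro x y hx hy
      rw [abs_le]; omega
    rcases hpi with rfl | rfl <;> rcases hqj with rfl | rfl
    · exfalso
      simp only [cr] at h
      apply hpq
      have : (i : ℝ) = j := by
        have e : d.2 * ((i : ℝ) - j) = 0 := by linear_combination -h
        rcases mul_eq_zero.mp e with e | e
        · exact absurd e hd
        · linarith
      rw [this]
    · simp only [cr] at h
      rcases hsm with rfl | rfl
      · exact ⟨(m : ℤ) - i, habs _ _ hm hi, by simp only [cr]; push_cast; ring⟩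
      · exact ⟨(m : ℤ) - j, habs _ _ hm hj, by simp only [cr]; push_cast; linear_combination -h⟩
    · simp only [cr] at h
      rcases hsm with rfl | rfl
      · exact ⟨(m : ℤ) - j, habs _ _ hm hj, by simp only [cr]; push_cast; linear_combination -h⟩
      · exact ⟨(m : ℤ) - i, habs _ _ hm hi, by simp only [cr]; push_cast; ring⟩
    · exfalso
      simp only [cr] at h
      apply hpq
      have : (i : ℝ) = j := by
        have e : d.2 * ((i : ℝ) - j) = 0 := by linear_combination -h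
        rcases mul_eq_zero.mp e with e | e
        · exact absurd e hd
        · linarith
      rw [this]

private theorem nd_card {S : Finset P} {d : P} {v : ℝ} {K : ℕ} (T : Finset ℝ)
    (hT : T.card ≤ K) (H : ∀ p ∈ S, v < cr d p → cr d p ∈ T) :
    ((S.image (cr d)).filter (fun y => v < y)).card ≤ K := by
  refine le_trans (card_le_card ?_) hT
  intro y hy
  rw [mem_filter, mem_image] at hy
  obtain ⟨⟨p, hp, rfl⟩, hv⟩ := hy
  exact H p hp hv

private theorem nd_mix {ρ : ℝ} (hρ : 1 < ρ) {K : ℕ} (hK : 1 ≤ K) {S : Finset P}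
    (hS : ∀ p ∈ S, p = (0, 0) ∨ ∃ i : ℕ, i < K ∧ (p = (ρ ^ i, 0) ∨ p = (0, ρ ^ i)))
    {d : P} {i j : ℕ} (hi : i < K) (hj : j < K)
    (he : cr d (ρ ^ i, 0) = cr d (0, ρ ^ j)) :
    ((S.image (cr d)).filter (fun y => cr d (ρ ^ i, 0) < y)).card ≤ K := by
  have hρ0 : 0 < ρ := by linarith
  have hpow : ∀ k, 0 < ρ ^ k := fun k => pow_pos hρ0 k
  have c1 : ∀ k, cr d (ρ ^ k, 0) = -d.2 * ρ ^ k := by intro k; simp [cr]
  have c2 : ∀ k, cr d (0, ρ ^ k) = d.1 * ρ ^ k := by intro k; simp [cr]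
  have c0 : cr d (0, 0) = 0 := by simp [cr]
  rw [c1, c2] at he
  rw [c1]
  rcases lt_trichotomy (-d.2) 0 with hα | hα | hα
  · -- negative
    have hβ : d.1 < 0 := by
      have h1 := mul_neg_of_neg_of_pos hα (hpow i)
      rw [he] at h1
      exact neg_of_mul_neg_left h1 (hpow j).le
    refine nd_card (insert 0 ((range (K - 1)).image (fun m => -d.2 * ρ ^ i * (ρ ^ (m + 1))⁻¹)))
      ?_ ?_
    · refine le_trans (card_insert_le _ _) ?_
      have := card_image_le (s := range (K - 1)) (f := fun m => -d.2 * ρ ^ i * (ρ ^ (m + 1))⁻¹)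
      rw [card_range] at this
      omega
    · intro p hp hv
      rcases hS p hp with rfl | ⟨k, hk, rfl | rfl⟩
      · rw [c0]; exact mem_insert_self _ _
      · rw [c1] at hv ⊢
        have hki : k < i := by
          by_contra h
          have h1 : ρ ^ i ≤ ρ ^ k := pow_le_pow_right₀ hρ.le (by omega)
          nlinarith
        refine mem_insert_of_mem (mem_image.mpr ⟨i - k - 1, mem_range.mpr (by omega), ?_⟩)
        rw [show i - k - 1 + 1 = i - k by omega]
        have h1 : ρ ^ i = ρ ^ k * ρ ^ (i - k) := by rw [← pow_add]; congr 1; omega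
        rw [h1]
        field_simp
      · rw [c2] at hv ⊢
        rw [he] at hv
        have hki : k < j := by
          by_contra h
          have h1 : ρ ^ j ≤ ρ ^ k := pow_le_pow_right₀ hρ.le (by omega)
          nlinarith
        refine mem_insert_of_mem (mem_image.mpr ⟨j - k - 1, mem_range.mpr (by omega), ?_⟩)
        rw [show j - k - 1 + 1 = j - k by omega]
        simp only [he]
        have h1 : ρ ^ j = ρ ^ k * ρ ^ (j - k) := by rw [← pow_add]; congr 1; omega
        rw [h1]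
        field_simp
  · -- zero
    have hβ : d.1 = 0 := by
      rw [hα, zero_mul] at he
      rcases mul_eq_zero.mp he.symm with h | h
      · exact h
      · exact absurd h (hpow j).ne'
    refine nd_card ∅ (by simp) ?_
    intro p hp hv
    exfalso
    rcases hS p hp with rfl | ⟨k, hk, rfl | rfl⟩
    · rw [c0, hα] at hv
      simp at hv
    · rw [c1, hα] at hv
      simp at hv
    · rw [c2, hα, hβ] at hv
      simp at hv
  · -- positive
    have hβ : 0 < d.1 := by
      have h1 := mul_pos hα (hpow i)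
      rw [he] at h1
      exact pos_of_mul_pos_left h1 (hpow j).le
    refine nd_card ((range (K - 1)).image (fun m => -d.2 * ρ ^ i * ρ ^ (m + 1))) ?_ ?_
    · have := card_image_le (s := range (K - 1)) (f := fun m => -d.2 * ρ ^ i * ρ ^ (m + 1))
      rw [card_range] at this
      omega
    · intro p hp hv
      rcases hS p hp with rfl | ⟨k, hk, rfl | rfl⟩
      · rw [c0] at hv
        have := mul_pos hα (hpow i)
        linarith
      · rw [c1] at hv ⊢
        have hki : i < k := by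
          by_contra h
          have h1 : ρ ^ k ≤ ρ ^ i := pow_le_pow_right₀ hρ.le (by omega)
          nlinarith
        refine mem_image.mpr ⟨k - i - 1, mem_range.mpr (by omega), ?_⟩
        rw [show k - i - 1 + 1 = k - i by omega, mul_assoc, ← pow_add,
          show i + (k - i) = k by omega]
      · rw [c2] at hv ⊢
        rw [he] at hv
        have hki : j < k := by
          by_contra h
          have h1 : ρ ^ k ≤ ρ ^ j := pow_le_pow_right₀ hρ.le (by omega)
          nlinarith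
        refine mem_image.mpr ⟨k - j - 1, mem_range.mpr (by omega), ?_⟩
        simp only [he]
        rw [show k - j - 1 + 1 = k - j by omega, mul_assoc, ← pow_add,
          show j + (k - j) = k by omega]

private theorem nd_x {ρ : ℝ} {K : ℕ} {S : Finset P}
    (hS : ∀ p ∈ S, p = (0, 0) ∨ ∃ i : ℕ, i < K ∧ (p = (ρ ^ i, 0) ∨ p = (0, ρ ^ i)))
    {d : P} (hd : d.2 = 0) :
    ((S.image (cr d)).filter (fun y => 0 < y)).card ≤ K := by
  refine nd_card ((range K).image (fun m => d.1 * ρ ^ m)) ?_ ?_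
  · have := card_image_le (s := range K) (f := fun m => d.1 * ρ ^ m)
    rwa [card_range] at this
  · intro p hp hv
    rcases hS p hp with rfl | ⟨k, hk, rfl | rfl⟩
    · simp [cr] at hv
    · simp [cr, hd] at hv
    · exact mem_image.mpr ⟨k, mem_range.mpr hk, by simp [cr]⟩

private theorem nd_y {ρ : ℝ} {K : ℕ} {S : Finset P}
    (hS : ∀ p ∈ S, p = (0, 0) ∨ ∃ i : ℕ, i < K ∧ (p = (ρ ^ i, 0) ∨ p = (0, ρ ^ i)))
    {d : P} (hd : d.1 = 0) :
    ((S.image (cr d)).filter (fun y => 0 < y)).card ≤ K := by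
  refine nd_card ((range K).image (fun m => -d.2 * ρ ^ m)) ?_ ?_
  · have := card_image_le (s := range K) (f := fun m => -d.2 * ρ ^ m)
    rwa [card_range] at this
  · intro p hp hv
    rcases hS p hp with rfl | ⟨k, hk, rfl | rfl⟩
    · simp [cr] at hv
    · exact mem_image.mpr ⟨k, mem_range.mpr hk, by simp [cr]⟩
    · simp [cr, hd] at hv

/-- nd (M). The set `Vee`. -/
theorem adm_vee {ρ : ℝ} (hρ : 1 < ρ) {K : ℕ} (hK : 1 ≤ K) {S : Finset P}
    (hS : (S : Set P) = Vee ρ K) : Adm S K := by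
  have hS' : ∀ p ∈ S, p = (0, 0) ∨ ∃ i : ℕ, i < K ∧ (p = (ρ ^ i, 0) ∨ p = (0, ρ ^ i)) := by
    intro p hp
    have h1 : p ∈ (S : Set P) := hp
    rw [hS] at h1
    exact h1
  have hρ0 : 0 < ρ := by linarith
  have hpow : ∀ k, 0 < ρ ^ k := fun k => pow_pos hρ0 k
  have hinj : ∀ i k : ℕ, ρ ^ i = ρ ^ k → i = k := fun i k h => pow_right_injective₀ hρ0 hρ.ne' h
  intro d p hp q hq hpq he
  have hx : ∀ x x' : ℝ, x ≠ x' → cr d (x, 0) = cr d (x', 0) → d.2 = 0 ∧ cr d (x, 0) = 0 := by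
    intro x x' hne h
    have h1 : d.2 * (x' - x) = 0 := by simp only [cr] at h; linarith
    rcases mul_eq_zero.mp h1 with h2 | h2
    · exact ⟨h2, by simp [cr, h2]⟩
    · exact absurd (by linarith) hne
  have hy : ∀ x x' : ℝ, x ≠ x' → cr d (0, x) = cr d (0, x') → d.1 = 0 ∧ cr d (0, x) = 0 := by
    intro x x' hne h
    have h1 : d.1 * (x' - x) = 0 := by simp only [cr] at h; linarith
    rcases mul_eq_zero.mp h1 with h2 | h2
    · exact ⟨h2, by simp [cr, h2]⟩
    · exact absurd (by linarith) hne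
  rcases hS' p hp with rfl | ⟨i, hi, rfl | rfl⟩ <;> rcases hS' q hq with rfl | ⟨j, hj, rfl | rfl⟩
  · exact absurd rfl hpq
  · obtain ⟨h1, h2⟩ := hx 0 (ρ ^ j) (hpow j).ne he
    rw [h2]; exact nd_x hS' h1
  · obtain ⟨h1, h2⟩ := hy 0 (ρ ^ j) (hpow j).ne he
    rw [h2]; exact nd_y hS' h1
  · obtain ⟨h1, h2⟩ := hx (ρ ^ i) 0 (hpow i).ne' he
    rw [h2]; exact nd_x hS' h1
  · obtain ⟨h1, h2⟩ := hx (ρ ^ i) (ρ ^ j) (fun h => hpq (by rw [h])) he
    rw [h2]; exact nd_x hS' h1
  · exact nd_mix hρ hK hS' hi hj he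
  · obtain ⟨h1, h2⟩ := hy (ρ ^ i) 0 (hpow i).ne' he
    rw [h2]; exact nd_y hS' h1
  · rw [he]
    exact nd_mix hρ hK hS' hj hi he.symm
  · obtain ⟨h1, h2⟩ := hy (ρ ^ i) (ρ ^ j) (fun h => hpq (by rw [h])) he
    rw [h2]; exact nd_y hS' h1


private theorem ne_card {z : ℝ} {n : ℕ} {S : Finset P} (hS : (S : Set P) = Hy z n) {d : P}
    {v : ℝ} {K : ℕ} (T : Finset ℕ) (F : ℕ → ℝ) (hT : T.card ≤ K)
    (H : ∀ k : ℕ, k < n → v < cr d (z ^ k, (z ^ k)⁻¹) →
      ∃ m ∈ T, F m = cr d (z ^ k, (z ^ k)⁻¹)) :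
    ((S.image (cr d)).filter (fun y => v < y)).card ≤ K := by
  refine le_trans (le_trans (card_le_card ?_) (card_image_le (s := T) (f := F))) hT
  intro y hy
  rw [mem_filter, mem_image] at hy
  obtain ⟨⟨p, hp, rfl⟩, hv⟩ := hy
  have h1 : p ∈ (S : Set P) := hp
  rw [hS] at h1
  obtain ⟨k, hk, rfl⟩ := h1
  obtain ⟨m, hm, he⟩ := H k hk hv
  exact mem_image.mpr ⟨m, hm, he⟩

private theorem ne_cr {z : ℝ} (hz : z < -1) {i j : ℕ} (hij : i ≠ j) {d : P}
    (hd : cr d (z ^ i, (z ^ i)⁻¹) = cr d (z ^ j, (z ^ j)⁻¹)) (k : ℕ) :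
    cr d (z ^ k, (z ^ k)⁻¹) = -d.2 * (z ^ (k : ℤ) + z ^ ((i : ℤ) + j - k)) := by
  have hz0 : z ≠ 0 := by
    intro h0
    rw [h0] at hz
    linarith
  have hne : z ^ i ≠ z ^ j := by
    intro h
    have h1 : |z| ^ i = |z| ^ j := by rw [← abs_pow, ← abs_pow, h]
    have h2 : 1 < |z| := by rw [abs_of_neg (by linarith)]; linarith
    exact hij (pow_right_injective₀ (by linarith) h2.ne' h1)
  have hzi : z ^ i ≠ 0 := pow_ne_zero _ hz0
  have hzj : z ^ j ≠ 0 := pow_ne_zero _ hz0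
  have h1 : d.1 = -d.2 * (z ^ i * z ^ j) := by
    unfold cr at hd
    simp only at hd
    have h2 : (z ^ j - z ^ i) * (d.1 + d.2 * (z ^ i * z ^ j)) = 0 := by
      have h3 : d.1 * z ^ j - d.2 * z ^ i * (z ^ i * z ^ j) =
          d.1 * z ^ i - d.2 * z ^ j * (z ^ i * z ^ j) := by
        have h4 : (d.1 * (z ^ i)⁻¹ - d.2 * z ^ i) * (z ^ i * z ^ j) =
            (d.1 * (z ^ j)⁻¹ - d.2 * z ^ j) * (z ^ i * z ^ j) := by rw [hd]
        have h5 : (d.1 * (z ^ i)⁻¹ - d.2 * z ^ i) * (z ^ i * z ^ j) =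
            d.1 * z ^ j - d.2 * z ^ i * (z ^ i * z ^ j) := by field_simp
        have h6 : (d.1 * (z ^ j)⁻¹ - d.2 * z ^ j) * (z ^ i * z ^ j) =
            d.1 * z ^ i - d.2 * z ^ j * (z ^ i * z ^ j) := by field_simp
        rw [← h5, ← h6, h4]
      linarith
    rcases mul_eq_zero.mp h2 with h3 | h3
    · exact absurd (by linarith) hne
    · linarith
  have h2 : z ^ ((i : ℤ) + j - k) = z ^ i * z ^ j * (z ^ k)⁻¹ := by
    rw [zpow_sub₀ hz0, zpow_add₀ hz0, zpow_natCast, zpow_natCast, zpow_natCast, div_eq_mul_inv]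
  rw [h2, zpow_natCast]
  unfold cr
  simp only
  rw [h1]
  ring

private theorem ne_neg {τ x y : ℝ} (hτ : τ < 0) (h : τ * x < τ * y) : y < x := by
  by_contra h1
  have := mul_le_mul_of_nonpos_left (not_lt.mp h1) hτ.le
  linarith

private theorem ne_H {a : ℝ} (ha : 1 < a) (c : ℤ) {e e' : ℕ} (h : e < e') :
    a ^ (c + e) + a ^ (c - e) < a ^ (c + e') + a ^ (c - e') := by
  have ha0 : 0 < a := by linarith
  have step : ∀ n : ℕ, a ^ (c + n) + a ^ (c - n) <
      a ^ (c + ((n + 1 : ℕ) : ℤ)) + a ^ (c - ((n + 1 : ℕ) : ℤ)) := by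
    intro n
    have h1 : a ^ (c + ((n + 1 : ℕ) : ℤ)) = a ^ (c + n) * a := by
      rw [show c + ((n + 1 : ℕ) : ℤ) = c + n + 1 by push_cast; ring, zpow_add_one₀ ha0.ne']
    have h2 : a ^ (c - n) = a ^ (c - ((n + 1 : ℕ) : ℤ)) * a := by
      rw [← zpow_add_one₀ ha0.ne']
      congr 1
      push_cast
      ring
    have h3 : a ^ (c - ((n + 1 : ℕ) : ℤ)) < a ^ (c + n) :=
      zpow_lt_zpow_right₀ ha (by push_cast; omega)
    rw [h1, h2]
    nlinarith
  have : StrictMono (fun n : ℕ => a ^ (c + n) + a ^ (c - n)) := strictMono_nat_of_lt_succ step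
  exact this h

private theorem ne_L {a : ℝ} (c : ℤ) (e : ℕ) :
    (-a) ^ (c + e) + (-a) ^ (c - e) =
      (if Even (c + e) then (1 : ℝ) else -1) * (a ^ (c + e) + a ^ (c - e)) := by
  by_cases h : Even (c + e)
  · have h2 : Even (c - e) := by
      have : c - e = c + e - 2 * e := by ring
      rw [this]
      exact h.sub (even_two_mul _)
    rw [if_pos h, h.neg_zpow, h2.neg_zpow]
    ring
  · have h' : Odd (c + e) := Int.not_even_iff_odd.mp h
    have h2 : Odd (c - e) := by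
      have : c - e = c + e - 2 * e := by ring
      rw [this]
      exact h'.sub_even (even_two_mul _)
    rw [if_neg h, h'.neg_zpow, h2.neg_zpow]
    ring

private theorem ne_set {K E e₀ : ℕ} (h : e₀ + E ≤ 2 * K) (he : 1 ≤ e₀) :
    ((range (E + 1)).filter (fun e => (e % 2 = e₀ % 2 ∧ e < e₀) ∨ e % 2 ≠ e₀ % 2)).card ≤ K := by
  have := card_le_card_of_injOn (s := (range (E + 1)).filter
    (fun e => (e % 2 = e₀ % 2 ∧ e < e₀) ∨ e % 2 ≠ e₀ % 2)) (t := range K)
    (fun e => if e % 2 = e₀ % 2 then K - 1 - e / 2 else e / 2) (by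
      intro e hm
      simp only [coe_filter, mem_range, Set.mem_ofPred_eq] at hm
      simp only [coe_range, Set.mem_Iio]
      split_ifs with h1
      · omega
      · omega) (by
      intro e hm e' hm' heq
      simp only [coe_filter, mem_range, Set.mem_ofPred_eq] at hm hm'
      simp only at heq
      split_ifs at heq with h1 h2 h2
      · omega
      · omega
      · omega
      · omega)
  rwa [card_range] at this

private theorem ne_set' {K E e₀ : ℕ} (h : E ≤ 2 * K) (he : 1 ≤ e₀) :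
    ((range (E + 1)).filter (fun e => e % 2 = e₀ % 2 ∧ e₀ < e)).card ≤ K := by
  have := card_le_card_of_injOn (s := (range (E + 1)).filter
    (fun e => e % 2 = e₀ % 2 ∧ e₀ < e)) (t := range K)
    (fun e => e / 2 - 1) (by
      intro e hm
      simp only [coe_filter, mem_range, Set.mem_ofPred_eq] at hm
      simp only [coe_range, Set.mem_Iio]
      omega) (by
      intro e hm e' hm' heq
      simp only [coe_filter, mem_range, Set.mem_ofPred_eq] at hm hm'
      simp only at heq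
      omega)
  rwa [card_range] at this

/-- ne (M). The set `Hy`, chords `(i, j)` with `i + j` even. Let `L = log |z|`, `s = i + j = 2c`
and (by the symmetry `(x, y) ↦ (z^(2K) y, z^(-2K) x)`, i.e. `k ↦ 2K - k`) `c ≤ K`. The functional
`x + z^s y` has the value `(-1)^k 2 |z|^c cosh((k - c) L)` at the `k`-th point; its levels
correspond to `e = |k - c| ∈ [0, 2K - c]`, with sign `(-1)^(c+e)`. The level of the chord is
`e₀ ≤ c`, `e₀ ≥ 1`. On the far side there are the `e > e₀`, `e ≡ e₀` mod 2; on the near side the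
`e < e₀`, `e ≡ e₀`, and all `e ≢ e₀`: at most `e₀/2 + (2K - c + 1)/2 ≤ K + 1/2`. -/
theorem adm_hy_even {z : ℝ} (hz : z < -1) {K i j : ℕ} (hi : i ≤ 2 * K) (hj : j ≤ 2 * K)
    (hij : i < j) (he : Even (i + j)) {S : Finset P} (hS : (S : Set P) = Hy z (2 * K + 1)) {d : P}
    (hd : cr d (z ^ i, (z ^ i)⁻¹) = cr d (z ^ j, (z ^ j)⁻¹)) :
    ((S.image (cr d)).filter (fun y => cr d (z ^ i, (z ^ i)⁻¹) < y)).card ≤ K := by
  have hcr := ne_cr hz hij.ne hd
  obtain ⟨c, hc⟩ := he
  set a : ℝ := -z with ha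
  have ha1 : 1 < a := by linarith
  have ha0 : 0 < a := by linarith
  have hza : z = -a := by rw [ha]; ring
  have hlev : ∀ k : ℕ, cr d (z ^ k, (z ^ k)⁻¹) = -d.2 *
      ((if Even ((c : ℤ) + ((k : ℤ) - c).natAbs) then (1 : ℝ) else -1) *
      (a ^ ((c : ℤ) + ((k : ℤ) - c).natAbs) + a ^ ((c : ℤ) - ((k : ℤ) - c).natAbs))) := by
    intro k
    rw [hcr k, ← ne_L, ← hza]
    congr 1
    rcases le_total (c : ℤ) k with h | h
    · rw [show (c : ℤ) + ((k : ℤ) - c).natAbs = k by omega,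
        show (c : ℤ) - ((k : ℤ) - c).natAbs = (i : ℤ) + j - k by omega]
    · rw [show (c : ℤ) + ((k : ℤ) - c).natAbs = (i : ℤ) + j - k by omega,
        show (c : ℤ) - ((k : ℤ) - c).natAbs = k by omega, add_comm]
  have hHpos : ∀ e : ℕ, 0 < a ^ ((c : ℤ) + e) + a ^ ((c : ℤ) - e) := fun e =>
    add_pos (zpow_pos ha0 _) (zpow_pos ha0 _)
  have hHlt : ∀ e e' : ℕ, a ^ ((c : ℤ) + e) + a ^ ((c : ℤ) - e) <
      a ^ ((c : ℤ) + e') + a ^ ((c : ℤ) - e') → e < e' := by
    intro e e' h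
    by_contra h1
    rcases Nat.eq_or_lt_of_le (not_lt.mp h1) with h2 | h2
    · rw [h2] at h; exact lt_irrefl _ h
    · exact lt_asymm h (ne_H ha1 c h2)
  obtain ⟨e₀, he₀⟩ : ∃ e₀ : ℕ, e₀ = c - i := ⟨_, rfl⟩
  have hei : ((i : ℤ) - c).natAbs = e₀ := by omega
  have hv := hlev i
  rw [hei] at hv
  have hpar : ∀ e : ℕ, e % 2 = e₀ % 2 → (if Even ((c : ℤ) + e) then (1 : ℝ) else -1) =
      (if Even ((c : ℤ) + e₀) then (1 : ℝ) else -1) := by
    intro e h
    have : Even ((c : ℤ) + e) ↔ Even ((c : ℤ) + e₀) := by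
      rw [Int.even_iff, Int.even_iff]; omega
    simp only [this]
  have hpar' : ∀ e : ℕ, e % 2 ≠ e₀ % 2 → (if Even ((c : ℤ) + e) then (1 : ℝ) else -1) =
      -(if Even ((c : ℤ) + e₀) then (1 : ℝ) else -1) := by
    intro e h
    have : Even ((c : ℤ) + e) ↔ ¬ Even ((c : ℤ) + e₀) := by
      rw [Int.even_iff, Int.even_iff]; omega
    by_cases h1 : Even ((c : ℤ) + e₀)
    · rw [if_pos h1, if_neg (by rw [this]; exact not_not.mpr h1)]
    · rw [if_neg h1, if_pos (this.mpr h1)]; norm_num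
  have hsq : ∀ m : ℤ, (if Even m then (1 : ℝ) else -1) ≠ 0 := by
    intro m
    split_ifs <;> norm_num
  set τ : ℝ := -d.2 * (if Even ((c : ℤ) + e₀) then (1 : ℝ) else -1) with hτ
  have hv' : cr d (z ^ i, (z ^ i)⁻¹) = τ * (a ^ ((c : ℤ) + e₀) + a ^ ((c : ℤ) - e₀)) := by
    rw [hv, hτ]; ring
  rcases lt_trichotomy τ 0 with hs | hs | hs
  · refine ne_card hS _ (fun e => -d.2 * ((if Even ((c : ℤ) + e) then (1 : ℝ) else -1) *
      (a ^ ((c : ℤ) + e) + a ^ ((c : ℤ) - e)))) (ne_set (K := K) (E := max c (2 * K - c)) (e₀ := e₀)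
      (by omega) (by omega)) ?_
    intro k hk hlt
    refine ⟨((k : ℤ) - c).natAbs, ?_, (hlev k).symm⟩
    rw [mem_filter, mem_range]
    refine ⟨by omega, ?_⟩
    by_cases hp : ((k : ℤ) - c).natAbs % 2 = e₀ % 2
    · left
      refine ⟨hp, ?_⟩
      rw [hv', hlev k, hpar _ hp, ← mul_assoc, ← hτ] at hlt
      exact hHlt _ _ (ne_neg hs hlt)
    · right; exact hp
  · refine ne_card hS ∅ (fun _ => 0) (by simp) ?_
    intro k hk hlt
    exfalso
    rw [hv', hs, zero_mul] at hlt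
    have hd2 : -d.2 = 0 := by
      rcases mul_eq_zero.mp hs with h | h
      · exact h
      · exact absurd h (hsq _)
    rw [hlev k, hd2, zero_mul] at hlt
    exact lt_irrefl _ hlt
  · refine ne_card hS _ (fun e => -d.2 * ((if Even ((c : ℤ) + e) then (1 : ℝ) else -1) *
      (a ^ ((c : ℤ) + e) + a ^ ((c : ℤ) - e)))) (ne_set' (K := K) (E := max c (2 * K - c))
      (e₀ := e₀) (by omega) (by omega)) ?_
    intro k hk hlt
    refine ⟨((k : ℤ) - c).natAbs, ?_, (hlev k).symm⟩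
    rw [mem_filter, mem_range]
    refine ⟨by omega, ?_⟩
    have hp : ((k : ℤ) - c).natAbs % 2 = e₀ % 2 := by
      by_contra hp
      rw [hv', hlev k, hpar' _ hp] at hlt
      have h1 := mul_pos hs (hHpos e₀)
      have h2 := mul_pos hs (hHpos ((k : ℤ) - c).natAbs)
      rw [hτ] at h2
      linarith
    refine ⟨hp, ?_⟩
    rw [hv', hlev k, hpar _ hp, ← mul_assoc, ← hτ] at hlt
    exact hHlt _ _ (lt_of_mul_lt_mul_left hlt hs.le)


private theorem nf_mono {a : ℝ} (ha : 1 < a) (s : ℤ) {x y : ℤ} (h : x < y) :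
    a ^ x - a ^ (s - x) < a ^ y - a ^ (s - y) := by
  have h1 : a ^ x < a ^ y := zpow_lt_zpow_right₀ ha h
  have h2 : a ^ (s - y) < a ^ (s - x) := zpow_lt_zpow_right₀ ha (by omega)
  linarith

private theorem nf_even {z : ℝ} (hz : z < -1) {K i j : ℕ} (hi : i ≤ 2 * K) (hj : j ≤ 2 * K)
    (hie : Even i) (hjo : Odd j) {S : Finset P} (hS : (S : Set P) = Hy z (2 * K + 1)) {d : P}
    (hd : cr d (z ^ i, (z ^ i)⁻¹) = cr d (z ^ j, (z ^ j)⁻¹)) :
    ((S.image (cr d)).filter (fun y => cr d (z ^ i, (z ^ i)⁻¹) < y)).card ≤ K := by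
  have hij : i ≠ j := by
    rintro rfl
    exact (Nat.not_even_iff_odd.mpr hjo) hie
  have hcr := ne_cr hz hij hd
  obtain ⟨i', hi'⟩ := hie
  obtain ⟨j', hj'⟩ := hjo
  set a : ℝ := -z with ha
  have ha1 : 1 < a := by linarith
  have ha0 : 0 < a := by linarith
  have hza : z = -a := by rw [ha]; ring
  have hlev : ∀ k : ℕ, ∃ x : ℤ, cr d (z ^ k, (z ^ k)⁻¹) =
      -d.2 * (a ^ (2 * x) - a ^ ((i : ℤ) + j - 2 * x)) ∧ (2 * x = k ∨ 2 * x = (i : ℤ) + j - k) := by
    intro k
    rcases Nat.even_or_odd' k with ⟨c, hc | hc⟩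
    · refine ⟨c, ?_, Or.inl (by omega)⟩
      have e1 : Even (k : ℤ) := ⟨c, by omega⟩
      have e2 : Odd ((i : ℤ) + j - k) := ⟨i' + j' - c, by omega⟩
      rw [hcr k, hza, e1.neg_zpow, e2.neg_zpow, show 2 * (c : ℤ) = k by omega]
      ring
    · refine ⟨(i' : ℤ) + j' - c, ?_, Or.inr (by omega)⟩
      have e1 : Odd (k : ℤ) := ⟨c, by omega⟩
      have e2 : Even ((i : ℤ) + j - k) := ⟨i' + j' - c, by omega⟩
      rw [hcr k, hza, e1.neg_zpow, e2.neg_zpow,
        show 2 * ((i' : ℤ) + j' - c) = (i : ℤ) + j - k by omega,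
        show (i : ℤ) + j - ((i : ℤ) + j - k) = k by ring]
      ring
  have hvi : cr d (z ^ i, (z ^ i)⁻¹) =
      -d.2 * (a ^ (2 * (i' : ℤ)) - a ^ ((i : ℤ) + j - 2 * i')) := by
    have e1 : Even (i : ℤ) := ⟨i', by omega⟩
    have e2 : Odd ((i : ℤ) + j - i) := ⟨j', by omega⟩
    rw [hcr i, hza, e1.neg_zpow, e2.neg_zpow, show 2 * (i' : ℤ) = i by omega]
    ring
  have hlt : ∀ x y : ℤ, a ^ (2 * x) - a ^ ((i : ℤ) + j - 2 * x) <
      a ^ (2 * y) - a ^ ((i : ℤ) + j - 2 * y) → x < y := by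
    intro x y h
    by_contra h1
    rcases eq_or_lt_of_le (not_lt.mp h1) with h2 | h2
    · rw [h2] at h; exact lt_irrefl _ h
    · exact lt_asymm h (nf_mono ha1 _ (by omega))
  rcases lt_trichotomy (-d.2) 0 with hs | hs | hs
  · refine ne_card hS (range K) (fun m => -d.2 * (a ^ (2 * ((i' : ℤ) - 1 - m)) -
      a ^ ((i : ℤ) + j - 2 * ((i' : ℤ) - 1 - m)))) (by rw [card_range]) ?_
    intro k hk hv
    obtain ⟨x, hx, hx'⟩ := hlev k
    rw [hvi, hx] at hv
    have h1 : x < i' := hlt _ _ (ne_neg hs hv)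
    refine ⟨((i' : ℤ) - 1 - x).toNat, mem_range.mpr ?_, ?_⟩
    · rcases hx' with h | h <;> omega
    · rw [hx]
      rw [show (i' : ℤ) - 1 - (((i' : ℤ) - 1 - x).toNat : ℤ) = x by omega]
  · refine ne_card hS ∅ (fun _ => 0) (by simp) ?_
    intro k hk hv
    exfalso
    obtain ⟨x, hx, -⟩ := hlev k
    rw [hvi, hx, hs, zero_mul, zero_mul] at hv
    exact lt_irrefl _ hv
  · refine ne_card hS (range K) (fun m => -d.2 * (a ^ (2 * ((i' : ℤ) + 1 + m)) -
      a ^ ((i : ℤ) + j - 2 * ((i' : ℤ) + 1 + m)))) (by rw [card_range]) ?_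
    intro k hk hv
    obtain ⟨x, hx, hx'⟩ := hlev k
    rw [hvi, hx] at hv
    have h1 : (i' : ℤ) < x := hlt _ _ (lt_of_mul_lt_mul_left hv hs.le)
    refine ⟨(x - 1 - i').toNat, mem_range.mpr ?_, ?_⟩
    · rcases hx' with h | h <;> omega
    · rw [hx]
      rw [show (i' : ℤ) + 1 + ((x - 1 - i').toNat : ℤ) = x by omega]

/-- nf (M). The set `Hy`, chords `(i, j)` with `i + j` odd, `s = i + j`: the functional `x + z^s y` is
`2 |z|^(s/2) sinh(e L)` with `e = k - s/2` for even `k` and `e = s/2 - k` for odd `k`; all `e` are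
`≡ -s/2` mod 2. If `i` is even the chord has `e₀ = i - s/2`; above it are at most
`max ((2K - i)/2, (j - 1)/2)` levels, below it at most `max (i/2, (2K - 1 - j)/2)`. -/
theorem adm_hy_odd {z : ℝ} (hz : z < -1) {K i j : ℕ} (hi : i ≤ 2 * K) (hj : j ≤ 2 * K)
    (hij : i ≠ j) (he : Odd (i + j)) {S : Finset P} (hS : (S : Set P) = Hy z (2 * K + 1)) {d : P}
    (hd : cr d (z ^ i, (z ^ i)⁻¹) = cr d (z ^ j, (z ^ j)⁻¹)) :
    ((S.image (cr d)).filter (fun y => cr d (z ^ i, (z ^ i)⁻¹) < y)).card ≤ K := by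
  rcases Nat.even_or_odd i with hi' | hi'
  · have hj' : Odd j := by
      rcases Nat.even_or_odd j with h | h
      · exact absurd (hi'.add h) (Nat.not_even_iff_odd.mpr he)
      · exact h
    exact nf_even hz hi hj hi' hj' hS hd
  · have hj' : Even j := by
      rcases Nat.even_or_odd j with h | h
      · exact h
      · exact absurd (hi'.add_odd h) (Nat.not_even_iff_odd.mpr he)
    rw [hd]
    exact nf_even hz hj hi hj' hi' hS hd.symm


/-- ng (S). Assembly. -/
theorem adm_hy {z : ℝ} (hz : z < -1) {K : ℕ} {S : Finset P}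
    (hS : (S : Set P) = Hy z (2 * K + 1)) : Adm S K := by
  intro d p hp q hq hpq he
  have hp' : p ∈ (S : Set P) := hp
  have hq' : q ∈ (S : Set P) := hq
  rw [hS] at hp' hq'
  obtain ⟨i, hi, rfl⟩ := hp'
  obtain ⟨j, hj, rfl⟩ := hq'
  have hij : i ≠ j := fun h => hpq (by rw [h])
  rcases Nat.even_or_odd (i + j) with h | h
  · rcases lt_or_gt_of_ne hij with h1 | h1
    · exact adm_hy_even hz (by omega) (by omega) h1 h hS he
    · rw [he]
      exact adm_hy_even hz (by omega) (by omega) h1 (by rwa [add_comm]) hS he.symm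
  · exact adm_hy_odd hz (by omega) (by omega) hij h hS he


end Cvc
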