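import Mathlib
import Pool.Agent.Cvc.Defs

set_option autoImplicit false

open Finset

namespace Cvc

/-- aa (S). A finite set has a linear functional `x + t y` which is injective on it. -/
theorem exists_gen (S : Finset P) :
    ∃ t : ℝ, ∀ p ∈ S, ∀ q ∈ S, p ≠ q → p.1 + t * p.2 ≠ q.1 + t * q.2 := by
  classical
  obtain ⟨t, ht⟩ := Infinite.exists_notMem_finset
    ((S ×ˢ S).image (fun w => (w.1.1 - w.2.1) / (w.2.2 - w.1.2)))
  refine ⟨t, ?_⟩
  intro p hp q hq hpq he
  by_cases h : q.2 - p.2 = 0
  · apply hpq
    have h1 : q.2 = p.2 := by linarith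
    rw [h1] at he
    ext
    · linarith
    · exact h1.symm
  · apply ht
    rw [Finset.mem_image]
    refine ⟨(p, q), Finset.mem_product.mpr ⟨hp, hq⟩, ?_⟩
    rw [div_eq_iff h]
    linarith

private theorem ab_comb {S : Finset P} (hS : ConvexIndependent ℝ (fun x : S => (x : P)))
    {x y z w : P} (hx : x ∈ S) (hy : y ∈ S) (hz : z ∈ S) (hw : w ∈ S) (hxy : x ≠ y) (hxz : x ≠ z)
    (hxw : x ≠ w) {a b c : ℝ} (ha : 0 ≤ a) (hb : 0 ≤ b) (hc : 0 ≤ c) (hs : a + b + c = 1)
    (h : x = a • y + b • z + c • w) : False := by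
  have h1 := (convexIndependent_set_iff_notMem_convexHull_sdiff (s := (S : Set P))).mp hS x hx
  apply h1
  have hconv := convex_convexHull ℝ ((S : Set P) \ {x})
  have hm : ∀ {q : P}, q ∈ S → x ≠ q → q ∈ convexHull ℝ ((S : Set P) \ {x}) := by
    intro q hq hne
    exact subset_convexHull ℝ _ ⟨hq, fun h' => hne (Set.mem_singleton_iff.mp h').symm⟩
  have h2 := hconv.sum_mem (t := (Finset.univ : Finset (Fin 3))) (w := ![a, b, c])
    (z := ![y, z, w])
    (by intro i _; fin_cases i <;> simp [ha, hb, hc])
    (by simp [Fin.sum_univ_three, hs])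
    (by
      intro i _
      fin_cases i
      · exact hm hy hxy
      · exact hm hz hxz
      · exact hm hw hxw)
  rw [Fin.sum_univ_three] at h2
  simp only [Matrix.cons_val_zero, Matrix.cons_val_one, Matrix.cons_val_two, Matrix.tail_cons,
    Matrix.head_cons] at h2
  rwa [← h] at h2

/-- ab (S). No three points of a convex independent set are on a line. -/
theorem tri_ne {S : Finset P} (hS : ConvexIndependent ℝ (fun x : S => (x : P))) {p q r : P}
    (hp : p ∈ S) (hq : q ∈ S) (hr : r ∈ S) (hpq : p ≠ q) (hqr : q ≠ r) (hpr : p ≠ r) :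
    tri p q r ≠ 0 := by
  intro h0
  -- `r - p = t (q - p)`
  obtain ⟨t, ht⟩ : ∃ t : ℝ, r - p = t • (q - p) := by
    simp only [tri, cr, Prod.fst_sub, Prod.snd_sub] at h0
    by_cases h1 : q.1 - p.1 = 0
    · have h2 : q.2 - p.2 ≠ 0 := by
        intro h2
        apply hpq
        ext
        · linarith
        · linarith
      refine ⟨(r.2 - p.2) / (q.2 - p.2), ?_⟩
      rw [h1] at h0
      have h3 : r.1 - p.1 = 0 := by
        have : (q.2 - p.2) * (r.1 - p.1) = 0 := by linarith
        exact (mul_eq_zero.mp this).resolve_left h2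
      ext
      · simp only [Prod.fst_sub, Prod.smul_fst, smul_eq_mul, h1, h3, mul_zero]
      · simp only [Prod.snd_sub, Prod.smul_snd, smul_eq_mul]
        field_simp
    · refine ⟨(r.1 - p.1) / (q.1 - p.1), ?_⟩
      ext
      · simp only [Prod.fst_sub, Prod.smul_fst, smul_eq_mul]
        field_simp
      · simp only [Prod.snd_sub, Prod.smul_snd, smul_eq_mul]
        field_simp
        linarith
  have hr' : r = (1 - t) • p + t • q := by
    have : r = p + t • (q - p) := by rw [← ht]; abel
    rw [this, smul_sub, sub_smul, one_smul]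
    abel
  rcases lt_trichotomy t 0 with h1 | h1 | h1
  · -- `p` between `q` and `r`
    have h2 : (0 : ℝ) < 1 - t := by linarith
    refine ab_comb hS hp hq hr hr hpq hpr hpr (a := -t / (1 - t)) (b := 1 / (1 - t)) (c := 0)
      (by apply div_nonneg <;> linarith) (by positivity) le_rfl (by field_simp; ring) ?_
    rw [hr']
    ext
    · simp only [Prod.fst_add, Prod.smul_fst, smul_eq_mul]
      field_simp
      ring
    · simp only [Prod.snd_add, Prod.smul_snd, smul_eq_mul]
      field_simp
      ring
  · rw [h1] at hr'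
    apply hpr
    rw [hr']
    simp
  · rcases lt_trichotomy t 1 with h2 | h2 | h2
    · refine ab_comb hS hr hp hq hq hpr.symm hqr.symm hqr.symm (a := 1 - t) (b := t) (c := 0)
        (by linarith) h1.le le_rfl (by ring) ?_
      rw [zero_smul, add_zero]
      exact hr'
    · rw [h2] at hr'
      apply hqr
      rw [hr']
      simp
    · refine ab_comb hS hq hp hr hr hpq.symm hqr hqr (a := 1 - 1 / t) (b := 1 / t) (c := 0)
        ?_ (by positivity) le_rfl (by ring) ?_
      · have : 1 / t ≤ 1 := by rw [div_le_one h1]; exact h2.le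
        linarith
      · rw [hr']
        ext
        · simp only [Prod.fst_add, Prod.smul_fst, smul_eq_mul]
          field_simp
          ring
        · simp only [Prod.snd_add, Prod.smul_snd, smul_eq_mul]
          field_simp
          ring

/-- ac (M). Sorting around an extreme point. With `t` of `exists_gen` let `u 0` be the point of `S`
with the smallest value `x + t y`; on the other points `q` the key
`(q.2 - (u 0).2) / ((q.1 + t q.2) - ((u 0).1 + t (u 0).2))` is injective (`tri_ne`), and
`tri (u 0) q r > 0` iff the key of `q` is smaller than the key of `r`. Enumerate by increasing key. -/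
theorem exists_enum (S : Finset P) (h3 : 3 ≤ S.card)
    (hS : ConvexIndependent ℝ (fun x : S => (x : P))) :
    ∃ u : ℕ → P, (∀ i, i < S.card → u i ∈ S) ∧ (∀ p ∈ S, ∃ i, i < S.card ∧ u i = p) ∧
      ∀ i j, 0 < i → i < j → j < S.card → 0 < tri (u 0) (u i) (u j) := by
  classical
  obtain ⟨t, ht⟩ := exists_gen S
  have hne : S.Nonempty := Finset.card_pos.mp (by omega)
  obtain ⟨p0, hp0, hmin⟩ := S.exists_min_image (fun p => p.1 + t * p.2) hne
  set X : P → ℝ := fun q => (q.1 + t * q.2) - (p0.1 + t * p0.2) with hX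
  set κ : P → ℝ := fun q => (q.2 - p0.2) / X q with hκ
  have hXpos : ∀ q ∈ S.erase p0, 0 < X q := by
    intro q hq
    rw [Finset.mem_erase] at hq
    have h1 := hmin q hq.2
    have h2 := ht q hq.2 p0 hp0 hq.1
    have h3 : p0.1 + t * p0.2 < q.1 + t * q.2 := lt_of_le_of_ne h1 (Ne.symm h2)
    simp only [hX]
    linarith
  have htri : ∀ q ∈ S.erase p0, ∀ r ∈ S.erase p0, tri p0 q r = X q * X r * (κ r - κ q) := by
    intro q hq r hr
    have h1 := (hXpos q hq).ne'
    have h2 := (hXpos r hr).ne'
    simp only [hκ]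
    field_simp
    simp only [hX, tri, cr, Prod.fst_sub, Prod.snd_sub]
    ring
  have hinj : Set.InjOn κ (S.erase p0 : Finset P) := by
    intro q hq r hr hqr
    by_contra hne
    rw [Finset.mem_coe] at hq hr
    have h1 := htri q hq r hr
    rw [hqr, sub_self, mul_zero] at h1
    exact tri_ne hS hp0 (Finset.mem_of_mem_erase hq) (Finset.mem_of_mem_erase hr)
      (Finset.ne_of_mem_erase hq).symm hne (Finset.ne_of_mem_erase hr).symm h1
  set m := S.card - 1 with hm
  have hcard : ((S.erase p0).image κ).card = m := by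
    rw [Finset.card_image_of_injOn hinj, Finset.card_erase_of_mem hp0]
  set o := ((S.erase p0).image κ).orderEmbOfFin hcard with ho
  have hex : ∀ i : Fin m, ∃ q ∈ S.erase p0, κ q = o i := by
    intro i
    have := Finset.orderEmbOfFin_mem ((S.erase p0).image κ) hcard i
    rw [Finset.mem_image] at this
    exact this
  choose w hw hwκ using hex
  refine ⟨fun i => if h : 0 < i ∧ i - 1 < m then w ⟨i - 1, h.2⟩ else p0, ?_, ?_, ?_⟩
  · intro i hi
    simp only
    split_ifs with h
    · exact Finset.mem_of_mem_erase (hw _)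
    · exact hp0
  · intro p hp
    by_cases h0 : p = p0
    · refine ⟨0, by omega, ?_⟩
      simp [h0]
    · have h1 : κ p ∈ (S.erase p0).image κ :=
        Finset.mem_image_of_mem _ (Finset.mem_erase.mpr ⟨h0, hp⟩)
      have h2 : κ p ∈ Set.range o := by
        rw [ho, Finset.range_orderEmbOfFin]
        exact h1
      obtain ⟨i, hi⟩ := h2
      refine ⟨i + 1, by omega, ?_⟩
      have h3 : 0 < (i : ℕ) + 1 ∧ (i : ℕ) + 1 - 1 < m := ⟨by omega, by simp⟩
      simp only
      rw [dif_pos h3]
      have h4 : (⟨(i : ℕ) + 1 - 1, h3.2⟩ : Fin m) = i := by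
        ext; simp
      rw [h4]
      apply hinj (Finset.mem_coe.mpr (hw i))
        (Finset.mem_coe.mpr (Finset.mem_erase.mpr ⟨h0, hp⟩))
      rw [hwκ, hi]
  · intro i j hi hij hj
    simp only
    rw [dif_neg (by omega : ¬ (0 < 0 ∧ 0 - 1 < m)),
      dif_pos (⟨hi, by omega⟩ : 0 < i ∧ i - 1 < m),
      dif_pos (⟨by omega, by omega⟩ : 0 < j ∧ j - 1 < m)]
    rw [htri _ (hw _) _ (hw _)]
    have h1 := hXpos _ (hw ⟨i - 1, by omega⟩)
    have h2 := hXpos _ (hw ⟨j - 1, by omega⟩)
    have h3 : κ (w ⟨i - 1, by omega⟩) < κ (w ⟨j - 1, by omega⟩) := by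
      rw [hwκ, hwκ]
      apply o.strictMono
      rw [Fin.mk_lt_mk]
      omega
    have h4 : 0 < κ (w ⟨j - 1, by omega⟩) - κ (w ⟨i - 1, by omega⟩) := by linarith
    positivity

/-- ad (M). All triples are counterclockwise: if `tri (u i) (u j) (u k) ≤ 0` with `0 < i < j < k` then
`u j` is a convex combination of `u 0`, `u i`, `u k` (the coefficients are the areas
`-tri (u i) (u j) (u k)`, `tri (u 0) (u j) (u k)`, `tri (u 0) (u i) (u j)` divided by
`tri (u 0) (u i) (u k)`). -/
theorem enum_ccw {S : Finset P} (hS : ConvexIndependent ℝ (fun x : S => (x : P))) {u : ℕ → P}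
    (h1 : ∀ i, i < S.card → u i ∈ S)
    (h2 : ∀ i j, 0 < i → i < j → j < S.card → 0 < tri (u 0) (u i) (u j)) :
    ∀ i j k, i < j → j < k → k < S.card → 0 < tri (u i) (u j) (u k) := by
  intro i j k hij hjk hk
  rcases Nat.eq_zero_or_pos i with h0 | h0
  · subst h0
    exact h2 j k hij hjk hk
  · by_contra hcon
    rw [not_lt] at hcon
    have a1 := h2 i j h0 hij (by omega)
    have a2 := h2 j k (by omega) hjk hk
    have a3 := h2 i k h0 (by omega) hk
    have hT := a3.ne'
    have ne0 : u j ≠ u 0 := by
      intro he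
      rw [he] at a1
      simp [tri, cr] at a1
    have nei : u j ≠ u i := by
      intro he
      rw [he] at a1
      simp only [tri, cr] at a1
      linarith
    have nek : u j ≠ u k := by
      intro he
      rw [he] at a2
      simp only [tri, cr] at a2
      linarith
    refine ab_comb hS (h1 j (by omega)) (h1 0 (by omega)) (h1 i (by omega)) (h1 k hk) ne0 nei nek
      (a := -tri (u i) (u j) (u k) / tri (u 0) (u i) (u k))
      (b := tri (u 0) (u j) (u k) / tri (u 0) (u i) (u k))
      (c := tri (u 0) (u i) (u j) / tri (u 0) (u i) (u k))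
      (div_nonneg (by linarith) a3.le) (by positivity) (by positivity) ?_ ?_
    · rw [← add_div, ← add_div, div_eq_one_iff_eq hT]
      simp only [tri, cr, Prod.fst_sub, Prod.snd_sub]
      ring
    · have key : tri (u 0) (u i) (u k) • u j = (-tri (u i) (u j) (u k)) • u 0 +
          tri (u 0) (u j) (u k) • u i + tri (u 0) (u i) (u j) • u k := by
        ext
        · simp only [tri, cr, Prod.fst_sub, Prod.snd_sub, Prod.fst_add, Prod.smul_fst,
            smul_eq_mul]
          ring
        · simp only [tri, cr, Prod.fst_sub, Prod.snd_sub, Prod.snd_add, Prod.smul_snd,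
            smul_eq_mul]
          ring
      have h5 : u j = (tri (u 0) (u i) (u k))⁻¹ • (tri (u 0) (u i) (u k) • u j) := by
        rw [smul_smul, inv_mul_cancel₀ hT, one_smul]
      calc u j = (tri (u 0) (u i) (u k))⁻¹ • (tri (u 0) (u i) (u k) • u j) := h5
        _ = _ := by
          rw [key, smul_add, smul_add, smul_smul, smul_smul, smul_smul]
          simp only [div_eq_inv_mul]

private theorem ae_cyc (p q r : P) : tri p q r = tri q r p := by
  simp only [tri, cr, Prod.fst_sub, Prod.snd_sub]
  ring

/-- ae (M). The periodic extension `v i = u (i mod n)`. -/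
theorem exists_poly (S : Finset P) (h3 : 3 ≤ S.card)
    (hS : ConvexIndependent ℝ (fun x : S => (x : P))) :
    ∃ v : ℤ → P, Poly S.card v ∧ (∀ i, v i ∈ S) ∧ ∀ p ∈ S, ∃ i : ℤ, v i = p := by
  obtain ⟨u, hu1, hu2, hu3⟩ := exists_enum S h3 hS
  have hu := enum_ccw hS hu1 hu3
  set n : ℤ := (S.card : ℤ) with hn
  have hn0 : 0 < n := by omega
  have hper : ∀ i : ℤ, ∀ q : ℤ, u ((i + n * q) % n).toNat = u (i % n).toNat := by
    intro i q
    rw [Int.add_mul_emod_self_left]
  have hsm : ∀ i : ℤ, 0 ≤ i → i < n → u (i % n).toNat = u i.toNat := by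
    intro i h0 h1
    rw [Int.emod_eq_of_lt h0 h1]
  refine ⟨fun i => u (i % n).toNat, ⟨?_, ?_⟩, ?_, ?_⟩
  · intro i
    have := hper i 1
    rw [mul_one] at this
    exact this
  · intro i j k hij hjk hk
    have e1 := Int.emod_add_mul_ediv i n
    have b1 := Int.emod_nonneg i hn0.ne'
    have b2 := Int.emod_lt_of_pos i hn0
    set q := i / n with hq
    set i0 := i % n with hi0
    have hi' : u (i % n).toNat = u i0.toNat := rfl
    have ej : j = (j - n * q) + n * q := by ring
    have ek : k = (k - n * q) + n * q := by ring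
    have bj : i0 < j - n * q := by linarith
    have bk : k - n * q < i0 + n := by linarith
    have bjk : j - n * q < k - n * q := by linarith
    rw [ej, ek, hper, hper]
    set j' := j - n * q with hj'
    set k' := k - n * q with hk'
    rcases lt_or_ge k' n with c1 | c1
    · rw [hsm j' (by omega) (by omega), hsm k' (by omega) c1]
      exact hu _ _ _ (by omega) (by omega) (by omega)
    · have ek2 : k' = (k' - n) + n * 1 := by ring
      rw [ek2, hper, hsm (k' - n) (by omega) (by omega)]
      rcases lt_or_ge j' n with c2 | c2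
      · rw [hsm j' (by omega) c2, ← ae_cyc]
        exact hu _ _ _ (by omega) (by omega) (by omega)
      · have ej2 : j' = (j' - n) + n * 1 := by ring
        rw [ej2, hper, hsm (j' - n) (by omega) (by omega), ae_cyc]
        exact hu _ _ _ (by omega) (by omega) (by omega)
  · intro i
    have b1 := Int.emod_nonneg i hn0.ne'
    have b2 := Int.emod_lt_of_pos i hn0
    exact hu1 _ (by omega)
  · intro p hp
    obtain ⟨i, hi, rfl⟩ := hu2 p hp
    refine ⟨i, ?_⟩
    simp only
    rw [hsm i (by omega) (by omega), Int.toNat_natCast]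

end Cvc
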