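import Mathlib
import Pool.Agent.Cvc.Defs

set_option autoImplicit false

open Finset

namespace Cvc

/-- ja (S). Sizes: `a = min A`, `b = max B`: no element of `A` is below `a` and all elements of
`B - (b - a)` other than `a` are below `a`; similarly above. -/
theorem row_sizes {A B : Finset ℝ} {K K' : ℕ} (h : Row A B K K') (hA : A.Nonempty)
    (hB : B.Nonempty) : A.card ≤ K + 1 ∧ B.card ≤ K' + 1 := by
  constructor
  · obtain ⟨b, hb⟩ := hB
    have h1 := (h (A.min' hA) (A.min'_mem hA) b hb).1
    have h2 : A.erase (A.min' hA) ⊆ (A ∪ B.image (fun x => x - (b - A.min' hA))).filter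
        (fun x => A.min' hA < x) := by
      intro x hx
      rw [mem_erase] at hx
      rw [mem_filter, mem_union]
      exact ⟨Or.inl hx.2, lt_of_le_of_ne (A.min'_le x hx.2) (Ne.symm hx.1)⟩
    have h3 := card_le_card h2
    rw [card_erase_of_mem (A.min'_mem hA)] at h3
    omega
  · obtain ⟨a, ha⟩ := hA
    have h1 := (h a ha (B.max' hB) (B.max'_mem hB)).2
    have h2 : (B.erase (B.max' hB)).image (fun x => x - (B.max' hB - a)) ⊆
        (A ∪ B.image (fun x => x - (B.max' hB - a))).filter (fun x => x < a) := by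
      intro x hx
      rw [mem_image] at hx
      obtain ⟨y, hy, rfl⟩ := hx
      rw [mem_erase] at hy
      rw [mem_filter, mem_union]
      refine ⟨Or.inr (mem_image_of_mem _ hy.2), ?_⟩
      have := lt_of_le_of_ne (B.le_max' y hy.2) hy.1
      linarith
    have h3 := card_le_card h2
    rw [card_image_of_injective _ (fun x y hxy => by simpa using hxy),
      card_erase_of_mem (B.max'_mem hB)] at h3
    omega

/-- jb (S). Exchange of the two rows (translate everything by `b - a`). -/
theorem row_swap {A B : Finset ℝ} {K K' : ℕ} (h : Row A B K K') : Row B A K K' := by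
  intro b hb a ha
  have h1 := h a ha b hb
  have inj : Function.Injective (fun x : ℝ => x + (b - a)) := fun x y hxy => by simpa using hxy
  constructor
  · refine le_trans (card_le_card ?_) ((card_image_of_injective _ inj).trans_le h1.1)
    intro x hx
    rw [mem_filter, mem_union] at hx
    rw [mem_image]
    refine ⟨x - (b - a), ?_, by ring⟩
    rw [mem_filter, mem_union]
    refine ⟨?_, by linarith [hx.2]⟩
    rcases hx.1 with hx1 | hx1
    · exact Or.inr (mem_image_of_mem _ hx1)
    · left
      rw [mem_image] at hx1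
      obtain ⟨y, hy, rfl⟩ := hx1
      have : y - (a - b) - (b - a) = y := by ring
      rwa [this]
  · refine le_trans (card_le_card ?_) ((card_image_of_injective _ inj).trans_le h1.2)
    intro x hx
    rw [mem_filter, mem_union] at hx
    rw [mem_image]
    refine ⟨x - (b - a), ?_, by ring⟩
    rw [mem_filter, mem_union]
    refine ⟨?_, by linarith [hx.2]⟩
    rcases hx.1 with hx1 | hx1
    · exact Or.inr (mem_image_of_mem _ hx1)
    · left
      rw [mem_image] at hx1
      obtain ⟨y, hy, rfl⟩ := hx1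
      have : y - (a - b) - (b - a) = y := by ring
      rwa [this]

private theorem jc_low {A B : Finset ℝ} {K K' : ℕ} (h : Row A B K K') {M β : ℝ} (hM : M ∈ A)
    (hmax : ∀ x ∈ A, x ≤ M) (hc : K' + 1 ≤ A.card) (hβ : β ∈ B) {x : ℝ} (hx : x ∈ B)
    (hxβ : x < β) : x + (M - β) ∈ A := by
  by_contra hn
  have h1 := (h M hM β hβ).2
  have h2 : insert (x + (M - β)) (A.erase M) ⊆
      (A ∪ B.image (fun x => x - (β - M))).filter (fun x => x < M) := by
    intro y hy
    rw [mem_insert] at hy
    rw [mem_filter, mem_union]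
    rcases hy with rfl | hy
    · refine ⟨Or.inr ?_, by linarith⟩
      rw [mem_image]
      exact ⟨x, hx, by ring⟩
    · rw [mem_erase] at hy
      exact ⟨Or.inl hy.2, lt_of_le_of_ne (hmax y hy.2) hy.1⟩
  have h3 := card_le_card h2
  rw [card_insert_of_notMem (fun hm => hn (mem_of_mem_erase hm)), card_erase_of_mem hM] at h3
  omega

private theorem jc_neg {A B : Finset ℝ} {K K' : ℕ} (h : Row A B K K') :
    Row (A.image (fun x => -x)) (B.image (fun x => -x)) K' K := by
  intro a ha b hb
  rw [mem_image] at ha hb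
  obtain ⟨a, ha, rfl⟩ := ha
  obtain ⟨b, hb, rfl⟩ := hb
  have h1 := h a ha b hb
  have inj : Function.Injective (fun x : ℝ => -x) := neg_injective
  have key : ∀ x : ℝ, x ∈ (A.image (fun x => -x)) ∪
      (B.image (fun x => -x)).image (fun x => x - (-b - -a)) →
      -x ∈ A ∪ B.image (fun x => x - (b - a)) := by
    intro x hx
    rw [mem_union] at hx ⊢
    rcases hx with hx | hx
    · left
      rw [mem_image] at hx
      obtain ⟨y, hy, rfl⟩ := hx
      rwa [neg_neg]
    · right
      rw [mem_image] at hx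
      obtain ⟨y, hy, rfl⟩ := hx
      rw [mem_image] at hy
      obtain ⟨z, hz, rfl⟩ := hy
      rw [mem_image]
      exact ⟨z, hz, by ring⟩
  constructor
  · refine le_trans (card_le_card ?_) ((card_image_of_injective _ inj).trans_le h1.2)
    intro x hx
    rw [mem_filter] at hx
    rw [mem_image]
    refine ⟨-x, ?_, by ring⟩
    rw [mem_filter]
    exact ⟨key x hx.1, by linarith [hx.2]⟩
  · refine le_trans (card_le_card ?_) ((card_image_of_injective _ inj).trans_le h1.1)
    intro x hx
    rw [mem_filter] at hx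
    rw [mem_image]
    refine ⟨-x, ?_, by ring⟩
    rw [mem_filter]
    exact ⟨key x hx.1, by linarith [hx.2]⟩

private theorem jc_mem_neg {A : Finset ℝ} {x : ℝ} : x ∈ A.image (fun x => -x) ↔ -x ∈ A := by
  rw [mem_image]
  constructor
  · rintro ⟨y, hy, rfl⟩
    rwa [neg_neg]
  · intro hx
    exact ⟨-x, hx, neg_neg x⟩

private theorem jc_upp {A B : Finset ℝ} {K K' : ℕ} (h : Row A B K K') {m β : ℝ} (hm : m ∈ A)
    (hmin : ∀ x ∈ A, m ≤ x) (hc : K + 1 ≤ A.card) (hβ : β ∈ B) {x : ℝ} (hx : x ∈ B)
    (hxβ : β < x) : x + (m - β) ∈ A := by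
  have h1 := jc_low (jc_neg h) (M := -m) (β := -β) (x := -x) (by rw [jc_mem_neg, neg_neg]; exact hm)
    (fun y hy => by rw [jc_mem_neg] at hy; linarith [hmin _ hy])
    (by rw [card_image_of_injective _ neg_injective]; exact hc)
    (by rw [jc_mem_neg, neg_neg]; exact hβ) (by rw [jc_mem_neg, neg_neg]; exact hx)
    (by linarith)
  rw [jc_mem_neg] at h1
  have e : -(-x + (-m - -β)) = x + (m - β) := by ring
  rwa [e] at h1

/-- a finite down-closed set of naturals is an initial segment -/
private theorem jc_down {J : Finset ℕ} (h : ∀ j ∈ J, ∀ i ≤ j, i ∈ J) : J = range J.card := by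
  apply eq_of_subset_of_card_le
  · intro m hm
    rw [mem_range]
    have : range (m + 1) ⊆ J := by
      intro i hi
      rw [mem_range] at hi
      exact h m hm i (by omega)
    have := card_le_card this
    rw [card_range] at this
    omega
  · rw [card_range]

private theorem jc_ap {A : Finset ℝ} {M δ : ℝ} (hδ : 0 < δ)
    (hmax : ∀ x ∈ A, x ≤ M) (h : ∀ x ∈ A, x ≠ M → x + δ ∈ A) :
    A = (range A.card).image (fun i : ℕ => M - i * δ) := by
  classical
  have inj : Function.Injective (fun i : ℕ => M - i * δ) := by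
    intro i j hij
    have h1 : (i : ℝ) * δ = j * δ := by simpa using hij
    exact_mod_cast mul_right_cancel₀ hδ.ne' h1
  have h1 : ∀ x ∈ A, ∃ j : ℕ, x = M - j * δ := by
    intro x hx
    by_contra hn
    push Not at hn
    have h2 : ∀ i : ℕ, x + i * δ ∈ A := by
      intro i
      induction i with
      | zero => simpa using hx
      | succ i ih =>
        have := h _ ih (by intro he; exact hn i (by linarith))
        push_cast
        have e : x + (i + 1) * δ = x + i * δ + δ := by ring
        rwa [e]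
    obtain ⟨n, hn2⟩ := exists_nat_gt ((M - x) / δ)
    have h3 := hmax _ (h2 n)
    rw [div_lt_iff₀ hδ] at hn2
    linarith
  have h2 : ∀ j : ℕ, M - j * δ ∈ A → ∀ i ≤ j, M - i * δ ∈ A := by
    intro j hj i hij
    obtain ⟨k, rfl⟩ := Nat.exists_eq_add_of_le hij
    clear hij
    induction k with
    | zero => simpa using hj
    | succ k ih =>
      apply ih
      have h4 := h _ hj (by
        intro he
        have : ((i + (k + 1) : ℕ) : ℝ) * δ = 0 := by linarith
        rcases mul_eq_zero.mp this with h5 | h5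
        · have : i + (k + 1) = 0 := by exact_mod_cast h5
          omega
        · exact hδ.ne' h5)
      have e : M - ((i + (k + 1) : ℕ) : ℝ) * δ + δ = M - ((i + k : ℕ) : ℝ) * δ := by
        push_cast
        ring
      rwa [e] at h4
  set J : Finset ℕ := A.preimage (fun i : ℕ => M - i * δ) inj.injOn with hJ
  have h3 : A = J.image (fun i : ℕ => M - i * δ) := by
    ext x
    rw [mem_image]
    constructor
    · intro hx
      obtain ⟨j, rfl⟩ := h1 x hx
      exact ⟨j, by rw [hJ, mem_preimage]; exact hx, rfl⟩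
    · rintro ⟨j, hj, rfl⟩
      rw [hJ, mem_preimage] at hj
      exact hj
  have h4 : J.card = A.card := by
    conv_rhs => rw [h3]
    rw [card_image_of_injective _ inj]
  have h5 : J = range J.card := by
    apply jc_down
    intro j hj i hij
    rw [hJ, mem_preimage] at hj ⊢
    exact h2 j hj i hij
  rw [h4] at h5
  rw [← h5]
  exact h3

private theorem jc_rev {M δ : ℝ} (n : ℕ) : (range n).image (fun i : ℕ => M - i * δ) =
    (range n).image (fun i : ℕ => (M - (n - 1 : ℝ) * δ) + i * δ) := by
  ext x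
  simp only [mem_image, mem_range]
  constructor
  · rintro ⟨i, hi, rfl⟩
    refine ⟨n - 1 - i, by omega, ?_⟩
    have : ((n - 1 - i : ℕ) : ℝ) = (n : ℝ) - 1 - i := by
      rw [Nat.cast_sub (by omega), Nat.cast_sub (by omega)]
      simp
    rw [this]
    ring
  · rintro ⟨i, hi, rfl⟩
    refine ⟨n - 1 - i, by omega, ?_⟩
    have : ((n - 1 - i : ℕ) : ℝ) = (n : ℝ) - 1 - i := by
      rw [Nat.cast_sub (by omega), Nat.cast_sub (by omega)]
      simp
    rw [this]
    ring

private theorem jc_ap' {A : Finset ℝ} {M δ : ℝ} (hδ : 0 < δ)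
    (hmax : ∀ x ∈ A, x ≤ M) (h : ∀ x ∈ A, x ≠ M → x + δ ∈ A) :
    ∃ s : ℝ, A = (range A.card).image (fun i : ℕ => s + i * δ) :=
  ⟨_, (jc_ap hδ hmax h).trans (jc_rev _)⟩

/-- jc (M). Equal sizes `k ≥ 2` and at most `k - 1` levels below: with `a = max A`, `b = max B` all
elements coincide, `B = A + d`; with `a = max A` and `b` the second largest element of `B`, i.e.
shift `d - δ`, `δ` the last gap of `A`: all elements of `A` but the last stay in `A` when `δ` is
added. So `A` is an arithmetic progression. -/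
theorem row_even {A B : Finset ℝ} {k K : ℕ} (hk : 2 ≤ k) (hA : A.card = k) (hB : B.card = k)
    (h : Row A B K (k - 1)) :
    ∃ s t δ : ℝ, 0 < δ ∧ A = (range k).image (fun i : ℕ => s + i * δ) ∧
      B = (range k).image (fun i : ℕ => t + i * δ) := by
  have hAn : A.Nonempty := card_pos.mp (by omega)
  have hBn : B.Nonempty := card_pos.mp (by omega)
  obtain ⟨M, hM, hMm⟩ : ∃ M ∈ A, ∀ x ∈ A, x ≤ M := ⟨_, A.max'_mem hAn, fun x hx => A.le_max' x hx⟩
  obtain ⟨N, hN, hNm⟩ : ∃ M ∈ B, ∀ x ∈ B, x ≤ M := ⟨_, B.max'_mem hBn, fun x hx => B.le_max' x hx⟩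
  have inj : Function.Injective (fun x : ℝ => x + (M - N)) := fun x y hxy => by simpa using hxy
  -- `B` is a translate of `A`
  have hBA : B.image (fun x => x + (M - N)) = A := by
    apply eq_of_subset_of_card_le
    · intro x hx
      rw [mem_image] at hx
      obtain ⟨y, hy, rfl⟩ := hx
      rcases lt_or_eq_of_le (hNm y hy) with hlt | rfl
      · exact jc_low h hM hMm (by omega) hN hy hlt
      · have : y + (M - y) = M := by ring
        rwa [this]
    · rw [card_image_of_injective _ inj, hA, hB]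
  have hmem : ∀ x, x ∈ A → x + (N - M) ∈ B := by
    intro x hx
    rw [← hBA, mem_image] at hx
    obtain ⟨y, hy, rfl⟩ := hx
    have : y + (M - N) + (N - M) = y := by ring
    rwa [this]
  have hmem' : ∀ x, x ∈ B → x + (M - N) ∈ A := by
    intro x hx
    rw [← hBA]
    exact mem_image_of_mem _ hx
  -- second largest element of `A`
  have hA2 : (A.erase M).Nonempty := card_pos.mp (by rw [card_erase_of_mem hM]; omega)
  obtain ⟨m', hm', hmm'⟩ : ∃ M' ∈ A.erase M, ∀ x ∈ A.erase M, x ≤ M' :=
    ⟨_, (A.erase M).max'_mem hA2, fun x hx => (A.erase M).le_max' x hx⟩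
  have hδ : 0 < M - m' := by
    have := lt_of_le_of_ne (hMm m' (mem_of_mem_erase hm')) (ne_of_mem_erase hm')
    linarith
  have hcl : ∀ x ∈ A, x ≠ M → x + (M - m') ∈ A := by
    intro x hx hxM
    have h1 := hmm' x (mem_erase.mpr ⟨hxM, hx⟩)
    rcases lt_or_eq_of_le h1 with hlt | rfl
    · have h2 := jc_low h hM hMm (by omega) (β := m' + (N - M)) (hmem _ (mem_of_mem_erase hm'))
        (x := x + (N - M)) (hmem _ hx) (by linarith)
      have : x + (N - M) + (M - (m' + (N - M))) = x + (M - m') := by ring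
      rwa [this] at h2
    · have : x + (M - x) = M := by ring
      rwa [this]
  obtain ⟨s, hs⟩ := jc_ap' hδ hMm hcl
  rw [hA] at hs
  refine ⟨s, s + (N - M), M - m', hδ, hs, ?_⟩
  ext x
  constructor
  · intro hx
    have h1 := hmem' x hx
    rw [hs, mem_image] at h1
    obtain ⟨i, hi, hi2⟩ := h1
    rw [mem_image]
    exact ⟨i, hi, by linarith⟩
  · intro hx
    rw [mem_image] at hx
    obtain ⟨i, hi, rfl⟩ := hx
    have h1 : s + i * (M - m') ∈ A := by
      rw [hs]
      exact mem_image_of_mem (fun i : ℕ => s + i * (M - m')) hi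
    have h2 := hmem _ h1
    have : s + i * (M - m') + (N - M) = s + (N - M) + i * (M - m') := by ring
    rwa [this] at h2


/-- jd (M). Sizes `K + 1` and `K`: `B - d ⊆ A` for `d = max B - max A` and for
`d = min B - min A`. If the two shifts differ then `A` is an arithmetic progression with `K + 1` terms
(`A` without its first term and `A` without its last term are translates of each other) and `B` is a
translate of a part of it; otherwise `B - d = A \ {w}` with `min A < w < max A`. -/
theorem row_odd1 {A B : Finset ℝ} {K : ℕ} (hK : 2 ≤ K) (hA : A.card = K + 1) (hB : B.card = K)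
    (h : Row A B K K) :
    (∃ s t δ : ℝ, 0 < δ ∧ A = (range (K + 1)).image (fun i : ℕ => s + i * δ) ∧
      B ⊆ (range (K + 1)).image (fun i : ℕ => t + i * δ)) ∨
    ∃ d w : ℝ, w ∈ A ∧ (∃ a ∈ A, a < w) ∧ (∃ a ∈ A, w < a) ∧
      B = (A.erase w).image (fun x => x + d) := by
  have hAn : A.Nonempty := card_pos.mp (by omega)
  have hBn : B.Nonempty := card_pos.mp (by omega)
  obtain ⟨M, hM, hMm⟩ : ∃ M ∈ A, ∀ x ∈ A, x ≤ M := ⟨_, A.max'_mem hAn, fun x hx => A.le_max' x hx⟩
  obtain ⟨N, hN, hNm⟩ : ∃ M ∈ B, ∀ x ∈ B, x ≤ M := ⟨_, B.max'_mem hBn, fun x hx => B.le_max' x hx⟩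
  obtain ⟨m, hm, hmm⟩ : ∃ M ∈ A, ∀ x ∈ A, M ≤ x := ⟨_, A.min'_mem hAn, fun x hx => A.min'_le x hx⟩
  obtain ⟨n, hn, hnm⟩ : ∃ M ∈ B, ∀ x ∈ B, M ≤ x := ⟨_, B.min'_mem hBn, fun x hx => B.min'_le x hx⟩
  have inj : ∀ c : ℝ, Function.Injective (fun x : ℝ => x + c) := fun c x y hxy => by simpa using hxy
  have hup : ∀ x ∈ B, x + (M - N) ∈ A := by
    intro x hx
    rcases lt_or_eq_of_le (hNm x hx) with hlt | rfl
    · exact jc_low h hM hMm (by omega) hN hx hlt
    · have : x + (M - x) = M := by ring
      rwa [this]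
  have hlo : ∀ x ∈ B, x + (m - n) ∈ A := by
    intro x hx
    rcases lt_or_eq_of_le (hnm x hx) with hlt | rfl
    · exact jc_upp h hm hmm (by omega) hn hx hlt
    · have : n + (m - n) = m := by ring
      rwa [this]
  have hle : m - n ≤ M - N := by
    have := hMm _ (hlo N hN)
    linarith
  rcases lt_or_eq_of_le hle with hlt | heq
  · -- the two shifts differ
    left
    have e1 : B.image (fun x => x + (M - N)) = A.erase m := by
      apply eq_of_subset_of_card_le
      · intro x hx
        rw [mem_image] at hx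
        obtain ⟨y, hy, rfl⟩ := hx
        rw [mem_erase]
        refine ⟨?_, hup y hy⟩
        have := hnm y hy
        intro he
        linarith
      · rw [card_image_of_injective _ (inj _), card_erase_of_mem hm]
        omega
    have e2 : B.image (fun x => x + (m - n)) = A.erase M := by
      apply eq_of_subset_of_card_le
      · intro x hx
        rw [mem_image] at hx
        obtain ⟨y, hy, rfl⟩ := hx
        rw [mem_erase]
        refine ⟨?_, hlo y hy⟩
        have := hNm y hy
        intro he
        linarith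
      · rw [card_image_of_injective _ (inj _), card_erase_of_mem hM]
        omega
    have hδ : 0 < (M - N) - (m - n) := by linarith
    have hcl : ∀ x ∈ A, x ≠ M → x + ((M - N) - (m - n)) ∈ A := by
      intro x hx hxM
      have h1 : x ∈ B.image (fun x => x + (m - n)) := by
        rw [e2]
        exact mem_erase.mpr ⟨hxM, hx⟩
      rw [mem_image] at h1
      obtain ⟨y, hy, rfl⟩ := h1
      have : y + (m - n) + ((M - N) - (m - n)) = y + (M - N) := by ring
      rw [this]
      exact hup y hy
    obtain ⟨s, hs⟩ := jc_ap' hδ hMm hcl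
    rw [hA] at hs
    refine ⟨s, s - (m - n), (M - N) - (m - n), hδ, hs, ?_⟩
    intro x hx
    have h1 := hlo x hx
    rw [hs, mem_image] at h1
    obtain ⟨i, hi, hi2⟩ := h1
    rw [mem_image]
    exact ⟨i, hi, by linarith⟩
  · -- the two shifts agree
    right
    have hsub : B.image (fun x => x + (M - N)) ⊆ A := by
      intro x hx
      rw [mem_image] at hx
      obtain ⟨y, hy, rfl⟩ := hx
      exact hup y hy
    have hcard : (A \ B.image (fun x => x + (M - N))).card = 1 := by
      rw [card_sdiff_of_subset hsub, card_image_of_injective _ (inj _)]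
      omega
    obtain ⟨w, hw⟩ := card_eq_one.mp hcard
    have hwA : w ∈ A \ B.image (fun x => x + (M - N)) := by
      rw [hw]
      exact mem_singleton_self w
    rw [mem_sdiff] at hwA
    have e : B.image (fun x => x + (M - N)) = A.erase w := by
      ext x
      constructor
      · intro hx
        rw [mem_erase]
        exact ⟨fun he => hwA.2 (he ▸ hx), hsub hx⟩
      · intro hx
        rw [mem_erase] at hx
        by_contra hn2
        have : x ∈ A \ B.image (fun x => x + (M - N)) := mem_sdiff.mpr ⟨hx.2, hn2⟩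
        rw [hw, mem_singleton] at this
        exact hx.1 this
    have hMB : M ∈ B.image (fun x => x + (M - N)) := by
      rw [mem_image]
      exact ⟨N, hN, by ring⟩
    have hmB : m ∈ B.image (fun x => x + (M - N)) := by
      rw [mem_image]
      exact ⟨n, hn, by linarith⟩
    refine ⟨-(M - N), w, hwA.1, ⟨m, hm, ?_⟩, ⟨M, hM, ?_⟩, ?_⟩
    · exact lt_of_le_of_ne (hmm w hwA.1) (fun he => hwA.2 (he ▸ hmB))
    · exact lt_of_le_of_ne (hMm w hwA.1) (fun he => hwA.2 (he ▸ hMB))
    · rw [← e, image_image]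
      ext x
      rw [mem_image]
      constructor
      · intro hx
        exact ⟨x, hx, by simp only [Function.comp]; ring⟩
      · rintro ⟨y, hy, rfl⟩
        have : ((fun x => x + -(M - N)) ∘ fun x => x + (M - N)) y = y := by
          simp only [Function.comp]
          ring
        rwa [this]

private theorem je_low2 {A B : Finset ℝ} {K K' : ℕ} (h : Row A B K K') {M α : ℝ} (hM : M ∈ B)
    (hmax : ∀ x ∈ B, x ≤ M) (hc : K' ≤ B.card) (hα : α ∈ A) {x y : ℝ} (hx : x ∈ A) (hy : y ∈ A)
    (hxα : x < α) (hyα : y < α) (hxy : x ≠ y) : x + (M - α) ∈ B ∨ y + (M - α) ∈ B := by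
  by_contra hn
  push Not at hn
  have h1 := (h α hα M hM).2
  have inj : Function.Injective (fun x : ℝ => x - (M - α)) := fun x y hxy => by simpa using hxy
  have h2 : insert x (insert y ((B.erase M).image (fun x => x - (M - α)))) ⊆
      (A ∪ B.image (fun x => x - (M - α))).filter (fun x => x < α) := by
    intro z hz
    rw [mem_insert, mem_insert] at hz
    rw [mem_filter, mem_union]
    rcases hz with rfl | rfl | hz
    · exact ⟨Or.inl hx, hxα⟩
    · exact ⟨Or.inl hy, hyα⟩
    · rw [mem_image] at hz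
      obtain ⟨u, hu, rfl⟩ := hz
      rw [mem_erase] at hu
      refine ⟨Or.inr (mem_image_of_mem _ hu.2), ?_⟩
      have := lt_of_le_of_ne (hmax u hu.2) hu.1
      linarith
  have hnm : ∀ z, z + (M - α) ∉ B → z ∉ (B.erase M).image (fun x => x - (M - α)) := by
    intro z hz hz2
    rw [mem_image] at hz2
    obtain ⟨u, hu, rfl⟩ := hz2
    apply hz
    have : u - (M - α) + (M - α) = u := by ring
    rw [this]
    exact mem_of_mem_erase hu
  have h3 := card_le_card h2
  rw [card_insert_of_notMem (by
      rw [mem_insert]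
      push Not
      exact ⟨hxy, hnm x hn.1⟩), card_insert_of_notMem (hnm y hn.2),
    card_image_of_injective _ inj, card_erase_of_mem hM] at h3
  have : 0 < B.card := card_pos.mpr ⟨M, hM⟩
  omega

private theorem je_upp2 {A B : Finset ℝ} {K K' : ℕ} (h : Row A B K K') {m α : ℝ} (hm : m ∈ B)
    (hmin : ∀ x ∈ B, m ≤ x) (hc : K ≤ B.card) (hα : α ∈ A) {x y : ℝ} (hx : x ∈ A) (hy : y ∈ A)
    (hxα : α < x) (hyα : α < y) (hxy : x ≠ y) : x + (m - α) ∈ B ∨ y + (m - α) ∈ B := by
  have h1 := je_low2 (jc_neg h) (M := -m) (α := -α) (x := -x) (y := -y)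
    (by rw [jc_mem_neg, neg_neg]; exact hm)
    (fun y hy => by rw [jc_mem_neg] at hy; linarith [hmin _ hy])
    (by rw [card_image_of_injective _ neg_injective]; exact hc)
    (by rw [jc_mem_neg, neg_neg]; exact hα) (by rw [jc_mem_neg, neg_neg]; exact hx)
    (by rw [jc_mem_neg, neg_neg]; exact hy)
    (by linarith) (by linarith) (fun he => hxy (neg_injective he))
  rw [jc_mem_neg, jc_mem_neg] at h1
  have e : ∀ x : ℝ, -(-x + (-m - -α)) = x + (m - α) := fun x => by ring
  rwa [e, e] at h1

/-- the case `h < h'` -/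
private theorem je_lt {A : Finset ℝ} {K : ℕ} {w : ℝ} (hK : 3 ≤ K) (hA : A.card = K + 1)
    (hw : w ∈ A) (h : Row A (A.erase w) K K) {m M β γ : ℝ}
    (hm : m ∈ A.erase w) (hmm : ∀ x ∈ A, m ≤ x) (hM : M ∈ A.erase w) (hMm : ∀ x ∈ A, x ≤ M)
    (hβ : β ∈ A.erase w) (hβM : β < M) (hβl : ∀ x ∈ A.erase w, x < M → x ≤ β)
    (hγ : γ ∈ A.erase w) (hγm : m < γ) (hγl : ∀ x ∈ A.erase w, m < x → γ ≤ x)
    (hlt : M - β < γ - m) :
    ∃ s δ : ℝ, 0 < δ ∧ A = (range (K + 1)).image (fun i : ℕ => s + i * δ) := by
  have hMA := mem_of_mem_erase hM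
  have hmA := mem_of_mem_erase hm
  have hBc : (A.erase w).card = K := by rw [card_erase_of_mem hw]; omega
  have hMmB : ∀ x ∈ A.erase w, x ≤ M := fun x hx => hMm x (mem_of_mem_erase hx)
  have hmmB : ∀ x ∈ A.erase w, m ≤ x := fun x hx => hmm x (mem_of_mem_erase hx)
  have hδ : 0 < M - β := by linarith
  have hmβ : m < β := by
    rcases lt_or_eq_of_le (hmmB β hβ) with h1 | h1
    · exact h1
    · exfalso
      have := hMmB γ hγ
      linarith
  -- `m + h = w`
  have hwe : m + (M - β) = w := by
    have h1 := jc_low h hMA hMm (by omega) hβ hm hmβ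
    by_contra hne
    have h2 := hγl _ (mem_erase.mpr ⟨hne, h1⟩) (by linarith)
    linarith
  -- `B` without `m` is closed under adding `h`
  have hcl : ∀ x ∈ (A.erase w).erase m, x ≠ M → x + (M - β) ∈ (A.erase w).erase m := by
    intro x hx hxM
    rw [mem_erase] at hx
    have hxm : γ ≤ x := hγl x hx.2 (lt_of_le_of_ne (hmmB x hx.2) (Ne.symm hx.1))
    have hxβ := hβl x hx.2 (lt_of_le_of_ne (hMmB x hx.2) hxM)
    rw [mem_erase, mem_erase]
    refine ⟨by intro he; linarith, by intro he; linarith, ?_⟩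
    rcases lt_or_eq_of_le hxβ with hxβ | rfl
    · exact jc_low h hMA hMm (by omega) hβ hx.2 hxβ
    · have : x + (M - x) = M := by ring
      rwa [this]
  have hcard2 : ((A.erase w).erase m).card = K - 1 := by
    rw [card_erase_of_mem hm, hBc]
  have hap := jc_ap hδ (fun x hx => hMmB x (mem_of_mem_erase hx)) hcl
  rw [hcard2] at hap
  have hapm : ∀ i : ℕ, i < K - 1 → M - i * (M - β) ∈ (A.erase w).erase m := by
    intro i hi
    rw [hap]
    exact mem_image_of_mem (fun i : ℕ => M - i * (M - β)) (mem_range.mpr hi)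
  have hap' : ∀ x ∈ (A.erase w).erase m, ∃ i : ℕ, i < K - 1 ∧ x = M - i * (M - β) := by
    intro x hx
    rw [hap, mem_image] at hx
    obtain ⟨i, hi, rfl⟩ := hx
    exact ⟨i, mem_range.mp hi, rfl⟩
  -- `γ` is the smallest of them
  have hcast : ((K - 2 : ℕ) : ℝ) = (K : ℝ) - 2 := by
    rw [Nat.cast_sub (by omega)]
    norm_num
  have hγe : γ = M - ((K : ℝ) - 2) * (M - β) := by
    have h1 := hapm (K - 2) (by omega)
    rw [hcast] at h1
    rw [mem_erase] at h1
    have h2 := hγl _ h1.2 (lt_of_le_of_ne (hmmB _ h1.2) (Ne.symm h1.1))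
    obtain ⟨i, hi, hi2⟩ := hap' γ (mem_erase.mpr ⟨hγm.ne', hγ⟩)
    have h3 : (i : ℝ) ≤ (K : ℝ) - 2 := by
      rw [← hcast]
      exact_mod_cast (by omega : i ≤ K - 2)
    have h4 : (i : ℝ) * (M - β) ≤ ((K : ℝ) - 2) * (M - β) := mul_le_mul_of_nonneg_right h3 hδ.le
    linarith
  -- `m + 2 h` belongs to `A`
  have h2h : m + 2 * (M - β) ∈ A.erase w := by
    rcases Nat.lt_or_ge K 4 with hK4 | hK4
    · have hK3 : K = 3 := by omega
      have h1 := je_low2 h hM hMmB (by omega) (mem_of_mem_erase hγ) hmA hw hγm (by linarith)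
        (by intro he; linarith)
      have e1 : M - γ = M - β := by
        rw [hγe, hK3]
        push_cast
        ring
      rw [e1] at h1
      rcases h1 with h1 | h1
      · exfalso
        rw [hwe] at h1
        exact (mem_erase.mp h1).1 rfl
      · have e2 : w + (M - β) = m + 2 * (M - β) := by linarith
        rwa [e2] at h1
    · have h1 := hapm (K - 4) (by omega)
      have hc4 : ((K - 4 : ℕ) : ℝ) = (K : ℝ) - 4 := by
        rw [Nat.cast_sub (by omega)]
        norm_num
      rw [hc4] at h1
      have h2 := jc_upp h hmA hmm (by omega) hγ (mem_of_mem_erase h1) (by linarith)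
      have e : M - ((K : ℝ) - 4) * (M - β) + (m - γ) = m + 2 * (M - β) := by
        rw [hγe]
        ring
      rw [e] at h2
      rw [mem_erase]
      exact ⟨by intro he; linarith, h2⟩
  have hγ2 : γ = m + 2 * (M - β) := by
    obtain ⟨i, hi, hi2⟩ := hap' _ (mem_erase.mpr ⟨by intro he; linarith, h2h⟩)
    have h0 : (i : ℝ) ≤ (K : ℝ) - 2 := by
      rw [← hcast]
      exact_mod_cast (by omega : i ≤ K - 2)
    -- `γ = m + 2 h - j h`
    have h3 : ((K : ℝ) - 2 - i) < 1 := by
      by_contra hn
      push Not at hn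
      have : 1 * (M - β) ≤ ((K : ℝ) - 2 - i) * (M - β) := mul_le_mul_of_nonneg_right hn hδ.le
      linarith
    have h4 : (K : ℝ) - 2 = i := by
      have h5 : ((K - 2 : ℕ) : ℝ) < (i : ℝ) + 1 := by
        rw [hcast]
        linarith
      have h6 : K - 2 < i + 1 := by exact_mod_cast h5
      have h7 : K - 2 = i := by omega
      rw [← hcast, h7]
    rw [hγe, h4]
    linarith
  refine ⟨m, M - β, hδ, ?_⟩
  symm
  apply eq_of_subset_of_card_le
  · intro x hx
    rw [mem_image] at hx
    obtain ⟨i, hi, rfl⟩ := hx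
    rw [mem_range] at hi
    rcases Nat.lt_or_ge i 2 with hi2 | hi2
    · have : i = 0 ∨ i = 1 := by omega
      rcases this with rfl | rfl
      · simpa using hmA
      · have e : m + ((1 : ℕ) : ℝ) * (M - β) = w := by
          push_cast
          linarith
        rw [e]
        exact hw
    · have h1 := hapm (K - i) (by omega)
      have hc : ((K - i : ℕ) : ℝ) = (K : ℝ) - i := by
        rw [Nat.cast_sub (by omega)]
      rw [hc] at h1
      have e : M - ((K : ℝ) - i) * (M - β) = m + i * (M - β) := by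
        have : M = γ + ((K : ℝ) - 2) * (M - β) := by linarith
        have h9 : M - ((K : ℝ) - i) * (M - β) = γ + ((K : ℝ) - 2) * (M - β)
          - ((K : ℝ) - i) * (M - β) := by linarith
        rw [h9, hγ2]
        ring
      rw [e] at h1
      exact mem_of_mem_erase (mem_of_mem_erase h1)
  · rw [card_image_of_injective, card_range, hA]
    intro i j hij
    have h1 : (i : ℝ) * (M - β) = j * (M - β) := by simpa using hij
    exact_mod_cast mul_right_cancel₀ hδ.ne' h1

/-- the case `h = h'` -/
private theorem je_eq {A : Finset ℝ} {K : ℕ} {w : ℝ} (hK : 3 ≤ K) (hA : A.card = K + 1)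
    (hw : w ∈ A) (h : Row A (A.erase w) K K) {m M δ : ℝ} (hδ : 0 < δ)
    (hm : m ∈ A.erase w) (hmm : ∀ x ∈ A, m ≤ x) (hM : M ∈ A.erase w) (hMm : ∀ x ∈ A, x ≤ M)
    (hup : ∀ x ∈ A.erase w, x ≠ M → x + δ ∈ A) (hdn : ∀ x ∈ A.erase w, x ≠ m → x - δ ∈ A) :
    ∃ s δ : ℝ, 0 < δ ∧ A = (range (K + 1)).image (fun i : ℕ => s + i * δ) := by
  have hBc : (A.erase w).card = K := by rw [card_erase_of_mem hw]; omega
  have hMmB : ∀ x ∈ A.erase w, x ≤ M := fun x hx => hMm x (mem_of_mem_erase hx)
  have hmmB : ∀ x ∈ A.erase w, m ≤ x := fun x hx => hmm x (mem_of_mem_erase hx)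
  by_cases hwd : w + δ ∈ A
  · have hcl : ∀ x ∈ A, x ≠ M → x + δ ∈ A := by
      intro x hx hxM
      by_cases hxw : x = w
      · rw [hxw]
        exact hwd
      · exact hup x (mem_erase.mpr ⟨hxw, hx⟩) hxM
    obtain ⟨s, hs⟩ := jc_ap' hδ hMm hcl
    rw [hA] at hs
    exact ⟨s, δ, hδ, hs⟩
  · exfalso
    -- `B` is a progression
    have hcl : ∀ x ∈ (A.erase w).image (fun x => -x), x ≠ -m →
        x + δ ∈ (A.erase w).image (fun x => -x) := by
      intro x hx hxm
      rw [jc_mem_neg] at hx ⊢
      have e : -(x + δ) = -x - δ := by ring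
      rw [e, mem_erase]
      refine ⟨?_, hdn _ hx (by intro he; apply hxm; linarith)⟩
      intro he
      apply hwd
      have : w + δ = -x := by linarith
      rw [this]
      exact mem_of_mem_erase hx
    have hap := jc_ap hδ (M := -m)
      (fun x hx => by rw [jc_mem_neg] at hx; linarith [hmmB _ hx]) hcl
    rw [card_image_of_injective _ neg_injective, hBc] at hap
    have hin : ∀ i : ℕ, i < K → m + i * δ ∈ A.erase w := by
      intro i hi
      have h1 : -m - i * δ ∈ (A.erase w).image (fun x => -x) := by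
        rw [hap]
        exact mem_image_of_mem (fun i : ℕ => -m - i * δ) (mem_range.mpr hi)
      rw [jc_mem_neg] at h1
      have e : -(-m - i * δ) = m + i * δ := by ring
      rwa [e] at h1
    have hout : ∀ x ∈ A.erase w, ∃ i : ℕ, i < K ∧ x = m + i * δ := by
      intro x hx
      have h1 : -x ∈ (A.erase w).image (fun x => -x) := by
        rw [jc_mem_neg, neg_neg]
        exact hx
      rw [hap, mem_image] at h1
      obtain ⟨i, hi, hi2⟩ := h1
      exact ⟨i, mem_range.mp hi, by linarith⟩
    -- `w` is not on the progression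
    have hwz : ∀ z : ℤ, w ≠ m + z * δ := by
      intro z hz
      have h1 := hmm w hw
      have hz0 : 0 ≤ z := by
        by_contra hn
        push Not at hn
        have h2 : (z : ℝ) ≤ -1 := by exact_mod_cast (by omega : z ≤ -1)
        have h3 : (z : ℝ) * δ ≤ -1 * δ := mul_le_mul_of_nonneg_right h2 hδ.le
        linarith
      obtain ⟨n, rfl⟩ := Int.eq_ofNat_of_zero_le hz0
      rcases Nat.lt_or_ge n K with hn | hn
      · have h2 := hin n hn
        rw [mem_erase] at h2
        apply h2.1
        rw [hz]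
        push_cast
        ring
      · obtain ⟨k, hk, hk2⟩ := hout M hM
        have h2 := hMm w hw
        have h3 : (k : ℝ) + 1 ≤ n := by exact_mod_cast (by omega : k + 1 ≤ n)
        have h4 : ((k : ℝ) + 1) * δ ≤ n * δ := mul_le_mul_of_nonneg_right h3 hδ.le
        push_cast at hz
        linarith
    have hno : ∀ x ∈ A.erase w, ∀ c ∈ A.erase w, x + (c - w) ∉ A.erase w := by
      intro x hx c hc hn
      obtain ⟨i, -, hi⟩ := hout x hx
      obtain ⟨j, -, hj⟩ := hout c hc
      obtain ⟨k, -, hk⟩ := hout _ hn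
      apply hwz ((i : ℤ) + j - k)
      push_cast
      have : w = x + c - (x + (c - w)) := by ring
      rw [this, hk, hi, hj]
      ring
    have h1 := hin 1 (by omega)
    have hmB := hm
    have e1 : m + ((1 : ℕ) : ℝ) * δ = m + δ := by push_cast; ring
    rw [e1] at h1
    have hwm : m < w := lt_of_le_of_ne (hmm w hw) (fun he => (mem_erase.mp hm).1 he)
    have hwM : w < M := lt_of_le_of_ne (hMm w hw) (fun he => (mem_erase.mp hM).1 he.symm)
    rcases lt_or_gt_of_ne (fun he : m + δ = w => (mem_erase.mp h1).1 he) with h2 | h2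
    · rcases je_low2 h hM hMmB (by omega) hw (mem_of_mem_erase hm) (mem_of_mem_erase h1) hwm h2
        (by intro he; linarith) with h3 | h3
      · exact hno m hm M hM h3
      · exact hno _ h1 M hM h3
    · have h4 := hin 2 (by omega)
      have e2 : m + ((2 : ℕ) : ℝ) * δ = m + 2 * δ := by push_cast; ring
      rw [e2] at h4
      rcases je_upp2 h hm hmmB (by omega) hw (mem_of_mem_erase h1) (mem_of_mem_erase h4) h2
        (by linarith) (by intro he; linarith) with h3 | h3
      · exact hno _ h1 m hm h3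
      · exact hno _ h4 m hm h3

/-- je (L). The case `B = A \ {w}` (after a translation of `B`), `min A = 0`, `max A = m`,
`K ≥ 3`. For `β ∈ B`: (1) all `x < β` in `B` have `x + (m - β) ∈ A`; (2) all `x > β` in `B` have
`x - β ∈ A`. For `α ∈ A`: (3) all but at most one of the `x < α` in `A` have `x + (m - α) ∈ B`;
(4) all but at most one of the `x > α` in `A` have `x - α ∈ B`. Let `h = m - β`, `β` the largest
element of `B` below `m`, and `h'` the smallest positive element of `B`. Case `h = h'`: `A` is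
`{0, h, ..., m}` or this with one more point `w` off the progression; the latter is impossible by (3),
(4) for `α = w` (at most one element of `A` on either side of `w`, so `|A| ≤ 3`). Case `h < h'`:
`h = w` is the second element of `A`, the others are `h', h' + h, ...`; for `K ≥ 4` (2) with `β = h'`
gives `2h ∈ A`, for `K = 3` (3) with `α = h'` does; so `h' = 2h`. Case `h > h'`: mirror image
(`x ↦ m - x`). -/
theorem row_odd2 {A : Finset ℝ} {K : ℕ} {w : ℝ} (hK : 3 ≤ K) (hA : A.card = K + 1) (hw : w ∈ A)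
    (h1 : ∃ a ∈ A, a < w) (h2 : ∃ a ∈ A, w < a) (h : Row A (A.erase w) K K) :
    ∃ s δ : ℝ, 0 < δ ∧ A = (range (K + 1)).image (fun i : ℕ => s + i * δ) := by
  have hAn : A.Nonempty := ⟨w, hw⟩
  obtain ⟨M, hM, hMm⟩ : ∃ M ∈ A, ∀ x ∈ A, x ≤ M := ⟨_, A.max'_mem hAn, fun x hx => A.le_max' x hx⟩
  obtain ⟨m, hm, hmm⟩ : ∃ M ∈ A, ∀ x ∈ A, M ≤ x := ⟨_, A.min'_mem hAn, fun x hx => A.min'_le x hx⟩
  have hMB : M ∈ A.erase w := by
    rw [mem_erase]
    refine ⟨?_, hM⟩
    obtain ⟨a, ha, ha2⟩ := h2
    have := hMm a ha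
    intro he
    linarith
  have hmB : m ∈ A.erase w := by
    rw [mem_erase]
    refine ⟨?_, hm⟩
    obtain ⟨a, ha, ha2⟩ := h1
    have := hmm a ha
    intro he
    linarith
  have hBc : (A.erase w).card = K := by rw [card_erase_of_mem hw]; omega
  have hMmB : ∀ x ∈ A.erase w, x ≤ M := fun x hx => hMm x (mem_of_mem_erase hx)
  have hmmB : ∀ x ∈ A.erase w, m ≤ x := fun x hx => hmm x (mem_of_mem_erase hx)
  have n1 : ((A.erase w).erase M).Nonempty := card_pos.mp (by rw [card_erase_of_mem hMB]; omega)
  have n2 : ((A.erase w).erase m).Nonempty := card_pos.mp (by rw [card_erase_of_mem hmB]; omega)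
  obtain ⟨β, hβ, hβl⟩ : ∃ β ∈ (A.erase w).erase M, ∀ x ∈ (A.erase w).erase M, x ≤ β :=
    ⟨_, max'_mem _ n1, fun x hx => le_max' _ x hx⟩
  obtain ⟨γ, hγ, hγl⟩ : ∃ γ ∈ (A.erase w).erase m, ∀ x ∈ (A.erase w).erase m, γ ≤ x :=
    ⟨_, min'_mem _ n2, fun x hx => min'_le _ x hx⟩
  rw [mem_erase] at hβ hγ
  have hβM : β < M := lt_of_le_of_ne (hMmB β hβ.2) hβ.1
  have hγm : m < γ := lt_of_le_of_ne (hmmB γ hγ.2) (Ne.symm hγ.1)
  have hβl' : ∀ x ∈ A.erase w, x < M → x ≤ β := fun x hx hxM =>
    hβl x (mem_erase.mpr ⟨hxM.ne, hx⟩)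
  have hγl' : ∀ x ∈ A.erase w, m < x → γ ≤ x := fun x hx hxm =>
    hγl x (mem_erase.mpr ⟨hxm.ne', hx⟩)
  rcases lt_trichotomy (M - β) (γ - m) with hlt | heq | hgt
  · exact je_lt hK hA hw h hmB hmm hMB hMm hβ.2 hβM hβl' hγ.2 hγm hγl' hlt
  · refine je_eq hK hA hw h (δ := M - β) (by linarith) hmB hmm hMB hMm ?_ ?_
    · intro x hx hxM
      have hxβ := hβl' x hx (lt_of_le_of_ne (hMmB x hx) hxM)
      rcases lt_or_eq_of_le hxβ with hxβ | rfl
      · exact jc_low h hM hMm (by omega) hβ.2 hx hxβ
      · have : x + (M - x) = M := by ring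
        rwa [this]
    · intro x hx hxm
      have hxγ := hγl' x hx (lt_of_le_of_ne (hmmB x hx) (Ne.symm hxm))
      rw [heq]
      rcases lt_or_eq_of_le hxγ with hxγ | rfl
      · have h3 := jc_upp h hm hmm (by omega) hγ.2 hx hxγ
        have : x + (m - γ) = x - (γ - m) := by ring
        rwa [this] at h3
      · have : γ - (γ - m) = m := by ring
        rwa [this]
  · -- the mirror image
    have hneg : (A.erase w).image (fun x => -x) = (A.image (fun x => -x)).erase (-w) := by
      ext x
      rw [jc_mem_neg, mem_erase, mem_erase, jc_mem_neg]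
      constructor
      · rintro ⟨h3, h4⟩
        exact ⟨fun he => h3 (by rw [he, neg_neg]), h4⟩
      · rintro ⟨h3, h4⟩
        exact ⟨fun he => h3 (by rw [← he, neg_neg]), h4⟩
    have hR := jc_neg h
    rw [hneg] at hR
    have hmem : ∀ x, x ∈ (A.image (fun x => -x)).erase (-w) ↔ -x ∈ A.erase w := by
      intro x
      rw [← hneg, jc_mem_neg]
    obtain ⟨s, δ, hδ, hs⟩ := je_lt hK (A := A.image (fun x => -x)) (w := -w)
      (by rw [card_image_of_injective _ neg_injective]; exact hA)
      (by rw [jc_mem_neg, neg_neg]; exact hw) hR (m := -M) (M := -m) (β := -γ) (γ := -β)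
      (by rw [hmem, neg_neg]; exact hMB)
      (fun x hx => by rw [jc_mem_neg] at hx; linarith [hMm _ hx])
      (by rw [hmem, neg_neg]; exact hmB)
      (fun x hx => by rw [jc_mem_neg] at hx; linarith [hmm _ hx])
      (by rw [hmem, neg_neg]; exact hγ.2) (by linarith)
      (fun x hx hx2 => by rw [hmem] at hx; linarith [hγl' _ hx (by linarith)])
      (by rw [hmem, neg_neg]; exact hβ.2) (by linarith)
      (fun x hx hx2 => by rw [hmem] at hx; linarith [hβl' _ hx (by linarith)])
      (by linarith)
    refine ⟨-s - ((K + 1 : ℕ) - 1 : ℝ) * δ, δ, hδ, ?_⟩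
    rw [← jc_rev]
    ext x
    have h3 : x ∈ A ↔ -x ∈ A.image (fun x => -x) := by rw [jc_mem_neg, neg_neg]
    rw [h3, hs, mem_image, mem_image]
    constructor
    · rintro ⟨i, hi, hi2⟩
      exact ⟨i, hi, by linarith⟩
    · rintro ⟨i, hi, hi2⟩
      exact ⟨i, hi, by linarith⟩

/-- jf (S). Assembly. -/
theorem row_odd {A B : Finset ℝ} {K : ℕ} (hK : 3 ≤ K) (hA : A.card = K + 1) (hB : B.card = K)
    (h : Row A B K K) :
    ∃ s t δ : ℝ, 0 < δ ∧ A = (range (K + 1)).image (fun i : ℕ => s + i * δ) ∧
      B ⊆ (range (K + 1)).image (fun i : ℕ => t + i * δ) := by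
  rcases row_odd1 (by omega) hA hB h with h1 | ⟨d, w, hw, h1, h2, h3⟩
  · exact h1
  · have hR : Row A (A.erase w) K K := by
      intro a ha b hb
      have hb' : b + d ∈ B := by
        rw [h3]
        exact mem_image_of_mem _ hb
      have h4 := h a ha (b + d) hb'
      have e : B.image (fun x => x - (b + d - a)) = (A.erase w).image (fun x => x - (b - a)) := by
        rw [h3, image_image]
        apply image_congr
        intro x _
        simp only [Function.comp]
        ring
      rw [e] at h4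
      exact h4
    obtain ⟨s, δ, hδ, hs⟩ := row_odd2 hK hA hw h1 h2 hR
    refine ⟨s, s + d, δ, hδ, hs, ?_⟩
    intro x hx
    rw [h3, mem_image] at hx
    obtain ⟨y, hy, rfl⟩ := hx
    have hy2 := mem_of_mem_erase hy
    rw [hs, mem_image] at hy2
    obtain ⟨i, hi, rfl⟩ := hy2
    rw [mem_image]
    exact ⟨i, hi, by ring⟩

end Cvc
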