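import Mathlib
import Pool.Agent.Cvc.Row

set_option autoImplicit false

open Finset

namespace Cvc

/-- logarithms of `|x|` for the points of `S` on the branch of sign `σ` of the hyperbola `x y = 1` -/
noncomputable def lh (S : Finset P) (σ : ℝ) : Finset ℝ :=
  (S.filter (fun p => 0 < σ * p.1)).image (fun p => Real.log (σ * p.1))

/-- the conditions for a set on both branches of the hyperbola -/
structure HC (U V : Finset ℝ) (K : ℕ) : Prop where
  mix : Row U (V.image (fun x => -x)) K K
  uu : ∀ a ∈ U, ∀ b ∈ U, a < b →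
    ((U.image (fun s => |2 * s - (a + b)|)).filter (fun y => y < b - a)).card +
      (V.image (fun s => |2 * s - (a + b)|)).card ≤ K
  vv : ∀ a ∈ V, ∀ b ∈ V, a < b →
    ((V.image (fun s => |2 * s - (a + b)|)).filter (fun y => y < b - a)).card +
      (U.image (fun s => |2 * s - (a + b)|)).card ≤ K

private theorem la_mem1 {S : Finset P} (hS : ∀ p ∈ S, p.1 * p.2 = 1) {s : ℝ} :
    s ∈ lh S 1 ↔ (Real.exp s, Real.exp (-s)) ∈ S := by
  unfold lh
  rw [mem_image]
  constructor
  · rintro ⟨p, hp, rfl⟩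
    rw [mem_filter] at hp
    have h1 : 0 < p.1 := by simpa using hp.2
    have h2 := hS p hp.1
    have e1 : Real.exp (Real.log (1 * p.1)) = p.1 := by rw [one_mul, Real.exp_log h1]
    have e2 : Real.exp (-Real.log (1 * p.1)) = p.2 := by
      rw [Real.exp_neg, e1]
      field_simp
      linarith
    rw [e1, e2]
    exact hp.1
  · intro h
    refine ⟨_, mem_filter.2 ⟨h, ?_⟩, ?_⟩
    · simp [Real.exp_pos]
    · simp

private theorem la_mem2 {S : Finset P} (hS : ∀ p ∈ S, p.1 * p.2 = 1) {s : ℝ} :
    s ∈ lh S (-1) ↔ (-Real.exp s, -Real.exp (-s)) ∈ S := by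
  unfold lh
  rw [mem_image]
  constructor
  · rintro ⟨p, hp, rfl⟩
    rw [mem_filter] at hp
    have h1 : 0 < -1 * p.1 := hp.2
    have h2 := hS p hp.1
    have e1 : Real.exp (Real.log (-1 * p.1)) = -1 * p.1 := Real.exp_log h1
    have e2 : Real.exp (-Real.log (-1 * p.1)) = - p.2 := by
      rw [Real.exp_neg, e1]
      have h3 : p.1 ≠ 0 := by intro h; rw [h] at h1; simp at h1
      field_simp
      linarith
    rw [e1, e2]
    have e3 : (- (-1 * p.1), - - p.2) = p := by
      ext <;> simp
    rw [e3]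
    exact hp.1
  · intro h
    refine ⟨_, mem_filter.2 ⟨h, ?_⟩, ?_⟩
    · simp [Real.exp_pos]
    · simp

private theorem la_cases {S : Finset P} (hS : ∀ p ∈ S, p.1 * p.2 = 1) {p : P} (hp : p ∈ S) :
    (∃ s ∈ lh S 1, p = (Real.exp s, Real.exp (-s))) ∨
      ∃ s ∈ lh S (-1), p = (-Real.exp s, -Real.exp (-s)) := by
  have h2 := hS p hp
  have h3 : p.1 ≠ 0 := by intro h; rw [h] at h2; simp at h2
  rcases lt_or_gt_of_ne h3 with h | h
  · right
    have e1 : Real.exp (Real.log (-p.1)) = -p.1 := Real.exp_log (by linarith)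
    have e2 : Real.exp (-Real.log (-p.1)) = - p.2 := by
      rw [Real.exp_neg, e1]
      field_simp
      linarith
    have e3 : p = (-Real.exp (Real.log (-p.1)), -Real.exp (-Real.log (-p.1))) := by
      rw [e1, e2]; ext <;> simp
    refine ⟨Real.log (-p.1), ?_, e3⟩
    rw [la_mem2 hS, ← e3]
    exact hp
  · left
    have e1 : Real.exp (Real.log p.1) = p.1 := Real.exp_log h
    have e2 : Real.exp (-Real.log p.1) = p.2 := by
      rw [Real.exp_neg, e1]
      field_simp
      linarith
    have e3 : p = (Real.exp (Real.log p.1), Real.exp (-Real.log p.1)) := by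
      rw [e1, e2]
    refine ⟨Real.log p.1, ?_, e3⟩
    rw [la_mem1 hS, ← e3]
    exact hp

private theorem la_neg {S : Finset P} (hS : ∀ p ∈ S, p.1 * p.2 = 1) :
    ∀ p ∈ S.image (fun p : P => -p), p.1 * p.2 = 1 := by
  intro p hp
  rw [mem_image] at hp
  obtain ⟨q, hq, rfl⟩ := hp
  have := hS q hq
  simp only [Prod.fst_neg, Prod.snd_neg]
  linarith

private theorem la_neg1 {S : Finset P} (hS : ∀ p ∈ S, p.1 * p.2 = 1) :
    lh (S.image (fun p : P => -p)) 1 = lh S (-1) := by
  ext s
  rw [la_mem1 (la_neg hS), la_mem2 hS, mem_image]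
  constructor
  · rintro ⟨q, hq, h⟩
    have : q = (-Real.exp s, -Real.exp (-s)) := by
      rw [← neg_neg q, h]; rfl
    rw [← this]; exact hq
  · intro h
    exact ⟨_, h, by simp⟩

private theorem la_neg2 {S : Finset P} (hS : ∀ p ∈ S, p.1 * p.2 = 1) :
    lh (S.image (fun p : P => -p)) (-1) = lh S 1 := by
  ext s
  rw [la_mem2 (la_neg hS), la_mem1 hS, mem_image]
  constructor
  · rintro ⟨q, hq, h⟩
    have : q = (Real.exp s, Real.exp (-s)) := by
      rw [← neg_neg q, h]; simp
    rw [← this]; exact hq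
  · intro h
    exact ⟨_, h, by simp⟩

private theorem la_cr (d p : P) : cr d (-p) = cr (-d) p := by
  simp only [cr, Prod.fst_neg, Prod.snd_neg]; ring

private theorem la_cr2 (d p : P) : cr (-d) p = - cr d p := by
  simp only [cr, Prod.fst_neg, Prod.snd_neg]; ring

private theorem la_adm {S : Finset P} {K : ℕ} (hA : Adm S K) :
    Adm (S.image (fun p : P => -p)) K := by
  intro d p hp q hq hne heq
  rw [mem_image] at hp hq
  obtain ⟨p', hp', rfl⟩ := hp
  obtain ⟨q', hq', rfl⟩ := hq
  rw [la_cr, la_cr] at heq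
  have := hA (-d) p' hp' q' hq' (by rintro rfl; exact hne rfl) heq
  rw [image_image, la_cr]
  have e : (cr d ∘ fun p : P => -p) = cr (-d) := by
    funext x; exact la_cr d x
  rw [e]
  exact this

private theorem la_mono (e : ℝ) : StrictMono (fun s : ℝ => Real.exp s - Real.exp (e - s)) := by
  intro x y hxy
  have h1 := Real.exp_lt_exp.2 hxy
  have h2 : Real.exp (e - y) < Real.exp (e - x) := Real.exp_lt_exp.2 (by linarith)
  simp only
  linarith

private theorem la_mix {S : Finset P} {K : ℕ} (hS : ∀ p ∈ S, p.1 * p.2 = 1) (hA : Adm S K) :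
    Row (lh S 1) ((lh S (-1)).image (fun x => -x)) K K := by
  intro a ha b hb
  rw [mem_image] at hb
  obtain ⟨v, hv, rfl⟩ := hb
  have hpa := (la_mem1 hS).1 ha
  have hqv := (la_mem2 hS).1 hv
  have hne : (Real.exp a, Real.exp (-a)) ≠ (-Real.exp v, -Real.exp (-v)) := by
    intro h
    have h1 := congrArg Prod.fst h
    simp only at h1
    have := Real.exp_pos a
    have := Real.exp_pos v
    linarith
  set E := Real.exp (a + v) with hE
  have hEa : E * Real.exp (-a) = Real.exp v := by
    rw [hE, ← Real.exp_add]; congr 1; ring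
  have hEv : E * Real.exp (-v) = Real.exp a := by
    rw [hE, ← Real.exp_add]; congr 1; ring
  have hf1 : ∀ s : ℝ, cr (-E, -1) (Real.exp s, Real.exp (-s)) =
      Real.exp s - Real.exp (a + v - s) := by
    intro s
    have : E * Real.exp (-s) = Real.exp (a + v - s) := by
      rw [hE, ← Real.exp_add]; congr 1
    simp only [cr]
    linarith
  have hf2 : ∀ s : ℝ, cr (-E, -1) (-Real.exp s, -Real.exp (-s)) =
      Real.exp (a + v - s) - Real.exp (a + v - (a + v - s)) := by
    intro s
    have h1 : E * Real.exp (-s) = Real.exp (a + v - s) := by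
      rw [hE, ← Real.exp_add]; congr 1
    have h2 : a + v - (a + v - s) = s := by ring
    rw [h2]
    simp only [cr]
    linarith
  have heq : cr (-E, -1) (Real.exp a, Real.exp (-a)) = cr (-E, -1) (-Real.exp v, -Real.exp (-v)) := by
    rw [hf1, hf2]
    have h1 : a + v - a = v := by ring
    have h2 : a + v - v = a := by ring
    have h3 : a + v - (a + v - v) = v := by ring
    rw [h1, h2]
    simp
  have hmem : ∀ x ∈ lh S 1 ∪ ((lh S (-1)).image (fun x => -x)).image (fun x => x - (-v - a)),
      ∃ p ∈ S, cr (-E, -1) p = Real.exp x - Real.exp (a + v - x) := by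
    intro x hx
    rw [mem_union] at hx
    rcases hx with hx | hx
    · exact ⟨_, (la_mem1 hS).1 hx, hf1 x⟩
    · rw [image_image, mem_image] at hx
      obtain ⟨t, ht, rfl⟩ := hx
      refine ⟨_, (la_mem2 hS).1 ht, ?_⟩
      rw [hf2 t]
      have e : (((fun x => x - (-v - a)) ∘ fun x => -x) t) = a + v - t := by
        simp only [Function.comp]; ring
      rw [e]
  constructor
  · have h1 := hA (-E, -1) _ hpa _ hqv hne heq
    refine le_trans ?_ h1
    rw [← card_image_of_injective _ (la_mono (a + v)).injective]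
    apply card_le_card
    intro y hy
    rw [mem_image] at hy
    obtain ⟨x, hx, rfl⟩ := hy
    rw [mem_filter] at hx
    rw [mem_filter, mem_image]
    refine ⟨?_, ?_⟩
    · obtain ⟨p, hp, he⟩ := hmem x hx.1
      exact ⟨p, hp, he⟩
    · rw [hf1]
      exact la_mono (a + v) hx.2
  · have h1 := hA (-(-E, -1)) _ hpa _ hqv hne (by rw [la_cr2, la_cr2, heq])
    refine le_trans ?_ h1
    have hinj : Function.Injective (fun s : ℝ => -(Real.exp s - Real.exp (a + v - s))) :=
      fun x y h => (la_mono (a + v)).injective (neg_injective h)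
    rw [← card_image_of_injective _ hinj]
    apply card_le_card
    intro y hy
    rw [mem_image] at hy
    obtain ⟨x, hx, rfl⟩ := hy
    rw [mem_filter] at hx
    rw [mem_filter, mem_image]
    refine ⟨?_, ?_⟩
    · obtain ⟨p, hp, he⟩ := hmem x hx.1
      exact ⟨p, hp, by rw [la_cr2, he]⟩
    · rw [la_cr2, hf1]
      have := la_mono (a + v) hx.2
      simp only at this
      linarith

private theorem la_cosh {a b s : ℝ} : Real.exp s + Real.exp (a + b - s) =
    2 * Real.exp ((a + b) / 2) * Real.cosh (|2 * s - (a + b)| / 2) := by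
  have h : Real.cosh (|2 * s - (a + b)| / 2) = Real.cosh ((2 * s - (a + b)) / 2) := by
    rcases abs_cases (2 * s - (a + b)) with ⟨h, _⟩ | ⟨h, _⟩
    · rw [h]
    · rw [h, neg_div, Real.cosh_neg]
  rw [h, Real.cosh_eq]
  have e1 : Real.exp s = Real.exp ((a + b) / 2) * Real.exp ((2 * s - (a + b)) / 2) := by
    rw [← Real.exp_add]; congr 1; ring
  have e2 : Real.exp (a + b - s) = Real.exp ((a + b) / 2) * Real.exp (-((2 * s - (a + b)) / 2)) := by
    rw [← Real.exp_add]; congr 1; ring
  rw [e1, e2]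
  ring

private theorem la_uu {S : Finset P} {K : ℕ} (hS : ∀ p ∈ S, p.1 * p.2 = 1) (hA : Adm S K) :
    ∀ a ∈ lh S 1, ∀ b ∈ lh S 1, a < b →
    (((lh S 1).image (fun s => |2 * s - (a + b)|)).filter (fun y => y < b - a)).card +
      ((lh S (-1)).image (fun s => |2 * s - (a + b)|)).card ≤ K := by
  intro a ha b hb hab
  have hpa := (la_mem1 hS).1 ha
  have hpb := (la_mem1 hS).1 hb
  set E := Real.exp (a + b) with hE
  set C := Real.exp ((a + b) / 2) with hC
  have hC0 : 0 < C := Real.exp_pos _
  have hf1 : ∀ s : ℝ, cr (-E, 1) (Real.exp s, Real.exp (-s)) =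
      -(2 * C * Real.cosh (|2 * s - (a + b)| / 2)) := by
    intro s
    rw [← la_cosh]
    have : E * Real.exp (-s) = Real.exp (a + b - s) := by
      rw [hE, ← Real.exp_add]; congr 1
    simp only [cr]
    linarith
  have hf2 : ∀ s : ℝ, cr (-E, 1) (-Real.exp s, -Real.exp (-s)) =
      2 * C * Real.cosh (|2 * s - (a + b)| / 2) := by
    intro s
    rw [← la_cosh]
    have : E * Real.exp (-s) = Real.exp (a + b - s) := by
      rw [hE, ← Real.exp_add]; congr 1
    simp only [cr]
    linarith
  have ea : |2 * a - (a + b)| = b - a := by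
    rw [abs_of_neg (by linarith)]; ring
  have eb : |2 * b - (a + b)| = b - a := by
    rw [abs_of_pos (by linarith)]; ring
  have hne : (Real.exp a, Real.exp (-a)) ≠ (Real.exp b, Real.exp (-b)) := by
    intro h
    have h1 := congrArg Prod.fst h
    simp only at h1
    exact absurd (Real.exp_injective h1) (ne_of_lt hab)
  have heq : cr (-E, 1) (Real.exp a, Real.exp (-a)) = cr (-E, 1) (Real.exp b, Real.exp (-b)) := by
    rw [hf1, hf1, ea, eb]
  have h1 := hA (-E, 1) _ hpa _ hpb hne heq
  rw [hf1, ea] at h1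
  refine le_trans ?_ h1
  have hcl : ∀ x y : ℝ, 0 ≤ x → x < y → Real.cosh (x / 2) < Real.cosh (y / 2) := by
    intro x y hx hxy
    rw [Real.cosh_lt_cosh, abs_of_nonneg (by linarith), abs_of_nonneg (by linarith)]
    linarith
  have hci : ∀ x y : ℝ, 0 ≤ x → 0 ≤ y → Real.cosh (x / 2) = Real.cosh (y / 2) → x = y := by
    intro x y hx hy h
    rcases lt_trichotomy x y with h' | h' | h'
    · exact absurd h (ne_of_lt (hcl x y hx h'))
    · exact h'
    · exact absurd h (ne_of_gt (hcl y x hy h'))
  have c1 : (((lh S 1).image (fun s => |2 * s - (a + b)|)).filter (fun y => y < b - a)).card =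
      ((((lh S 1).image (fun s => |2 * s - (a + b)|)).filter (fun y => y < b - a)).image
        (fun y => -(2 * C * Real.cosh (y / 2)))).card := by
    refine (card_image_of_injOn ?_).symm
    intro x hx y hy hxy
    simp only [coe_filter, mem_image, Set.mem_ofPred_eq] at hx hy
    obtain ⟨⟨s, _, rfl⟩, _⟩ := hx
    obtain ⟨⟨t, _, rfl⟩, _⟩ := hy
    apply hci _ _ (abs_nonneg _) (abs_nonneg _)
    have h2 : 2 * C ≠ 0 := by positivity
    exact mul_left_cancel₀ h2 (neg_injective hxy)
  have c2 : ((lh S (-1)).image (fun s => |2 * s - (a + b)|)).card =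
      (((lh S (-1)).image (fun s => |2 * s - (a + b)|)).image
        (fun y => 2 * C * Real.cosh (y / 2))).card := by
    refine (card_image_of_injOn ?_).symm
    intro x hx y hy hxy
    simp only [coe_image, Set.mem_image, mem_coe] at hx hy
    obtain ⟨s, _, rfl⟩ := hx
    obtain ⟨t, _, rfl⟩ := hy
    apply hci _ _ (abs_nonneg _) (abs_nonneg _)
    have h2 : 2 * C ≠ 0 := by positivity
    exact mul_left_cancel₀ h2 hxy
  rw [c1, c2, ← card_union_of_disjoint]
  · apply card_le_card
    intro y hy
    rw [mem_union] at hy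
    rw [mem_filter, mem_image]
    rcases hy with hy | hy
    · rw [mem_image] at hy
      obtain ⟨x, hx, rfl⟩ := hy
      rw [mem_filter, mem_image] at hx
      obtain ⟨⟨s, hs, rfl⟩, hx2⟩ := hx
      refine ⟨⟨_, (la_mem1 hS).1 hs, hf1 s⟩, ?_⟩
      have := hcl _ _ (abs_nonneg _) hx2
      have h3 : 2 * C * Real.cosh (|2 * s - (a + b)| / 2) < 2 * C * Real.cosh ((b - a) / 2) :=
        mul_lt_mul_of_pos_left this (by positivity)
      linarith
    · rw [mem_image] at hy
      obtain ⟨x, hx, rfl⟩ := hy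
      rw [mem_image] at hx
      obtain ⟨s, hs, rfl⟩ := hx
      refine ⟨⟨_, (la_mem2 hS).1 hs, hf2 s⟩, ?_⟩
      have h4 : 0 < 2 * C * Real.cosh (|2 * s - (a + b)| / 2) := by
        have := Real.cosh_pos (|2 * s - (a + b)| / 2)
        positivity
      have h5 : 0 < 2 * C * Real.cosh ((b - a) / 2) := by
        have := Real.cosh_pos ((b - a) / 2)
        positivity
      linarith
  · rw [disjoint_left]
    intro y h3 h4
    rw [mem_image] at h3 h4
    obtain ⟨x, _, rfl⟩ := h3
    obtain ⟨x', _, h5⟩ := h4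
    have h6 : 0 < 2 * C * Real.cosh (x / 2) := by
      have := Real.cosh_pos (x / 2)
      positivity
    have h7 : 0 < 2 * C * Real.cosh (x' / 2) := by
      have := Real.cosh_pos (x' / 2)
      positivity
    linarith

/-- la (M). Mixed chords: the functional `x - e^(u+v) y` is `f(s) = e^s - e^(u+v-s)` (increasing) on
`(e^s, e^(-s))` and `f(u+v-t)` on `(-e^t, -e^(-t))`. Chords of the branch `x > 0`: the functional
`x + e^(a+b) y` is `2 e^c cosh(s - c)`, `c = (a+b)/2`, on this branch and `-2 e^c cosh(t - c)` on the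
other. Chords of the other branch by `p ↦ -p`. -/
theorem hc_of_adm {S : Finset P} {K : ℕ} (hS : ∀ p ∈ S, p.1 * p.2 = 1) (hA : Adm S K) :
    HC (lh S 1) (lh S (-1)) K := by
  refine ⟨la_mix hS hA, la_uu hS hA, ?_⟩
  have h := la_uu (la_neg hS) (la_adm hA)
  rw [la_neg1 hS, la_neg2 hS] at h
  exact h

/-- lb (S). Points and count. -/
theorem card_hyp {S : Finset P} (hS : ∀ p ∈ S, p.1 * p.2 = 1) :
    S.card = (lh S 1).card + (lh S (-1)).card := by
  have e1 : ((lh S 1).image (fun s => ((Real.exp s, Real.exp (-s)) : P))).card = (lh S 1).card := by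
    apply card_image_of_injective
    intro x y h
    exact Real.exp_injective (congrArg Prod.fst h)
  have e2 : ((lh S (-1)).image (fun s => ((-Real.exp s, -Real.exp (-s)) : P))).card =
      (lh S (-1)).card := by
    apply card_image_of_injective
    intro x y h
    exact Real.exp_injective (neg_injective (congrArg Prod.fst h))
  rw [← e1, ← e2, ← card_union_of_disjoint]
  · congr 1
    ext p
    rw [mem_union, mem_image, mem_image]
    constructor
    · intro hp
      rcases la_cases hS hp with ⟨s, hs, h⟩ | ⟨s, hs, h⟩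
      · exact Or.inl ⟨s, hs, h.symm⟩
      · exact Or.inr ⟨s, hs, h.symm⟩
    · rintro (⟨s, hs, rfl⟩ | ⟨s, hs, rfl⟩)
      · exact (la_mem1 hS).1 hs
      · exact (la_mem2 hS).1 hs
  · rw [disjoint_left]
    intro p h1 h2
    rw [mem_image] at h1 h2
    obtain ⟨s, _, rfl⟩ := h1
    obtain ⟨t, _, h⟩ := h2
    have h3 := congrArg Prod.fst h
    simp only at h3
    have := Real.exp_pos s
    have := Real.exp_pos t
    linarith

/-- lc (S). The map `s ↦ |2 s - e|` is at most two-to-one. -/
theorem card_abs (X : Finset ℝ) (e : ℝ) :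
    X.card ≤ 2 * (X.image (fun s => |2 * s - e|)).card := by
  apply card_le_mul_card_image
  intro y _
  have : X.filter (fun s => |2 * s - e| = y) ⊆ {(e + y) / 2, (e - y) / 2} := by
    intro s hs
    rw [mem_filter] at hs
    rw [mem_insert, mem_singleton]
    rcases abs_cases (2 * s - e) with ⟨h, _⟩ | ⟨h, _⟩
    · left; linarith [hs.2]
    · right; linarith [hs.2]
  exact (card_le_card this).trans card_le_two

/-- ld (S). In the extremal even case the set is symmetric. -/
theorem sym_of_card {X : Finset ℝ} {e : ℝ}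
    (h : 2 * (X.image (fun s => |2 * s - e|)).card ≤ X.card) : ∀ x ∈ X, e - x ∈ X := by
  intro x hx
  by_contra hcon
  have h1 : (X.erase x).image (fun s => |2 * s - e|) ⊆
      (X.image (fun s => |2 * s - e|)).erase |2 * x - e| := by
    intro y hy
    rw [mem_image] at hy
    obtain ⟨s, hs, rfl⟩ := hy
    rw [mem_erase] at hs
    rw [mem_erase, mem_image]
    refine ⟨?_, s, hs.2, rfl⟩
    intro heq
    rcases abs_eq_abs.1 heq with h3 | h3
    · exact hs.1 (by linarith)
    · apply hcon
      have : e - x = s := by linarith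
      rw [this]
      exact hs.2
  have h2 := card_abs (X.erase x) e
  have h3 := card_le_card h1
  rw [card_erase_of_mem (mem_image_of_mem _ hx)] at h3
  rw [card_erase_of_mem hx] at h2
  have h4 : 0 < (X.image (fun s => |2 * s - e|)).card :=
    card_pos.2 ⟨_, mem_image_of_mem _ hx⟩
  have h5 : 0 < X.card := card_pos.2 ⟨x, hx⟩
  omega

private theorem le_sym {X : Finset ℝ} {e : ℝ} (hX : X.Nonempty) (h : ∀ x ∈ X, e - x ∈ X) :
    X.min' hX + X.max' hX = e := by
  have h1 := X.le_max' _ (h _ (X.min'_mem hX))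
  have h2 := X.min'_le _ (h _ (X.max'_mem hX))
  linarith

private theorem le_inner {X : Finset ℝ} (hX : X.Nonempty) (hc : 2 ≤ X.card) :
    X.min' hX < X.max' hX ∧
    X.card - 2 ≤ 2 * ((X.image (fun s => |2 * s - (X.min' hX + X.max' hX)|)).filter
      (fun y => y < X.max' hX - X.min' hX)).card := by
  have hlt : X.min' hX < X.max' hX := X.min'_lt_max'_of_card (by omega)
  refine ⟨hlt, ?_⟩
  set X' := (X.erase (X.min' hX)).erase (X.max' hX) with hX'
  have h1 : X'.card = X.card - 2 := by
    rw [hX', card_erase_of_mem, card_erase_of_mem (X.min'_mem hX)]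
    · omega
    · rw [mem_erase]
      exact ⟨ne_of_gt hlt, X.max'_mem hX⟩
  rw [← h1]
  refine (card_abs X' (X.min' hX + X.max' hX)).trans ?_
  apply Nat.mul_le_mul_left
  apply card_le_card
  intro y hy
  rw [mem_image] at hy
  obtain ⟨s, hs, rfl⟩ := hy
  rw [hX', mem_erase, mem_erase] at hs
  rw [mem_filter, mem_image]
  refine ⟨⟨s, hs.2.2, rfl⟩, ?_⟩
  have h2 : X.min' hX < s := lt_of_le_of_ne (X.min'_le _ hs.2.2) (Ne.symm hs.2.1)
  have h3 : s < X.max' hX := lt_of_le_of_ne (X.le_max' _ hs.2.2) hs.1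
  rw [abs_lt]
  constructor <;> linarith

/-- le (M). The two centres coincide: `min U + max U = min V + max V`. `K` even: `uu` for the
extreme elements of `U`; the inner part of `U` (`K - 1` elements) has at least `K/2` values
(`card_abs`), so the image of `V` has at most `K/2` values and `V` is symmetric about the centre of
`U` (`sym_of_card`). `K` odd: `vv` for the extreme elements of `V`; the inner part of `V` has at least
`(K-1)/2` values, so the image of `U` has at most `(K+1)/2` values and `U` is symmetric about the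
centre of `V`. -/
theorem hc_center {U V : Finset ℝ} {K : ℕ} (hK : 3 ≤ K) (hU : U.card = K + 1) (hV : V.card = K)
    (h : HC U V K) (hUn : U.Nonempty) (hVn : V.Nonempty) :
    U.min' hUn + U.max' hUn = V.min' hVn + V.max' hVn := by
  rcases Nat.even_or_odd' K with ⟨k, hk | hk⟩
  · obtain ⟨h1, h2⟩ := le_inner hUn (by omega)
    have h3 := h.uu _ (U.min'_mem hUn) _ (U.max'_mem hUn) h1
    exact (le_sym hVn (sym_of_card (by omega))).symm
  · obtain ⟨h1, h2⟩ := le_inner hVn (by omega)
    have h3 := h.vv _ (V.min'_mem hVn) _ (V.max'_mem hVn) h1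
    exact le_sym hUn (sym_of_card (by omega))

/-- lf (M). The set `V = U \ {c + m δ}` is impossible, first part: `uu` for `a = c`, `b = c + s δ`
with `s` even, `2 ≤ s ≤ K`, `m ≤ s`, `s ≠ 2m`: the inner part of `U` has the `s/2` values
`0, 2δ, ..., (s-2)δ` and the image of `V` has all the `K - s/2 + 1` values
`0, 2δ, ..., (2K - s)δ`. -/
theorem hc_no_hole1 {U V : Finset ℝ} {K m s : ℕ} {c δ : ℝ} (hδ : 0 < δ)
    (hU : U = (range (K + 1)).image (fun i : ℕ => c + i * δ))
    (hV : ∀ i, i ≤ K → i ≠ m → c + (i : ℝ) * δ ∈ V)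
    (huu : ∀ a ∈ U, ∀ b ∈ U, a < b →
      ((U.image (fun s => |2 * s - (a + b)|)).filter (fun y => y < b - a)).card +
        (V.image (fun s => |2 * s - (a + b)|)).card ≤ K)
    (hs : Even s) (hs2 : 2 ≤ s) (hsK : s ≤ K) (hm : m ≤ s) (hne : s ≠ 2 * m) : False := by
  obtain ⟨r, hr⟩ := hs
  have hs' : (s : ℝ) = 2 * r := by rw [hr]; push_cast; ring
  have hUm : ∀ i, i ≤ K → c + (i : ℝ) * δ ∈ U := by
    intro i hi
    rw [hU, mem_image]
    exact ⟨i, mem_range.2 (by omega), rfl⟩
  have hr0 : (0 : ℝ) < r := by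
    have : 0 < r := by omega
    exact_mod_cast this
  have h1 := huu (c + ((0 : ℕ) : ℝ) * δ) (hUm 0 (by omega)) (c + (s : ℝ) * δ) (hUm s hsK) (by
    rw [hs']; push_cast; nlinarith)
  have hval : ∀ i : ℝ, |2 * (c + i * δ) - (c + ((0 : ℕ) : ℝ) * δ + (c + (s : ℝ) * δ))| =
      |i - r| * (2 * δ) := by
    intro i
    have : 2 * (c + i * δ) - (c + ((0 : ℕ) : ℝ) * δ + (c + (s : ℝ) * δ)) = (i - r) * (2 * δ) := by
      rw [hs']; push_cast; ring
    rw [this, abs_mul, abs_of_pos (by linarith : 0 < 2 * δ)]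
  have hinj : Function.Injective (fun k : ℕ => (k : ℝ) * (2 * δ)) := by
    intro x y hxy
    have h2 : (2 * δ) ≠ 0 := by positivity
    exact_mod_cast mul_right_cancel₀ h2 hxy
  have h2 : r ≤ ((U.image (fun s_1 => |2 * s_1 - (c + ((0 : ℕ) : ℝ) * δ + (c + (s : ℝ) * δ))|)).filter
      (fun y => y < c + (s : ℝ) * δ - (c + ((0 : ℕ) : ℝ) * δ))).card := by
    have e : r = ((range r).image (fun k : ℕ => (k : ℝ) * (2 * δ))).card := by
      rw [card_image_of_injective _ hinj, card_range]
    conv_lhs => rw [e]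
    apply card_le_card
    intro y hy
    rw [mem_image] at hy
    obtain ⟨k, hk, rfl⟩ := hy
    rw [mem_range] at hk
    rw [mem_filter, mem_image]
    refine ⟨⟨_, hUm (r + k) (by omega), ?_⟩, ?_⟩
    · rw [hval]
      push_cast
      rw [add_sub_cancel_left, abs_of_nonneg (Nat.cast_nonneg k)]
    · rw [hs']
      have : (k : ℝ) + 1 ≤ r := by exact_mod_cast hk
      push_cast
      nlinarith
  have h3 : K - r + 1 ≤ (V.image (fun s_1 => |2 * s_1 - (c + ((0 : ℕ) : ℝ) * δ + (c + (s : ℝ) * δ))|)).card := by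
    have e : K - r + 1 = ((range (K - r + 1)).image (fun k : ℕ => (k : ℝ) * (2 * δ))).card := by
      rw [card_image_of_injective _ hinj, card_range]
    conv_lhs => rw [e]
    apply card_le_card
    intro y hy
    rw [mem_image] at hy
    obtain ⟨k, hk, rfl⟩ := hy
    rw [mem_range] at hk
    rw [mem_image]
    by_cases hkm : r + k = m
    · have hkr : k ≤ r := by omega
      refine ⟨_, hV (r - k) (by omega) (by omega), ?_⟩
      rw [hval, Nat.cast_sub hkr]
      have : (r : ℝ) - k - r = -k := by ring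
      rw [this, abs_neg, abs_of_nonneg (Nat.cast_nonneg k)]
    · refine ⟨_, hV (r + k) (by omega) hkm, ?_⟩
      rw [hval]
      push_cast
      rw [add_sub_cancel_left, abs_of_nonneg (Nat.cast_nonneg k)]
  omega

private theorem lg_mirror {U V : Finset ℝ} {K : ℕ}
    (huu : ∀ a ∈ U, ∀ b ∈ U, a < b →
      ((U.image (fun s => |2 * s - (a + b)|)).filter (fun y => y < b - a)).card +
        (V.image (fun s => |2 * s - (a + b)|)).card ≤ K) :
    ∀ a ∈ U.image (fun x => -x), ∀ b ∈ U.image (fun x => -x), a < b →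
      (((U.image (fun x => -x)).image (fun s => |2 * s - (a + b)|)).filter (fun y => y < b - a)).card +
        ((V.image (fun x => -x)).image (fun s => |2 * s - (a + b)|)).card ≤ K := by
  intro a ha b hb hab
  rw [mem_image] at ha hb
  obtain ⟨a', ha', rfl⟩ := ha
  obtain ⟨b', hb', rfl⟩ := hb
  have h := huu b' hb' a' ha' (by linarith)
  rw [image_image, image_image]
  have e : ((fun s => |2 * s - (-a' + -b')|) ∘ fun x => -x) = fun s : ℝ => |2 * s - (b' + a')| := by
    funext s
    simp only [Function.comp]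
    rw [← abs_neg]
    congr 1
    ring
  have e2 : -b' - -a' = a' - b' := by ring
  rw [e, e2]
  exact h

/-- lg (M). Second part: apply `hc_no_hole1` with `s` the largest even number `≤ K`, or to the mirror
image (`x ↦ -x`, `m ↦ K - m`), or (if `K = 2m`) with `s = K - 2`. -/
theorem hc_no_hole {U V : Finset ℝ} {K m : ℕ} {c δ : ℝ} (hK : 3 ≤ K) (hδ : 0 < δ)
    (hm : 0 < m) (hmK : m < K)
    (hU : U = (range (K + 1)).image (fun i : ℕ => c + i * δ))
    (hV : ∀ i, i ≤ K → i ≠ m → c + (i : ℝ) * δ ∈ V)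
    (huu : ∀ a ∈ U, ∀ b ∈ U, a < b →
      ((U.image (fun s => |2 * s - (a + b)|)).filter (fun y => y < b - a)).card +
        (V.image (fun s => |2 * s - (a + b)|)).card ≤ K) : False := by
  rcases Nat.even_or_odd' K with ⟨k, hk | hk⟩
  · by_cases h2 : K = 2 * m
    · exact hc_no_hole1 (s := K - 2) hδ hU hV huu ⟨k - 1, by omega⟩ (by omega) (by omega) (by omega)
        (by omega)
    · exact hc_no_hole1 (s := K) hδ hU hV huu ⟨k, by omega⟩ (by omega) (by omega) (by omega) h2
  · by_cases h2 : K - 1 = 2 * m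
    · refine hc_no_hole1 (U := U.image (fun x => -x)) (V := V.image (fun x => -x)) (K := K)
        (m := K - m) (s := K - 1) (c := -(c + K * δ)) hδ ?_ ?_ (lg_mirror huu) ⟨k, by omega⟩
        (by omega) (by omega) (by omega) (by omega)
      · rw [hU, image_image]
        ext x
        rw [mem_image, mem_image]
        constructor
        · rintro ⟨i, hi, rfl⟩
          rw [mem_range] at hi
          refine ⟨K - i, mem_range.2 (by omega), ?_⟩
          simp only [Function.comp]
          rw [Nat.cast_sub (by omega)]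
          ring
        · rintro ⟨i, hi, rfl⟩
          rw [mem_range] at hi
          refine ⟨K - i, mem_range.2 (by omega), ?_⟩
          simp only [Function.comp]
          rw [Nat.cast_sub (by omega)]
          ring
      · intro i hi him
        rw [mem_image]
        refine ⟨_, hV (K - i) (by omega) (by omega), ?_⟩
        rw [Nat.cast_sub hi]
        ring
    · exact hc_no_hole1 (s := K - 1) hδ hU hV huu ⟨k, by omega⟩ (by omega) (by omega) (by omega) h2

private theorem lh_mm {X : Finset ℝ} (hX : X.Nonempty) {c d : ℝ} (hc : c ∈ X) (hd : d ∈ X)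
    (h : ∀ x ∈ X, c ≤ x ∧ x ≤ d) : X.min' hX + X.max' hX = c + d := by
  have h1 : X.min' hX = c := le_antisymm (X.min'_le _ hc) (h _ (X.min'_mem hX)).1
  have h2 : X.max' hX = d := le_antisymm (h _ (X.max'_mem hX)).2 (X.le_max' _ hd)
  rw [h1, h2]

/-- lh (M). Both branches, `|U| = K + 1`, `|V| = K`: `row_odd` for `U` and `-V`, then
`hc_center`: either `V` is a progression with `K` terms, centred like `U`, or `V` is a progression with
`K + 1` terms, centred like `U` (so equal to `U`) without an inner point. -/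
theorem hc_main {U V : Finset ℝ} {K : ℕ} (hK : 3 ≤ K) (hU : U.card = K + 1) (hV : V.card = K)
    (h : HC U V K) :
    ∃ c δ : ℝ, 0 < δ ∧ U = (range (K + 1)).image (fun i : ℕ => c + i * δ) ∧
      V = (range K).image (fun i : ℕ => c + δ / 2 + i * δ) := by
  have hVn : (V.image (fun x => -x)).card = K := by
    rw [card_image_of_injective _ neg_injective, hV]
  obtain ⟨s, t, δ, hδ, hU', hV'⟩ := row_odd hK hU hVn h.mix
  have hinj : Function.Injective (fun i : ℕ => t + (i : ℝ) * δ) := by
    intro x y hxy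
    have h1 : (x : ℝ) * δ = y * δ := by
      have h2 : t + (x : ℝ) * δ = t + (y : ℝ) * δ := hxy
      linarith
    exact_mod_cast mul_right_cancel₀ (ne_of_gt hδ) h1
  set W := (range (K + 1)).image (fun i : ℕ => t + (i : ℝ) * δ) with hW
  have hWc : W.card = K + 1 := by
    rw [hW, card_image_of_injective _ hinj, card_range]
  have hsd : (W \ V.image (fun x => -x)).card = 1 := by
    rw [card_sdiff_of_subset hV', hWc, hVn]; omega
  obtain ⟨w, hw⟩ := card_eq_one.1 hsd
  have hwW : w ∈ W \ V.image (fun x => -x) := by rw [hw]; exact mem_singleton_self w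
  rw [mem_sdiff, hW, mem_image] at hwW
  obtain ⟨⟨m', hm', hwm⟩, hwV⟩ := hwW
  rw [mem_range] at hm'
  have hmem : ∀ i : ℕ, i ≤ K → i ≠ m' → -(t + (i : ℝ) * δ) ∈ V := by
    intro i hi him
    by_contra hcon
    have h1 : t + (i : ℝ) * δ ∈ W \ V.image (fun x => -x) := by
      rw [mem_sdiff, hW, mem_image]
      refine ⟨⟨i, mem_range.2 (by omega), rfl⟩, ?_⟩
      intro h2
      rw [mem_image] at h2
      obtain ⟨v, hv, h3⟩ := h2
      apply hcon
      rw [← h3, neg_neg]
      exact hv
    rw [hw, mem_singleton, ← hwm] at h1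
    exact him (hinj h1)
  have hmem' : ∀ v ∈ V, ∃ i : ℕ, i ≤ K ∧ i ≠ m' ∧ v = -(t + (i : ℝ) * δ) := by
    intro v hv
    have h1 := hV' (mem_image_of_mem (fun x => -x) hv)
    rw [mem_image] at h1
    obtain ⟨i, hi, h2⟩ := h1
    rw [mem_range] at hi
    refine ⟨i, by omega, ?_, ?_⟩
    · rintro rfl
      apply hwV
      rw [← hwm, h2]
      exact mem_image_of_mem _ hv
    · rw [h2, neg_neg]
  have hUne : U.Nonempty := card_pos.1 (by omega)
  have hVne : V.Nonempty := card_pos.1 (by omega)
  have hcen := hc_center hK hU hV h hUne hVne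
  have hUc : U.min' hUne + U.max' hUne = s + (s + K * δ) := by
    apply lh_mm
    · rw [hU', mem_image]
      exact ⟨0, mem_range.2 (by omega), by push_cast; ring⟩
    · rw [hU', mem_image]
      exact ⟨K, mem_range.2 (by omega), rfl⟩
    · intro x hx
      rw [hU', mem_image] at hx
      obtain ⟨i, hi, rfl⟩ := hx
      rw [mem_range] at hi
      have h1 : (i : ℝ) ≤ K := by exact_mod_cast (by omega : i ≤ K)
      have h2 : (0 : ℝ) ≤ i := Nat.cast_nonneg i
      constructor <;> nlinarith
  rw [hUc] at hcen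
  have hKr : (3 : ℝ) ≤ K := by exact_mod_cast hK
  rcases Nat.eq_zero_or_pos m' with h0 | h0
  · -- the missing term is the largest
    have hVc : V.min' hVne + V.max' hVne = -(t + K * δ) + -(t + ((1 : ℕ) : ℝ) * δ) := by
      apply lh_mm
      · exact hmem K le_rfl (by omega)
      · exact hmem 1 (by omega) (by omega)
      · intro x hx
        obtain ⟨i, hi, him, rfl⟩ := hmem' x hx
        have h1 : (i : ℝ) ≤ K := by exact_mod_cast hi
        have h2 : ((1 : ℕ) : ℝ) ≤ i := by exact_mod_cast (by omega : 1 ≤ i)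
        constructor <;> nlinarith
    rw [hVc] at hcen
    have hs : s + δ / 2 = -(t + K * δ) := by push_cast at hcen; linarith
    refine ⟨s, δ, hδ, hU', ?_⟩
    rw [hs]
    ext v
    rw [mem_image]
    constructor
    · intro hv
      obtain ⟨i, hi, him, rfl⟩ := hmem' v hv
      refine ⟨K - i, mem_range.2 (by omega), ?_⟩
      rw [Nat.cast_sub hi]; ring
    · rintro ⟨i, hi, rfl⟩
      rw [mem_range] at hi
      have := hmem (K - i) (by omega) (by omega)
      rw [Nat.cast_sub (by omega)] at this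
      convert this using 1
      ring
  · rcases Nat.lt_or_ge m' K with h1 | h1
    · exfalso
      have hVc : V.min' hVne + V.max' hVne = -(t + K * δ) + -(t + ((0 : ℕ) : ℝ) * δ) := by
        apply lh_mm
        · exact hmem K le_rfl (by omega)
        · exact hmem 0 (by omega) (by omega)
        · intro x hx
          obtain ⟨i, hi, him, rfl⟩ := hmem' x hx
          have h1 : (i : ℝ) ≤ K := by exact_mod_cast hi
          have h2 : ((0 : ℕ) : ℝ) ≤ i := by exact_mod_cast (by omega : 0 ≤ i)
          constructor <;> nlinarith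
      rw [hVc] at hcen
      have hs : s = -(t + K * δ) := by push_cast at hcen; linarith
      refine hc_no_hole (m := K - m') (c := s) hK hδ (by omega) (by omega) hU' ?_ h.uu
      intro i hi him
      have := hmem (K - i) (by omega) (by omega)
      rw [Nat.cast_sub (by omega)] at this
      rw [hs]
      convert this using 1
      ring
    · have hmK : m' = K := by omega
      have hVc : V.min' hVne + V.max' hVne = -(t + ((K - 1 : ℕ) : ℝ) * δ) + -(t + ((0 : ℕ) : ℝ) * δ) := by
        apply lh_mm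
        · exact hmem (K - 1) (by omega) (by omega)
        · exact hmem 0 (by omega) (by omega)
        · intro x hx
          obtain ⟨i, hi, him, rfl⟩ := hmem' x hx
          have h1 : (i : ℝ) ≤ ((K - 1 : ℕ) : ℝ) := by exact_mod_cast (by omega : i ≤ K - 1)
          have h2 : ((0 : ℕ) : ℝ) ≤ i := by exact_mod_cast (by omega : 0 ≤ i)
          constructor <;> nlinarith
      rw [hVc, Nat.cast_sub (by omega)] at hcen
      have hs : s + δ / 2 = -(t + (K - 1) * δ) := by push_cast at hcen; linarith
      refine ⟨s, δ, hδ, hU', ?_⟩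
      rw [hs]
      ext v
      rw [mem_image]
      constructor
      · intro hv
        obtain ⟨i, hi, him, rfl⟩ := hmem' v hv
        refine ⟨K - 1 - i, mem_range.2 (by omega), ?_⟩
        rw [Nat.cast_sub (by omega), Nat.cast_sub (by omega)]; push_cast; ring
      · rintro ⟨i, hi, rfl⟩
        rw [mem_range] at hi
        have := hmem (K - 1 - i) (by omega) (by omega)
        rw [Nat.cast_sub (by omega), Nat.cast_sub (by omega)] at this
        convert this using 1
        push_cast
        ring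

private noncomputable def li_map (a : ℝ) (ha : a ≠ 0) : P ≃ᵃ[ℝ] P :=
  (LinearEquiv.prodCongr (LinearEquiv.smulOfNeZero ℝ ℝ a ha)
    (LinearEquiv.smulOfNeZero ℝ ℝ a⁻¹ (inv_ne_zero ha))).toAffineEquiv

private theorem li_map_apply (a : ℝ) (ha : a ≠ 0) (p : P) : li_map a ha p = (a * p.1, a⁻¹ * p.2) := by
  simp [li_map]

private theorem li_pos {S : Finset P} {K : ℕ} (hK : 3 ≤ K) (hc : S.card = 2 * K + 1)
    (hS : ∀ p ∈ S, p.1 * p.2 = 1) (hU : (lh S 1).card = K + 1) (hA : Adm S K) :
    ∃ z : ℝ, z < -1 ∧ ∃ a : ℝ, ∃ ha : a ≠ 0, (S : Set P) = li_map a ha '' Hy z S.card := by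
  have hcard := card_hyp hS
  have hV : (lh S (-1)).card = K := by omega
  obtain ⟨c, δ, hδ, hU', hV'⟩ := hc_main hK hU hV (hc_of_adm hS hA)
  refine ⟨-Real.exp (δ / 2), ?_, Real.exp c, (Real.exp_pos c).ne', ?_⟩
  · have : 1 < Real.exp (δ / 2) := Real.one_lt_exp_iff.2 (by linarith)
    linarith
  have hev : ∀ j : ℕ, (-Real.exp (δ / 2)) ^ (2 * j) = Real.exp (j * δ) := by
    intro j
    rw [pow_mul, neg_sq, ← pow_mul, ← Real.exp_nat_mul]
    congr 1
    push_cast
    ring
  have hod : ∀ j : ℕ, (-Real.exp (δ / 2)) ^ (2 * j + 1) = -Real.exp (δ / 2 + j * δ) := by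
    intro j
    rw [pow_succ, hev, Real.exp_add]
    ring
  have hodi : ∀ j : ℕ, ((-Real.exp (δ / 2)) ^ (2 * j + 1))⁻¹ = -Real.exp (-(δ / 2 + j * δ)) := by
    intro j
    rw [hod, Real.exp_neg, inv_neg]
  have hevi : ∀ j : ℕ, ((-Real.exp (δ / 2)) ^ (2 * j))⁻¹ = Real.exp (-(j * δ)) := by
    intro j
    rw [hev, Real.exp_neg]
  have hci : (Real.exp c)⁻¹ = Real.exp (-c) := (Real.exp_neg c).symm
  ext p
  rw [Set.mem_image, mem_coe]
  constructor
  · intro hp
    rcases la_cases hS hp with ⟨s, hs, rfl⟩ | ⟨s, hs, rfl⟩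
    · rw [hU', mem_image] at hs
      obtain ⟨j, hj, rfl⟩ := hs
      rw [mem_range] at hj
      refine ⟨_, ⟨2 * j, by omega, rfl⟩, ?_⟩
      rw [li_map_apply, hevi, hev, hci]
      simp only
      rw [← Real.exp_add, ← Real.exp_add]
      congr 2
      ring
    · rw [hV', mem_image] at hs
      obtain ⟨j, hj, rfl⟩ := hs
      rw [mem_range] at hj
      refine ⟨_, ⟨2 * j + 1, by omega, rfl⟩, ?_⟩
      rw [li_map_apply, hodi, hod, hci]
      simp only
      rw [mul_neg, mul_neg, ← Real.exp_add, ← Real.exp_add]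
      congr 3 <;> ring
  · rintro ⟨q, ⟨i, hi, rfl⟩, rfl⟩
    rw [li_map_apply]
    rcases Nat.even_or_odd' i with ⟨j, hj | hj⟩
    · rw [hj, hevi, hev, hci]
      simp only
      rw [← Real.exp_add, ← Real.exp_add]
      have hm : c + (j : ℝ) * δ ∈ lh S 1 := by
        rw [hU', mem_image]
        exact ⟨j, mem_range.2 (by omega), rfl⟩
      have := (la_mem1 hS).1 hm
      have e : -c + -((j : ℝ) * δ) = -(c + j * δ) := by ring
      rw [e]
      exact this
    · rw [hj, hodi, hod, hci]
      simp only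
      rw [mul_neg, mul_neg, ← Real.exp_add, ← Real.exp_add]
      have hm : c + δ / 2 + (j : ℝ) * δ ∈ lh S (-1) := by
        rw [hV', mem_image]
        exact ⟨j, mem_range.2 (by omega), rfl⟩
      have := (la_mem2 hS).1 hm
      have e : -c + -(δ / 2 + (j : ℝ) * δ) = -(c + δ / 2 + j * δ) := by ring
      have e2 : c + (δ / 2 + (j : ℝ) * δ) = c + δ / 2 + j * δ := by ring
      rw [e, e2]
      exact this

/-- li (M). Conclusion: `z = -e^(δ/2)`, `Φ = ± diag (e^c, e^(-c))`. -/
theorem hyperbola {S : Finset P} (h7 : 7 ≤ S.card) (hodd : Odd S.card)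
    (hS : ∀ p ∈ S, p.1 * p.2 = 1) (h1 : ∃ p ∈ S, 0 < p.1) (h2 : ∃ p ∈ S, p.1 < 0)
    (hA : Adm S ((S.card - 1) / 2)) :
    ∃ z : ℝ, z < -1 ∧ ∃ Φ : P ≃ᵃ[ℝ] P, (S : Set P) = Φ '' Hy z S.card := by
  obtain ⟨K, hK⟩ := hodd
  have hKe : (S.card - 1) / 2 = K := by omega
  rw [hKe] at hA
  have hK3 : 3 ≤ K := by omega
  have hcard := card_hyp hS
  have hUne : (lh S 1).Nonempty := by
    obtain ⟨p, hp, h⟩ := h1
    exact ⟨_, mem_image_of_mem _ (mem_filter.2 ⟨hp, by simpa using h⟩)⟩
  have hVne : ((lh S (-1)).image (fun x => -x)).Nonempty := by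
    obtain ⟨p, hp, h⟩ := h2
    exact ⟨_, mem_image_of_mem _ (mem_image_of_mem _ (mem_filter.2 ⟨hp, by linarith⟩))⟩
  obtain ⟨h3, h4⟩ := row_sizes (hc_of_adm hS hA).mix hUne hVne
  rw [card_image_of_injective _ neg_injective] at h4
  rcases Nat.lt_or_ge (lh S 1).card (K + 1) with h5 | h5
  · -- use `-S`
    have hS' := la_neg hS
    have hc' : (S.image (fun p : P => -p)).card = S.card := card_image_of_injective _ neg_injective
    obtain ⟨z, hz, a, ha, h6⟩ := li_pos hK3 (by rw [hc']; exact hK) hS'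
      (by rw [la_neg1 hS]; omega) (la_adm hA)
    refine ⟨z, hz, (li_map a ha).trans (LinearEquiv.neg ℝ : P ≃ₗ[ℝ] P).toAffineEquiv, ?_⟩
    rw [hc', coe_image] at h6
    have h7 : (S : Set P) = (fun p : P => -p) '' ((fun p : P => -p) '' (S : Set P)) := by
      rw [← Set.image_comp]
      simp
    rw [h7, h6, ← Set.image_comp]
    rfl
  · obtain ⟨z, hz, a, ha, h6⟩ := li_pos hK3 hK hS (by omega) hA
    exact ⟨z, hz, li_map a ha, h6⟩

end Cvc
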