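import Mathlib
import Pool.Agent.Cvc.Defs

set_option autoImplicit false

namespace Cvc

/-- the difference `w (i+1) - w i` -/
def ed (w : ℕ → P) (i : ℕ) : P := w (i + 1) - w i

private lemma ha_cr (u v : P) : cr u v = u.1 * v.2 - u.2 * v.1 := rfl

private lemma ha_mu {u v w : P} (h : cr u v ≠ 0) (h2 : cr (u + w) v = 0) :
    ∃ μ : ℝ, w = μ • v - u := by
  refine ⟨cr u w / cr u v, ?_⟩
  rw [ha_cr] at h2
  simp only [Prod.fst_add, Prod.snd_add] at h2
  have h1 : w.1 + u.1 = cr u w / cr u v * v.1 := by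
    rw [div_mul_eq_mul_div, eq_div_iff h, ha_cr, ha_cr]
    linear_combination u.1 * h2
  have h3 : w.2 + u.2 = cr u w / cr u v * v.2 := by
    rw [div_mul_eq_mul_div, eq_div_iff h, ha_cr, ha_cr]
    linear_combination u.2 * h2
  ext
  · simp only [Prod.fst_sub, Prod.smul_fst, smul_eq_mul]; linarith
  · simp only [Prod.snd_sub, Prod.smul_snd, smul_eq_mul]; linarith

/-- ha (M). The recurrence with a constant coefficient. From `(i,i+3) ∥ (i+1,i+2)`:
`ed (i+2) = μ_i ed (i+1) - ed i`; from `(i,i+4) ∥ (i+1,i+3)` : `μ_i = μ_(i+1)`, since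
`ed i + ed (i+3) = (μ_i - 1) ed (i+1) + (μ_(i+1) - 1) ed (i+2)` is parallel to
`ed (i+1) + ed (i+2)`. -/
theorem rec_const {M : ℕ} (hM : 6 ≤ M) {w : ℕ → P}
    (ccw : ∀ i j k, 1 ≤ i → i < j → j < k → k ≤ M → 0 < tri (w i) (w j) (w k))
    (ha : ∀ i, 1 ≤ i → i + 3 ≤ M → cr (w (i + 3) - w i) (w (i + 2) - w (i + 1)) = 0)
    (hb : ∀ i, 1 ≤ i → i + 4 ≤ M → cr (w (i + 4) - w i) (w (i + 3) - w (i + 1)) = 0) :
    ∃ μ : ℝ, ∀ i, 1 ≤ i → i + 3 ≤ M → ed w (i + 2) = μ • ed w (i + 1) - ed w i := by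
  have hD : ∀ i, 1 ≤ i → i + 2 ≤ M → 0 < cr (ed w i) (ed w (i + 1)) := by
    intro i hi h2
    have h := ccw i (i + 1) (i + 2) hi (by omega) (by omega) h2
    simp only [tri, cr, ed, Prod.fst_sub, Prod.snd_sub] at h ⊢
    have e : i + 1 + 1 = i + 2 := rfl
    rw [e]
    linarith
  have h1 : ∀ i, 1 ≤ i ∧ i + 3 ≤ M → ∃ μ : ℝ, ed w (i + 2) = μ • ed w (i + 1) - ed w i := by
    rintro i ⟨hi, h3⟩
    refine ha_mu (hD i hi (by omega)).ne' ?_
    have h := ha i hi h3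
    simp only [cr, ed, Prod.fst_sub, Prod.snd_sub, Prod.fst_add, Prod.snd_add] at h ⊢
    have e : i + 1 + 1 = i + 2 := rfl
    have e' : i + 2 + 1 = i + 3 := rfl
    rw [e, e']
    linarith
  have hmu : ∃ m : ℕ → ℝ, ∀ i, 1 ≤ i ∧ i + 3 ≤ M → ed w (i + 2) = m i • ed w (i + 1) - ed w i := by
    classical
    refine ⟨fun i => if h : 1 ≤ i ∧ i + 3 ≤ M then (h1 i h).choose else 0, fun i hi => ?_⟩
    dsimp only
    rw [dif_pos hi]
    exact (h1 i hi).choose_spec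
  obtain ⟨m, hm⟩ := hmu
  have hDD : ∀ i, 1 ≤ i → i + 3 ≤ M →
      cr (ed w (i + 1)) (ed w (i + 2)) = cr (ed w i) (ed w (i + 1)) := by
    intro i hi h3
    rw [hm i ⟨hi, h3⟩]
    simp only [cr, Prod.fst_sub, Prod.snd_sub, Prod.smul_fst, Prod.smul_snd, smul_eq_mul]
    ring
  have hstep : ∀ i, 1 ≤ i → i + 4 ≤ M → m (i + 1) = m i := by
    intro i hi h4
    have e0 := hm i ⟨hi, by omega⟩
    have e1 := hm (i + 1) ⟨by omega, by omega⟩
    have h := hb i hi h4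
    have hsum : cr (ed w i + ed w (i + 3)) (ed w (i + 1) + ed w (i + 2)) = 0 := by
      simp only [cr, ed, Prod.fst_sub, Prod.snd_sub, Prod.fst_add, Prod.snd_add] at h ⊢
      have e : i + 1 + 1 = i + 2 := rfl
      have e' : i + 2 + 1 = i + 3 := rfl
      have e'' : i + 3 + 1 = i + 4 := rfl
      rw [e, e', e'']
      linarith
    have e3 : ed w (i + 3) = m (i + 1) • ed w (i + 2) - ed w (i + 1) := by
      have : i + 1 + 2 = i + 3 := rfl
      rw [this] at e1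
      exact e1
    have e4 : ed w i = m i • ed w (i + 1) - ed w (i + 2) := by rw [e0]; abel
    have hd := hD (i + 1) (by omega) (by omega)
    have e' : i + 1 + 1 = i + 2 := rfl
    rw [e'] at hd
    rw [e3] at hsum
    rw [e4] at hsum
    simp only [cr, Prod.fst_sub, Prod.snd_sub, Prod.smul_fst, Prod.smul_snd, smul_eq_mul,
      Prod.fst_add, Prod.snd_add] at hsum hd
    have : (m i - m (i + 1)) * ((ed w (i + 1)).1 * (ed w (i + 2)).2 -
        (ed w (i + 1)).2 * (ed w (i + 2)).1) = 0 := by linear_combination hsum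
    rcases mul_eq_zero.1 this with h | h
    · linarith
    · exact absurd h hd.ne'
  refine ⟨m 1, fun i hi h3 => ?_⟩
  have hall : ∀ j, j + 1 + 3 ≤ M → m (j + 1) = m 1 := by
    intro j
    induction j with
    | zero => intro _; rfl
    | succ j ih =>
      intro hj
      rw [hstep (j + 1) (by omega) (by omega)]
      exact ih (by omega)
  obtain ⟨j, rfl⟩ : ∃ j, i = j + 1 := ⟨i - 1, by omega⟩
  rw [← hall j h3]
  exact hm (j + 1) ⟨hi, h3⟩

private lemma hb_sum (w : ℕ → P) (k : ℕ) (u : P) (c : ℝ) (n : ℕ)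
    (h : ∀ j, k ≤ j → j < k + (n + 1) → c ≤ cr u (ed w j)) (hc : 0 < c) :
    0 < cr u (w (k + (n + 1)) - w k) := by
  induction n with
  | zero =>
    have := h k le_rfl (by omega)
    rw [ed] at this
    linarith
  | succ n ih =>
    have h1 := ih fun j h1 h2 => h j h1 (by omega)
    have h2 := h (k + (n + 1)) (by omega) (by omega)
    rw [ed] at h2
    have e : k + (n + 1) + 1 = k + (n + 1 + 1) := by ring
    rw [e] at h2
    simp only [cr, Prod.fst_sub, Prod.snd_sub] at h1 h2 ⊢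
    linarith

/-- hb (M). The coefficient is in `(-1, 2)`. `μ > -1`: `tri (w 1) (w 2) (w 4) = (1 + μ) D`,
`D = cr (ed 1) (ed 2) > 0`. If `μ ≥ 2` then `cr (ed 1) (ed (m+1)) ≥ D` for all `1 ≤ m`
(`P 0 = 0`, `P 1 = 1`, `P (m+1) - P m ≥ P m - P (m-1)`), so `cr (ed 1) (w l - w k) > 0`. -/
theorem rec_range {M : ℕ} (hM : 6 ≤ M) {w : ℕ → P} {μ : ℝ}
    (ccw : ∀ i j k, 1 ≤ i → i < j → j < k → k ≤ M → 0 < tri (w i) (w j) (w k))
    (hμ : ∀ i, 1 ≤ i → i + 3 ≤ M → ed w (i + 2) = μ • ed w (i + 1) - ed w i)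
    {k l : ℕ} (hk : 2 ≤ k) (hkl : k < l) (hl : l ≤ M) (hc : cr (w 2 - w 1) (w l - w k) = 0) :
    -1 < μ ∧ μ < 2 := by
  have hD : 0 < cr (ed w 1) (ed w 2) := by
    have h := ccw 1 2 3 le_rfl (by omega) (by omega) (by omega)
    simp only [tri, cr, ed, Prod.fst_sub, Prod.snd_sub] at h ⊢
    linarith
  constructor
  · have h := ccw 1 2 4 le_rfl (by omega) (by omega) (by omega)
    have e3 : ed w 3 = μ • ed w 2 - ed w 1 := hμ 1 le_rfl (by omega)
    have h2 : tri (w 1) (w 2) (w 4) = cr (ed w 1) (ed w 2) + cr (ed w 1) (ed w 3) := by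
      simp only [tri, cr, ed, Prod.fst_sub, Prod.snd_sub]
      ring
    have h3 : cr (ed w 1) (ed w 3) = μ * cr (ed w 1) (ed w 2) := by
      rw [e3]
      simp only [cr, Prod.fst_sub, Prod.snd_sub, Prod.smul_fst, Prod.smul_snd, smul_eq_mul]
      ring
    rw [h2, h3] at h
    by_contra hcon
    push Not at hcon
    nlinarith
  · by_contra hcon
    push Not at hcon
    have hind : ∀ m, m + 3 ≤ M → cr (ed w 1) (ed w 2) ≤ cr (ed w 1) (ed w (m + 2)) ∧
        cr (ed w 1) (ed w (m + 1)) ≤ cr (ed w 1) (ed w (m + 2)) := by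
      intro m
      induction m with
      | zero =>
        intro _
        refine ⟨le_rfl, ?_⟩
        have : cr (ed w 1) (ed w (0 + 1)) = 0 := by
          simp only [cr, zero_add]; ring
        rw [this]
        exact hD.le
      | succ m ih =>
        intro hm
        obtain ⟨h1, h2⟩ := ih (by omega)
        have e := hμ (m + 1) (by omega) (by omega)
        have e1 : cr (ed w 1) (ed w (m + 1 + 2)) =
            μ * cr (ed w 1) (ed w (m + 2)) - cr (ed w 1) (ed w (m + 1)) := by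
          rw [e]
          simp only [cr, Prod.fst_sub, Prod.snd_sub, Prod.smul_fst, Prod.smul_snd, smul_eq_mul]
          ring
        have e2 : m + 1 + 1 = m + 2 := rfl
        rw [e2, e1]
        have h3 : 2 * cr (ed w 1) (ed w (m + 2)) ≤ μ * cr (ed w 1) (ed w (m + 2)) :=
          mul_le_mul_of_nonneg_right hcon (hD.le.trans h1)
        constructor <;> linarith
    obtain ⟨n, rfl⟩ : ∃ n, l = k + (n + 1) := ⟨l - k - 1, by omega⟩
    have h := hb_sum w k (ed w 1) (cr (ed w 1) (ed w 2)) n (fun j h1 h2 => by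
      obtain ⟨m, rfl⟩ : ∃ m, j = m + 2 := ⟨j - 2, by omega⟩
      exact (hind m (by omega)).1) hD
    rw [ed] at h
    exact absurd hc h.ne'

/-- the point of angle `j φ` on the unit circle -/
noncomputable def cpt (φ : ℝ) (j : ℕ) : P := (Real.cos (j * φ), Real.sin (j * φ))

/-- the linear map with `u ↦ u'`, `v ↦ v'` -/
private noncomputable def hc_lin (u v u' v' : P) : P →ₗ[ℝ] P where
  toFun x := (cr x v / cr u v) • u' + (cr u x / cr u v) • v'
  map_add' x y := by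
    ext <;> simp only [cr, Prod.fst_add, Prod.snd_add, Prod.smul_fst, Prod.smul_snd, smul_eq_mul] <;> ring
  map_smul' c x := by
    ext <;> simp only [cr, Prod.fst_add, Prod.snd_add, Prod.smul_fst, Prod.smul_snd, smul_eq_mul,
      RingHom.id_apply] <;> ring

private lemma hc_lin_apply (u v u' v' x : P) :
    hc_lin u v u' v' x = (cr x v / cr u v) • u' + (cr u x / cr u v) • v' := rfl

private lemma hc_lin_inv {u v u' v' : P} (h : cr u v ≠ 0) (h' : cr u' v' ≠ 0) (x : P) :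
    hc_lin u' v' u v (hc_lin u v u' v' x) = x := by
  rw [hc_lin_apply, hc_lin_apply]
  have h1 : cr ((cr x v / cr u v) • u' + (cr u x / cr u v) • v') v' =
      cr x v / cr u v * cr u' v' := by
    simp only [cr, Prod.fst_add, Prod.snd_add, Prod.smul_fst, Prod.smul_snd, smul_eq_mul]
    ring
  have h2 : cr u' ((cr x v / cr u v) • u' + (cr u x / cr u v) • v') =
      cr u x / cr u v * cr u' v' := by
    simp only [cr, Prod.fst_add, Prod.snd_add, Prod.smul_fst, Prod.smul_snd, smul_eq_mul]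
    ring
  rw [h1, h2, mul_div_cancel_right₀ _ h', mul_div_cancel_right₀ _ h']
  have h3 : (cr x v) • u + (cr u x) • v = (cr u v) • x := by
    ext <;> simp only [cr, Prod.fst_add, Prod.snd_add, Prod.smul_fst, Prod.smul_snd, smul_eq_mul] <;>
      ring
  have h4 : (cr x v / cr u v) • u + (cr u x / cr u v) • v =
      (cr u v)⁻¹ • ((cr x v) • u + (cr u x) • v) := by
    rw [smul_add, smul_smul, smul_smul]
    congr 2 <;> ring
  rw [h4, h3, smul_smul, inv_mul_cancel₀ h, one_smul]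

private noncomputable def hc_equiv {u v u' v' : P} (h : cr u v ≠ 0) (h' : cr u' v' ≠ 0) : P ≃ₗ[ℝ] P :=
  LinearEquiv.ofLinearMap (hc_lin u v u' v') (hc_lin u' v' u v)
    (LinearMap.ext fun x => hc_lin_inv h' h x) (LinearMap.ext fun x => hc_lin_inv h h' x)

private lemma hc_equiv_apply {u v u' v' : P} (h : cr u v ≠ 0) (h' : cr u' v' ≠ 0) (x : P) :
    hc_equiv h h' x = (cr x v / cr u v) • u' + (cr u x / cr u v) • v' := rfl

private lemma hc_cr_self (u : P) : cr u u = 0 := by simp only [cr]; ring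

private lemma hc_left {u v u' v' : P} (h : cr u v ≠ 0) (h' : cr u' v' ≠ 0) : hc_equiv h h' u = u' := by
  rw [hc_equiv_apply, hc_cr_self, div_self h, zero_div, one_smul, zero_smul, add_zero]

private lemma hc_right {u v u' v' : P} (h : cr u v ≠ 0) (h' : cr u' v' ≠ 0) : hc_equiv h h' v = v' := by
  rw [hc_equiv_apply, hc_cr_self, div_self h, zero_div, one_smul, zero_smul, zero_add]

private lemma hc_cpt_ed (φ : ℝ) (i : ℕ) :
    ed (cpt φ) (i + 2) = (2 * Real.cos φ) • ed (cpt φ) (i + 1) - ed (cpt φ) i := by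
  have key : ∀ j : ℕ, Real.cos (((j + 2 : ℕ) : ℝ) * φ) =
      2 * Real.cos φ * Real.cos (((j + 1 : ℕ) : ℝ) * φ) - Real.cos ((j : ℝ) * φ) ∧
      Real.sin (((j + 2 : ℕ) : ℝ) * φ) =
      2 * Real.cos φ * Real.sin (((j + 1 : ℕ) : ℝ) * φ) - Real.sin ((j : ℝ) * φ) := by
    intro j
    have e1 : ((j + 2 : ℕ) : ℝ) * φ = ((j + 1 : ℕ) : ℝ) * φ + φ := by push_cast; ring
    have e2 : (j : ℝ) * φ = ((j + 1 : ℕ) : ℝ) * φ - φ := by push_cast; ring
    rw [e1, e2, Real.cos_add, Real.cos_sub, Real.sin_add, Real.sin_sub]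
    constructor <;> ring
  obtain ⟨a1, b1⟩ := key i
  obtain ⟨a2, b2⟩ := key (i + 1)
  have e : i + 1 + 2 = i + 2 + 1 := rfl
  have e' : i + 1 + 1 = i + 2 := rfl
  rw [e, e'] at a2 b2
  ext
  · simp only [ed, cpt, Prod.fst_sub, Prod.smul_fst, smul_eq_mul, e']
    rw [a2, a1]; ring
  · simp only [ed, cpt, Prod.snd_sub, Prod.smul_snd, smul_eq_mul, e']
    rw [b2, b1]; ring

private lemma hc_cpt_D (φ : ℝ) (h0 : 0 < φ) (hπ : φ < Real.pi) :
    cr (ed (cpt φ) 1) (ed (cpt φ) 2) ≠ 0 := by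
  have hs : 0 < Real.sin φ := Real.sin_pos_of_pos_of_lt_pi h0 hπ
  have hc : Real.cos φ < 1 := by
    have := Real.cos_lt_cos_of_nonneg_of_le_pi le_rfl hπ.le h0
    rwa [Real.cos_zero] at this
  have h3 : ((3 : ℕ) : ℝ) * φ = ((2 : ℕ) : ℝ) * φ + φ := by push_cast; ring
  have h1 : ((1 : ℕ) : ℝ) * φ = ((2 : ℕ) : ℝ) * φ - φ := by push_cast; ring
  have : cr (ed (cpt φ) 1) (ed (cpt φ) 2) = 2 * Real.sin φ * (1 - Real.cos φ) := by
    have hcs := Real.sin_sq_add_cos_sq (((2 : ℕ) : ℝ) * φ)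
    simp only [cr, ed, cpt, Prod.fst_sub, Prod.snd_sub]
    have e : (2 + 1 : ℕ) = 3 := rfl
    have e' : (1 + 1 : ℕ) = 2 := rfl
    rw [e, e', h3, h1, Real.cos_add, Real.sin_add, Real.cos_sub, Real.sin_sub]
    linear_combination (2 * Real.sin φ * (1 - Real.cos φ)) * hcs
  rw [this]
  have : 0 < 2 * Real.sin φ * (1 - Real.cos φ) := by
    have : 0 < 1 - Real.cos φ := by linarith
    positivity
  exact this.ne'

/-- hc (M). With `μ = 2 cos φ`, `0 < φ < π`, the points are the image of `cpt φ 1, ..., cpt φ M`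
under an invertible affine map (the one which is right on `1, 2, 3`; the points `cpt φ j` satisfy the
same recurrence). -/
theorem rec_circle {M : ℕ} (hM : 6 ≤ M) {w : ℕ → P} {μ : ℝ}
    (ccw : ∀ i j k, 1 ≤ i → i < j → j < k → k ≤ M → 0 < tri (w i) (w j) (w k))
    (hμ : ∀ i, 1 ≤ i → i + 3 ≤ M → ed w (i + 2) = μ • ed w (i + 1) - ed w i)
    (h1 : -1 < μ) (h2 : μ < 2) :
    ∃ φ : ℝ, 0 < φ ∧ φ < Real.pi ∧ ∃ Φ : P ≃ᵃ[ℝ] P, ∀ j, 1 ≤ j → j ≤ M → w j = Φ (cpt φ j) := by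
  have hφ0 : 0 < Real.arccos (μ / 2) := Real.arccos_pos.2 (by linarith)
  have hφπ : Real.arccos (μ / 2) < Real.pi := by
    rcases lt_or_eq_of_le (Real.arccos_le_pi (μ / 2)) with h | h
    · exact h
    · have := Real.cos_arccos (x := μ / 2) (by linarith) (by linarith)
      rw [h, Real.cos_pi] at this
      linarith
  refine ⟨Real.arccos (μ / 2), hφ0, hφπ, ?_⟩
  have hcos : 2 * Real.cos (Real.arccos (μ / 2)) = μ := by
    rw [Real.cos_arccos (by linarith) (by linarith)]; ring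
  set φ := Real.arccos (μ / 2) with hφ
  have hD : cr (ed w 1) (ed w 2) ≠ 0 := by
    have h := ccw 1 2 3 le_rfl (by omega) (by omega) (by omega)
    have : cr (ed w 1) (ed w 2) = tri (w 1) (w 2) (w 3) := by
      simp only [tri, cr, ed, Prod.fst_sub, Prod.snd_sub]; ring
    rw [this]; exact h.ne'
  have hD' := hc_cpt_D φ hφ0 hφπ
  set L : P ≃ₗ[ℝ] P := hc_equiv hD' hD with hL
  have hed : ∀ i, 1 ≤ i → i + 2 ≤ M →
      ed w i = L (ed (cpt φ) i) ∧ ed w (i + 1) = L (ed (cpt φ) (i + 1)) := by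
    intro i hi
    induction i, hi using Nat.le_induction with
    | base => exact fun _ => ⟨(hc_left hD' hD).symm, (hc_right hD' hD).symm⟩
    | succ i hi ih =>
      intro hm
      obtain ⟨a, b⟩ := ih (by omega)
      refine ⟨b, ?_⟩
      have e' : i + 1 + 1 = i + 2 := rfl
      rw [e', hμ i hi (by omega), hc_cpt_ed, map_sub, map_smul, ← a, ← b, hcos]
  let Φ : P ≃ᵃ[ℝ] P := AffineEquiv.mk' (fun x => L (x - cpt φ 1) + w 1) L (cpt φ 1) (by
    intro p'
    simp)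
  have hΦ : ∀ x, Φ x = L (x - cpt φ 1) + w 1 := fun x => rfl
  refine ⟨Φ, fun j hj => ?_⟩
  induction j, hj using Nat.le_induction with
  | base => intro _; rw [hΦ]; simp
  | succ j hj ih =>
    intro hm
    have h := ih (by omega)
    have h3 : ed w j = L (ed (cpt φ) j) := by
      rcases Nat.lt_or_ge (j + 1) M with h4 | h4
      · exact (hed j hj (by omega)).1
      · obtain ⟨i, rfl⟩ : ∃ i, j = i + 1 := ⟨j - 1, by omega⟩
        exact (hed i (by omega) (by omega)).2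
    have h5 : w (j + 1) = w j + ed w j := by rw [ed]; abel
    have h6 : cpt φ (j + 1) = cpt φ j + ed (cpt φ) j := by rw [ed]; abel
    rw [h5, h, h3, hΦ, hΦ, h6]
    have : cpt φ j + ed (cpt φ) j - cpt φ 1 = (cpt φ j - cpt φ 1) + ed (cpt φ) j := by abel
    rw [this, map_add]
    abel

/-- hd (S). Chords of the circle: `cr (cpt j - cpt i) (cpt l - cpt k)` is
`4 sin((j-i)φ/2) sin((l-k)φ/2) sin((k+l-i-j)φ/2)`. -/
theorem cr_cpt (φ : ℝ) (i j k l : ℕ) :
    cr (cpt φ j - cpt φ i) (cpt φ l - cpt φ k) =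
      4 * Real.sin (((j : ℝ) - i) * φ / 2) * Real.sin (((l : ℝ) - k) * φ / 2) *
        Real.sin (((k : ℝ) + l - i - j) * φ / 2) := by
  have e : ((k : ℝ) + l - i - j) * φ / 2 = (k * φ + l * φ) / 2 - (i * φ + j * φ) / 2 := by ring
  have e1 : ((j : ℝ) - i) * φ / 2 = (j * φ - i * φ) / 2 := by ring
  have e2 : ((l : ℝ) - k) * φ / 2 = (l * φ - k * φ) / 2 := by ring
  rw [e, e1, e2, Real.sin_sub]
  simp only [cr, cpt, Prod.fst_sub, Prod.snd_sub]
  rw [Real.cos_sub_cos, Real.cos_sub_cos, Real.sin_sub_sin, Real.sin_sub_sin]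
  have a1 : ((j : ℝ) * φ + i * φ) = i * φ + j * φ := by ring
  have a2 : ((l : ℝ) * φ + k * φ) = k * φ + l * φ := by ring
  rw [a1, a2]
  ring

/-- he (S). An affine bijection multiplies cross products of differences by a nonzero constant. -/
theorem cr_affine (Φ : P ≃ᵃ[ℝ] P) :
    ∃ δ : ℝ, δ ≠ 0 ∧ ∀ p q r s : P, cr (Φ q - Φ p) (Φ s - Φ r) = δ * cr (q - p) (s - r) := by
  have hlin : ∀ p q : P, Φ q - Φ p = Φ.linear (q - p) := by
    intro p q
    have := Φ.linear_toAffineMap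
    have h := (Φ : P →ᵃ[ℝ] P).linearMap_vsub q p
    simpa using h.symm
  have hexp : ∀ x : P, Φ.linear x = x.1 • Φ.linear ((1, 0) : P) + x.2 • Φ.linear ((0, 1) : P) := by
    intro x
    rw [← map_smul, ← map_smul, ← map_add]
    congr 1
    ext <;> simp
  have hcr : ∀ x y : P, cr (Φ.linear x) (Φ.linear y) =
      cr (Φ.linear ((1, 0) : P)) (Φ.linear ((0, 1) : P)) * cr x y := by
    intro x y
    rw [hexp x, hexp y]
    simp only [cr, Prod.fst_add, Prod.snd_add, Prod.smul_fst, Prod.smul_snd, smul_eq_mul]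
    ring
  refine ⟨cr (Φ.linear ((1, 0) : P)) (Φ.linear ((0, 1) : P)), ?_, fun p q r s => ?_⟩
  · intro h
    have h1 := hcr (Φ.linear.symm ((1, 0) : P)) (Φ.linear.symm ((0, 1) : P))
    rw [h, LinearEquiv.apply_symm_apply, LinearEquiv.apply_symm_apply] at h1
    simp [cr] at h1
  · rw [hlin, hlin, hcr]

private lemma hf_tri {M : ℕ} {w : ℕ → P} {φ δ : ℝ}
    (ccw : ∀ i j k, 1 ≤ i → i < j → j < k → k ≤ M → 0 < tri (w i) (w j) (w k))
    (Φ : P ≃ᵃ[ℝ] P) (hδ : ∀ p q r s : P, cr (Φ q - Φ p) (Φ s - Φ r) = δ * cr (q - p) (s - r))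
    (hw : ∀ j, 1 ≤ j → j ≤ M → w j = Φ (cpt φ j)) {k : ℕ} (hk : 2 < k) (hkM : k ≤ M) :
    0 < δ * (4 * Real.sin (φ / 2) * Real.sin (((k - 1 : ℕ) : ℝ) * φ / 2) *
      Real.sin (((k - 2 : ℕ) : ℝ) * φ / 2)) := by
  have h := ccw 1 2 k le_rfl (by omega) hk hkM
  rw [tri, hw 1 le_rfl (by omega), hw 2 (by omega) (by omega), hw k (by omega) hkM, hδ, cr_cpt] at h
  have e1 : ((2 : ℕ) : ℝ) - ((1 : ℕ) : ℝ) = 1 := by norm_num
  have e2 : (k : ℝ) - ((1 : ℕ) : ℝ) = ((k - 1 : ℕ) : ℝ) := by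
    rw [Nat.cast_sub (by omega)]
  have e3 : ((1 : ℕ) : ℝ) + k - ((1 : ℕ) : ℝ) - ((2 : ℕ) : ℝ) = ((k - 2 : ℕ) : ℝ) := by
    rw [Nat.cast_sub (by omega)]; ring
  rw [e1, e2, e3, one_mul] at h
  exact h

/-- hf (M). The angle. `tri` of consecutive triples `i, i+1, k` of `cpt` all have the same nonzero
sign, so `sin (m φ / 2)` keeps its sign (positive) for `1 ≤ m ≤ M - 1`, hence
`(M - 1) φ / 2 < π`; the relation `(1,2) ∥ (k,l)`, `k + l = N + 3`, gives `sin (N φ / 2) = 0`,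
and `0 < N φ / 2 < 2 π` as `N < 2 (M - 1)`. So `φ = 2 π / N`. -/
theorem angle_eq {M N : ℕ} (hM : 6 ≤ M) (hN : N < 2 * (M - 1)) (hN0 : 0 < N) {w : ℕ → P} {φ : ℝ}
    (ccw : ∀ i j k, 1 ≤ i → i < j → j < k → k ≤ M → 0 < tri (w i) (w j) (w k))
    (h0 : 0 < φ) (hπ : φ < Real.pi) (Φ : P ≃ᵃ[ℝ] P)
    (hw : ∀ j, 1 ≤ j → j ≤ M → w j = Φ (cpt φ j))
    {k l : ℕ} (hk : 2 ≤ k) (hkl : k < l) (hl : l ≤ M) (hs : k + l = N + 3)
    (hc : cr (w 2 - w 1) (w l - w k) = 0) : φ = 2 * Real.pi / N := by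
  obtain ⟨δ, hδ0, hδ⟩ := cr_affine Φ
  have hs1 : 0 < Real.sin (φ / 2) := Real.sin_pos_of_pos_of_lt_pi (by linarith) (by linarith)
  have hδpos : 0 < δ := by
    have h := hf_tri ccw Φ hδ hw (k := 3) (by omega) (by omega)
    have e1 : ((3 - 1 : ℕ) : ℝ) * φ / 2 = φ := by norm_num
    have e2 : ((3 - 2 : ℕ) : ℝ) * φ / 2 = φ / 2 := by norm_num
    rw [e1, e2] at h
    have hs2 : 0 < Real.sin φ := Real.sin_pos_of_pos_of_lt_pi h0 hπ
    have : 0 < 4 * Real.sin (φ / 2) * Real.sin φ * Real.sin (φ / 2) := by positivity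
    exact (pos_iff_pos_of_mul_pos h).2 this
  have hpos : ∀ m : ℕ, 1 ≤ m → m + 1 ≤ M →
      0 < Real.sin ((m : ℝ) * φ / 2) ∧ (m : ℝ) * φ / 2 < Real.pi := by
    intro m hm
    induction m, hm using Nat.le_induction with
    | base =>
      intro _
      have e : ((1 : ℕ) : ℝ) * φ / 2 = φ / 2 := by norm_num
      rw [e]
      exact ⟨hs1, by linarith⟩
    | succ m hm ih =>
      intro hM'
      obtain ⟨a, b⟩ := ih (by omega)
      have h := hf_tri ccw Φ hδ hw (k := m + 2) (by omega) (by omega)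
      have e1 : m + 2 - 1 = m + 1 := by omega
      have e2 : m + 2 - 2 = m := by omega
      rw [e1, e2] at h
      have h2 : 0 < 4 * Real.sin (φ / 2) * Real.sin (((m + 1 : ℕ) : ℝ) * φ / 2) *
        Real.sin ((m : ℝ) * φ / 2) := (pos_iff_pos_of_mul_pos h).1 hδpos
      have h3 : 0 < 4 * Real.sin (φ / 2) * Real.sin (((m + 1 : ℕ) : ℝ) * φ / 2) :=
        (pos_iff_pos_of_mul_pos h2).2 a
      have h4 : 0 < Real.sin (((m + 1 : ℕ) : ℝ) * φ / 2) :=
        (pos_iff_pos_of_mul_pos h3).1 (by positivity)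
      refine ⟨h4, ?_⟩
      by_contra hcon
      push Not at hcon
      have e : ((m + 1 : ℕ) : ℝ) * φ / 2 = (m : ℝ) * φ / 2 + φ / 2 := by push_cast; ring
      have h5 : 0 ≤ ((m + 1 : ℕ) : ℝ) * φ / 2 - Real.pi := by linarith
      have h6 : ((m + 1 : ℕ) : ℝ) * φ / 2 - Real.pi ≤ Real.pi := by rw [e]; linarith
      have h7 := Real.sin_nonneg_of_nonneg_of_le_pi h5 h6
      rw [Real.sin_sub_pi] at h7
      linarith
  have hMc : ((M - 1 : ℕ) : ℝ) * φ / 2 < Real.pi := (hpos (M - 1) (by omega) (by omega)).2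
  have hNM : (N : ℝ) < 2 * ((M - 1 : ℕ) : ℝ) := by exact_mod_cast hN
  have hlt : (N : ℝ) * φ / 2 < 2 * Real.pi := by
    have : (N : ℝ) * φ < 2 * ((M - 1 : ℕ) : ℝ) * φ := mul_lt_mul_of_pos_right hNM h0
    linarith
  have hNp : (0 : ℝ) < N := by exact_mod_cast hN0
  have hgt : 0 < (N : ℝ) * φ / 2 := by positivity
  rw [hw 1 le_rfl (by omega), hw 2 (by omega) (by omega), hw k (by omega) (by omega),
    hw l (by omega) hl, hδ, cr_cpt] at hc
  have e1 : ((2 : ℕ) : ℝ) - ((1 : ℕ) : ℝ) = 1 := by norm_num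
  have e2 : (l : ℝ) - (k : ℝ) = ((l - k : ℕ) : ℝ) := by rw [Nat.cast_sub hkl.le]
  have e3 : (k : ℝ) + l - ((1 : ℕ) : ℝ) - ((2 : ℕ) : ℝ) = N := by
    have : (k : ℝ) + l = N + 3 := by exact_mod_cast hs
    push_cast
    linarith
  rw [e1, e2, e3, one_mul] at hc
  have h2 := (hpos (l - k) (by omega) (by omega)).1
  have hsin : Real.sin ((N : ℝ) * φ / 2) = 0 := by
    rcases mul_eq_zero.1 hc with h | h
    · exact absurd h hδ0
    · rcases mul_eq_zero.1 h with h | h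
      · rcases mul_eq_zero.1 h with h | h
        · rcases mul_eq_zero.1 h with h | h
          · norm_num at h
          · exact absurd h hs1.ne'
        · exact absurd h h2.ne'
      · exact h
  have hfin : (N : ℝ) * φ / 2 = Real.pi := by
    rcases lt_trichotomy ((N : ℝ) * φ / 2) Real.pi with h | h | h
    · exact absurd hsin (Real.sin_pos_of_pos_of_lt_pi hgt h).ne'
    · exact h
    · have h5 : 0 < (N : ℝ) * φ / 2 - Real.pi := by linarith
      have h6 : (N : ℝ) * φ / 2 - Real.pi < Real.pi := by linarith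
      have h7 := Real.sin_pos_of_pos_of_lt_pi h5 h6
      rw [Real.sin_sub_pi, hsin] at h7
      simp at h7
  rw [eq_div_iff hNp.ne']
  linarith

private lemma hg_g (N j : ℕ) : g N j = cpt (2 * Real.pi / N) j := by
  rw [g, cpt]
  have : 2 * Real.pi * (j : ℝ) / N = j * (2 * Real.pi / N) := by ring
  rw [this]

/-- hg (S). Assembly. -/
theorem lemG {M N : ℕ} (hM : 6 ≤ M) (hN : N < 2 * (M - 1)) (hN0 : 0 < N) {w : ℕ → P}
    (ccw : ∀ i j k, 1 ≤ i → i < j → j < k → k ≤ M → 0 < tri (w i) (w j) (w k))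
    (ha : ∀ i, 1 ≤ i → i + 3 ≤ M → cr (w (i + 3) - w i) (w (i + 2) - w (i + 1)) = 0)
    (hb : ∀ i, 1 ≤ i → i + 4 ≤ M → cr (w (i + 4) - w i) (w (i + 3) - w (i + 1)) = 0)
    {k l : ℕ} (hk : 2 ≤ k) (hkl : k < l) (hl : l ≤ M) (hs : k + l = N + 3)
    (hc : cr (w 2 - w 1) (w l - w k) = 0) :
    ∃ Φ : P ≃ᵃ[ℝ] P, ∀ j, 1 ≤ j → j ≤ M → w j = Φ (g N j) := by
  obtain ⟨μ, hμ⟩ := rec_const hM ccw ha hb
  obtain ⟨h1, h2⟩ := rec_range hM ccw hμ hk hkl hl hc
  obtain ⟨φ, h0, hπ, Φ, hΦ⟩ := rec_circle hM ccw hμ h1 h2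
  have he := angle_eq hM hN hN0 ccw h0 hπ Φ hΦ hk hkl hl hs hc
  refine ⟨Φ, fun j hj hjM => ?_⟩
  rw [hΦ j hj hjM, hg_g, he]

private lemma hh_sin {b m : ℕ} (hm : 0 < m) (hmb : m < 2 * b + 2) :
    0 < Real.sin ((m : ℝ) * (2 * Real.pi / ((2 * b + 2 : ℕ) : ℝ)) / 2) := by
  have hN : (0 : ℝ) < ((2 * b + 2 : ℕ) : ℝ) := by exact_mod_cast Nat.succ_pos _
  have hm' : (0 : ℝ) < m := by exact_mod_cast hm
  have hmb' : (m : ℝ) < ((2 * b + 2 : ℕ) : ℝ) := by exact_mod_cast hmb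
  have hp := Real.pi_pos
  refine Real.sin_pos_of_pos_of_lt_pi (by positivity) ?_
  have : (m : ℝ) * (2 * Real.pi / ((2 * b + 2 : ℕ) : ℝ)) / 2 =
      m * Real.pi / ((2 * b + 2 : ℕ) : ℝ) := by ring
  rw [this, div_lt_iff₀ hN, mul_comm Real.pi]
  exact mul_lt_mul_of_pos_right hmb' hp

private lemma hh_zero (b : ℕ) :
    Real.sin (((2 * b + 2 : ℕ) : ℝ) * (2 * Real.pi / ((2 * b + 2 : ℕ) : ℝ)) / 2) = 0 := by
  have hN : (0 : ℝ) < ((2 * b + 2 : ℕ) : ℝ) := by exact_mod_cast Nat.succ_pos _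
  have : ((2 * b + 2 : ℕ) : ℝ) * (2 * Real.pi / ((2 * b + 2 : ℕ) : ℝ)) / 2 = Real.pi := by
    field_simp
  rw [this, Real.sin_pi]

private lemma hh_indep {u v z : P} (h : cr u v ≠ 0) (h1 : cr z u = 0) (h2 : cr z v = 0) : z = 0 := by
  simp only [cr] at h h1 h2
  ext
  · have : z.1 * (u.1 * v.2 - u.2 * v.1) = 0 := by linear_combination u.1 * h2 - v.1 * h1
    simpa [h] using this
  · have : z.2 * (u.1 * v.2 - u.2 * v.1) = 0 := by linear_combination u.2 * h2 - v.2 * h1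
    simpa [h] using this

/-- hh (M). The additional point: if `w j = Φ (g N j)` for `1 ≤ j ≤ 2b`, `N = 2b + 2`, and
`v w_1 ∥ w_3 w_{2b}`, `v w_2 ∥ w_4 w_{2b}` then `v = Φ (g N 0)`: with `u = Φ⁻¹ v`,
`cr (g 1 - u) (g (2b) - g 3) = 0` and the same for `u = g 0`; so `u - g 0` is parallel to
`g (2b) - g 3` and to `g (2b) - g 4`, which are independent. -/
theorem add_point {b : ℕ} (hb : 3 ≤ b) (Φ : P ≃ᵃ[ℝ] P) {w : ℕ → P} {v : P}
    (hw : ∀ j, 1 ≤ j → j ≤ 2 * b → w j = Φ (g (2 * b + 2) j))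
    (h1 : cr (w 1 - v) (w (2 * b) - w 3) = 0) (h2 : cr (w 2 - v) (w (2 * b) - w 4) = 0) :
    v = Φ (g (2 * b + 2) 0) := by
  obtain ⟨δ, hδ0, hδ⟩ := cr_affine Φ
  obtain ⟨u, rfl⟩ : ∃ u, v = Φ u := ⟨Φ.symm v, (Φ.apply_symm_apply v).symm⟩
  rw [hw 1 (by omega) (by omega), hw (2 * b) (by omega) (by omega), hw 3 (by omega) (by omega),
    hδ] at h1
  rw [hw 2 (by omega) (by omega), hw (2 * b) (by omega) (by omega), hw 4 (by omega) (by omega),
    hδ] at h2
  replace h1 := (mul_eq_zero.1 h1).resolve_left hδ0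
  replace h2 := (mul_eq_zero.1 h2).resolve_left hδ0
  have g1 : cr (g (2 * b + 2) 1 - g (2 * b + 2) 0) (g (2 * b + 2) (2 * b) - g (2 * b + 2) 3) = 0 := by
    rw [hg_g, hg_g, hg_g, hg_g, cr_cpt]
    have : (((3 : ℕ) : ℝ) + ((2 * b : ℕ) : ℝ) - ((0 : ℕ) : ℝ) - ((1 : ℕ) : ℝ)) =
        ((2 * b + 2 : ℕ) : ℝ) := by push_cast; ring
    rw [this, hh_zero, mul_zero]
  have g2 : cr (g (2 * b + 2) 2 - g (2 * b + 2) 0) (g (2 * b + 2) (2 * b) - g (2 * b + 2) 4) = 0 := by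
    rw [hg_g, hg_g, hg_g, hg_g, cr_cpt]
    have : (((4 : ℕ) : ℝ) + ((2 * b : ℕ) : ℝ) - ((0 : ℕ) : ℝ) - ((2 : ℕ) : ℝ)) =
        ((2 * b + 2 : ℕ) : ℝ) := by push_cast; ring
    rw [this, hh_zero, mul_zero]
  have g3 : cr (g (2 * b + 2) (2 * b) - g (2 * b + 2) 3) (g (2 * b + 2) (2 * b) - g (2 * b + 2) 4) ≠
      0 := by
    rw [hg_g, hg_g, hg_g, cr_cpt]
    have e1 : ((2 * b : ℕ) : ℝ) - ((3 : ℕ) : ℝ) = ((2 * b - 3 : ℕ) : ℝ) := by
      rw [Nat.cast_sub (by omega)]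
    have e2 : ((2 * b : ℕ) : ℝ) - ((4 : ℕ) : ℝ) = ((2 * b - 4 : ℕ) : ℝ) := by
      rw [Nat.cast_sub (by omega)]
    have e3 : (((4 : ℕ) : ℝ) + ((2 * b : ℕ) : ℝ) - ((3 : ℕ) : ℝ) - ((2 * b : ℕ) : ℝ)) =
        ((1 : ℕ) : ℝ) := by push_cast; ring
    rw [e1, e2, e3]
    have p1 := hh_sin (b := b) (m := 2 * b - 3) (by omega) (by omega)
    have p2 := hh_sin (b := b) (m := 2 * b - 4) (by omega) (by omega)
    have p3 := hh_sin (b := b) (m := 1) (by omega) (by omega)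
    positivity
  have hz : u - g (2 * b + 2) 0 = 0 := by
    refine hh_indep g3 ?_ ?_
    · simp only [cr, Prod.fst_sub, Prod.snd_sub] at h1 g1 ⊢
      linarith
    · simp only [cr, Prod.fst_sub, Prod.snd_sub] at h2 g2 ⊢
      linarith
  rw [sub_eq_zero.1 hz]

end Cvc
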