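import Mathlib
import Pool.Agent.Cvc.Chain

set_option autoImplicit false

open Finset

namespace Cvc

variable {b : ℕ} {Θ : ℤ → ℤ → ℝ}

private theorem ea_up (h : Core b Θ) {i j : ℤ} (hij : i < j) (k : ℕ)
    (hk : j + k < i + (2 * b + 1)) :
    Θ i j ≤ Θ i (j + k) ∧ (0 < k → Θ i j < Θ i (j + k)) := by
  induction k with
  | zero => simp
  | succ k ih =>
    have h1 : j + (k : ℤ) < i + (2 * b + 1) := by push_cast at hk; omega
    have h2 := ih h1
    have h3 := h.up i (j + k) (by omega) (by push_cast at hk; omega)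
    have h4 : j + ((k + 1 : ℕ) : ℤ) = j + k + 1 := by push_cast; ring
    rw [h4]
    exact ⟨by linarith [h2.1], fun _ => by linarith [h2.1]⟩

private theorem ea_lf (h : Core b Θ) {i j : ℤ} (hn : j < i + (2 * b + 1)) (k : ℕ)
    (hk : i + k < j) :
    Θ i j ≤ Θ (i + k) j ∧ (0 < k → Θ i j < Θ (i + k) j) := by
  induction k with
  | zero => simp
  | succ k ih =>
    have h1 : i + (k : ℤ) < j := by push_cast at hk; omega
    have h2 := ih h1
    have h3 := h.lf (i + k) j (by push_cast at hk; omega) (by omega)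
    have h4 : i + ((k + 1 : ℕ) : ℤ) = i + k + 1 := by push_cast; ring
    rw [h4]
    exact ⟨by linarith [h2.1], fun _ => by linarith [h2.1]⟩

/-- ea (S). Monotonicity along `(i,j) → (i,j') → (i',j')`. -/
theorem Core.mono (h : Core b Θ) {i j i' j' : ℤ} (hi : i ≤ i') (hj : j ≤ j') (hij : i < j)
    (hij' : i' < j') (hn : j' < i + (2 * b + 1)) (hne : i ≠ i' ∨ j ≠ j') : Θ i j < Θ i' j' := by
  have e1 : j' = j + ((j' - j).toNat : ℤ) := by omega
  have e2 : i' = i + ((i' - i).toNat : ℤ) := by omega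
  have h1 := ea_up h hij (j' - j).toNat (by omega)
  have h2 := ea_lf h (i := i) (j := j') hn (i' - i).toNat (by omega)
  rw [← e1] at h1
  rw [← e2] at h2
  rcases hne with hne | hne
  · have := h2.2 (by omega)
    linarith [h1.1]
  · have := h1.2 (by omega)
    linarith [h2.1]


/-- eb (S). Chords of the same direction inside an interval of length less than `n` are nested. -/
theorem Core.nest (h : Core b Θ) {lo hi : ℤ} (hn : hi < lo + (2 * b + 1)) (β : ℝ) :
    Nest lo hi (((Ioo lo hi) ×ˢ (Ioo lo hi)).filter (fun q => q.1 < q.2 ∧ Θ q.1 q.2 = β)) := by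
  have key : ∀ q ∈ (((Ioo lo hi) ×ˢ (Ioo lo hi)).filter (fun q => q.1 < q.2 ∧ Θ q.1 q.2 = β)),
      (lo < q.1 ∧ q.1 < q.2 ∧ q.2 < hi) ∧ Θ q.1 q.2 = β := by
    intro q hq
    simp only [mem_filter, mem_product, mem_Ioo] at hq
    exact ⟨⟨hq.1.1.1, hq.2.1, hq.1.2.2⟩, hq.2.2⟩
  refine ⟨fun q hq => (key q hq).1, ?_⟩
  intro q hq q' hq' hne
  obtain ⟨⟨a1, a2, a3⟩, a4⟩ := key q hq
  obtain ⟨⟨b1, b2, b3⟩, b4⟩ := key q' hq'
  rcases lt_trichotomy q.1 q'.1 with h1 | h1 | h1
  · left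
    refine ⟨h1, ?_⟩
    by_contra h2
    have := h.mono (i := q.1) (j := q.2) (i' := q'.1) (j' := q'.2) h1.le (by omega) a2 b2
      (by omega) (Or.inl h1.ne)
    linarith
  · exfalso
    rcases lt_trichotomy q.2 q'.2 with h2 | h2 | h2
    · have := h.mono (i := q.1) (j := q.2) (i' := q'.1) (j' := q'.2) h1.le h2.le a2 b2
        (by omega) (Or.inr h2.ne)
      linarith
    · exact hne (Prod.ext h1 h2)
    · have := h.mono (i := q'.1) (j := q'.2) (i' := q.1) (j' := q.2) h1.ge h2.le b2 a2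
        (by omega) (Or.inr h2.ne)
      linarith
  · right
    refine ⟨h1, ?_⟩
    by_contra h2
    have := h.mono (i := q'.1) (j := q'.2) (i' := q.1) (j' := q.2) h1.le (by omega) b2 a2
      (by omega) (Or.inl h1.ne)
    linarith


/-- ec (S). Neighbouring chords in consecutive classes, and the half turn. -/
theorem Core.GO (h : Core b Θ) (y : ℤ) {r : ℕ} (hr : r < b) : G Θ y r < O Θ y r := by
  have h1 := h.lf (y - 1 - r) (y + 1 + r) (by omega) (by omega)
  rw [show y - 1 - (r : ℤ) + 1 = y - r by ring] at h1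
  exact h1


theorem Core.GO' (h : Core b Θ) (y : ℤ) {r : ℕ} (hr : r + 1 < b) : G Θ y r < O Θ y (r + 1) := by
  have h1 := h.up (y - 1 - r) (y + 1 + r) (by omega) (by omega)
  have e1 : y - ((r + 1 : ℕ) : ℤ) = y - 1 - r := by push_cast; ring
  have e2 : y + 1 + ((r + 1 : ℕ) : ℤ) = y + 1 + r + 1 := by push_cast; ring
  unfold G O
  rw [e1, e2]
  exact h1


theorem Core.OG (h : Core b Θ) (x : ℤ) {t : ℕ} (ht : t < b) : O Θ x t < G Θ (x + 1) t := by
  have h1 := h.up (x - t) (x + 1 + t) (by omega) (by omega)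
  have e1 : x + 1 - 1 - (t : ℤ) = x - t := by ring
  have e2 : x + 1 + 1 + (t : ℤ) = x + 1 + t + 1 := by ring
  unfold G O
  rw [e1, e2]
  exact h1


theorem Core.OG' (h : Core b Θ) (x : ℤ) {t : ℕ} (ht : t + 1 < b) :
    O Θ x (t + 1) < G Θ (x + 1) t := by
  have h1 := h.lf (x - (t + 1)) (x + 1 + (t + 1)) (by omega) (by omega)
  have e1 : x + 1 - 1 - (t : ℤ) = x - (t + 1) + 1 := by ring
  have e2 : x + 1 + 1 + (t : ℤ) = x + 1 + (t + 1) := by ring
  have e3 : ((t + 1 : ℕ) : ℤ) = t + 1 := by push_cast; ring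
  unfold G O
  rw [e1, e2, e3]
  exact h1


theorem Core.halfG (h : Core b Θ) (y : ℤ) {r : ℕ} (hr : r < b) :
    O Θ (y + b) (b - 1 - r) = G Θ y r + 1 := by
  have h1 := h.half (y - 1 - r) (y + 1 + r) (by omega) (by omega)
  have e0 : ((b - 1 - r : ℕ) : ℤ) = b - 1 - r := by omega
  have e1 : y + (b : ℤ) - ((b - 1 - r : ℕ) : ℤ) = y + 1 + r := by rw [e0]; ring
  have e2 : y + (b : ℤ) + 1 + ((b - 1 - r : ℕ) : ℤ) = y - 1 - r + (2 * b + 1) := by rw [e0]; ring
  unfold G O
  rw [e1, e2]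
  exact h1


theorem Core.halfO (h : Core b Θ) (x : ℤ) {t : ℕ} (ht : t < b) :
    G Θ (x + b + 1) (b - 1 - t) = O Θ x t + 1 := by
  have h1 := h.half (x - t) (x + 1 + t) (by omega) (by omega)
  have e0 : ((b - 1 - t : ℕ) : ℤ) = b - 1 - t := by omega
  have e1 : x + (b : ℤ) + 1 - 1 - ((b - 1 - t : ℕ) : ℤ) = x + 1 + t := by rw [e0]; ring
  have e2 : x + (b : ℤ) + 1 + 1 + ((b - 1 - t : ℕ) : ℤ) = x - t + (2 * b + 1) := by rw [e0]; ring
  unfold G O
  rw [e1, e2]
  exact h1


/-- ed (S). Every chord is an `O` or a `G`. -/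
theorem cover_G {y i j : ℤ} (hij : i < j) (hn : j < i + (2 * b + 1)) (hs : i + j = 2 * y) :
    ∃ r : ℕ, r < b ∧ i = y - 1 - r ∧ j = y + 1 + r := by
  exact ⟨(y - 1 - i).toNat, by omega, by omega, by omega⟩


theorem cover_O {x i j : ℤ} (hij : i < j) (hn : j < i + (2 * b + 1)) (hs : i + j = 2 * x + 1) :
    ∃ t : ℕ, t < b ∧ i = x - t ∧ j = x + 1 + t := by
  exact ⟨(x - i).toNat, by omega, by omega, by omega⟩


private theorem ee_above (h : Core b Θ) (hb : 1 ≤ b) {β : ℝ} {s : ℤ}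
    (H : ∀ i j : ℤ, i < j → j < i + (2 * b + 1) → i + j = s → β < Θ i j) (k : ℕ) :
    ∀ i j : ℤ, i < j → j < i + (2 * b + 1) → i + j = s + k → β < Θ i j := by
  induction k with
  | zero =>
    intro i j h1 h2 h3
    exact H i j h1 h2 (by simpa using h3)
  | succ k ih =>
    intro i j h1 h2 h3
    push_cast at h3
    by_cases h4 : i + 1 < j
    · have h5 := ih i (j - 1) (by omega) (by omega) (by omega)
      have h6 := h.up i (j - 1) (by omega) (by omega)
      rw [sub_add_cancel] at h6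
      linarith
    · have h5 := ih (i - 1) j (by omega) (by omega) (by omega)
      have h6 := h.lf (i - 1) j (by omega) (by omega)
      rw [sub_add_cancel] at h6
      linarith

private theorem ee_below (h : Core b Θ) (hb : 1 ≤ b) {β : ℝ} {s : ℤ}
    (H : ∀ i j : ℤ, i < j → j < i + (2 * b + 1) → i + j = s → Θ i j < β) (k : ℕ) :
    ∀ i j : ℤ, i < j → j < i + (2 * b + 1) → i + j + k = s → Θ i j < β := by
  induction k with
  | zero =>
    intro i j h1 h2 h3
    exact H i j h1 h2 (by simpa using h3)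
  | succ k ih =>
    intro i j h1 h2 h3
    push_cast at h3
    by_cases h4 : j + 1 < i + (2 * b + 1)
    · have h5 := ih i (j + 1) (by omega) (by omega) (by omega)
      have h6 := h.up i j (by omega) (by omega)
      linarith
    · have h5 := ih (i + 1) j (by omega) (by omega) (by omega)
      have h6 := h.lf i j (by omega) (by omega)
      linarith

/-- ee (S). If all chords of one class are above (below) `β` then so are all chords of the later
(earlier) classes: decrease `j` if `j - i ≥ 2`, and `i` if `j = i + 1`. -/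
theorem Core.above (h : Core b Θ) (hb : 1 ≤ b) {β : ℝ} {s : ℤ}
    (H : ∀ i j : ℤ, i < j → j < i + (2 * b + 1) → i + j = s → β < Θ i j) :
    ∀ i j : ℤ, i < j → j < i + (2 * b + 1) → s ≤ i + j → β < Θ i j := by
  intro i j h1 h2 h3
  exact ee_above h hb H (i + j - s).toNat i j h1 h2 (by omega)


theorem Core.below (h : Core b Θ) (hb : 1 ≤ b) {β : ℝ} {s : ℤ}
    (H : ∀ i j : ℤ, i < j → j < i + (2 * b + 1) → i + j = s → Θ i j < β) :
    ∀ i j : ℤ, i < j → j < i + (2 * b + 1) → i + j ≤ s → Θ i j < β := by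
  intro i j h1 h2 h3
  exact ee_below h hb H (s - (i + j)).toNat i j h1 h2 (by omega)


private theorem ef_back (h : Core b Θ) {x i j k l lo hi : ℤ} {τ : ℝ}
    (hm : (k, l) ∈ (((Ioo lo hi) ×ˢ (Ioo lo hi)).filter
      (fun q => q.1 < q.2 ∧ Θ q.1 q.2 = τ)))
    (hτ : τ = Θ x (x + 1) + 1) (hij : i < j) (hn : j < i + (2 * b + 1)) (hk : k = j)
    (hl : l = i + (2 * b + 1)) : Θ i j = O Θ x 0 := by
  simp only [mem_filter, mem_product, mem_Ioo] at hm
  have h1 := h.half i j hij hn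
  have h2 := hm.2.2
  rw [hk, hl, h1, hτ] at h2
  have h3 : O Θ x 0 = Θ x (x + 1) := by simp [O]
  rw [h3]
  linarith

/-- ef (M). The class of a side `(x, x+1)`: apply `cnt` to the chord `(x+1, x+n)` (half turn of
the side), `nest` and `nest_odd` with `lo = x+1`, `hi = x+n`, `m = b`, and translate back by `half`. -/
theorem Core.hull (h : Core b Θ) (hb : 3 ≤ b) (x : ℤ) :
    St Θ b x ∨ (∃ p, Tl Θ b x p) ∨ ∃ p, Tr Θ b x p := by
  have hτ : Θ (x + 1) (x + (2 * b + 1)) = Θ x (x + 1) + 1 := h.half x (x + 1) (by omega) (by omega)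
  have hc := h.cnt (x + 1) (x + (2 * b + 1)) (by omega) (by omega)
  have hN := h.nest (lo := x + 1) (hi := x + (2 * b + 1)) (by omega)
    (Θ (x + 1) (x + (2 * b + 1)))
  rcases nest_odd b hN (by ring) (by omega) (by omega) with H | ⟨p, hp1, hp2, H1, H2⟩ |
    ⟨p, hp1, hp2, H1, H2⟩
  · left
    intro t ht
    rcases Nat.eq_zero_or_pos t with rfl | ht0
    · rfl
    · exact ef_back h (H t ht0 ht) hτ (by omega) (by omega) (by ring) (by ring)
  · right; left
    refine ⟨p, hp1, hp2, ?_, ?_⟩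
    · intro t ht
      rcases Nat.eq_zero_or_pos t with rfl | ht0
      · rfl
      · exact ef_back h (H1 t ht0 ht) hτ (by omega) (by omega) (by ring) (by ring)
    · intro r hr1 hr2
      exact ef_back h (H2 r hr1 hr2) hτ (by omega) (by omega) (by ring) (by ring)
  · right; right
    refine ⟨p, hp1, hp2, ?_, ?_⟩
    · intro t ht
      rcases Nat.eq_zero_or_pos t with rfl | ht0
      · rfl
      · exact ef_back h (H1 t ht0 ht) hτ (by omega) (by omega) (by ring) (by ring)
    · intro r hr1 hr2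
      exact ef_back h (H2 r hr1 hr2) hτ (by omega) (by omega) (by ring) (by ring)


private theorem eg_count (h : Core b Θ) (hb : 1 ≤ b) (y : ℤ) (β : ℝ)
    (hlo : ∀ t, t < b → O Θ (y - 1) t < β) (hhi : ∀ r, r < b → β < G Θ (y + 1) r)
    (D : Finset (ℤ × ℤ))
    (hD : ∀ q ∈ D, q.1 < q.2 ∧ q.2 < q.1 + (2 * b + 1) ∧ Θ q.1 q.2 = β) :
    D.card ≤ ((range b).filter (fun r => G Θ y r = β)).card +
      ((range b).filter (fun r => O Θ y r = β)).card := by
  have hab := h.above hb (β := β) (s := 2 * (y + 1)) (by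
    intro i j h1 h2 h3
    obtain ⟨r, hr, rfl, rfl⟩ := cover_G (b := b) h1 h2 h3
    exact hhi r hr)
  have hbe := h.below hb (β := β) (s := 2 * (y - 1) + 1) (by
    intro i j h1 h2 h3
    obtain ⟨r, hr, rfl, rfl⟩ := cover_O (b := b) h1 h2 h3
    exact hlo r hr)
  have hsub : D ⊆ ((range b).filter (fun r => G Θ y r = β)).image
        (fun r : ℕ => ((y - 1 - r, y + 1 + r) : ℤ × ℤ)) ∪
      ((range b).filter (fun r => O Θ y r = β)).image
        (fun r : ℕ => ((y - r, y + 1 + r) : ℤ × ℤ)) := by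
    intro q hq
    obtain ⟨h1, h2, h3⟩ := hD q hq
    have h4 : ¬ (2 * (y + 1) ≤ q.1 + q.2) := fun h5 => by
      have := hab q.1 q.2 h1 h2 h5
      linarith
    have h5 : ¬ (q.1 + q.2 ≤ 2 * (y - 1) + 1) := fun h5 => by
      have := hbe q.1 q.2 h1 h2 h5
      linarith
    rw [mem_union]
    by_cases h6 : q.1 + q.2 = 2 * y
    · left
      obtain ⟨r, hr, e1, e2⟩ := cover_G (b := b) h1 h2 h6
      rw [mem_image]
      refine ⟨r, ?_, ?_⟩
      · rw [mem_filter, mem_range]
        refine ⟨hr, ?_⟩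
        unfold G
        rw [← e1, ← e2]
        exact h3
      · exact Prod.ext e1.symm e2.symm
    · right
      obtain ⟨r, hr, e1, e2⟩ := cover_O (b := b) (x := y) h1 h2 (by omega)
      rw [mem_image]
      refine ⟨r, ?_, ?_⟩
      · rw [mem_filter, mem_range]
        refine ⟨hr, ?_⟩
        unfold O
        rw [← e1, ← e2]
        exact h3
      · exact Prod.ext e1.symm e2.symm
  calc D.card ≤ _ := card_le_card hsub
    _ ≤ _ := card_union_le _ _
    _ ≤ _ := add_le_add card_image_le card_image_le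

/-- eg (M). The class of the chord `(y-1, y+1)`: `cnt` for `(y+1, y-1+n)`; the parallel chords
`(k,l)` inside give `(l-n, k)`, whose sum is `2y` or `2y+1` by `above`, `below`. -/
theorem Core.earG (h : Core b Θ) (hb : 3 ≤ b) (y : ℤ) (hlo : ∀ t, t < b → O Θ (y - 1) t < G Θ y 0)
    (hhi : ∀ r, r < b → G Θ y 0 < G Θ (y + 1) r) :
    b ≤ ((range b).filter (fun r => G Θ y r = G Θ y 0)).card +
      ((range b).filter (fun r => O Θ y r = G Θ y 0)).card + 1 := by
  have hG : G Θ y 0 = Θ (y - 1) (y + 1) := by simp [G]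
  have hτ : Θ (y + 1) (y - 1 + (2 * b + 1)) = G Θ y 0 + 1 := by
    rw [hG]
    exact h.half (y - 1) (y + 1) (by omega) (by omega)
  have hc := h.cnt (y + 1) (y - 1 + (2 * b + 1)) (by omega) (by omega)
  set C := (((Ioo (y + 1) (y - 1 + (2 * (b : ℤ) + 1))) ×ˢ
    (Ioo (y + 1) (y - 1 + (2 * (b : ℤ) + 1)))).filter
    (fun q => q.1 < q.2 ∧ Θ q.1 q.2 = Θ (y + 1) (y - 1 + (2 * b + 1)))) with hC
  have hCm : ∀ q ∈ C, y + 1 < q.1 ∧ q.1 < q.2 ∧ q.2 < y - 1 + (2 * (b : ℤ) + 1) ∧
      Θ q.1 q.2 = G Θ y 0 + 1 := by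
    intro q hq
    rw [hC] at hq
    simp only [mem_filter, mem_product, mem_Ioo] at hq
    exact ⟨hq.1.1.1, hq.2.1, hq.1.2.2, by rw [hq.2.2, hτ]⟩
  have hinj : Set.InjOn (fun q : ℤ × ℤ => ((q.2 - (2 * (b : ℤ) + 1), q.1) : ℤ × ℤ)) C := by
    intro q _ q' _ he
    simp only [Prod.mk.injEq] at he
    exact Prod.ext he.2 (by omega)
  have hni : ((y - 1, y + 1) : ℤ × ℤ) ∉
      C.image (fun q : ℤ × ℤ => ((q.2 - (2 * (b : ℤ) + 1), q.1) : ℤ × ℤ)) := by
    intro hm
    rw [mem_image] at hm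
    obtain ⟨q, hq, he⟩ := hm
    simp only [Prod.mk.injEq] at he
    have := (hCm q hq).1
    omega
  have hle := eg_count h (by omega) y (G Θ y 0) hlo hhi
    (insert ((y - 1, y + 1) : ℤ × ℤ)
      (C.image (fun q : ℤ × ℤ => ((q.2 - (2 * (b : ℤ) + 1), q.1) : ℤ × ℤ)))) (by
    intro q hq
    rw [mem_insert] at hq
    rcases hq with rfl | hq
    · exact ⟨by simp only []; omega, by simp only []; omega, hG.symm⟩
    · rw [mem_image] at hq
      obtain ⟨q', hq', rfl⟩ := hq
      obtain ⟨c1, c2, c3, c4⟩ := hCm q' hq'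
      have h1 := h.half (q'.2 - (2 * (b : ℤ) + 1)) q'.1 (by omega) (by omega)
      rw [sub_add_cancel, c4] at h1
      refine ⟨by simp only []; omega, by simp only []; omega, ?_⟩
      simp only []
      linarith)
  rw [card_insert_of_notMem hni, card_image_of_injOn hinj] at hle
  have h1 : ((b : ℤ)) ≤ (C.card : ℤ) + 2 := by omega
  omega


/-- eh (M). The class of the chord `O y (b-1) = (y-b+1, y+b)`: `cnt` for this chord; the parallel
chords inside have sum `2y` or `2y+1` by `above`, `below`. -/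
theorem Core.earO (h : Core b Θ) (hb : 3 ≤ b) (y : ℤ)
    (hlo : ∀ t, t < b → O Θ (y - 1) t < O Θ y (b - 1))
    (hhi : ∀ r, r < b → O Θ y (b - 1) < G Θ (y + 1) r) :
    b ≤ ((range b).filter (fun r => G Θ y r = O Θ y (b - 1))).card +
      ((range b).filter (fun r => O Θ y r = O Θ y (b - 1))).card + 1 := by
  have e0 : ((b - 1 : ℕ) : ℤ) = b - 1 := by omega
  have hG : O Θ y (b - 1) = Θ (y - b + 1) (y + b) := by
    unfold O
    rw [e0]
    ring_nf
  have hc := h.cnt (y - b + 1) (y + b) (by omega) (by omega)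
  set C := (((Ioo (y - (b : ℤ) + 1) (y + (b : ℤ))) ×ˢ
    (Ioo (y - (b : ℤ) + 1) (y + (b : ℤ)))).filter
    (fun q => q.1 < q.2 ∧ Θ q.1 q.2 = Θ (y - b + 1) (y + b))) with hC
  have hCm : ∀ q ∈ C, y - (b : ℤ) + 1 < q.1 ∧ q.1 < q.2 ∧ q.2 < y + (b : ℤ) ∧
      Θ q.1 q.2 = O Θ y (b - 1) := by
    intro q hq
    rw [hC] at hq
    simp only [mem_filter, mem_product, mem_Ioo] at hq
    exact ⟨hq.1.1.1, hq.2.1, hq.1.2.2, by rw [hq.2.2, hG]⟩
  have hni : ((y - (b : ℤ) + 1, y + (b : ℤ)) : ℤ × ℤ) ∉ C := by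
    intro hm
    have := (hCm _ hm).1
    simp only [] at this
    omega
  have hle := eg_count h (by omega) y (O Θ y (b - 1)) hlo hhi
    (insert ((y - (b : ℤ) + 1, y + (b : ℤ)) : ℤ × ℤ) C) (by
    intro q hq
    rw [mem_insert] at hq
    rcases hq with rfl | hq
    · exact ⟨by simp only []; omega, by simp only []; omega, hG.symm⟩
    · obtain ⟨c1, c2, c3, c4⟩ := hCm q hq
      exact ⟨c2, by omega, c4⟩)
  rw [card_insert_of_notMem hni] at hle
  omega


end Cvc
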