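import Mathlib
import Pool.Agent.Cvc.Strip

set_option autoImplicit false

open Finset

namespace Cvc

variable {b : ℕ} {Θ : ℤ → ℤ → ℝ}

private theorem fa_OG (h : Core b Θ) (y : ℤ) {t : ℕ} (ht : t < b) :
    O Θ (y - 1) t < G Θ y t := by
  have h1 := h.OG (y - 1) ht
  rwa [sub_add_cancel] at h1

private theorem fa_hi (h : Core b Θ) {y : ℤ} {p : ℕ} (ht : Tl Θ b y p) {r : ℕ} (hr : r < b) :
    O Θ y 0 ≤ G Θ (y + 1) r := by
  obtain ⟨-, -, h3, h4⟩ := ht
  rcases Nat.lt_or_ge r p with h5 | h5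
  · rw [← h3 r h5]
    exact (h.OG y hr).le
  · exact (h4 r h5 hr).ge

private theorem fa_top (h : Core b Θ) {y : ℤ} {p : ℕ} (ht : Tl Θ b y p) :
    O Θ y (b - 1) < O Θ y 0 := by
  have h1 := ht.1
  have h2 := ht.2.1
  have h5 := h.OG y (t := b - 1) (by omega)
  rwa [ht.2.2.2 (b - 1) (by omega) (by omega)] at h5

private theorem fa_ends (hb : 3 ≤ b) {y : ℤ} {p : ℕ} {β : ℝ} (hp1 : 1 ≤ p)
    (hO : ∀ t, t < p → O Θ y t ≠ β) (hG : ∀ r, r < b → G Θ y r ≠ β)
    (hc : b ≤ ((range b).filter (fun r => G Θ y r = β)).card +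
      ((range b).filter (fun r => O Θ y r = β)).card + 1) :
    p = 1 ∧ ∀ t, 1 ≤ t → t < b → O Θ y t = β := by
  have h1 : ((range b).filter (fun r => G Θ y r = β)) = ∅ := by
    rw [filter_eq_empty_iff]
    intro r hr
    exact hG r (mem_range.mp hr)
  rw [h1, card_empty] at hc
  have h2 : ((range b).filter (fun r => O Θ y r = β)) ⊆ Ico p b := by
    intro t ht
    rw [mem_filter, mem_range] at ht
    rw [mem_Ico]
    refine ⟨?_, ht.1⟩
    by_contra h3
    exact hO t (by omega) ht.2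
  have h3 := card_le_card h2
  rw [Nat.card_Ico] at h3
  have h4 : p = 1 := by omega
  refine ⟨h4, ?_⟩
  subst h4
  have h5 := eq_of_subset_of_card_le h2 (by rw [Nat.card_Ico]; omega)
  intro t ht1 ht2
  have h6 : t ∈ (range b).filter (fun r => O Θ y r = β) := by
    rw [h5, mem_Ico]
    exact ⟨ht1, ht2⟩
  exact (mem_filter.mp h6).2

/-- fa (S). Straight class before a tile: `p = 1`, and the rest of the class is parallel. `earO` with
`β = O y (b-1)`: `O (y-1) t < G y t = G y (b-1) < β`; `β < G (y+1) (b-1) = τ`, and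
`G (y+1) r ≥ τ` for all `r` (`τ = O y 0`). -/
theorem Core.gap_st_tl (h : Core b Θ) (hb : 3 ≤ b) {y : ℤ} {p : ℕ} (hs : Se Θ b y)
    (ht : Tl Θ b y p) : p = 1 ∧ ∀ t, 1 ≤ t → t < b → O Θ y t = O Θ y (b - 1) := by
  have hp1 := ht.1
  have hp2 := ht.2.1
  have htop := fa_top h ht
  have hGO : G Θ y (b - 1) < O Θ y (b - 1) := h.GO y (by omega)
  have hG : ∀ r, r < b → G Θ y r < O Θ y (b - 1) := by
    intro r hr
    rw [hs r hr, ← hs (b - 1) (by omega)]
    exact hGO
  refine fa_ends hb hp1 ?_ (fun r hr => (hG r hr).ne) (h.earO hb y ?_ ?_)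
  · intro t ht'
    rw [ht.2.2.1 t ht']
    exact htop.ne'
  · intro t ht'
    exact (fa_OG h y ht').trans (hG t ht')
  · intro r hr
    exact lt_of_lt_of_le htop (fa_hi h ht hr)


private theorem fb_lo (h : Core b Θ) {y : ℤ} {p : ℕ} (ht : Tl Θ b (y - 1) p) {t : ℕ}
    (htb : t < b) : O Θ (y - 1) t ≤ O Θ (y - 1) 0 := by
  obtain ⟨-, -, h3, h4⟩ := ht
  rw [sub_add_cancel] at h4
  rcases Nat.lt_or_ge t p with h5 | h5
  · exact (h3 t h5).le
  · rw [← h4 t h5 htb]
    exact (fa_OG h y htb).le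

private theorem fb_R {y : ℤ} {p : ℕ} {β : ℝ} (ht : Tl Θ b (y - 1) p) (hβ : O Θ (y - 1) 0 < β) :
    ∀ r ∈ (range b).filter (fun r => G Θ y r = β), r < p := by
  intro r hr
  rw [mem_filter, mem_range] at hr
  by_contra h1
  have h2 := ht.2.2.2 r (by omega) hr.1
  rw [sub_add_cancel, hr.2] at h2
  linarith

/-- fb (S). Tile before a straight class: `p = b - 1`. `earG` with `β = G y 0`. -/
theorem Core.gap_tl_st (h : Core b Θ) (hb : 3 ≤ b) {y : ℤ} {p : ℕ} (ht : Tl Θ b (y - 1) p)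
    (hs : St Θ b y) : p = b - 1 ∧ ∀ r, r < b - 1 → G Θ y r = G Θ y 0 := by
  have hp1 := ht.1
  have hp2 := ht.2.1
  have h0 : O Θ (y - 1) 0 < G Θ y 0 := fa_OG h y (by omega)
  have h1 : G Θ y 0 < O Θ y 0 := h.GO y (by omega)
  have hc := h.earG hb y (fun t ht' => lt_of_le_of_lt (fb_lo h ht ht') h0) (by
    intro r hr
    rw [← hs r hr] at h1
    exact h1.trans (h.OG y hr))
  have h2 : ((range b).filter (fun r => O Θ y r = G Θ y 0)) = ∅ := by
    rw [filter_eq_empty_iff]
    intro r hr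
    rw [hs r (mem_range.mp hr)]
    exact h1.ne'
  rw [h2, card_empty] at hc
  have h3 : ((range b).filter (fun r => G Θ y r = G Θ y 0)) ⊆ range p := by
    intro r hr
    exact mem_range.mpr (fb_R ht h0 r hr)
  have h4 := card_le_card h3
  rw [card_range] at h4
  have h5 : p = b - 1 := by omega
  refine ⟨h5, ?_⟩
  have h6 := eq_of_subset_of_card_le h3 (by rw [card_range]; omega)
  intro r hr
  have h7 : r ∈ (range b).filter (fun r => G Θ y r = G Θ y 0) := by
    rw [h6, mem_range]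
    omega
  exact (mem_filter.mp h7).2


/-- fc (M). Tile before a tile. `earG` with `β = G y 0` and `ear_sets` with
`R = {r | G y r = β}`, `R' = {r | O y r = β}`, `q = p`. If `R'` is empty (`r₀ = b - 1`) then
`p = b - 1`, `G y r ≠ O y (b-1)` for all `r < b`, and `earO` gives `p' = 1`. -/
theorem Core.gap_tl_tl (h : Core b Θ) (hb : 3 ≤ b) {y : ℤ} {p p' : ℕ} (ht : Tl Θ b (y - 1) p)
    (ht' : Tl Θ b y p') :
    (p = b - 1 ∧ p' = 1) ∨ ∃ r₀, 1 ≤ r₀ ∧ r₀ + 2 ≤ b ∧ p' ≤ r₀ + 1 ∧ r₀ ≤ p ∧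
      (∀ r, r < r₀ → G Θ y r = G Θ y 0) ∧ ∀ r, r₀ < r → r < b → O Θ y r = G Θ y 0 := by
  have hp1 := ht.1
  have hp2 := ht.2.1
  have hp1' := ht'.1
  have hp2' := ht'.2.1
  have h0 : O Θ (y - 1) 0 < G Θ y 0 := fa_OG h y (by omega)
  have h1 : G Θ y 0 < O Θ y 0 := h.GO y (by omega)
  have hc := h.earG hb y (fun t htb => lt_of_le_of_lt (fb_lo h ht htb) h0)
    (fun r hr => lt_of_lt_of_le h1 (fa_hi h ht' hr))
  set R := (range b).filter (fun r => G Θ y r = G Θ y 0) with hR
  set R' := (range b).filter (fun r => O Θ y r = G Θ y 0) with hR'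
  obtain ⟨r₀, r1, r2, r3, r4⟩ := ear_sets (b := b) (q := p) (R := R) (R' := R')
    (filter_subset _ _) (by rw [hR, mem_filter, mem_range]; exact ⟨by omega, rfl⟩)
    (fb_R ht h0) hp2 (by
      intro r hr hr'
      rw [hR, mem_filter, mem_range] at hr
      rw [hR', mem_filter, mem_range] at hr'
      have := h.GO y hr.1
      rw [hr.2, hr'.2] at this
      exact lt_irrefl _ this) (by
      intro r hr hr'
      rw [hR, mem_filter, mem_range] at hr
      rw [hR', mem_filter, mem_range] at hr'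
      have := h.GO' y hr'.1
      rw [hr.2, hr'.2] at this
      exact lt_irrefl _ this) hc
  have hRm : ∀ r, r < r₀ → G Θ y r = G Θ y 0 := by
    intro r hr
    have : r ∈ R := by rw [r3, mem_range]; exact hr
    exact (mem_filter.mp this).2
  have hR'm : ∀ r, r₀ < r → r < b → O Θ y r = G Θ y 0 := by
    intro r hr hr'
    have : r ∈ R' := by rw [r4, mem_Ico]; exact ⟨hr, hr'⟩
    exact (mem_filter.mp this).2
  by_cases hcase : r₀ + 2 ≤ b
  · right
    refine ⟨r₀, r1, hcase, ?_, r2, hRm, hR'm⟩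
    by_contra h2
    have h3 := hR'm (r₀ + 1) (by omega) (by omega)
    rw [ht'.2.2.1 (r₀ + 1) (by omega)] at h3
    linarith
  · left
    have e1 : r₀ = b - 1 := by omega
    refine ⟨by omega, ?_⟩
    have htop := fa_top h ht'
    have hGO : G Θ y (b - 1) < O Θ y (b - 1) := h.GO y (by omega)
    have hσ : G Θ y (b - 1) = O Θ (y - 1) 0 := by
      have := ht.2.2.2 (b - 1) (by omega) (by omega)
      rwa [sub_add_cancel] at this
    have hne : O Θ y (b - 1) ≠ G Θ y 0 := by
      intro he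
      have : b - 1 ∈ R' := by rw [hR', mem_filter, mem_range]; exact ⟨by omega, he⟩
      rw [r4, mem_Ico] at this
      omega
    refine (fa_ends hb hp1' ?_ ?_ (h.earO hb y ?_ ?_)).1
    · intro t htb
      rw [ht'.2.2.1 t htb]
      exact htop.ne'
    · intro r hr
      rcases Nat.lt_or_ge r r₀ with h5 | h5
      · rw [hRm r h5]
        exact hne.symm
      · rw [show r = b - 1 by omega]
        exact hGO.ne
    · intro t htb
      refine lt_of_le_of_lt (fb_lo h ht htb) ?_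
      rw [← hσ]
      exact hGO
    · intro r hr
      exact lt_of_lt_of_le htop (fa_hi h ht' hr)


/-- fd (S). Exclusions. -/
theorem Core.tl_not_st (h : Core b Θ) {x : ℤ} {p : ℕ} (ht : Tl Θ b x p) : ¬ St Θ b x := by
  intro hs
  have h1 := fa_top h ht
  rw [hs (b - 1) (by have := ht.1; have := ht.2.1; omega)] at h1
  exact lt_irrefl _ h1


theorem Core.tl_not_tr (h : Core b Θ) {x : ℤ} {p q : ℕ} (ht : Tl Θ b x p) : ¬ Tr Θ b x q := by
  intro hs
  have h1 := fa_top h ht
  have h2 := ht.1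
  have h3 := ht.2.1
  have h4 := hs.2.1
  have h5 := hs.2.2.2 (b - 1) (by omega) (by omega)
  have h6 := h.GO x (r := b - 1) (by omega)
  linarith


theorem Core.se_not_tr (h : Core b Θ) {x : ℤ} {p : ℕ} (ht : Tr Θ b x p) : ¬ Se Θ b x := by
  intro hs
  have h3 := ht.1
  have h4 := ht.2.1
  have h5 := ht.2.2.2 (b - 1) (by omega) (by omega)
  rw [hs (b - 1) (by omega)] at h5
  have h6 := h.GO x (r := 0) (by omega)
  linarith


theorem Core.tl_not_tr_succ (h : Core b Θ) {x : ℤ} {p q : ℕ} (ht : Tl Θ b x p) :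
    ¬ Tr Θ b (x + 1) q := by
  intro hs
  have h2 := ht.1
  have h3 := ht.2.1
  have h4 := hs.2.1
  have h5 := hs.2.2.2 (b - 1) (by omega) (by omega)
  have h6 := ht.2.2.2 (b - 1) (by omega) (by omega)
  have h7 := h.OG x (t := 0) (by omega)
  have h8 := h.GO (x + 1) (r := 0) (by omega)
  linarith


private theorem fe_hG (h : Core b Θ) (y : ℤ) {t : ℕ} (ht : t < b) :
    O Θ (y + b) t = G Θ y (b - 1 - t) + 1 := by
  have h1 := h.halfG y (r := b - 1 - t) (by omega)
  rwa [show b - 1 - (b - 1 - t) = t by omega] at h1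

private theorem fe_hO (h : Core b Θ) (x : ℤ) {r : ℕ} (hr : r < b) :
    G Θ (x + b + 1) r = O Θ x (b - 1 - r) + 1 := by
  have h1 := h.halfO x (t := b - 1 - r) (by omega)
  rwa [show b - 1 - (b - 1 - r) = r by omega] at h1

private theorem fe_perO (h : Core b Θ) (x : ℤ) {t : ℕ} (ht : t < b) :
    O Θ (x + (2 * b + 1)) t = O Θ x t + 2 := by
  have h1 := fe_hG h (x + b + 1) ht
  rw [fe_hO h x (by omega), show b - 1 - (b - 1 - t) = t by omega] at h1
  rw [show x + (2 * (b : ℤ) + 1) = x + b + 1 + b by ring, h1]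
  ring

private theorem fe_perG (h : Core b Θ) (x : ℤ) {r : ℕ} (hr : r < b) :
    G Θ (x + (2 * b + 1)) r = G Θ x r + 2 := by
  have h1 := fe_hO h (x + b) hr
  rw [fe_hG h x (by omega), show b - 1 - (b - 1 - r) = r by omega] at h1
  rw [show x + (2 * (b : ℤ) + 1) = x + b + b + 1 by ring, h1]
  ring

/-- fe (M). Half turns and periods of straight classes and tiles (`halfG`, `halfO`). -/
theorem Core.st_iff_se (h : Core b Θ) (hb : 1 ≤ b) (y : ℤ) : St Θ b (y + b) ↔ Se Θ b y := by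
  constructor
  · intro hs r hr
    have h1 := h.halfG y hr
    have h2 := h.halfG y (r := 0) (by omega)
    rw [hs (b - 1 - r) (by omega)] at h1
    rw [hs (b - 1 - 0) (by omega)] at h2
    linarith
  · intro hs t ht
    have h1 := fe_hG h y ht
    have h2 := fe_hG h y (t := 0) (by omega)
    rw [hs (b - 1 - t) (by omega)] at h1
    rw [hs (b - 1 - 0) (by omega)] at h2
    linarith


theorem Core.tr_iff_tl (h : Core b Θ) (hb : 1 ≤ b) (x : ℤ) {p : ℕ} (hp : p ≤ b) :
    Tr Θ b x p ↔ Tl Θ b (x + b) (b - p) := by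
  constructor
  · rintro ⟨h1, h2, h3, h4⟩
    have e0 : O Θ (x + b) 0 = O Θ x 0 + 1 := by
      rw [fe_hG h x (by omega), h4 (b - 1 - 0) (by omega) (by omega)]
    refine ⟨by omega, by omega, ?_, ?_⟩
    · intro t ht
      rw [e0, fe_hG h x (by omega), h4 (b - 1 - t) (by omega) (by omega)]
    · intro r hr1 hr2
      rw [e0, fe_hO h x hr2, h3 (b - 1 - r) (by omega)]
  · rintro ⟨h1, h2, h3, h4⟩
    have hp2 : p < b := by omega
    have hp1 : 1 ≤ p := by omega
    have e0 : O Θ (x + b) 0 = O Θ x 0 + 1 := by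
      rw [← h4 (b - 1) (by omega) (by omega), fe_hO h x (by omega),
        show b - 1 - (b - 1) = 0 by omega]
    refine ⟨hp1, hp2, ?_, ?_⟩
    · intro t ht
      have h5 := h4 (b - 1 - t) (by omega) (by omega)
      rw [e0, fe_hO h x (by omega), show b - 1 - (b - 1 - t) = t by omega] at h5
      linarith
    · intro r hr1 hr2
      have h5 := h3 (b - 1 - r) (by omega)
      rw [e0, fe_hG h x (by omega), show b - 1 - (b - 1 - r) = r by omega] at h5
      linarith


theorem Core.tl_per (h : Core b Θ) (hb : 1 ≤ b) (x : ℤ) (p : ℕ) :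
    Tl Θ b (x + (2 * b + 1)) p ↔ Tl Θ b x p := by
  have e0 := fe_perO h x (t := 0) (by omega)
  have eG : ∀ r, r < b → G Θ (x + (2 * b + 1) + 1) r = G Θ (x + 1) r + 2 := by
    intro r hr
    rw [← fe_perG h (x + 1) hr, show x + (2 * (b : ℤ) + 1) + 1 = x + 1 + (2 * b + 1) by ring]
  constructor
  · rintro ⟨h1, h2, h3, h4⟩
    refine ⟨h1, h2, ?_, ?_⟩
    · intro t ht
      have h5 := h3 t ht
      rw [fe_perO h x (by omega), e0] at h5
      linarith
    · intro r hr1 hr2
      have h5 := h4 r hr1 hr2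
      rw [eG r hr2, e0] at h5
      linarith
  · rintro ⟨h1, h2, h3, h4⟩
    refine ⟨h1, h2, ?_, ?_⟩
    · intro t ht
      rw [fe_perO h x (by omega), e0, h3 t ht]
    · intro r hr1 hr2
      rw [eG r hr2, e0, h4 r hr1 hr2]


end Cvc
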