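import Mathlib
import Pool.Agent.Cvc.Gap

set_option autoImplicit false

open Finset

namespace Cvc

variable {b : ℕ} {Θ : ℤ → ℤ → ℝ}

/-- ga (M). Either all classes are straight, or there is a straight class followed by a tile.
Otherwise `Tl x` implies `Tl (x - 1)`: the side `x + b` is not straight (else `Se x` by `st_iff_se`),
not `Tl` (that is `Tr x`, `tr_iff_tl` and `tl_per`, against `tl_not_tr`), so `Tr (x+b)`, which is
`Tl (x+2b) = Tl (x-1)`. Then `Tl x` and `Tl (x-b)`, i.e. `Tl (x+b+1)`, i.e. `Tr (x+1)`, against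
`tl_not_tr_succ`. -/
theorem Core.start (h : Core b Θ) (hb : 3 ≤ b) :
    (∀ x, St Θ b x) ∨ ∃ c p, Se Θ b c ∧ Tl Θ b c p := by
  by_contra hcon
  rw [not_or] at hcon
  obtain ⟨hns, hno⟩ := hcon
  push Not at hns
  have step : ∀ x : ℤ, (∃ p, Tl Θ b x p) → ∃ q, Tl Θ b (x - 1) q := by
    intro x hx
    obtain ⟨p, hp⟩ := hx
    rcases h.hull hb (x + b) with h1 | h1 | h1
    · exact absurd ⟨x, p, (h.st_iff_se (by omega) x).1 h1, hp⟩ hno
    · obtain ⟨q, hq⟩ := h1
      have hq1 : 1 ≤ q := hq.1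
      have hq2 : q < b := hq.2.1
      have : Tr Θ b x (b - q) := by
        rw [h.tr_iff_tl (by omega) x (by omega)]
        have e : b - (b - q) = q := by omega
        rw [e]; exact hq
      exact absurd this (h.tl_not_tr hp)
    · obtain ⟨q, hq⟩ := h1
      have hq1 : 1 ≤ q := hq.1
      have hq2 : q < b := hq.2.1
      refine ⟨b - q, ?_⟩
      have h2 := (h.tr_iff_tl (by omega) (x + b) (by omega)).1 hq
      have e : x + (b : ℤ) + b = (x - 1) + (2 * b + 1) := by ring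
      rw [e] at h2
      exact (h.tl_per (by omega) _ _).1 h2
  have steps : ∀ (k : ℕ) (x : ℤ), (∃ p, Tl Θ b x p) → ∃ q, Tl Θ b (x - k) q := by
    intro k
    induction k with
    | zero => intro x hx; simpa using hx
    | succ k ih =>
      intro x hx
      have := step _ (ih x hx)
      have e : x - (k : ℤ) - 1 = x - ((k + 1 : ℕ) : ℤ) := by push_cast; ring
      rw [e] at this
      exact this
  obtain ⟨x, hx⟩ := hns
  have hex : ∃ x₀ p, Tl Θ b x₀ p := by
    rcases h.hull hb x with h1 | h1 | h1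
    · exact absurd h1 hx
    · obtain ⟨p, hp⟩ := h1
      exact ⟨x, p, hp⟩
    · obtain ⟨p, hp⟩ := h1
      have hq2 : p < b := hp.2.1
      exact ⟨x + b, b - p, (h.tr_iff_tl (by omega) x (by omega)).1 hp⟩
  obtain ⟨x₀, p, hp⟩ := hex
  obtain ⟨q, hq⟩ := steps b x₀ ⟨p, hp⟩
  have hq1 : 1 ≤ q := hq.1
  have hq2 : q < b := hq.2.1
  have h3 := (h.tl_per (by omega) (x₀ - b) q).2 hq
  have h4 : Tr Θ b (x₀ + 1) (b - q) := by
    rw [h.tr_iff_tl (by omega) (x₀ + 1) (by omega)]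
    have e : b - (b - q) = q := by omega
    have e2 : x₀ + 1 + (b : ℤ) = x₀ - b + (2 * b + 1) := by ring
    rw [e, e2]
    exact h3
  exact absurd h4 (h.tl_not_tr_succ hp)

/-- gb (M). The run of tiles after a straight class. `j` is the least `i` with no tile at
`c + i`; it exists and `j ≤ b` since `St (c + b)`. At `c + j` the side is straight (`hull`,
`tl_not_tr_succ`). `pp 0 = 1` (`gap_st_tl`), `pp (j-1) = b-1` (`gap_tl_st`), and
`pp (i+1) ≤ pp i + 1` (`gap_tl_tl`). -/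
theorem Core.run (h : Core b Θ) (hb : 3 ≤ b) {c : ℤ} {p : ℕ} (hs : Se Θ b c) (ht : Tl Θ b c p) :
    ∃ (j : ℕ) (pp : ℕ → ℕ), b - 1 ≤ j ∧ j ≤ b ∧ (∀ i, i < j → Tl Θ b (c + i) (pp i)) ∧
      St Θ b (c + j) ∧ pp 0 = 1 ∧ pp (j - 1) = b - 1 ∧ (∀ i, i < j → pp i ≤ i + 1) ∧
      (∀ i, i < j → i ≤ pp i) := by
  classical
  have hstb : St Θ b (c + b) := (h.st_iff_se (by omega) c).2 hs
  have hex : ∃ i : ℕ, ¬ ∃ q, Tl Θ b (c + i) q := by
    refine ⟨b, ?_⟩
    rintro ⟨q, hq⟩
    exact h.tl_not_st hq hstb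
  set j := Nat.find hex with hj
  have hjb : j ≤ b := by
    apply Nat.find_min' hex
    rintro ⟨q, hq⟩
    exact h.tl_not_st hq hstb
  have hjn : ¬ ∃ q, Tl Θ b (c + j) q := Nat.find_spec hex
  have htile : ∀ i, i < j → ∃ q, Tl Θ b (c + i) q := by
    intro i hi
    have := Nat.find_min hex hi
    push Not at this
    exact this
  have hj0 : 0 < j := by
    rcases Nat.eq_zero_or_pos j with h0 | h0
    · exfalso
      apply hjn
      rw [h0]
      exact ⟨p, by simpa using ht⟩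
    · exact h0
  have hch : ∀ i : ℕ, ∃ q : ℕ, i < j → Tl Θ b (c + i) q := by
    intro i
    by_cases hi : i < j
    · obtain ⟨q, hq⟩ := htile i hi
      exact ⟨q, fun _ => hq⟩
    · exact ⟨0, fun hh => absurd hh hi⟩
  choose pp hpp using hch
  have hsj : St Θ b (c + j) := by
    rcases h.hull hb (c + j) with h1 | h1 | h1
    · exact h1
    · exact absurd h1 hjn
    · obtain ⟨q, hq⟩ := h1
      exfalso
      have h2 := hpp (j - 1) (by omega)
      have e : c + (j : ℤ) = c + ((j - 1 : ℕ) : ℤ) + 1 := by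
        rw [Nat.cast_sub hj0]; push_cast; ring
      rw [e] at hq
      exact h.tl_not_tr_succ h2 hq
  have h0 : pp 0 = 1 := by
    have h2 := hpp 0 hj0
    simp only [Nat.cast_zero, add_zero] at h2
    exact (h.gap_st_tl hb hs h2).1
  have hlast : pp (j - 1) = b - 1 := by
    have h2 := hpp (j - 1) (by omega)
    have e : c + ((j - 1 : ℕ) : ℤ) = c + (j : ℤ) - 1 := by
      rw [Nat.cast_sub hj0]; push_cast; ring
    rw [e] at h2
    exact (h.gap_tl_st hb h2 hsj).1
  have hsucc : ∀ i, i + 1 < j → pp (i + 1) ≤ pp i + 1 := by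
    intro i hi
    have h2 := hpp i (by omega)
    have h3 := hpp (i + 1) hi
    have e : c + (i : ℤ) = c + ((i + 1 : ℕ) : ℤ) - 1 := by push_cast; ring
    rw [e] at h2
    rcases h.gap_tl_tl hb h2 h3 with ⟨_, h5⟩ | ⟨r₀, _, _, h6, h7, _⟩
    · omega
    · omega
  have hup : ∀ i, i < j → pp i ≤ i + 1 := by
    intro i
    induction i with
    | zero => intro _; omega
    | succ i ih =>
      intro hi
      have := hsucc i hi
      have := ih (by omega)
      omega
  have hdown : ∀ k, k < j → b - 1 ≤ pp (j - 1 - k) + k := by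
    intro k
    induction k with
    | zero => intro _; simp [hlast]
    | succ k ih =>
      intro hk
      have h5 := ih (by omega)
      have h6 := hsucc (j - 1 - (k + 1)) (by omega)
      have e : j - 1 - (k + 1) + 1 = j - 1 - k := by omega
      rw [e] at h6
      omega
  refine ⟨j, pp, ?_, hjb, hpp, hsj, h0, hlast, hup, ?_⟩
  · have := hup (j - 1) (by omega)
    omega
  · intro i hi
    have h5 := hdown (j - 1 - i) (by omega)
    have e : j - 1 - (j - 1 - i) = i := by omega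
    rw [e] at h5
    omega

/-- the parallel chords used in the geometric part, all relative to the start `c` -/
structure Out (b : ℕ) (Θ : ℤ → ℤ → ℝ) (c : ℤ) : Prop where
  a : ∀ i : ℕ, 1 ≤ i → i + 3 ≤ 2 * b → Θ (c + i) (c + i + 3) = Θ (c + i + 1) (c + i + 2)
  b' : ∀ i : ℕ, 1 ≤ i → i + 4 ≤ 2 * b → Θ (c + i) (c + i + 4) = Θ (c + i + 1) (c + i + 3)
  w : Θ (c + 5) (c + 2 * b) = Θ (c + 1) (c + 2) + 1
  v1 : Θ (c + 3) (c + 2 * b) = Θ c (c + 1) + 1
  v2 : Θ (c + 4) (c + 2 * b) = Θ c (c + 2) + 1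

/-- gc (M). Long chords with odd sums (`Out.a`). With `x = i + 1` the claim is
`O (c+x) 0 = O (c+x) 1`, `2 ≤ x ≤ 2b - 2`. For `x < j`: tile, `2 ≤ x ≤ pp x`. For `x = j` or `x = b`:
straight (`x = j = b - 1` or `b`; `St (c+b)` from `Se c`). For `x ≥ b + 1`: `halfG` with
`y = c + x - b`: the claim is `G y (b-1) = G y (b-2)`, which is in the tile at `c + x - b - 1`
(its parameter is at most `x - b ≤ b - 2`). -/
theorem Core.out_a (h : Core b Θ) (hb : 3 ≤ b) {c : ℤ} (hs : Se Θ b c) {j : ℕ} {pp : ℕ → ℕ}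
    (h1 : b - 1 ≤ j) (h2 : j ≤ b) (ht : ∀ i, i < j → Tl Θ b (c + i) (pp i))
    (hst : St Θ b (c + j)) (hp : ∀ i, i < j → pp i ≤ i + 1) (hp' : ∀ i, i < j → i ≤ pp i) :
    ∀ i : ℕ, 1 ≤ i → i + 3 ≤ 2 * b → Θ (c + i) (c + i + 3) = Θ (c + i + 1) (c + i + 2) := by
  intro i hi1 hi2
  have hstb : St Θ b (c + b) := (h.st_iff_se (by omega) c).2 hs
  have key : O Θ (c + (i + 1 : ℕ)) 1 = O Θ (c + (i + 1 : ℕ)) 0 := by
    rcases lt_trichotomy (i + 1) j with hx | hx | hx
    · have h3 := ht (i + 1) hx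
      have h4 := hp' (i + 1) hx
      exact h3.2.2.1 1 (by omega)
    · rw [hx]
      exact hst 1 (by omega)
    · by_cases hxb : i + 1 = b
      · rw [hxb]
        exact hstb 1 (by omega)
      · have hb1 : b + 1 ≤ i + 1 := by omega
        have h5 := ht (i - b) (by omega)
        have h6 := hp (i - b) (by omega)
        have e0 : c + ((i + 1 : ℕ) : ℤ) = c + ((i - b : ℕ) : ℤ) + 1 + b := by
          rw [Nat.cast_sub (by omega)]; push_cast; ring
        have h7 := h.halfG (c + ((i - b : ℕ) : ℤ) + 1) (r := b - 2) (by omega)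
        have h8 := h.halfG (c + ((i - b : ℕ) : ℤ) + 1) (r := b - 1) (by omega)
        have e1 : b - 1 - (b - 2) = 1 := by omega
        have e2 : b - 1 - (b - 1) = 0 := by omega
        rw [e1] at h7
        rw [e2] at h8
        rw [e0, h7, h8, h5.2.2.2 (b - 2) (by omega) (by omega),
          h5.2.2.2 (b - 1) (by omega) (by omega)]
  unfold O at key
  push_cast at key
  have e1 : c + ((i : ℤ) + 1) - 1 = c + i := by ring
  have e2 : c + ((i : ℤ) + 1) + 1 + 1 = c + i + 3 := by ring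
  have e3 : c + ((i : ℤ) + 1) - 0 = c + i + 1 := by ring
  have e4 : c + ((i : ℤ) + 1) + 1 + 0 = c + i + 2 := by ring
  rw [e1, e2, e3, e4] at key
  exact key

/-- gd (S). If `j = b - 1` the class with sum `2(c+b)` is straight too: `hull` for the side
`c + 2b`; `Tl` would give `G (c+2b+1) r = O (c+2b) 0` for some `r`, but `G (c+2b+1) r` does not depend
on `r` (`halfO` and `St (c+b)`) and `O (c+2b) 0 < G (c+2b+1) 0`; `Tr` similarly with
`St (c+b-1)`. -/
theorem Core.se_last (h : Core b Θ) (hb : 3 ≤ b) {c : ℤ} (hs : Se Θ b c)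
    (hst : St Θ b (c + b - 1)) : Se Θ b (c + b) := by
  have hstb : St Θ b (c + b) := (h.st_iff_se (by omega) c).2 hs
  rcases h.hull hb (c + b + b) with h1 | h1 | h1
  · exact (h.st_iff_se (by omega) (c + b)).1 h1
  · exfalso
    obtain ⟨q, hq⟩ := h1
    have hq1 : 1 ≤ q := hq.1
    have hq2 : q < b := hq.2.1
    have h2 := hq.2.2.2 (b - 1) (by omega) (by omega)
    have h3 := h.halfO (c + b) (t := 0) (by omega)
    have h4 := h.halfO (c + b) (t := b - 1) (by omega)
    have e1 : b - 1 - 0 = b - 1 := by omega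
    have e2 : b - 1 - (b - 1) = 0 := by omega
    rw [e1] at h3
    rw [e2, hstb (b - 1) (by omega)] at h4
    have h5 := h.OG (c + b + b) (t := 0) (by omega)
    rw [h4, ← h2, h3] at h5
    exact lt_irrefl _ h5
  · exfalso
    obtain ⟨q, hq⟩ := h1
    have hq1 : 1 ≤ q := hq.1
    have hq2 : q < b := hq.2.1
    have h2 := hq.2.2.2 (b - 1) (by omega) (by omega)
    have h3 := h.halfO (c + b - 1) (t := 0) (by omega)
    have h4 := h.halfO (c + b - 1) (t := b - 1) (by omega)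
    have e0 : c + (b : ℤ) - 1 + b + 1 = c + b + b := by ring
    have e1 : b - 1 - 0 = b - 1 := by omega
    have e2 : b - 1 - (b - 1) = 0 := by omega
    rw [e1, e0] at h3
    rw [e2, e0, hst (b - 1) (by omega)] at h4
    have h5 := h.GO (c + b + b) (r := 0) (by omega)
    rw [h4, ← h2, h3] at h5
    exact lt_irrefl _ h5

/-- ge (M). Chords with even sums (`Out.b'`). With `y = i + 2` the claim is
`G (c+y) 0 = G (c+y) 1`, `3 ≤ y ≤ 2b - 2`. For `y < j`: `gap_tl_tl` at `c + y` (its first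
alternative is impossible since `pp y ≥ 3`), `r₀ ≥ pp y - 1 ≥ 2`. For `y = j`: `gap_tl_st`.
For `y = b`, `j = b - 1`: `se_last`. For `y ≥ b + 1`: `halfO` with `x = c + y - b - 1 = c + i'`,
`i' ≤ b - 3`: the claim is `O x (b-1) = O x (b-2)`; for `i' = 0` by `gap_st_tl`, for `i' ≥ 1`
by `gap_tl_tl` at `x`, `r₀ ≤ pp (i'-1) ≤ i' < b - 2`. -/
theorem Core.out_b (h : Core b Θ) (hb : 3 ≤ b) {c : ℤ} (hs : Se Θ b c) {j : ℕ} {pp : ℕ → ℕ}
    (h1 : b - 1 ≤ j) (h2 : j ≤ b) (ht : ∀ i, i < j → Tl Θ b (c + i) (pp i))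
    (hst : St Θ b (c + j)) (hp : ∀ i, i < j → pp i ≤ i + 1) (hp' : ∀ i, i < j → i ≤ pp i) :
    ∀ i : ℕ, 1 ≤ i → i + 4 ≤ 2 * b → Θ (c + i) (c + i + 4) = Θ (c + i + 1) (c + i + 3) := by
  intro i hi1 hi2
  have hstb : St Θ b (c + b) := (h.st_iff_se (by omega) c).2 hs
  have key : G Θ (c + (i + 2 : ℕ)) 1 = G Θ (c + (i + 2 : ℕ)) 0 := by
    rcases lt_trichotomy (i + 2) j with hx | hx | hx
    · have h3 := ht (i + 2) hx
      have h4 := hp' (i + 2) hx
      have h5 := ht (i + 1) (by omega)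
      have e : c + ((i + 1 : ℕ) : ℤ) = c + ((i + 2 : ℕ) : ℤ) - 1 := by push_cast; ring
      rw [e] at h5
      rcases h.gap_tl_tl hb h5 h3 with ⟨_, h6⟩ | ⟨r₀, _, _, h6, h7, h8, _⟩
      · omega
      · exact h8 1 (by omega)
    · have h5 := ht (i + 1) (by omega)
      have e : c + ((i + 1 : ℕ) : ℤ) = c + ((i + 2 : ℕ) : ℤ) - 1 := by push_cast; ring
      rw [e] at h5
      rw [← hx] at hst
      exact (h.gap_tl_st hb h5 hst).2 1 (by omega)
    · by_cases hxb : i + 2 = b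
      · have hj : j = b - 1 := by omega
        have e : c + (j : ℤ) = c + b - 1 := by
          rw [hj, Nat.cast_sub (by omega)]; push_cast; ring
        rw [e] at hst
        have h6 := h.se_last hb hs hst
        rw [hxb]
        exact h6 1 (by omega)
      · have hb1 : b + 1 ≤ i + 2 := by omega
        have hO : O Θ (c + ((i + 1 - b : ℕ) : ℤ)) (b - 2) =
            O Θ (c + ((i + 1 - b : ℕ) : ℤ)) (b - 1) := by
          rcases Nat.eq_zero_or_pos (i + 1 - b) with h0 | h0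
          · have h5 := ht 0 (by omega)
            rw [h0]
            simp only [Nat.cast_zero, add_zero] at h5 ⊢
            exact (h.gap_st_tl hb hs h5).2 (b - 2) (by omega) (by omega)
          · have h5 := ht (i + 1 - b) (by omega)
            have h6 := ht (i + 1 - b - 1) (by omega)
            have h7 := hp (i + 1 - b - 1) (by omega)
            have e : c + ((i + 1 - b - 1 : ℕ) : ℤ) = c + ((i + 1 - b : ℕ) : ℤ) - 1 := by
              rw [Nat.cast_sub h0]; push_cast; ring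
            rw [e] at h6
            rcases h.gap_tl_tl hb h6 h5 with ⟨h8, _⟩ | ⟨r₀, _, _, _, h8, _, h9⟩
            · omega
            · rw [h9 (b - 2) (by omega) (by omega), h9 (b - 1) (by omega) (by omega)]
        have e0 : c + ((i + 2 : ℕ) : ℤ) = c + ((i + 1 - b : ℕ) : ℤ) + b + 1 := by
          rw [Nat.cast_sub (by omega)]; push_cast; ring
        have h7 := h.halfO (c + ((i + 1 - b : ℕ) : ℤ)) (t := b - 2) (by omega)
        have h8 := h.halfO (c + ((i + 1 - b : ℕ) : ℤ)) (t := b - 1) (by omega)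
        have e1 : b - 1 - (b - 2) = 1 := by omega
        have e2 : b - 1 - (b - 1) = 0 := by omega
        rw [e1] at h7
        rw [e2] at h8
        rw [e0, h7, h8, hO]
  unfold G at key
  push_cast at key
  have e1 : c + ((i : ℤ) + 2) - 1 - 1 = c + i := by ring
  have e2 : c + ((i : ℤ) + 2) + 1 + 1 = c + i + 4 := by ring
  have e3 : c + ((i : ℤ) + 2) - 1 - 0 = c + i + 1 := by ring
  have e4 : c + ((i : ℤ) + 2) + 1 + 0 = c + i + 3 := by ring
  rw [e1, e2, e3, e4] at key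
  exact key

/-- gf (S). The three wrap-around relations: `w` is `O (c+b+2) (b-3) = G (c+2) 2 + 1 = O (c+1) 0 + 1`
(tile at `c+1`, `pp 1 ≤ 2`); `v1` is `O (c+b+1) (b-2) = G (c+1) 1 + 1 = O c 0 + 1` (tile at `c`,
`pp 0 = 1`); `v2` is `G (c+b+2) (b-3) = O (c+1) 2 + 1 = G (c+1) 0 + 1` (`gap_tl_tl` at `c+1`,
`r₀ = 1`). -/
theorem Core.out_w (h : Core b Θ) (hb : 3 ≤ b) {c : ℤ} {j : ℕ} {pp : ℕ → ℕ}
    (h1 : b - 1 ≤ j) (ht : ∀ i, i < j → Tl Θ b (c + i) (pp i)) (h0 : pp 0 = 1)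
    (hp : ∀ i, i < j → pp i ≤ i + 1) :
    Θ (c + 5) (c + 2 * b) = Θ (c + 1) (c + 2) + 1 ∧
    Θ (c + 3) (c + 2 * b) = Θ c (c + 1) + 1 ∧ Θ (c + 4) (c + 2 * b) = Θ c (c + 2) + 1 := by
  have t0 := ht 0 (by omega)
  have t1 := ht 1 (by omega)
  have p1 := hp 1 (by omega)
  simp only [Nat.cast_zero, add_zero, Nat.cast_one] at t0 t1
  have hb3 : ((b - 3 : ℕ) : ℤ) = b - 3 := by rw [Nat.cast_sub hb]; push_cast; ring
  have hb2 : ((b - 2 : ℕ) : ℤ) = b - 2 := by rw [Nat.cast_sub (by omega)]; push_cast; ring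
  refine ⟨?_, ?_, ?_⟩
  · have h1 := h.halfG (c + 2) (r := 2) (by omega)
    have h2 := t1.2.2.2 2 (by omega) (by omega)
    have e1 : b - 1 - 2 = b - 3 := by omega
    have e2 : c + (1 : ℤ) + 1 = c + 2 := by ring
    rw [e2] at h2
    rw [e1, h2] at h1
    unfold O at h1
    rw [hb3] at h1
    have f1 : c + 2 + (b : ℤ) - (b - 3) = c + 5 := by ring
    have f2 : c + 2 + (b : ℤ) + 1 + (b - 3) = c + 2 * b := by ring
    have f3 : c + 1 - ((0 : ℕ) : ℤ) = c + 1 := by push_cast; ring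
    have f4 : c + 1 + 1 + ((0 : ℕ) : ℤ) = c + 2 := by push_cast; ring
    rw [f1, f2, f3, f4] at h1
    exact h1
  · have h1 := h.halfG (c + 1) (r := 1) (by omega)
    have h2 := t0.2.2.2 1 (by omega) (by omega)
    have e1 : b - 1 - 1 = b - 2 := by omega
    rw [e1, h2] at h1
    unfold O at h1
    rw [hb2] at h1
    have f1 : c + 1 + (b : ℤ) - (b - 2) = c + 3 := by ring
    have f2 : c + 1 + (b : ℤ) + 1 + (b - 2) = c + 2 * b := by ring
    have f3 : c - ((0 : ℕ) : ℤ) = c := by push_cast; ring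
    have f4 : c + 1 + ((0 : ℕ) : ℤ) = c + 1 := by push_cast; ring
    rw [f1, f2, f3, f4] at h1
    exact h1
  · have h1 := h.halfO (c + 1) (t := 2) (by omega)
    have h2 : O Θ (c + 1) 2 = G Θ (c + 1) 0 := by
      have e : c = c + 1 - 1 := by ring
      have t0' := t0
      rw [e] at t0'
      rcases h.gap_tl_tl hb t0' t1 with ⟨h8, _⟩ | ⟨r₀, _, _, _, h8, _, h9⟩
      · omega
      · exact h9 2 (by omega) (by omega)
    have e1 : b - 1 - 2 = b - 3 := by omega
    rw [e1, h2] at h1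
    unfold G at h1
    rw [hb3] at h1
    have f1 : c + 1 + (b : ℤ) + 1 - 1 - (b - 3) = c + 4 := by ring
    have f2 : c + 1 + (b : ℤ) + 1 + 1 + (b - 3) = c + 2 * b := by ring
    have f3 : c + 1 - 1 - ((0 : ℕ) : ℤ) = c := by push_cast; ring
    have f4 : c + 1 + 1 + ((0 : ℕ) : ℤ) = c + 2 := by push_cast; ring
    rw [f1, f2, f3, f4] at h1
    exact h1

/-- the core theorem -/
theorem Core.main (h : Core b Θ) (hb : 3 ≤ b) : (∀ x, St Θ b x) ∨ ∃ c, Out b Θ c := by
  rcases h.start hb with h0 | ⟨c, p, hs, ht⟩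
  · exact Or.inl h0
  · obtain ⟨j, pp, h1, h2, h3, h4, h5, _, h7, h8⟩ := h.run hb hs ht
    obtain ⟨w, v1, v2⟩ := h.out_w hb h1 h3 h5 h7
    exact Or.inr ⟨c, h.out_a hb hs h1 h2 h3 h4 h7 h8, h.out_b hb hs h1 h2 h3 h4 h7 h8, w, v1, v2⟩

/-- gg (S). If all classes are straight, the relations of `Out` with wrap-around sum `n + 3`. -/
theorem Core.straight (h : Core b Θ) (hb : 3 ≤ b) (hs : ∀ x, St Θ b x) :
    (∀ i : ℤ, Θ i (i + 3) = Θ (i + 1) (i + 2)) ∧ (∀ i : ℤ, Θ i (i + 4) = Θ (i + 1) (i + 3)) ∧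
      Θ 4 (2 * b) = Θ 1 2 + 1 := by
  refine ⟨?_, ?_, ?_⟩
  · intro i
    have h1 := hs (i + 1) 1 (by omega)
    unfold O at h1
    push_cast at h1
    have f1 : i + 1 - 1 = i := by ring
    have f2 : i + 1 + 1 + 1 = i + 3 := by ring
    have f3 : i + 1 - 0 = i + 1 := by ring
    have f4 : i + 1 + 1 + 0 = i + 2 := by ring
    rw [f1, f2, f3, f4] at h1
    exact h1
  · intro i
    have h1 := (h.st_iff_se (by omega) (i + 2)).1 (hs (i + 2 + b)) 1 (by omega)
    unfold G at h1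
    push_cast at h1
    have f1 : i + 2 - 1 - 1 = i := by ring
    have f2 : i + 2 + 1 + 1 = i + 4 := by ring
    have f3 : i + 2 - 1 - 0 = i + 1 := by ring
    have f4 : i + 2 + 1 + 0 = i + 3 := by ring
    rw [f1, f2, f3, f4] at h1
    exact h1
  · have h1 := h.halfO 1 (t := 2) (by omega)
    have hb3 : ((b - 3 : ℕ) : ℤ) = b - 3 := by rw [Nat.cast_sub hb]; push_cast; ring
    have e1 : b - 1 - 2 = b - 3 := by omega
    rw [e1, hs 1 2 (by omega)] at h1
    unfold G O at h1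
    rw [hb3] at h1
    have f1 : (1 : ℤ) + b + 1 - 1 - (b - 3) = 4 := by ring
    have f2 : (1 : ℤ) + b + 1 + 1 + (b - 3) = 2 * b := by ring
    have f3 : (1 : ℤ) - ((0 : ℕ) : ℤ) = 1 := by norm_num
    have f4 : (1 : ℤ) + 1 + ((0 : ℕ) : ℤ) = 2 := by norm_num
    rw [f1, f2, f3, f4] at h1
    exact h1

end Cvc
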