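import Mathlib
import Pool.Agent.Cvc.Defs

set_option autoImplicit false

namespace Cvc

private theorem ba_div_im {u w : P} :
    ((⟨w.1, w.2⟩ : ℂ) / ⟨u.1, u.2⟩).im = cr u w / (u.1 ^ 2 + u.2 ^ 2) := by
  rw [Complex.div_im]
  simp only [Complex.normSq_apply, cr]
  ring

private theorem ba_pos {u w : P} (h : 0 < cr u w) : 0 < u.1 ^ 2 + u.2 ^ 2 := by
  by_contra h0
  have h1 : u.1 = 0 := by nlinarith [sq_nonneg u.1, sq_nonneg u.2]
  have h2 : u.2 = 0 := by nlinarith [sq_nonneg u.1, sq_nonneg u.2]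
  simp [cr, h1, h2] at h

private theorem ba_im_pos {u w : P} (h : 0 < cr u w) :
    0 < ((⟨w.1, w.2⟩ : ℂ) / ⟨u.1, u.2⟩).im := by
  rw [ba_div_im]
  exact div_pos h (ba_pos h)

private theorem ba_arg {z : ℂ} (h : 0 < z.im) : 0 < z.arg ∧ z.arg < Real.pi := by
  constructor
  · rcases lt_or_eq_of_le (Complex.arg_nonneg_iff.2 h.le) with h1 | h1
    · exact h1
    · exfalso
      have := (Complex.arg_eq_zero_iff.1 h1.symm).2
      linarith
  · rw [Complex.arg_lt_pi_iff]
    right
    exact h.ne'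

private theorem ba_c_ne {u : P} (h : u ≠ 0) : (⟨u.1, u.2⟩ : ℂ) ≠ 0 := by
  intro h0
  apply h
  have h1 := congrArg Complex.re h0
  have h2 := congrArg Complex.im h0
  simp only [Complex.zero_re, Complex.zero_im] at h1 h2
  exact Prod.ext h1 h2

private theorem ba_ne_left {u w : P} (h : 0 < cr u w) : u ≠ 0 := by
  rintro rfl
  simp [cr] at h

private theorem ba_ne_right {u w : P} (h : 0 < cr u w) : w ≠ 0 := by
  rintro rfl
  simp [cr] at h

/-- ba (M). The angle function: the four facts used below. `an u w ∈ (0,1)` when `cr u w > 0`;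
additivity; `an u u = 0`; supplement; and `w` has direction angle `θ + π (an u w)` when `u` has
direction angle `θ`. -/
theorem an_pos {u w : P} (h : 0 < cr u w) : 0 < an u w ∧ an u w < 1 := by
  obtain ⟨h1, h2⟩ := ba_arg (ba_im_pos h)
  refine ⟨div_pos h1 Real.pi_pos, ?_⟩
  rw [an, div_lt_one Real.pi_pos]
  exact h2

theorem an_add {u w z : P} (h1 : 0 < cr u w) (h2 : 0 < cr w z) (h3 : 0 < cr u z) :
    an u w + an w z = an u z := by
  have hu := ba_c_ne (ba_ne_left h1)
  have hw := ba_c_ne (ba_ne_left h2)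
  have hz := ba_c_ne (ba_ne_right h2)
  have e : (⟨w.1, w.2⟩ : ℂ) / ⟨u.1, u.2⟩ * ((⟨z.1, z.2⟩ : ℂ) / ⟨w.1, w.2⟩) =
      (⟨z.1, z.2⟩ : ℂ) / ⟨u.1, u.2⟩ := by
    field_simp
  have i1 := ba_im_pos h1
  have i2 := ba_im_pos h2
  have i3 := ba_im_pos h3
  rw [← e] at i3
  unfold an
  rw [← e]
  generalize (⟨w.1, w.2⟩ : ℂ) / ⟨u.1, u.2⟩ = x at *
  generalize (⟨z.1, z.2⟩ : ℂ) / ⟨w.1, w.2⟩ = y at *
  obtain ⟨a1, a2⟩ := ba_arg i1
  obtain ⟨b1, b2⟩ := ba_arg i2
  have hx : x ≠ 0 := by
    rintro rfl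
    simp at i1
  have hy : y ≠ 0 := by
    rintro rfl
    simp at i2
  have hs : 0 < Real.sin (x.arg + y.arg) := by
    have ex : x * y = ((‖x‖ * ‖y‖ : ℝ) : ℂ) *
        Complex.exp (((x.arg + y.arg : ℝ) : ℂ) * Complex.I) := by
      have ex1 := Complex.norm_mul_exp_arg_mul_I x
      have ey1 := Complex.norm_mul_exp_arg_mul_I y
      have : Complex.exp (((x.arg + y.arg : ℝ) : ℂ) * Complex.I) =
          Complex.exp ((x.arg : ℂ) * Complex.I) * Complex.exp ((y.arg : ℂ) * Complex.I) := by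
        rw [← Complex.exp_add]
        congr 1
        push_cast
        ring
      rw [this]
      conv_lhs => rw [← ex1, ← ey1]
      push_cast
      ring
    have ei : (x * y).im = ‖x‖ * ‖y‖ * Real.sin (x.arg + y.arg) := by
      rw [ex, Complex.im_ofReal_mul, Complex.exp_ofReal_mul_I_im]
    rw [ei] at i3
    have hp : 0 < ‖x‖ * ‖y‖ := mul_pos (norm_pos_iff.2 hx) (norm_pos_iff.2 hy)
    exact (mul_pos_iff_of_pos_left hp).1 i3
  have hle : x.arg + y.arg ≤ Real.pi := by
    by_contra hlt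
    push Not at hlt
    have h0 : Real.sin (x.arg + y.arg) ≤ 0 := by
      have h4 : Real.sin (x.arg + y.arg) = - Real.sin (x.arg + y.arg - Real.pi) := by
        rw [Real.sin_sub_pi]
        ring
      have h5 : 0 ≤ Real.sin (x.arg + y.arg - Real.pi) :=
        Real.sin_nonneg_of_nonneg_of_le_pi (by linarith) (by linarith)
      linarith
    linarith
  have := (Complex.arg_mul_eq_add_arg_iff hx hy).2 ⟨by linarith [Real.pi_pos], hle⟩
  rw [this]
  ring

theorem an_self {u : P} (h : u ≠ 0) : an u u = 0 := by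
  unfold an
  rw [div_self (ba_c_ne h)]
  simp

theorem an_neg {u w : P} (h : 0 < cr u w) : an u w + an w (-u) = 1 := by
  have hu := ba_c_ne (ba_ne_left h)
  have hw := ba_c_ne (ba_ne_right h)
  have i1 := ba_im_pos h
  have en : (⟨(-u).1, (-u).2⟩ : ℂ) = - ⟨u.1, u.2⟩ := by
    apply Complex.ext <;> simp
  have e : (⟨(-u).1, (-u).2⟩ : ℂ) / ⟨w.1, w.2⟩ =
      - ((⟨w.1, w.2⟩ : ℂ) / ⟨u.1, u.2⟩)⁻¹ := by
    rw [en, inv_div, neg_div]
  unfold an
  rw [e]
  generalize (⟨w.1, w.2⟩ : ℂ) / ⟨u.1, u.2⟩ = x at *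
  obtain ⟨a1, a2⟩ := ba_arg i1
  have hinv : (x⁻¹).arg = - x.arg := by
    rw [Complex.arg_inv, if_neg a2.ne]
  have him : (x⁻¹).im < 0 := by
    rw [← Complex.arg_neg_iff, hinv]
    linarith
  rw [Complex.arg_neg_eq_arg_add_pi_of_im_neg him, hinv]
  field_simp
  ring

theorem an_dir {u w : P} (hu : u ≠ 0) (hw : w ≠ 0) {θ ρ : ℝ} (hρ : 0 < ρ)
    (h : u = (ρ * Real.cos θ, ρ * Real.sin θ)) :
    ∃ ρ' : ℝ, 0 < ρ' ∧ w = (ρ' * Real.cos (θ + Real.pi * an u w),
      ρ' * Real.sin (θ + Real.pi * an u w)) := by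
  have hu' := ba_c_ne hu
  have hw' := ba_c_ne hw
  have e : (⟨w.1, w.2⟩ : ℂ) = ⟨u.1, u.2⟩ * ((⟨w.1, w.2⟩ : ℂ) / ⟨u.1, u.2⟩) := by
    field_simp
  have han : Real.pi * an u w = ((⟨w.1, w.2⟩ : ℂ) / ⟨u.1, u.2⟩).arg := by
    unfold an
    field_simp
  rw [han]
  have hx : (⟨w.1, w.2⟩ : ℂ) / ⟨u.1, u.2⟩ ≠ 0 := div_ne_zero hw' hu'
  generalize (⟨w.1, w.2⟩ : ℂ) / ⟨u.1, u.2⟩ = x at *
  refine ⟨ρ * ‖x‖, mul_pos hρ (norm_pos_iff.2 hx), ?_⟩
  have hxr : x.re = ‖x‖ * Real.cos x.arg := (Complex.norm_mul_cos_arg x).symm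
  have hxi : x.im = ‖x‖ * Real.sin x.arg := (Complex.norm_mul_sin_arg x).symm
  have hu1 : u.1 = ρ * Real.cos θ := by rw [h]
  have hu2 : u.2 = ρ * Real.sin θ := by rw [h]
  have e1 := congrArg Complex.re e
  have e2 := congrArg Complex.im e
  simp only [Complex.mul_re, Complex.mul_im] at e1 e2
  rw [hu1, hu2, hxr, hxi] at e1 e2
  apply Prod.ext
  · simp only
    rw [e1, Real.cos_add]
    ring
  · simp only
    rw [e2, Real.sin_add]
    ring

/-- bb (S). A function on `ℤ` with given differences. -/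
theorem exists_phi (α : ℤ → ℝ) : ∃ φ : ℤ → ℝ, ∀ i, φ (i + 1) = φ i + α i := by
  refine ⟨fun i => ∑ k ∈ Finset.Ico 0 i, α k - ∑ k ∈ Finset.Ico i 0, α k, ?_⟩
  intro i
  simp only
  rcases le_or_gt 0 i with hi | hi
  · have h1 : Finset.Ico 0 (i + 1) = insert i (Finset.Ico 0 i) := by
      ext x
      simp only [Finset.mem_Ico, Finset.mem_insert]
      omega
    have h2 : Finset.Ico (i + 1) 0 = ∅ := Finset.Ico_eq_empty (by omega)
    have h3 : Finset.Ico i 0 = ∅ := Finset.Ico_eq_empty (by omega)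
    rw [h1, h2, h3, Finset.sum_insert (by simp)]
    simp only [Finset.sum_empty]
    ring
  · have h1 : Finset.Ico i 0 = insert i (Finset.Ico (i + 1) 0) := by
      ext x
      simp only [Finset.mem_Ico, Finset.mem_insert]
      omega
    have h2 : Finset.Ico 0 (i + 1) = ∅ := Finset.Ico_eq_empty (by omega)
    have h3 : Finset.Ico 0 i = ∅ := Finset.Ico_eq_empty (by omega)
    rw [h1, h2, h3, Finset.sum_insert (by simp)]
    simp only [Finset.sum_empty]
    ring

/-- the lifted direction of the chord from `v i` to `v j` -/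
noncomputable def Tht (v : ℤ → P) (φ : ℤ → ℝ) (i j : ℤ) : ℝ :=
  φ i + an (v (i + 1) - v i) (v j - v i)

private theorem bc_cr1 (p q r : P) : cr (r - p) (r - q) = tri p q r := by
  simp only [cr, tri, Prod.fst_sub, Prod.snd_sub]
  ring

private theorem bc_cr2 (p q r : P) : cr (q - p) (r - q) = tri p q r := by
  simp only [cr, tri, Prod.fst_sub, Prod.snd_sub]
  ring

private theorem bc_ne {n : ℕ} {v : ℤ → P} (h : Poly n v) {i j : ℤ} (hij : i < j)
    (hjn : j < i + n) (hn : 3 ≤ n) : v j - v i ≠ 0 := by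
  rcases eq_or_ne j (i + 1) with hj | hj
  · subst hj
    have := h.ccw i (i + 1) (i + 2) (by omega) (by omega) (by omega)
    exact ba_ne_left this
  · have := h.ccw i (i + 1) j (by omega) (by omega) (by omega)
    exact ba_ne_right this

/-- bc (M). Differences of lifted directions, same first index: additivity of the angle at
`v i` (for `j = i + 1` use `an_self`). -/
theorem tht_up {n : ℕ} {v : ℤ → P} {φ : ℤ → ℝ} (h : Poly n v)
    (hφ : ∀ i, φ (i + 1) = φ i + an (v (i + 1) - v i) (v (i + 1 + 1) - v (i + 1))) :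
    ∀ i j j' : ℤ, i < j → j < j' → j' < i + n →
      Tht v φ i j' - Tht v φ i j = an (v j - v i) (v j' - v i) := by
  intro i j j' hij hjj hjn
  unfold Tht
  rcases eq_or_ne j (i + 1) with hj | hj
  · subst hj
    rw [an_self (bc_ne h (by omega) (by omega) (by omega))]
    ring
  · have h1 := h.ccw i (i + 1) j (by omega) (by omega) (by omega)
    have h2 := h.ccw i j j' (by omega) (by omega) (by omega)
    have h3 := h.ccw i (i + 1) j' (by omega) (by omega) (by omega)
    have := an_add (u := v (i + 1) - v i) (w := v j - v i) (z := v j' - v i) h1 h2 h3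
    linarith

private theorem bd_step {n : ℕ} {v : ℤ → P} {φ : ℤ → ℝ} (h : Poly n v)
    (hφ : ∀ i, φ (i + 1) = φ i + an (v (i + 1) - v i) (v (i + 1 + 1) - v (i + 1))) (i j : ℤ)
    (hij : i + 1 < j) (hjn : j < i + n) :
    Tht v φ (i + 1) j - Tht v φ i j = an (v j - v i) (v j - v (i + 1)) := by
  unfold Tht
  rw [hφ i]
  have t1 : 0 < cr (v (i + 1) - v i) (v j - v i) :=
    h.ccw i (i + 1) j (by omega) (by omega) (by omega)
  have t2 : 0 < cr (v j - v i) (v j - v (i + 1)) := by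
    rw [bc_cr1]
    exact h.ccw i (i + 1) j (by omega) (by omega) (by omega)
  have t3 : 0 < cr (v (i + 1) - v i) (v j - v (i + 1)) := by
    rw [bc_cr2]
    exact h.ccw i (i + 1) j (by omega) (by omega) (by omega)
  have a1 := an_add t1 t2 t3
  rcases eq_or_ne j (i + 1 + 1) with hj | hj
  · subst hj
    have hne : v (i + 1 + 1) - v (i + 1) ≠ 0 := by
      apply bc_ne h (by omega) (by omega) (by omega)
    rw [an_self hne]
    linarith
  · have s1 : 0 < cr (v (i + 1) - v i) (v (i + 1 + 1) - v (i + 1)) := by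
      rw [bc_cr2]
      exact h.ccw i (i + 1) (i + 1 + 1) (by omega) (by omega) (by omega)
    have s2 : 0 < cr (v (i + 1 + 1) - v (i + 1)) (v j - v (i + 1)) :=
      h.ccw (i + 1) (i + 1 + 1) j (by omega) (by omega) (by omega)
    have a2 := an_add s1 s2 t3
    linarith

/-- bd (M). Differences of lifted directions, same second index. One step `i → i + 1` (with
`e = v (i+1) - v i`, `f = v (i+2) - v (i+1)`, `c = v j - v i`, `c' = v j - v (i+1)`): for `j ≥ i + 3`
`an e f + an f c' = an e c'` and `an e c + an c c' = an e c'`; for `j = i + 2`, `c' = f`. Then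
induction with `an_add`. -/
theorem tht_lf {n : ℕ} {v : ℤ → P} {φ : ℤ → ℝ} (h : Poly n v)
    (hφ : ∀ i, φ (i + 1) = φ i + an (v (i + 1) - v i) (v (i + 1 + 1) - v (i + 1))) :
    ∀ i i' j : ℤ, i < i' → i' < j → j < i + n →
      Tht v φ i' j - Tht v φ i j = an (v j - v i) (v j - v i') := by
  intro i i' j hii hij hjn
  have key : ∀ m : ℕ, i + 1 + (m : ℤ) < j →
      Tht v φ (i + 1 + m) j - Tht v φ i j = an (v j - v i) (v j - v (i + 1 + m)) := by
    intro m
    induction m with
    | zero =>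
      intro hm
      have := bd_step h hφ i j (by simpa using hm) hjn
      simpa using this
    | succ m ih =>
      intro hm
      push_cast at hm
      have h1 := ih (by omega)
      have h2 := bd_step h hφ (i + 1 + m) j (by omega) (by omega)
      have t1 : 0 < cr (v j - v i) (v j - v (i + 1 + m)) := by
        rw [bc_cr1]
        exact h.ccw i (i + 1 + m) j (by omega) (by omega) (by omega)
      have t2 : 0 < cr (v j - v (i + 1 + m)) (v j - v (i + 1 + m + 1)) := by
        rw [bc_cr1]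
        exact h.ccw (i + 1 + m) (i + 1 + m + 1) j (by omega) (by omega) (by omega)
      have t3 : 0 < cr (v j - v i) (v j - v (i + 1 + m + 1)) := by
        rw [bc_cr1]
        exact h.ccw i (i + 1 + m + 1) j (by omega) (by omega) (by omega)
      have a := an_add t1 t2 t3
      have e : i + 1 + ((m + 1 : ℕ) : ℤ) = i + 1 + (m : ℤ) + 1 := by
        push_cast
        ring
      rw [e]
      linarith
  obtain ⟨m, hm⟩ : ∃ m : ℕ, i' = i + 1 + (m : ℤ) := ⟨(i' - i - 1).toNat, by omega⟩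
  subst hm
  exact key m hij

/-- be (M). Half a turn. Path `(i,j) → (j-1,j) → (j,j+1) → (j,i+n)`; with `u = v j - v i`,
`e = v j - v (j-1)`, `f = v (j+1) - v j` the total is `an u e + an e f + an f (-u) = 1` (first summand
absent if `i = j - 1`, last absent if `j + 1 = i + n`). -/
theorem tht_half {n : ℕ} {v : ℤ → P} {φ : ℤ → ℝ} (hn : 3 ≤ n) (h : Poly n v)
    (hφ : ∀ i, φ (i + 1) = φ i + an (v (i + 1) - v i) (v (i + 1 + 1) - v (i + 1))) :
    ∀ i j : ℤ, i < j → j < i + n → Tht v φ j (i + n) = Tht v φ i j + 1 := by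
  intro i j hij hjn
  -- the three summands
  have hne : ∀ k : ℤ, v (k + 1) - v k ≠ 0 := by
    intro k
    exact bc_ne h (by omega) (by omega) hn
  have mid : Tht v φ j (j + 1) - Tht v φ (j - 1) j =
      an (v j - v (j - 1)) (v (j + 1) - v j) := by
    have h1 := hφ (j - 1)
    have e1 : j - 1 + 1 = j := by ring
    rw [e1] at h1
    unfold Tht
    rw [an_self (hne j)]
    have h2 := hne (j - 1)
    rw [e1] at h2 ⊢
    rw [an_self h2, h1]
    ring
  have s0 : 0 < cr (v j - v (j - 1)) (v (j + 1) - v j) := by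
    rw [bc_cr2]
    exact h.ccw (j - 1) j (j + 1) (by omega) (by omega) (by omega)
  have hper : v (i + n) = v i := h.per i
  have hlast : j + 1 < i + n → Tht v φ j (i + n) - Tht v φ j (j + 1) =
      an (v (j + 1) - v j) (v (i + n) - v j) := by
    intro hj
    exact tht_up h hφ j (j + 1) (i + n) (by omega) hj (by omega)
  have hfirst : i < j - 1 → Tht v φ (j - 1) j - Tht v φ i j =
      an (v j - v i) (v j - v (j - 1)) := by
    intro hj
    exact tht_lf h hφ i (j - 1) j hj (by omega) hjn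
  rcases eq_or_ne i (j - 1) with hi | hi
  · -- first summand absent
    subst hi
    have hl := hlast (by omega)
    rw [hper] at hl
    have e : v (j - 1) - v j = -(v j - v (j - 1)) := by ring
    rw [e] at hl
    have := an_neg s0
    linarith
  · have hf := hfirst (by omega)
    rcases eq_or_ne (j + 1) (i + n) with hj | hj
    · have e : v (j + 1) - v j = -(v j - v i) := by
        rw [hj, hper]
        ring
      rw [e] at mid
      have s1 : 0 < cr (v j - v i) (v j - v (j - 1)) := by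
        rw [bc_cr1]
        exact h.ccw i (j - 1) j (by omega) (by omega) (by omega)
      have := an_neg s1
      rw [← hj]
      linarith
    · have hl := hlast (by omega)
      rw [hper] at hl
      have e : v i - v j = -(v j - v i) := by ring
      rw [e] at hl
      have s1 : 0 < cr (v j - v i) (v j - v (j - 1)) := by
        rw [bc_cr1]
        exact h.ccw i (j - 1) j (by omega) (by omega) (by omega)
      have s2 : 0 < cr (v j - v i) (v (j + 1) - v j) := by
        rw [bc_cr2]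
        exact h.ccw i j (j + 1) (by omega) (by omega) (by omega)
      have a1 := an_add s1 s0 s2
      have a2 := an_neg s2
      linarith

private theorem bf_polar {u : P} (h : u ≠ 0) :
    ∃ θ ρ : ℝ, 0 < ρ ∧ u = (ρ * Real.cos θ, ρ * Real.sin θ) := by
  refine ⟨(⟨u.1, u.2⟩ : ℂ).arg, ‖(⟨u.1, u.2⟩ : ℂ)‖, norm_pos_iff.2 (ba_c_ne h), ?_⟩
  apply Prod.ext
  · simp only
    rw [Complex.norm_mul_cos_arg]
  · simp only
    rw [Complex.norm_mul_sin_arg]

private theorem bf_unique {u : P} {θ θ' ρ ρ' : ℝ} (hρ : 0 < ρ) (hρ' : 0 < ρ')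
    (h : u = (ρ * Real.cos θ, ρ * Real.sin θ)) (h' : u = (ρ' * Real.cos θ', ρ' * Real.sin θ')) :
    Real.cos θ = Real.cos θ' ∧ Real.sin θ = Real.sin θ' := by
  have e1 : ρ * Real.cos θ = ρ' * Real.cos θ' := by
    have := congrArg Prod.fst (h.symm.trans h')
    simpa using this
  have e2 : ρ * Real.sin θ = ρ' * Real.sin θ' := by
    have := congrArg Prod.snd (h.symm.trans h')
    simpa using this
  have hs : ρ ^ 2 = ρ' ^ 2 := by
    have a1 := Real.sin_sq_add_cos_sq θ
    have a2 := Real.sin_sq_add_cos_sq θ'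
    calc ρ ^ 2 = (ρ * Real.cos θ) ^ 2 + (ρ * Real.sin θ) ^ 2 := by
          linear_combination (-ρ ^ 2) * a1
      _ = (ρ' * Real.cos θ') ^ 2 + (ρ' * Real.sin θ') ^ 2 := by rw [e1, e2]
      _ = ρ' ^ 2 := by linear_combination (ρ' ^ 2) * a2
  have he : ρ = ρ' := by nlinarith
  subst he
  exact ⟨mul_left_cancel₀ hρ.ne' e1, mul_left_cancel₀ hρ.ne' e2⟩

/-- bf (M). The chord has direction angle `ψ + π Θ` for one constant `ψ`: for the sides by
induction over `ℤ` in both directions (`an_dir`), for the other chords `an_dir` again. -/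
theorem tht_dir {n : ℕ} {v : ℤ → P} {φ : ℤ → ℝ} (hn : 3 ≤ n) (h : Poly n v)
    (hφ : ∀ i, φ (i + 1) = φ i + an (v (i + 1) - v i) (v (i + 1 + 1) - v (i + 1))) :
    ∃ ψ : ℝ, ∀ i j : ℤ, i < j → j < i + n → ∃ ρ : ℝ, 0 < ρ ∧
      v j - v i = (ρ * Real.cos (ψ + Real.pi * Tht v φ i j),
        ρ * Real.sin (ψ + Real.pi * Tht v φ i j)) := by
  have hne : ∀ k : ℤ, v (k + 1) - v k ≠ 0 := by
    intro k
    exact bc_ne h (by omega) (by omega) hn
  obtain ⟨θ0, ρ0, hρ0, h0⟩ := bf_polar (hne 0)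
  refine ⟨θ0 - Real.pi * φ 0, ?_⟩
  have sides : ∀ i : ℤ, ∃ ρ : ℝ, 0 < ρ ∧
      v (i + 1) - v i = (ρ * Real.cos (θ0 - Real.pi * φ 0 + Real.pi * φ i),
        ρ * Real.sin (θ0 - Real.pi * φ 0 + Real.pi * φ i)) := by
    intro i
    induction i using Int.induction_on with
    | zero =>
      refine ⟨ρ0, hρ0, ?_⟩
      have e : θ0 - Real.pi * φ 0 + Real.pi * φ 0 = θ0 := by ring
      rw [e]
      exact h0
    | succ i ih =>
      obtain ⟨ρ, hρ, hi⟩ := ih
      obtain ⟨ρ', hρ', hi'⟩ := an_dir (hne i) (hne (i + 1)) hρ hi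
      refine ⟨ρ', hρ', ?_⟩
      have e : θ0 - Real.pi * φ 0 + Real.pi * φ i + Real.pi *
          an (v ((i : ℤ) + 1) - v i) (v ((i : ℤ) + 1 + 1) - v ((i : ℤ) + 1)) =
          θ0 - Real.pi * φ 0 + Real.pi * φ ((i : ℤ) + 1) := by
        rw [hφ i]
        ring
      rw [e] at hi'
      exact hi'
    | pred i ih =>
      obtain ⟨ρ, hρ, hi⟩ := ih
      obtain ⟨θ, r, hr, hp⟩ := bf_polar (hne (-(i : ℤ) - 1))
      obtain ⟨ρ', hρ', hi'⟩ := an_dir (hne (-(i : ℤ) - 1)) (hne (-(i : ℤ) - 1 + 1)) hr hp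
      have e1 : -(i : ℤ) - 1 + 1 = -(i : ℤ) := by ring
      have hφ1 := hφ (-(i : ℤ) - 1)
      rw [e1] at hi' hp hφ1 ⊢
      obtain ⟨c1, c2⟩ := bf_unique hρ' hρ hi' hi
      refine ⟨r, hr, ?_⟩
      have hA : Real.pi * an (v (-(i : ℤ)) - v (-(i : ℤ) - 1))
          (v (-(i : ℤ) + 1) - v (-(i : ℤ))) =
          Real.pi * φ (-(i : ℤ)) - Real.pi * φ (-(i : ℤ) - 1) := by
        rw [hφ1]
        ring
      have d1 : Real.cos θ = Real.cos (θ0 - Real.pi * φ 0 + Real.pi * φ (-(i : ℤ) - 1)) := by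
        have ea : θ = θ + Real.pi * an (v (-(i : ℤ)) - v (-(i : ℤ) - 1))
            (v (-(i : ℤ) + 1) - v (-(i : ℤ))) -
            Real.pi * an (v (-(i : ℤ)) - v (-(i : ℤ) - 1))
            (v (-(i : ℤ) + 1) - v (-(i : ℤ))) := by ring
        rw [ea, Real.cos_sub, c1, c2, ← Real.cos_sub, hA]
        congr 1
        ring
      have d2 : Real.sin θ = Real.sin (θ0 - Real.pi * φ 0 + Real.pi * φ (-(i : ℤ) - 1)) := by
        have ea : θ = θ + Real.pi * an (v (-(i : ℤ)) - v (-(i : ℤ) - 1))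
            (v (-(i : ℤ) + 1) - v (-(i : ℤ))) -
            Real.pi * an (v (-(i : ℤ)) - v (-(i : ℤ) - 1))
            (v (-(i : ℤ) + 1) - v (-(i : ℤ))) := by ring
        rw [ea, Real.sin_sub, c1, c2, ← Real.sin_sub, hA]
        congr 1
        ring
      rw [← d1, ← d2]
      exact hp
  intro i j hij hjn
  obtain ⟨ρ, hρ, hi⟩ := sides i
  obtain ⟨ρ', hρ', hi'⟩ := an_dir (hne i) (bc_ne h hij hjn hn) hρ hi
  refine ⟨ρ', hρ', ?_⟩
  have e : θ0 - Real.pi * φ 0 + Real.pi * φ i + Real.pi * an (v (i + 1) - v i) (v j - v i) =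
      θ0 - Real.pi * φ 0 + Real.pi * Tht v φ i j := by
    unfold Tht
    ring
  rw [e] at hi'
  exact hi'

/-- bg (M). Lifted directions exist. `up`, `lf` from `tht_up`, `tht_lf`, `an_pos`; `par`: equal
direction angles; `con`: the difference `Θ k l - Θ i j` is an integer (its `sin` vanishes), and it is
in `(-1, 1)`: monotone paths `(k,l) → (k,i+n) → (j,i+n)` and `(j-n,i) → (j-n,l) → (k,l)` and `half`. -/
theorem exists_th {n : ℕ} {v : ℤ → P} (hn : 3 ≤ n) (h : Poly n v) : ∃ Θ, Th n v Θ := by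
  obtain ⟨φ, hφ⟩ := exists_phi (fun i => an (v (i + 1) - v i) (v (i + 1 + 1) - v (i + 1)))
  obtain ⟨ψ, hψ⟩ := tht_dir hn h hφ
  have hup : ∀ i j : ℤ, i < j → j + 1 < i + n → Tht v φ i j < Tht v φ i (j + 1) := by
    intro i j hij hjn
    have h1 := tht_up h hφ i j (j + 1) hij (by omega) hjn
    have h2 := an_pos (u := v j - v i) (w := v (j + 1) - v i)
      (h.ccw i j (j + 1) hij (by omega) hjn)
    linarith [h2.1]
  have hup' : ∀ i j j' : ℤ, i < j → j < j' → j' < i + n → Tht v φ i j < Tht v φ i j' := by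
    intro i j j' hij hjj hjn
    have h1 := tht_up h hφ i j j' hij hjj hjn
    have h2 := an_pos (u := v j - v i) (w := v j' - v i)
      (h.ccw i j j' hij hjj hjn)
    linarith [h2.1]
  have hlf' : ∀ i i' j : ℤ, i < i' → i' < j → j < i + n → Tht v φ i j < Tht v φ i' j := by
    intro i i' j hii hij hjn
    have h1 := tht_lf h hφ i i' j hii hij hjn
    have h2 : 0 < cr (v j - v i) (v j - v i') := by
      rw [bc_cr1]
      exact h.ccw i i' j hii hij hjn
    linarith [(an_pos h2).1]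
  have hhalf := tht_half hn h hφ
  refine ⟨Tht v φ, ⟨hup, ?_, hhalf, ?_, ?_⟩⟩
  · intro i j hij hjn
    exact hlf' i (i + 1) j (by omega) hij hjn
  · intro i j k l hij hjn hkl hln he
    obtain ⟨ρ, hρ, h1⟩ := hψ i j hij hjn
    obtain ⟨ρ', hρ', h2⟩ := hψ k l hkl hln
    rw [h1, h2, he]
    simp only [cr]
    ring
  · intro i j k l hik hkl hlj hjn hcr
    obtain ⟨ρ, hρ, h1⟩ := hψ i j (by omega) hjn
    obtain ⟨ρ', hρ', h2⟩ := hψ k l hkl (by omega)
    rw [h1, h2] at hcr
    have hs : Real.sin (Real.pi * (Tht v φ k l - Tht v φ i j)) = 0 := by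
      have e : Real.pi * (Tht v φ k l - Tht v φ i j) =
          (ψ + Real.pi * Tht v φ k l) - (ψ + Real.pi * Tht v φ i j) := by ring
      rw [e, Real.sin_sub]
      simp only [cr] at hcr
      have hp : ρ * ρ' ≠ 0 := (mul_pos hρ hρ').ne'
      apply mul_left_cancel₀ hp
      rw [mul_zero, ← hcr]
      ring
    obtain ⟨m, hm⟩ := Real.sin_eq_zero_iff.1 hs
    have hm' : (m : ℝ) = Tht v φ k l - Tht v φ i j := by
      have hpi := Real.pi_ne_zero
      apply mul_left_cancel₀ hpi
      linarith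
    have b1 : Tht v φ k l < Tht v φ i j + 1 := by
      have c1 := hup' k l (i + n) hkl (by omega) (by omega)
      have c2 := hlf' k j (i + n) (by omega) (by omega) (by omega)
      have c3 := hhalf i j (by omega) hjn
      linarith
    have b2 : Tht v φ i j - 1 < Tht v φ k l := by
      have c1 := hup' (j - n) i l (by omega) (by omega) (by omega)
      have c2 := hlf' (j - n) k l (by omega) (by omega) (by omega)
      have c3 := hhalf (j - n) i (by omega) (by omega)
      have e : j - (n : ℤ) + n = j := by ring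
      rw [e] at c3
      linarith
    have m1 : (m : ℝ) < 1 := by linarith
    have m2 : (-1 : ℝ) < m := by linarith
    have m1' : m < 1 := by exact_mod_cast m1
    have m2' : -1 < m := by exact_mod_cast m2
    have m0 : m = 0 := by omega
    rw [m0] at hm'
    push_cast at hm'
    linarith

end Cvc
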