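import Mathlib
import Pool.Agent.Cvc.Enum
import Pool.Agent.Cvc.Theta
import Pool.Agent.Cvc.Cnt
import Pool.Agent.Cvc.Run
import Pool.Agent.Cvc.LemG

set_option autoImplicit false

namespace Cvc

private theorem ia_period {b : ℕ} {v : ℤ → P} (hv : Poly (2 * b + 1) v) (i : ℤ) (k : ℕ) :
    v (i + k * (2 * b + 1)) = v i := by
  induction k with
  | zero => simp
  | succ k ih =>
    rw [← ih, ← hv.per (i + k * (2 * b + 1))]
    congr 1
    push_cast
    ring

private theorem ia_mod {b : ℕ} {v : ℤ → P} (hv : Poly (2 * b + 1) v) (c i : ℤ) :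
    ∃ j : ℕ, j < 2 * b + 1 ∧ v i = v (c + j) := by
  set n : ℤ := 2 * b + 1 with hn
  have hn0 : 0 < n := by omega
  refine ⟨((i - c) % n).toNat, ?_, ?_⟩
  · have := Int.emod_lt_of_pos (i - c) hn0
    have h2 := Int.emod_nonneg (i - c) hn0.ne'
    omega
  · have h2 := Int.emod_nonneg (i - c) hn0.ne'
    rw [Int.toNat_of_nonneg h2]
    have h3 := Int.emod_add_mul_ediv (i - c) n
    set q := (i - c) / n with hq
    set r := (i - c) % n with hr
    have h4 : i = c + r + n * q := by linarith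
    rcases le_total 0 q with h5 | h5
    · obtain ⟨k, hk⟩ := Int.eq_ofNat_of_zero_le h5
      rw [h4, hk]
      have := ia_period hv (c + r) k
      rw [← this]
      congr 1
      rw [hn]
      ring
    · obtain ⟨k, hk⟩ := Int.eq_ofNat_of_zero_le (show 0 ≤ -q by omega)
      have h6 : c + r = i + k * (2 * b + 1) := by
        rw [h4, ← hk, hn]; ring
      rw [h6, ia_period hv]

private theorem ia_half {b : ℕ} {v : ℤ → P} {Θ : ℤ → ℤ → ℝ} (hv : Poly (2 * b + 1) v)
    (hΘ : Th (2 * b + 1) v Θ) {i j k l : ℤ} (h1 : i < j) (h2 : j < i + (2 * b + 1)) (h3 : k < l)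
    (h4 : l < k + (2 * b + 1)) (h : Θ k l = Θ i j + 1) : cr (v j - v i) (v l - v k) = 0 := by
  have h5 := hΘ.half i j h1 (by push_cast; exact h2)
  rw [← h5] at h
  have h6 := hΘ.par j (i + ((2 * b + 1 : ℕ) : ℤ)) k l (by push_cast; omega) (by push_cast; omega)
    h3 (by push_cast; omega) h.symm
  rw [hv.per i] at h6
  simp only [cr, Prod.fst_sub, Prod.snd_sub] at h6 ⊢
  linarith

/-- ia (S). Straight type: with `w j = v j`, `M = N = 2b + 1`, `k = 4`, `l = 2b`. -/
theorem odd_straight {b : ℕ} (hb : 3 ≤ b) {v : ℤ → P} {Θ : ℤ → ℤ → ℝ} (hv : Poly (2 * b + 1) v)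
    (hΘ : Th (2 * b + 1) v Θ) (hc : Core b Θ) (hs : ∀ x, St Θ b x) :
    ∃ Φ : P ≃ᵃ[ℝ] P, ∀ i, v i ∈ Φ '' Reg (2 * b + 1) := by
  obtain ⟨h1, h2, h3⟩ := hc.straight hb hs
  obtain ⟨Φ, hΦ⟩ := lemG (M := 2 * b + 1) (N := 2 * b + 1) (w := fun j => v (j : ℤ)) (by omega)
    (by omega) (by omega)
    (by
      intro i j k _ hij hjk hk
      exact hv.ccw i j k (by omega) (by omega) (by push_cast; omega))
    (by
      intro i hi hi3
      have := hΘ.par i (i + 3) (i + 1) (i + 2) (by omega) (by push_cast; omega) (by omega)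
        (by push_cast; omega) (h1 i)
      simpa using this)
    (by
      intro i hi hi3
      have := hΘ.par i (i + 4) (i + 1) (i + 3) (by omega) (by push_cast; omega) (by omega)
        (by push_cast; omega) (h2 i)
      simpa using this)
    (k := 4) (l := 2 * b) (by omega) (by omega) (by omega) (by omega)
    (by
      have := ia_half hv hΘ (i := 1) (j := 2) (k := 4) (l := 2 * b) (by omega) (by omega)
        (by omega) (by omega) h3
      simpa using this)
  refine ⟨Φ, ?_⟩
  intro i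
  obtain ⟨j, hj, hij⟩ := ia_mod hv 1 i
  have := hΦ (j + 1) (by omega) (by omega)
  refine ⟨g (2 * b + 1) (j + 1), ⟨j + 1, rfl⟩, ?_⟩
  rw [← this, hij]
  congr 1
  push_cast
  ring

/-- ib (S). The other type: with `w j = v (c + j)`, `M = 2b`, `N = 2b + 2`, `k = 5`, `l = 2b`, and
`add_point` for `v c`. -/
theorem odd_out {b : ℕ} (hb : 3 ≤ b) {v : ℤ → P} {Θ : ℤ → ℤ → ℝ} (hv : Poly (2 * b + 1) v)
    (hΘ : Th (2 * b + 1) v Θ) (hc : Core b Θ) {c : ℤ} (ho : Out b Θ c) :
    ∃ Φ : P ≃ᵃ[ℝ] P, ∀ i, v i ∈ Φ '' Reg (2 * b + 2) := by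
  obtain ⟨Φ, hΦ⟩ := lemG (M := 2 * b) (N := 2 * b + 2) (w := fun j => v (c + (j : ℤ))) (by omega)
    (by omega) (by omega)
    (by
      intro i j k _ hij hjk hk
      exact hv.ccw _ _ _ (by omega) (by omega) (by push_cast; omega))
    (by
      intro i hi hi3
      have := hΘ.par (c + i) (c + i + 3) (c + i + 1) (c + i + 2) (by omega) (by push_cast; omega)
        (by omega) (by push_cast; omega) (ho.a i hi hi3)
      simpa [add_assoc] using this)
    (by
      intro i hi hi3
      have := hΘ.par (c + i) (c + i + 4) (c + i + 1) (c + i + 3) (by omega) (by push_cast; omega)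
        (by omega) (by push_cast; omega) (ho.b' i hi hi3)
      simpa [add_assoc] using this)
    (k := 5) (l := 2 * b) (by omega) (by omega) (by omega) (by omega)
    (by
      have := ia_half hv hΘ (i := c + 1) (j := c + 2) (k := c + 5) (l := c + 2 * b) (by omega)
        (by omega) (by omega) (by omega) ho.w
      simpa using this)
  have hp : v c = Φ (g (2 * b + 2) 0) := by
    apply add_point hb Φ (w := fun j => v (c + (j : ℤ))) hΦ
    · have := ia_half hv hΘ (i := c) (j := c + 1) (k := c + 3) (l := c + 2 * b) (by omega)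
        (by omega) (by omega) (by omega) ho.v1
      simpa using this
    · have := ia_half hv hΘ (i := c) (j := c + 2) (k := c + 4) (l := c + 2 * b) (by omega)
        (by omega) (by omega) (by omega) ho.v2
      simpa using this
  refine ⟨Φ, ?_⟩
  intro i
  obtain ⟨j, hj, hij⟩ := ia_mod hv c i
  rcases Nat.eq_zero_or_pos j with h0 | h0
  · subst h0
    refine ⟨g (2 * b + 2) 0, ⟨0, rfl⟩, ?_⟩
    rw [← hp, hij]
    simp
  · refine ⟨g (2 * b + 2) j, ⟨j, rfl⟩, ?_⟩
    rw [hij]
    exact (hΦ j h0 (by omega)).symm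

private theorem ic_reg_card {N : ℕ} (hN : 0 < N) {S : Finset P} (hc : S.card = N)
    {Φ : P ≃ᵃ[ℝ] P} (h : (S : Set P) ⊆ Φ '' Reg N) : (S : Set P) = Φ '' Reg N := by
  classical
  have hR : Reg N ⊆ (((Finset.range N).image (g N) : Finset P) : Set P) := by
    rintro p ⟨j, rfl⟩
    rw [Finset.coe_image]
    refine ⟨j % N, Finset.mem_coe.mpr (Finset.mem_range.mpr (Nat.mod_lt _ hN)), ?_⟩
    have hN' : (N : ℝ) ≠ 0 := by exact_mod_cast hN.ne'
    have key : 2 * Real.pi * (j : ℝ) / N =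
        2 * Real.pi * ((j % N : ℕ) : ℝ) / N + ((j / N : ℕ) : ℝ) * (2 * Real.pi) := by
      have : (j : ℝ) = ((j % N : ℕ) : ℝ) + N * ((j / N : ℕ) : ℝ) := by
        exact_mod_cast (Nat.mod_add_div j N).symm
      rw [this]
      field_simp
      try ring
    unfold g
    rw [key, Real.cos_add_nat_mul_two_pi, Real.sin_add_nat_mul_two_pi]
  have h1 : (Φ '' Reg N) ⊆ ((((Finset.range N).image (g N)).image Φ : Finset P) : Set P) := by
    rw [Finset.coe_image]
    exact Set.image_mono hR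
  have h2 : S ⊆ ((Finset.range N).image (g N)).image Φ := by
    intro p hp
    exact Finset.mem_coe.mp (h1 (h hp))
  have h3 : (((Finset.range N).image (g N)).image Φ).card ≤ S.card := by
    refine le_trans Finset.card_image_le (le_trans Finset.card_image_le ?_)
    rw [Finset.card_range, hc]
  have h4 := Finset.eq_of_subset_of_card_le h2 h3
  apply Set.Subset.antisymm h
  rw [h4]
  exact h1

/-- ic (S). Admissible sets in strictly convex position with an odd number `2b + 1 ≥ 7` of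
points. -/
theorem convex_odd {b : ℕ} (hb : 3 ≤ b) (S : Finset P) (hcard : S.card = 2 * b + 1)
    (hS : ConvexIndependent ℝ (fun x : S => (x : P))) (hA : Adm S b) :
    (∃ Φ : P ≃ᵃ[ℝ] P, (S : Set P) = Φ '' Reg (2 * b + 1)) ∨
      ∃ Φ : P ≃ᵃ[ℝ] P, (S : Set P) ⊆ Φ '' Reg (2 * b + 2) := by
  obtain ⟨v, hv, hvS, hSv⟩ := exists_poly S (by omega) hS
  rw [hcard] at hv
  obtain ⟨Θ, hΘ⟩ := exists_th (by omega) hv
  have hC := core_of_adm (by omega) hv hΘ hvS hA
  rcases hC.main hb with hs | ⟨c, ho⟩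
  · left
    obtain ⟨Φ, hΦ⟩ := odd_straight hb hv hΘ hC hs
    refine ⟨Φ, ic_reg_card (by omega) hcard ?_⟩
    intro p hp
    obtain ⟨i, rfl⟩ := hSv p hp
    exact hΦ i
  · right
    obtain ⟨Φ, hΦ⟩ := odd_out hb hv hΘ hC ho
    refine ⟨Φ, ?_⟩
    intro p hp
    obtain ⟨i, rfl⟩ := hSv p hp
    exact hΦ i

end Cvc
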