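import Mathlib
import Pool.Agent.Cvc.Row

set_option autoImplicit false

open Finset

namespace Cvc

/-- the row of `S` at height `c` -/
noncomputable def rowAt (S : Finset P) (c : ℝ) : Finset ℝ :=
  (S.filter (fun p => p.2 = c)).image (fun p => p.1)

private theorem ka_mem {S : Finset P} {c x : ℝ} : x ∈ rowAt S c ↔ (x, c) ∈ S := by
  unfold rowAt
  simp only [mem_image, mem_filter]
  constructor
  · rintro ⟨⟨p1, p2⟩, ⟨hp, rfl⟩, rfl⟩
    exact hp
  · intro h
    exact ⟨(x, c), ⟨h, rfl⟩, rfl⟩

/-- ka (S). Two parallel lines: the direction through `(a, 0)` and `(b, 1)` is `(b - a, 1)`;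
`cr d (x, 0) = -x`, `cr d (x, 1) = b - a - x`. -/
theorem row_of_adm {S : Finset P} {K : ℕ} (hS : ∀ p ∈ S, p.2 = 0 ∨ p.2 = 1) (hA : Adm S K) :
    Row (rowAt S 0) (rowAt S 1) K K := by
  intro a ha b hb
  rw [ka_mem] at ha hb
  have hne : ((a, 0) : P) ≠ (b, 1) := by
    intro h
    have := congrArg Prod.snd h
    norm_num at this
  have key : ∀ x ∈ rowAt S 0 ∪ (rowAt S 1).image (fun x => x - (b - a)),
      ∃ p ∈ S, cr (b - a, 1) p = -x := by
    intro x hx
    rw [mem_union, mem_image] at hx
    rcases hx with hx | ⟨y, hy, rfl⟩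
    · rw [ka_mem] at hx
      exact ⟨(x, 0), hx, by simp [cr]⟩
    · rw [ka_mem] at hy
      exact ⟨(y, 1), hy, by simp [cr]⟩
  constructor
  · have h1 := hA (-(b - a), -1) (a, 0) ha (b, 1) hb hne (by simp only [cr]; ring)
    refine le_trans (card_le_card ?_) h1
    intro x hx
    rw [mem_filter] at hx
    obtain ⟨p, hp, hpx⟩ := key x hx.1
    rw [mem_filter, mem_image]
    refine ⟨⟨p, hp, ?_⟩, ?_⟩
    · simp only [cr] at hpx ⊢
      linarith
    · simp only [cr]
      linarith [hx.2]
  · have h1 := hA (b - a, 1) (a, 0) ha (b, 1) hb hne (by simp only [cr]; ring)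
    have e : ((rowAt S 0 ∪ (rowAt S 1).image (fun x => x - (b - a))).filter
        (fun x => x < a)).card = (((rowAt S 0 ∪ (rowAt S 1).image (fun x => x - (b - a))).filter
        (fun x => x < a)).image (fun x => -x)).card := by
      rw [card_image_of_injective _ neg_injective]
    rw [e]
    refine le_trans (card_le_card ?_) h1
    intro y hy
    rw [mem_image] at hy
    obtain ⟨x, hx, rfl⟩ := hy
    rw [mem_filter] at hx
    obtain ⟨p, hp, hpx⟩ := key x hx.1
    rw [mem_filter, mem_image]
    refine ⟨⟨p, hp, hpx⟩, ?_⟩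
    simp only [cr]
    linarith [hx.2]

private theorem kb_aux {s t δ : ℝ} (hδ : 0 < δ) {S : Finset P} {k : ℕ}
    (hS : ∀ p ∈ S, p.2 = 0 ∨ p.2 = 1)
    (hA : rowAt S 0 ⊆ (range k).image (fun i : ℕ => s + i * δ))
    (hB : rowAt S 1 ⊆ (range k).image (fun i : ℕ => t + i * δ)) :
    ∃ Φ : P ≃ᵃ[ℝ] P, (S : Set P) ⊆ Φ '' Grid k := by
  let L : P ≃ₗ[ℝ] P :=
    { toFun := fun p => (δ * p.1 + (t - s) * p.2, p.2)
      map_add' := by
        intro p q
        ext <;> simp <;> ring
      map_smul' := by
        intro c p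
        ext <;> simp <;> ring
      invFun := fun p => ((p.1 - (t - s) * p.2) / δ, p.2)
      left_inv := by
        intro p
        ext <;> simp
        field_simp
      right_inv := by
        intro p
        ext <;> simp
        field_simp
        ring }
  refine ⟨L.toAffineEquiv.trans (AffineEquiv.constVAdd ℝ P (s, 0)), ?_⟩
  intro p hp
  have hp' : p ∈ S := hp
  rcases hS p hp' with h0 | h1
  · have hm : p.1 ∈ rowAt S 0 := by
      rw [ka_mem, ← h0]
      exact hp'
    have := hA hm
    rw [mem_image] at this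
    obtain ⟨i, hi, hi'⟩ := this
    refine ⟨((i : ℝ), 0), ⟨i, mem_range.1 hi, Or.inl rfl⟩, ?_⟩
    apply Prod.ext
    · simp [L]
      rw [← hi']
      ring
    · simp [L, h0]
  · have hm : p.1 ∈ rowAt S 1 := by
      rw [ka_mem, ← h1]
      exact hp'
    have := hB hm
    rw [mem_image] at this
    obtain ⟨i, hi, hi'⟩ := this
    refine ⟨((i : ℝ), 1), ⟨i, mem_range.1 hi, Or.inr rfl⟩, ?_⟩
    apply Prod.ext
    · simp [L]
      rw [← hi']
      ring
    · simp [L, h1]

private theorem kb_card {S : Finset P} (hS : ∀ p ∈ S, p.2 = 0 ∨ p.2 = 1) :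
    S.card = (rowAt S 0).card + (rowAt S 1).card := by
  have h : ∀ c : ℝ, (rowAt S c).card = (S.filter (fun p => p.2 = c)).card := by
    intro c
    unfold rowAt
    apply card_image_of_injOn
    intro p hp q hq hpq
    simp only [coe_filter, Set.mem_ofPred_eq] at hp hq
    exact Prod.ext hpq (hp.2.trans hq.2.symm)
  rw [h, h, ← card_union_of_disjoint]
  · congr 1
    ext p
    simp only [mem_union, mem_filter]
    constructor
    · intro hp
      rcases hS p hp with h | h
      · exact Or.inl ⟨hp, h⟩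
      · exact Or.inr ⟨hp, h⟩
    · rintro (h | h)
      · exact h.1
      · exact h.1
  · rw [disjoint_left]
    intro p hp hq
    rw [mem_filter] at hp hq
    have := hp.2.symm.trans hq.2
    norm_num at this

/-- kb (M). Admissible sets on two parallel lines: `2 × k` grids. `Φ (x, y) =
(s + δ x + (t - s) y, y)`. -/
theorem parallel_lines {S : Finset P} (h7 : 7 ≤ S.card) (hS : ∀ p ∈ S, p.2 = 0 ∨ p.2 = 1)
    (h0 : ∃ p ∈ S, p.2 = 0) (h1 : ∃ p ∈ S, p.2 = 1) (hA : Adm S ((S.card - 1) / 2)) :
    ∃ Φ : P ≃ᵃ[ℝ] P, (S : Set P) ⊆ Φ '' Grid ((S.card + 1) / 2) := by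
  have hrow := row_of_adm hS hA
  have hcard := kb_card hS
  have hne0 : (rowAt S 0).Nonempty := by
    obtain ⟨p, hp, hp0⟩ := h0
    exact ⟨p.1, by rw [ka_mem, ← hp0]; exact hp⟩
  have hne1 : (rowAt S 1).Nonempty := by
    obtain ⟨p, hp, hp1⟩ := h1
    exact ⟨p.1, by rw [ka_mem, ← hp1]; exact hp⟩
  obtain ⟨s0, s1⟩ := row_sizes hrow hne0 hne1
  generalize hK : (S.card - 1) / 2 = K at *
  have hG : (S.card + 1) / 2 = K + 1 := by omega
  rw [hG]
  rcases Nat.even_or_odd S.card with he | ho
  · have e2 : S.card = 2 * K + 2 := by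
      obtain ⟨r, hr⟩ := he
      omega
    have c0 : (rowAt S 0).card = K + 1 := by omega
    have c1 : (rowAt S 1).card = K + 1 := by omega
    obtain ⟨s, t, δ, hδ, hs, ht⟩ := row_even (k := K + 1) (K := K) (by omega) c0 c1
      (by simpa using hrow)
    exact kb_aux hδ hS hs.le ht.le
  · have e2 : S.card = 2 * K + 1 := by
      obtain ⟨r, hr⟩ := ho
      omega
    rcases (by omega : (rowAt S 0).card = K + 1 ∧ (rowAt S 1).card = K ∨
      (rowAt S 1).card = K + 1 ∧ (rowAt S 0).card = K) with ⟨c0, c1⟩ | ⟨c1, c0⟩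
    · obtain ⟨s, t, δ, hδ, hs, ht⟩ := row_odd (by omega) c0 c1 hrow
      exact kb_aux hδ hS hs.le ht
    · obtain ⟨s, t, δ, hδ, hs, ht⟩ := row_odd (by omega) c1 c0 (row_swap hrow)
      exact kb_aux hδ hS ht hs.le

/-- logarithms of the points of `S` on the half line of sign `σ = ±1` of the first axis -/
noncomputable def lx (S : Finset P) (σ : ℝ) : Finset ℝ :=
  (S.filter (fun p => p.2 = 0 ∧ 0 < σ * p.1)).image (fun p => Real.log (σ * p.1))

/-- the same on the second axis -/
noncomputable def ly (S : Finset P) (σ : ℝ) : Finset ℝ :=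
  (S.filter (fun p => p.1 = 0 ∧ 0 < σ * p.2)).image (fun p => Real.log (σ * p.2))

/-- number of points of `S` at the origin -/
noncomputable def l0 (S : Finset P) : ℕ := (S.filter (fun p => p = (0, 0))).card

/-- the condition for two crossing lines: chords joining `X` (logarithms, first axis) and `Y` (second
axis); `X'`, `Y'` are the opposite half lines; `o` is the number of points at the origin -/
def VC (X Y X' Y' : Finset ℝ) (o K : ℕ) : Prop :=
  ∀ a ∈ X, ∀ b ∈ Y,
    ((X ∪ Y.image (fun x => x - (b - a))).filter (fun x => a < x)).card ≤ K ∧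
    ((X ∪ Y.image (fun x => x - (b - a))).filter (fun x => x < a)).card + o +
      (X' ∪ Y'.image (fun x => x - (b - a))).card ≤ K

private theorem kc_lx {S : Finset P} {σ : ℝ} (hσ : σ = 1 ∨ σ = -1) {a : ℝ} :
    a ∈ lx S σ ↔ (σ * Real.exp a, 0) ∈ S := by
  have hs : σ * σ = 1 := by rcases hσ with h | h <;> rw [h] <;> norm_num
  unfold lx
  rw [mem_image]
  constructor
  · rintro ⟨⟨p1, p2⟩, hp, rfl⟩
    rw [mem_filter] at hp
    obtain ⟨hp, h0, h1⟩ := hp
    simp only at h0 h1 ⊢
    rw [Real.exp_log h1, ← mul_assoc, hs, one_mul, ← h0]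
    exact hp
  · intro h
    refine ⟨(σ * Real.exp a, 0), ?_, ?_⟩
    · rw [mem_filter]
      refine ⟨h, rfl, ?_⟩
      simp only
      rw [← mul_assoc, hs, one_mul]
      exact Real.exp_pos a
    · simp only
      rw [← mul_assoc, hs, one_mul, Real.log_exp]

private theorem kc_ly {S : Finset P} {σ : ℝ} (hσ : σ = 1 ∨ σ = -1) {a : ℝ} :
    a ∈ ly S σ ↔ (0, σ * Real.exp a) ∈ S := by
  have hs : σ * σ = 1 := by rcases hσ with h | h <;> rw [h] <;> norm_num
  unfold ly
  rw [mem_image]
  constructor
  · rintro ⟨⟨p1, p2⟩, hp, rfl⟩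
    rw [mem_filter] at hp
    obtain ⟨hp, h0, h1⟩ := hp
    simp only at h0 h1 ⊢
    rw [Real.exp_log h1, ← mul_assoc, hs, one_mul, ← h0]
    exact hp
  · intro h
    refine ⟨(0, σ * Real.exp a), ?_, ?_⟩
    · rw [mem_filter]
      refine ⟨h, rfl, ?_⟩
      simp only
      rw [← mul_assoc, hs, one_mul]
      exact Real.exp_pos a
    · simp only
      rw [← mul_assoc, hs, one_mul, Real.log_exp]

private theorem kc_l0 {S : Finset P} : l0 S = if ((0, 0) : P) ∈ S then 1 else 0 := by
  unfold l0
  rw [Finset.filter_eq']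
  split_ifs <;> simp

/-- kc (M). For `a ∈ lx S σ`, `b ∈ ly S τ` the functional `x / (σ e^a) + y / (τ e^b)` has value `1`
on the chord; on the point `(σ e^s, 0)` it is `e^(s-a)`, on `(0, τ e^s)` it is `e^(s-b)`, on the
opposite half lines it is `-e^(s-a)`, `-e^(s-b)`, and `0` at the origin. -/
theorem vc_of_adm {S : Finset P} {K : ℕ} (hS : ∀ p ∈ S, p.1 * p.2 = 0) (hA : Adm S K) {σ τ : ℝ}
    (hσ : σ = 1 ∨ σ = -1) (hτ : τ = 1 ∨ τ = -1) :
    VC (lx S σ) (ly S τ) (lx S (-σ)) (ly S (-τ)) (l0 S) K := by
  have hσ' : -σ = 1 ∨ -σ = -1 := by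
    rcases hσ with h | h
    · right; rw [h]
    · left; rw [h]; norm_num
  have hτ' : -τ = 1 ∨ -τ = -1 := by
    rcases hτ with h | h
    · right; rw [h]
    · left; rw [h]; norm_num
  have hss : σ * σ = 1 := by rcases hσ with h | h <;> rw [h] <;> norm_num
  have htt : τ * τ = 1 := by rcases hτ with h | h <;> rw [h] <;> norm_num
  intro a ha b hb
  rw [kc_lx hσ] at ha
  rw [kc_ly hτ] at hb
  -- direction `(τ e^a, - σ e^b)`: `cr d (x, y) = τ e^a y + σ e^b x`
  have hne : ((σ * Real.exp a, 0) : P) ≠ (0, τ * Real.exp b) := by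
    intro h
    have h1 := congrArg Prod.fst h
    simp only at h1
    have : σ ≠ 0 := by rintro rfl; simp at hss
    exact (mul_ne_zero this (Real.exp_pos a).ne') h1
  have hv : ∀ p : P, cr (τ * Real.exp a, -(σ * Real.exp b)) p =
      τ * Real.exp a * p.2 + σ * Real.exp b * p.1 := by
    intro p
    simp only [cr]
    ring
  have hv' : ∀ p : P, cr (-(τ * Real.exp a), σ * Real.exp b) p =
      -(τ * Real.exp a * p.2 + σ * Real.exp b * p.1) := by
    intro p
    simp only [cr]
    ring
  have hE : ∀ s : ℝ, Real.exp b * Real.exp s = Real.exp (a + b) * Real.exp (s - a) := by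
    intro s
    rw [← Real.exp_add, ← Real.exp_add]
    congr 1
    ring
  have hE' : ∀ s : ℝ, Real.exp a * Real.exp s = Real.exp (a + b) * Real.exp (s - b) := by
    intro s
    rw [← Real.exp_add, ← Real.exp_add]
    congr 1
    ring
  have key : ∀ x ∈ lx S σ ∪ (ly S τ).image (fun x => x - (b - a)),
      ∃ p ∈ S, τ * Real.exp a * p.2 + σ * Real.exp b * p.1 =
        Real.exp (a + b) * Real.exp (x - a) := by
    intro x hx
    rw [mem_union, mem_image] at hx
    rcases hx with hx | ⟨y, hy, rfl⟩
    · rw [kc_lx hσ] at hx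
      refine ⟨_, hx, ?_⟩
      simp only
      have := hE x
      linear_combination this + (Real.exp b * Real.exp x) * hss
    · rw [kc_ly hτ] at hy
      refine ⟨_, hy, ?_⟩
      simp only
      have := hE' y
      have e : y - (b - a) - a = y - b := by ring
      rw [e]
      linear_combination this + (Real.exp a * Real.exp y) * htt
  have key' : ∀ x ∈ lx S (-σ) ∪ (ly S (-τ)).image (fun x => x - (b - a)),
      ∃ p ∈ S, τ * Real.exp a * p.2 + σ * Real.exp b * p.1 =
        -(Real.exp (a + b) * Real.exp (x - a)) := by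
    intro x hx
    rw [mem_union, mem_image] at hx
    rcases hx with hx | ⟨y, hy, rfl⟩
    · rw [kc_lx hσ'] at hx
      refine ⟨_, hx, ?_⟩
      simp only
      have := hE x
      linear_combination -this - (Real.exp b * Real.exp x) * hss
    · rw [kc_ly hτ'] at hy
      refine ⟨_, hy, ?_⟩
      simp only
      have := hE' y
      have e : y - (b - a) - a = y - b := by ring
      rw [e]
      linear_combination -this - (Real.exp a * Real.exp y) * htt
  have hpa : τ * Real.exp a * (0 : ℝ) + σ * Real.exp b * (σ * Real.exp a) = Real.exp (a + b) := by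
    rw [Real.exp_add]
    linear_combination (Real.exp a * Real.exp b) * hss
  have hpb : τ * Real.exp a * (τ * Real.exp b) + σ * Real.exp b * (0 : ℝ) = Real.exp (a + b) := by
    rw [Real.exp_add]
    linear_combination (Real.exp a * Real.exp b) * htt
  have hpos : 0 < Real.exp (a + b) := Real.exp_pos _
  constructor
  · have h1 := hA (τ * Real.exp a, -(σ * Real.exp b)) _ ha _ hb hne (by
      rw [hv, hv]
      simp only
      rw [hpa, hpb])
    have e : ((lx S σ ∪ (ly S τ).image (fun x => x - (b - a))).filter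
        (fun x => a < x)).card = (((lx S σ ∪ (ly S τ).image (fun x => x - (b - a))).filter
        (fun x => a < x)).image (fun x => Real.exp (a + b) * Real.exp (x - a))).card := by
      rw [card_image_of_injOn]
      intro x _ y _ hxy
      have := mul_left_cancel₀ hpos.ne' hxy
      have := Real.exp_injective this
      linarith
    rw [e]
    refine le_trans (card_le_card ?_) h1
    intro y hy
    rw [mem_image] at hy
    obtain ⟨x, hx, rfl⟩ := hy
    rw [mem_filter] at hx
    obtain ⟨p, hp, hpx⟩ := key x hx.1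
    rw [mem_filter, mem_image]
    refine ⟨⟨p, hp, by rw [hv]; exact hpx⟩, ?_⟩
    rw [hv]
    simp only
    rw [hpa]
    have : 1 < Real.exp (x - a) := by
      rw [Real.one_lt_exp_iff]
      linarith [hx.2]
    nlinarith
  · have h1 := hA (-(τ * Real.exp a), σ * Real.exp b) _ ha _ hb hne (by
      rw [hv', hv']
      simp only
      rw [hpa, hpb])
    set U := (lx S σ ∪ (ly S τ).image (fun x => x - (b - a))).filter (fun x => x < a) with hU
    set V := lx S (-σ) ∪ (ly S (-τ)).image (fun x => x - (b - a)) with hV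
    set f : ℝ → ℝ := fun x => Real.exp (a + b) * Real.exp (x - a) with hf
    have finj : Function.Injective f := by
      intro x y hxy
      have := mul_left_cancel₀ hpos.ne' hxy
      have := Real.exp_injective this
      linarith
    have fpos : ∀ x, 0 < f x := fun x => mul_pos hpos (Real.exp_pos _)
    have c1 : (U.image (fun x => - f x)).card = U.card := by
      apply card_image_of_injective
      intro x y hxy
      exact finj (neg_injective hxy)
    have c2 : (V.image f).card = V.card := card_image_of_injective _ finj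
    have c3 : (if ((0, 0) : P) ∈ S then {(0 : ℝ)} else (∅ : Finset ℝ)).card = l0 S := by
      rw [kc_l0]
      split_ifs <;> simp
    have d1 : Disjoint (U.image (fun x => - f x))
        (if ((0, 0) : P) ∈ S then {(0 : ℝ)} else (∅ : Finset ℝ)) := by
      rw [disjoint_left]
      intro y hy hy'
      rw [mem_image] at hy
      obtain ⟨x, _, rfl⟩ := hy
      have := fpos x
      split_ifs at hy'
      · rw [mem_singleton] at hy'
        linarith
      · simp at hy'
    have d2 : Disjoint (U.image (fun x => - f x) ∪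
        (if ((0, 0) : P) ∈ S then {(0 : ℝ)} else (∅ : Finset ℝ))) (V.image f) := by
      rw [disjoint_left]
      intro y hy hy'
      rw [mem_image] at hy'
      obtain ⟨x, _, hx⟩ := hy'
      have h3 := fpos x
      rw [mem_union] at hy
      rcases hy with hy | hy
      · rw [mem_image] at hy
        obtain ⟨z, _, hz⟩ := hy
        have := fpos z
        linarith
      · split_ifs at hy
        · rw [mem_singleton] at hy
          linarith
        · simp at hy
    rw [← c1, ← c2, ← c3, ← card_union_of_disjoint d1, ← card_union_of_disjoint d2]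
    refine le_trans (card_le_card ?_) h1
    intro y hy
    rw [mem_union, mem_union] at hy
    rw [mem_filter, mem_image]
    have hbase : cr (-(τ * Real.exp a), σ * Real.exp b) (σ * Real.exp a, 0) =
        -Real.exp (a + b) := by
      rw [hv']
      simp only
      rw [hpa]
    rw [hbase]
    rcases hy with (hy | hy) | hy
    · rw [mem_image] at hy
      obtain ⟨x, hx, rfl⟩ := hy
      rw [hU, mem_filter] at hx
      obtain ⟨p, hp, hpx⟩ := key x hx.1
      refine ⟨⟨p, hp, by rw [hv', hpx]⟩, ?_⟩
      have : Real.exp (x - a) < 1 := by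
        rw [Real.exp_lt_one_iff]
        linarith [hx.2]
      simp only [hf]
      nlinarith
    · split_ifs at hy with h0
      · rw [mem_singleton] at hy
        subst hy
        refine ⟨⟨(0, 0), h0, by rw [hv']; simp⟩, ?_⟩
        linarith
      · simp at hy
    · rw [mem_image] at hy
      obtain ⟨x, hx, rfl⟩ := hy
      obtain ⟨p, hp, hpx⟩ := key' x hx
      refine ⟨⟨p, hp, by rw [hv', hpx, neg_neg]⟩, ?_⟩
      have := fpos x
      linarith

/-- kd (S). Count of the points. -/
theorem card_cross {S : Finset P} (hS : ∀ p ∈ S, p.1 * p.2 = 0) :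
    S.card = (lx S 1).card + (lx S (-1)).card + (ly S 1).card + (ly S (-1)).card + l0 S ∧
      l0 S ≤ 1 := by
  have hx : ∀ σ : ℝ, (σ = 1 ∨ σ = -1) → (lx S σ).card =
      (S.filter (fun p => p.2 = 0 ∧ 0 < σ * p.1)).card := by
    intro σ hσ
    unfold lx
    apply card_image_of_injOn
    intro p hp q hq hpq
    simp only [coe_filter, Set.mem_ofPred_eq] at hp hq
    have h := Real.log_injOn_pos (Set.mem_Ioi.2 hp.2.2) (Set.mem_Ioi.2 hq.2.2) hpq
    apply Prod.ext
    · have : σ ≠ 0 := by rcases hσ with h | h <;> rw [h] <;> norm_num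
      exact mul_left_cancel₀ this h
    · rw [hp.2.1, hq.2.1]
  have hy : ∀ σ : ℝ, (σ = 1 ∨ σ = -1) → (ly S σ).card =
      (S.filter (fun p => p.1 = 0 ∧ 0 < σ * p.2)).card := by
    intro σ hσ
    unfold ly
    apply card_image_of_injOn
    intro p hp q hq hpq
    simp only [coe_filter, Set.mem_ofPred_eq] at hp hq
    have h := Real.log_injOn_pos (Set.mem_Ioi.2 hp.2.2) (Set.mem_Ioi.2 hq.2.2) hpq
    apply Prod.ext
    · rw [hp.2.1, hq.2.1]
    · have : σ ≠ 0 := by rcases hσ with h | h <;> rw [h] <;> norm_num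
      exact mul_left_cancel₀ this h
  constructor
  · rw [hx 1 (Or.inl rfl), hx (-1) (Or.inr rfl), hy 1 (Or.inl rfl), hy (-1) (Or.inr rfl), l0]
    rw [card_eq_sum_ones, card_eq_sum_ones, card_eq_sum_ones, card_eq_sum_ones, card_eq_sum_ones,
      card_eq_sum_ones, sum_filter, sum_filter, sum_filter, sum_filter, sum_filter,
      ← sum_add_distrib, ← sum_add_distrib, ← sum_add_distrib, ← sum_add_distrib]
    apply sum_congr rfl
    rintro ⟨x, y⟩ hp
    have h0 := hS _ hp
    simp only at h0 ⊢
    rcases mul_eq_zero.1 h0 with h | h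
    · subst h
      rcases lt_trichotomy y 0 with hy | hy | hy
      · have h1 : ¬ (0 < y) := by linarith
        have h2 : y ≠ 0 := hy.ne
        simp [h1, h2, hy]
      · subst hy
        simp
      · have h1 : ¬ (y < 0) := by linarith
        have h2 : y ≠ 0 := hy.ne'
        simp [h1, h2, hy]
    · subst h
      rcases lt_trichotomy x 0 with hy | hy | hy
      · have h1 : ¬ (0 < x) := by linarith
        have h2 : x ≠ 0 := hy.ne
        simp [h1, h2, hy]
      · subst hy
        simp
      · have h1 : ¬ (x < 0) := by linarith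
        have h2 : x ≠ 0 := hy.ne'
        simp [h1, h2, hy]
  · rw [kc_l0]
    split_ifs <;> simp


private theorem ke_ap {Z : Finset ℝ} (hZ : Z.Nonempty) {D : ℝ} (hD : 0 < D)
    (h : ∀ z ∈ Z, z ≠ Z.max' hZ → z + D ∈ Z) :
    ((Z.card : ℝ) - 1) * D ≤ Z.max' hZ - Z.min' hZ := by
  set M := Z.max' hZ with hM
  set m := Z.min' hZ with hm
  have hmM : m ≤ M := Z.min'_le _ (Z.max'_mem hZ)
  -- every element is `M - i D`
  have key : ∀ n : ℕ, ∀ z ∈ Z, M - z < (n : ℝ) * D → ∃ i : ℕ, z = M - i * D := by
    intro n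
    induction n with
    | zero =>
      intro z hz hlt
      have := Z.le_max' z hz
      simp only [Nat.cast_zero, zero_mul] at hlt
      linarith
    | succ n ih =>
      intro z hz hlt
      rcases eq_or_ne z M with he | he
      · exact ⟨0, by simp [he]⟩
      · have h1 := h z hz he
        obtain ⟨i, hi⟩ := ih (z + D) h1 (by push_cast at hlt; linarith)
        refine ⟨i + 1, ?_⟩
        push_cast
        linarith
  have key2 : ∀ z ∈ Z, ∃ i : ℕ, z = M - i * D := by
    intro z hz
    obtain ⟨n, hn⟩ := exists_nat_gt ((M - z) / D)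
    exact key n z hz ((div_lt_iff₀ hD).1 hn)
  set N := ⌊(M - m) / D⌋₊ with hN
  have hsub : Z ⊆ (range (N + 1)).image (fun i : ℕ => M - i * D) := by
    intro z hz
    obtain ⟨i, hi⟩ := key2 z hz
    rw [mem_image]
    refine ⟨i, ?_, hi.symm⟩
    rw [mem_range, Nat.lt_succ_iff, hN]
    apply Nat.le_floor
    rw [le_div_iff₀ hD]
    have := Z.min'_le z hz
    linarith
  have hcard : Z.card ≤ N + 1 := by
    refine le_trans (card_le_card hsub) (le_trans card_image_le ?_)
    simp
  have h1 : (Z.card : ℝ) - 1 ≤ N := by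
    have : (Z.card : ℝ) ≤ (N : ℝ) + 1 := by exact_mod_cast hcard
    linarith
  have h2 : (N : ℝ) ≤ (M - m) / D := by
    apply Nat.floor_le
    apply div_nonneg (by linarith) hD.le
  calc ((Z.card : ℝ) - 1) * D ≤ (M - m) / D * D := by
        apply mul_le_mul_of_nonneg_right (le_trans h1 h2) hD.le
    _ = M - m := by field_simp

private theorem ke_one {Z : Finset ℝ} (hZ : Z.Nonempty) {D : ℝ} (hD : 0 < D)
    (h : (Z ∪ Z.image (fun x => x + D)).card ≤ Z.card + 1) :
    ((Z.card : ℝ) - 1) * D ≤ Z.max' hZ - Z.min' hZ := by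
  apply ke_ap hZ hD
  intro z hz hne
  by_contra hn
  have hmax : Z.max' hZ + D ∉ Z := by
    intro h1
    have := Z.le_max' _ h1
    linarith
  have hsub : insert (z + D) (insert (Z.max' hZ + D) Z) ⊆ Z ∪ Z.image (fun x => x + D) := by
    intro x hx
    rw [mem_insert, mem_insert] at hx
    rw [mem_union, mem_image]
    rcases hx with rfl | rfl | hx
    · exact Or.inr ⟨z, hz, rfl⟩
    · exact Or.inr ⟨_, Z.max'_mem hZ, rfl⟩
    · exact Or.inl hx
  have hc := card_le_card hsub
  rw [card_insert_of_notMem, card_insert_of_notMem hmax] at hc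
  · omega
  · rw [mem_insert]
    rintro (h1 | h1)
    · apply hne
      linarith
    · exact hn h1

private theorem ke_shift (Z : Finset ℝ) (c : ℝ) : (Z.image (fun x => x + c)).card = Z.card :=
  card_image_of_injective _ (add_left_injective c)

private theorem ke_shift' (Z : Finset ℝ) (c : ℝ) : (Z.image (fun x => x - c)).card = Z.card :=
  card_image_of_injective _ (sub_left_injective)

/-- ke (M). Two translates: if `|X ∪ (Y - d)| + |X ∪ (Y - d')| ≤ |X| + |Y| + 1` with `d' < d` and
`X, Y` nonempty, then `max X - min X ≥ (|X| - 1) (d - d')` (and the same for `Y`, by symmetry).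
If `|X| = |Y|` one union is exact, `Y - d = X` say, and then `X ∪ (X + (d - d'))` has at most
`|X| + 1` elements; if `|Y| = |X| + 1` then `X + d` and `X + d'` both lie in `Y`; if
`|X| = |Y| + 1` then `Y - d`, `Y - d'` lie in `X`. In all cases `X` is an arithmetic progression
with difference `d - d'`. -/
theorem two_translates {X Y : Finset ℝ} (hX : X.Nonempty) (hY : Y.Nonempty) {d d' : ℝ}
    (hd : d' < d)
    (h : (X ∪ Y.image (fun x => x - d)).card + (X ∪ Y.image (fun x => x - d')).card ≤
      X.card + Y.card + 1) :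
    ((X.card : ℝ) - 1) * (d - d') ≤ X.max' hX - X.min' hX := by
  apply ke_one hX (by linarith)
  have a1 : X.card ≤ (X ∪ Y.image (fun x => x - d)).card := card_le_card subset_union_left
  have a2 : X.card ≤ (X ∪ Y.image (fun x => x - d')).card := card_le_card subset_union_left
  have b1 : Y.card ≤ (X ∪ Y.image (fun x => x - d)).card := by
    rw [← ke_shift' Y d]
    exact card_le_card subset_union_right
  have b2 : Y.card ≤ (X ∪ Y.image (fun x => x - d')).card := by
    rw [← ke_shift' Y d']
    exact card_le_card subset_union_right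
  rcases lt_trichotomy X.card Y.card with hlt | heq | hgt
  · -- `|Y| = |X| + 1`
    have e1 : X ∪ Y.image (fun x => x - d) = Y.image (fun x => x - d) := by
      symm
      apply eq_of_subset_of_card_le subset_union_right
      rw [ke_shift']
      omega
    have e2 : X ∪ Y.image (fun x => x - d') = Y.image (fun x => x - d') := by
      symm
      apply eq_of_subset_of_card_le subset_union_right
      rw [ke_shift']
      omega
    have s1 : X ⊆ Y.image (fun x => x - d) := union_eq_right.1 e1
    have s2 : X ⊆ Y.image (fun x => x - d') := union_eq_right.1 e2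
    have hsub : X ∪ X.image (fun x => x + (d - d')) ⊆ Y.image (fun x => x - d') := by
      intro x hx
      rw [mem_union, mem_image] at hx
      rcases hx with hx | ⟨y, hy, rfl⟩
      · exact s2 hx
      · obtain ⟨z, hz, rfl⟩ := mem_image.1 (s1 hy)
        rw [mem_image]
        exact ⟨z, hz, by ring⟩
    have := card_le_card hsub
    rw [ke_shift'] at this
    omega
  · rcases (by omega : (X ∪ Y.image (fun x => x - d)).card ≤ X.card ∨
      (X ∪ Y.image (fun x => x - d')).card ≤ X.card) with h1 | h1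
    · have e1 : X = X ∪ Y.image (fun x => x - d) :=
        eq_of_subset_of_card_le subset_union_left h1
      have e2 : Y.image (fun x => x - d) ⊆ X := union_eq_left.1 e1.symm
      have e3 : Y.image (fun x => x - d) = X := by
        apply eq_of_subset_of_card_le e2
        rw [ke_shift']
        omega
      have e4 : X ∪ X.image (fun x => x + (d - d')) = X ∪ Y.image (fun x => x - d') := by
        congr 1
        rw [← e3, image_image]
        apply image_congr
        intro x _
        simp only [Function.comp]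
        ring
      rw [e4]
      omega
    · have e1 : X = X ∪ Y.image (fun x => x - d') :=
        eq_of_subset_of_card_le subset_union_left h1
      have e2 : Y.image (fun x => x - d') ⊆ X := union_eq_left.1 e1.symm
      have e3 : Y.image (fun x => x - d') = X := by
        apply eq_of_subset_of_card_le e2
        rw [ke_shift']
        omega
      have e4 : X ∪ X.image (fun x => x + (d - d')) =
          (X ∪ Y.image (fun x => x - d)).image (fun x => x + (d - d')) := by
        rw [image_union, image_image, union_comm]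
        congr 1
        conv_lhs => rw [← e3]
        apply image_congr
        intro x _
        simp only [Function.comp]
        ring
      rw [e4, ke_shift]
      omega
  · -- `|X| = |Y| + 1`
    have e1 : X = X ∪ Y.image (fun x => x - d) :=
      eq_of_subset_of_card_le subset_union_left (by omega)
    have e2 : X = X ∪ Y.image (fun x => x - d') :=
      eq_of_subset_of_card_le subset_union_left (by omega)
    have s1 : Y.image (fun x => x - d) ⊆ X := union_eq_left.1 e1.symm
    have s2 : Y.image (fun x => x - d') ⊆ X := union_eq_left.1 e2.symm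
    have hsd : (X \ Y.image (fun x => x - d)).card = 1 := by
      rw [card_sdiff_of_subset s1, ke_shift']
      omega
    obtain ⟨w, hw⟩ := card_eq_one.1 hsd
    have hsub : X ∪ X.image (fun x => x + (d - d')) ⊆ insert (w + (d - d')) X := by
      intro x hx
      rw [mem_union, mem_image] at hx
      rw [mem_insert]
      rcases hx with hx | ⟨y, hy, rfl⟩
      · exact Or.inr hx
      · by_cases hyU : y ∈ Y.image (fun x => x - d)
        · right
          obtain ⟨z, hz, rfl⟩ := mem_image.1 hyU
          apply s2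
          rw [mem_image]
          exact ⟨z, hz, by ring⟩
        · left
          have : y ∈ X \ Y.image (fun x => x - d) := mem_sdiff.2 ⟨hy, hyU⟩
          rw [hw, mem_singleton] at this
          rw [this]
    exact le_trans (card_le_card hsub) (card_insert_le _ _)

/-- kf (M). The inequality for the opposite half lines: take `(a,b) = (min X, max Y)` and
`(max X, min Y)`. -/
theorem vc_opposite {X Y X' Y' : Finset ℝ} {o K n : ℕ} (h : VC X Y X' Y' o K) (hX : X.Nonempty)
    (hY : Y.Nonempty) (hn : n = X.card + Y.card + X'.card + Y'.card + o) (hK : 2 * K + 1 ≤ n) :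
    (X' ∪ Y'.image (fun x => x - (Y.max' hY - X.min' hX))).card +
      (X' ∪ Y'.image (fun x => x - (Y.min' hY - X.max' hX))).card + 2 * o ≤
      X'.card + Y'.card + 1 + o := by
  have h1 := (h _ (X.min'_mem hX) _ (Y.max'_mem hY)).2
  have h2 := (h _ (X.max'_mem hX) _ (Y.min'_mem hY)).2
  have c1 : Y.card - 1 ≤ ((X ∪ Y.image (fun x => x - (Y.max' hY - X.min' hX))).filter
      (fun x => x < X.min' hX)).card := by
    rw [← card_erase_of_mem (Y.max'_mem hY), ← ke_shift' _ (Y.max' hY - X.min' hX)]
    apply card_le_card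
    intro x hx
    rw [mem_image] at hx
    obtain ⟨y, hy, rfl⟩ := hx
    rw [mem_erase] at hy
    rw [mem_filter, mem_union, mem_image]
    refine ⟨Or.inr ⟨y, hy.2, rfl⟩, ?_⟩
    have := lt_of_le_of_ne (Y.le_max' y hy.2) hy.1
    linarith
  have c2 : X.card - 1 ≤ ((X ∪ Y.image (fun x => x - (Y.min' hY - X.max' hX))).filter
      (fun x => x < X.max' hX)).card := by
    rw [← card_erase_of_mem (X.max'_mem hX)]
    apply card_le_card
    intro x hx
    rw [mem_erase] at hx
    rw [mem_filter, mem_union]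
    exact ⟨Or.inl hx.2, lt_of_le_of_ne (X.le_max' x hx.2) hx.1⟩
  have p1 := hX.card_pos
  have p2 := hY.card_pos
  omega

private theorem kg_spread {X : Finset ℝ} (hX : X.Nonempty) : 0 ≤ X.max' hX - X.min' hX := by
  have := X.min'_le _ (X.max'_mem hX)
  linarith

private theorem kg_spread_pos {X : Finset ℝ} (hX : X.Nonempty) (h2 : 2 ≤ X.card) :
    0 < X.max' hX - X.min' hX := by
  have := X.min'_lt_max'_of_card (by omega)
  linarith

private theorem kg_sizes {X Y X' Y' : Finset ℝ} {o K n : ℕ} (h : VC X Y X' Y' o K)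
    (hX : X.Nonempty) (hY : Y.Nonempty)
    (hn : n = X.card + Y.card + X'.card + Y'.card + o) (hK : 2 * K + 1 ≤ n) :
    X'.card + o ≤ Y'.card + 1 ∧ Y'.card + o ≤ X'.card + 1 := by
  have h1 := vc_opposite h hX hY hn hK
  have a1 : X'.card ≤ (X' ∪ Y'.image (fun x => x - (Y.max' hY - X.min' hX))).card :=
    card_le_card subset_union_left
  have a2 : X'.card ≤ (X' ∪ Y'.image (fun x => x - (Y.min' hY - X.max' hX))).card :=
    card_le_card subset_union_left
  have b1 : Y'.card ≤ (X' ∪ Y'.image (fun x => x - (Y.max' hY - X.min' hX))).card := by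
    rw [← ke_shift' Y' (Y.max' hY - X.min' hX)]
    exact card_le_card subset_union_right
  have b2 : Y'.card ≤ (X' ∪ Y'.image (fun x => x - (Y.min' hY - X.max' hX))).card := by
    rw [← ke_shift' Y' (Y.min' hY - X.max' hX)]
    exact card_le_card subset_union_right
  omega

private theorem kg_spreadX {X Y X' Y' : Finset ℝ} {o K n : ℕ} (h : VC X Y X' Y' o K)
    (hX : X.Nonempty) (hY : Y.Nonempty) (hX' : X'.Nonempty) (hY' : Y'.Nonempty)
    (hn : n = X.card + Y.card + X'.card + Y'.card + o) (hK : 2 * K + 1 ≤ n)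
    (hs : 2 ≤ X.card ∨ 2 ≤ Y.card) (h2 : 2 ≤ X'.card) :
    (X.max' hX - X.min' hX) + (Y.max' hY - Y.min' hY) ≤ X'.max' hX' - X'.min' hX' := by
  have h1 := vc_opposite h hX hY hn hK
  have e := kg_spread hX
  have e' := kg_spread hY
  have hd : Y.min' hY - X.max' hX < Y.max' hY - X.min' hX := by
    rcases hs with hs | hs
    · have := kg_spread_pos hX hs
      linarith
    · have := kg_spread_pos hY hs
      linarith
  have h3 := two_translates hX' hY' hd (by omega)
  have h4 : (1 : ℝ) ≤ (X'.card : ℝ) - 1 := by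
    have : (2 : ℝ) ≤ X'.card := by exact_mod_cast h2
    linarith
  nlinarith

private theorem kg_spreadY {X Y X' Y' : Finset ℝ} {o K n : ℕ} (h : VC X Y X' Y' o K)
    (hX : X.Nonempty) (hY : Y.Nonempty) (hX' : X'.Nonempty) (hY' : Y'.Nonempty)
    (hn : n = X.card + Y.card + X'.card + Y'.card + o) (hK : 2 * K + 1 ≤ n)
    (hs : 2 ≤ X.card ∨ 2 ≤ Y.card) (h2 : 2 ≤ Y'.card) :
    (X.max' hX - X.min' hX) + (Y.max' hY - Y.min' hY) ≤ Y'.max' hY' - Y'.min' hY' := by
  have h1 := vc_opposite h hX hY hn hK
  have e := kg_spread hX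
  have e' := kg_spread hY
  have hd : -(Y.max' hY - X.min' hX) < -(Y.min' hY - X.max' hX) := by
    rcases hs with hs | hs
    · have := kg_spread_pos hX hs
      linarith
    · have := kg_spread_pos hY hs
      linarith
  have conv : ∀ c : ℝ, (Y' ∪ X'.image (fun x => x - (-c))).card =
      (X' ∪ Y'.image (fun x => x - c)).card := by
    intro c
    rw [← ke_shift' (Y' ∪ X'.image (fun x => x - (-c))) c, image_union, image_image, union_comm]
    congr 2
    have : ((fun x : ℝ => x - c) ∘ fun x => x - (-c)) = id := by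
      funext x
      simp only [Function.comp, id]
      ring
    rw [this, image_id]
  have h3 := two_translates hY' hX' hd (by
    rw [conv, conv]
    omega)
  have h4 : (1 : ℝ) ≤ (Y'.card : ℝ) - 1 := by
    have : (2 : ℝ) ≤ Y'.card := by exact_mod_cast h2
    linarith
  nlinarith

private theorem kg_le {X Y X' Y' : Finset ℝ} {o K : ℕ} (h : VC X Y X' Y' o K)
    (hX : X.Nonempty) (hY : Y.Nonempty) :
    X.card + o + X'.card ≤ K + 1 ∧ X.card + o + Y'.card ≤ K + 1 ∧
    Y.card + o + X'.card ≤ K + 1 ∧ Y.card + o + Y'.card ≤ K + 1 := by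
  have h1 := (h _ (X.min'_mem hX) _ (Y.max'_mem hY)).2
  have h2 := (h _ (X.max'_mem hX) _ (Y.min'_mem hY)).2
  have c1 : Y.card - 1 ≤ ((X ∪ Y.image (fun x => x - (Y.max' hY - X.min' hX))).filter
      (fun x => x < X.min' hX)).card := by
    rw [← card_erase_of_mem (Y.max'_mem hY), ← ke_shift' _ (Y.max' hY - X.min' hX)]
    apply card_le_card
    intro x hx
    rw [mem_image] at hx
    obtain ⟨y, hy, rfl⟩ := hx
    rw [mem_erase] at hy
    rw [mem_filter, mem_union, mem_image]
    refine ⟨Or.inr ⟨y, hy.2, rfl⟩, ?_⟩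
    have := lt_of_le_of_ne (Y.le_max' y hy.2) hy.1
    linarith
  have c2 : X.card - 1 ≤ ((X ∪ Y.image (fun x => x - (Y.min' hY - X.max' hX))).filter
      (fun x => x < X.max' hX)).card := by
    rw [← card_erase_of_mem (X.max'_mem hX)]
    apply card_le_card
    intro x hx
    rw [mem_erase] at hx
    rw [mem_filter, mem_union]
    exact ⟨Or.inl hx.2, lt_of_le_of_ne (X.le_max' x hx.2) hx.1⟩
  have a1 : X'.card ≤ (X' ∪ Y'.image (fun x => x - (Y.max' hY - X.min' hX))).card :=
    card_le_card subset_union_left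
  have a2 : X'.card ≤ (X' ∪ Y'.image (fun x => x - (Y.min' hY - X.max' hX))).card :=
    card_le_card subset_union_left
  have b1 : Y'.card ≤ (X' ∪ Y'.image (fun x => x - (Y.max' hY - X.min' hX))).card := by
    rw [← ke_shift' Y' (Y.max' hY - X.min' hX)]
    exact card_le_card subset_union_right
  have b2 : Y'.card ≤ (X' ∪ Y'.image (fun x => x - (Y.min' hY - X.max' hX))).card := by
    rw [← ke_shift' Y' (Y.min' hY - X.max' hX)]
    exact card_le_card subset_union_right
  have p1 := hX.card_pos
  have p2 := hY.card_pos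
  omega

/-- kg (M). No points on the opposite half lines. If only `X'` is nonempty: `vc_opposite` gives
`|X'| = 1`, and with `(X', Y)` in place of `(X, Y)`: `|X| = 1`; then `|Y| ≤ K`, `n ≤ K + 2`. If both
are nonempty: the sizes of `(X, Y)`, `(X', Y')`, `(X, Y')`, `(X', Y)` differ by at most `1` (by `0` if
`o = 1`), so three of the four sets have at least two elements; say `X, X', Y` (or `X, X', Y'`):
`two_translates` gives `s(X') ≥ s(X) + s(Y)` and `s(X) ≥ s(X') + s(Y)` (`s` the spread), a
contradiction. Symmetrically for `Y, Y', X`, `Y, Y', X'`. -/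
theorem vc_empty {X Y X' Y' : Finset ℝ} {o K n : ℕ} (h1 : VC X Y X' Y' o K)
    (h2 : VC X' Y' X Y o K) (h3 : VC X Y' X' Y o K) (h4 : VC X' Y X Y' o K)
    (hn : n = X.card + Y.card + X'.card + Y'.card + o) (hn7 : 7 ≤ n) (ho : o ≤ 1)
    (hK : 2 * K + 1 ≤ n) (hK' : n ≤ 2 * K + 2) (hX : X.Nonempty) (hY : Y.Nonempty) :
    X' = ∅ ∧ Y' = ∅ := by
  have pX := hX.card_pos
  have pY := hY.card_pos
  obtain ⟨s1, s2⟩ := kg_sizes h1 hX hY hn hK
  obtain ⟨l1, l2, l3, l4⟩ := kg_le h1 hX hY
  rcases X'.eq_empty_or_nonempty with eX | hX' <;> rcases Y'.eq_empty_or_nonempty with eY | hY'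
  · exact ⟨eX, eY⟩
  · exfalso
    obtain ⟨t1, t2⟩ := kg_sizes h3 hX hY' (by omega : n = X.card + Y'.card + X'.card + Y.card + o) hK
    have c0 : X'.card = 0 := by rw [eX]; rfl
    have := hY'.card_pos
    omega
  · exfalso
    obtain ⟨t1, t2⟩ := kg_sizes h4 hX' hY (by omega : n = X'.card + Y.card + X.card + Y'.card + o) hK
    have c0 : Y'.card = 0 := by rw [eY]; rfl
    have := hX'.card_pos
    omega
  · exfalso
    have pX' := hX'.card_pos
    have pY' := hY'.card_pos
    have n2 : n = X'.card + Y'.card + X.card + Y.card + o := by omega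
    have n3 : n = X.card + Y'.card + X'.card + Y.card + o := by omega
    have n4 : n = X'.card + Y.card + X.card + Y'.card + o := by omega
    obtain ⟨t1, t2⟩ := kg_sizes h2 hX' hY' n2 hK
    obtain ⟨u1, u2⟩ := kg_sizes h3 hX hY' n3 hK
    obtain ⟨v1, v2⟩ := kg_sizes h4 hX' hY n4 hK
    rcases (by omega : (2 ≤ X.card ∧ 2 ≤ X'.card ∧ 2 ≤ Y.card) ∨
      (2 ≤ X.card ∧ 2 ≤ X'.card ∧ 2 ≤ Y'.card) ∨ (2 ≤ Y.card ∧ 2 ≤ Y'.card ∧ 2 ≤ X.card) ∨
      (2 ≤ Y.card ∧ 2 ≤ Y'.card ∧ 2 ≤ X'.card)) with ⟨a, b, c⟩ | ⟨a, b, c⟩ | ⟨a, b, c⟩ | ⟨a, b, c⟩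
    · have e1 := kg_spreadX h1 hX hY hX' hY' hn hK (Or.inl a) b
      have e2 := kg_spreadX h4 hX' hY hX hY' n4 hK (Or.inl b) a
      have := kg_spread_pos hY c
      linarith
    · have e1 := kg_spreadX h3 hX hY' hX' hY n3 hK (Or.inl a) b
      have e2 := kg_spreadX h2 hX' hY' hX hY n2 hK (Or.inl b) a
      have := kg_spread_pos hY' c
      linarith
    · have e1 := kg_spreadY h1 hX hY hX' hY' hn hK (Or.inr a) b
      have e2 := kg_spreadY h3 hX hY' hX' hY n3 hK (Or.inr b) a
      have := kg_spread_pos hX c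
      linarith
    · have e1 := kg_spreadY h4 hX' hY hX hY' n4 hK (Or.inr a) b
      have e2 := kg_spreadY h2 hX' hY' hX hY n2 hK (Or.inr b) a
      have := kg_spread_pos hX' c
      linarith

private theorem kh_fin {S : Finset P} {σ τ : ℝ} (hσ : σ = 1 ∨ σ = -1) (hτ : τ = 1 ∨ τ = -1)
    (hS : ∀ p ∈ S, p.1 * p.2 = 0) (h7 : 7 ≤ S.card) (hA : Adm S ((S.card - 1) / 2))
    (hX : (lx S σ).Nonempty) (hY : (ly S τ).Nonempty) :
    Odd S.card ∧ ∃ ρ : ℝ, 1 < ρ ∧ ∃ Φ : P ≃ᵃ[ℝ] P,
      (S : Set P) = Φ '' Vee ρ ((S.card - 1) / 2) := by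
  have hss : σ * σ = 1 := by rcases hσ with h | h <;> rw [h] <;> norm_num
  have htt : τ * τ = 1 := by rcases hτ with h | h <;> rw [h] <;> norm_num
  have hσ' : -σ = 1 ∨ -σ = -1 := by
    rcases hσ with h | h
    · right; rw [h]
    · left; rw [h]; norm_num
  have hτ' : -τ = 1 ∨ -τ = -1 := by
    rcases hτ with h | h
    · right; rw [h]
    · left; rw [h]; norm_num
  obtain ⟨hc, ho⟩ := card_cross hS
  have hc' : S.card = (lx S σ).card + (ly S τ).card + (lx S (-σ)).card + (ly S (-τ)).card +
      l0 S := by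
    rcases hσ with h | h <;> rcases hτ with h' | h' <;> subst h <;> subst h' <;>
      (try simp only [neg_neg]) <;> omega
  have v1 := vc_of_adm hS hA hσ hτ
  have v2 := vc_of_adm hS hA hσ' hτ'
  have v3 := vc_of_adm hS hA hσ hτ'
  have v4 := vc_of_adm hS hA hσ' hτ
  rw [neg_neg, neg_neg] at v2
  rw [neg_neg] at v3
  rw [neg_neg] at v4
  generalize hK : (S.card - 1) / 2 = K at *
  obtain ⟨eX, eY⟩ := vc_empty v1 v2 v3 v4 hc' h7 ho (by omega) (by omega) hX hY
  obtain ⟨l1, l2, l3, l4⟩ := kg_le v1 hX hY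
  rw [eX, eY, card_empty] at hc'
  rw [eX, card_empty] at l1 l3
  have hpos : ∀ p ∈ S, p = (0, 0) ∨ (p.2 = 0 ∧ 0 < σ * p.1) ∨ (p.1 = 0 ∧ 0 < τ * p.2) := by
    rintro ⟨x, y⟩ hp
    have h0 := hS _ hp
    simp only at h0 ⊢
    rcases mul_eq_zero.1 h0 with h | h
    · subst h
      rcases lt_trichotomy (τ * y) 0 with hy | hy | hy
      · exfalso
        have : Real.log (-τ * y) ∈ ly S (-τ) := by
          unfold ly
          rw [mem_image]
          exact ⟨(0, y), by rw [mem_filter]; exact ⟨hp, rfl, by simp only; linarith⟩, rfl⟩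
        rw [eY] at this
        simp at this
      · left
        have h5 : τ ≠ 0 := by rcases hτ with h | h <;> rw [h] <;> norm_num
        rcases mul_eq_zero.1 hy with h6 | h6
        · exact absurd h6 h5
        · rw [h6]
      · exact Or.inr (Or.inr ⟨rfl, hy⟩)
    · subst h
      rcases lt_trichotomy (σ * x) 0 with hy | hy | hy
      · exfalso
        have : Real.log (-σ * x) ∈ lx S (-σ) := by
          unfold lx
          rw [mem_image]
          exact ⟨(x, 0), by rw [mem_filter]; exact ⟨hp, rfl, by simp only; linarith⟩, rfl⟩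
        rw [eX] at this
        simp at this
      · left
        have h5 : σ ≠ 0 := by rcases hσ with h | h <;> rw [h] <;> norm_num
        rcases mul_eq_zero.1 hy with h6 | h6
        · exact absurd h6 h5
        · rw [h6]
      · exact Or.inr (Or.inl ⟨rfl, hy⟩)
  -- sizes from the axis directions
  have hxK : 2 ≤ (ly S τ).card → (lx S σ).card ≤ K := by
    intro h2
    obtain ⟨a, ha, b, hb, hab⟩ := one_lt_card.1 (by omega : 1 < (ly S τ).card)
    rw [kc_ly hτ] at ha hb
    have h1 := hA (0, -σ) _ ha _ hb (by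
      intro h
      have h3 := congrArg Prod.snd h
      simp only at h3
      have h5 : τ ≠ 0 := by rcases hτ with h | h <;> rw [h] <;> norm_num
      exact hab (Real.exp_injective (mul_left_cancel₀ h5 h3))) (by simp [cr])
    refine le_trans ?_ h1
    rw [← card_image_of_injective (lx S σ) Real.exp_injective]
    apply card_le_card
    intro y hy
    rw [mem_image] at hy
    obtain ⟨x, hx, rfl⟩ := hy
    rw [kc_lx hσ] at hx
    rw [mem_filter, mem_image]
    refine ⟨⟨_, hx, ?_⟩, ?_⟩
    · simp only [cr]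
      linear_combination (Real.exp x) * hss
    · simp only [cr]
      have := Real.exp_pos x
      linarith
  have hyK : 2 ≤ (lx S σ).card → (ly S τ).card ≤ K := by
    intro h2
    obtain ⟨a, ha, b, hb, hab⟩ := one_lt_card.1 (by omega : 1 < (lx S σ).card)
    rw [kc_lx hσ] at ha hb
    have h1 := hA (τ, 0) _ ha _ hb (by
      intro h
      have h3 := congrArg Prod.fst h
      simp only at h3
      have h5 : σ ≠ 0 := by rcases hσ with h | h <;> rw [h] <;> norm_num
      exact hab (Real.exp_injective (mul_left_cancel₀ h5 h3))) (by simp [cr])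
    refine le_trans ?_ h1
    rw [← card_image_of_injective (ly S τ) Real.exp_injective]
    apply card_le_card
    intro y hy
    rw [mem_image] at hy
    obtain ⟨x, hx, rfl⟩ := hy
    rw [kc_ly hτ] at hx
    rw [mem_filter, mem_image]
    refine ⟨⟨_, hx, ?_⟩, ?_⟩
    · simp only [cr]
      linear_combination (Real.exp x) * htt
    · simp only [cr]
      have := Real.exp_pos x
      linarith
  have hX3 : K ≤ (lx S σ).card := by omega
  have hY3 : K ≤ (ly S τ).card := by omega
  have hXK := hxK (by omega)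
  have hYK := hyK (by omega)
  have ho1 : l0 S = 1 := by omega
  have hodd : S.card = 2 * K + 1 := by omega
  refine ⟨⟨K, hodd⟩, ?_⟩
  have hrow : Row (lx S σ) (ly S τ) K (K - 1) := by
    intro a ha b hb
    obtain ⟨w1, w2⟩ := v1 a ha b hb
    refine ⟨w1, ?_⟩
    omega
  obtain ⟨s, t, δ, hδ, hs, ht⟩ := row_even (k := K) (by omega) (by omega) (by omega) hrow
  refine ⟨Real.exp δ, by rw [Real.one_lt_exp_iff]; exact hδ, ?_⟩
  have hs0 : σ ≠ 0 := by rcases hσ with h | h <;> rw [h] <;> norm_num
  have ht0 : τ ≠ 0 := by rcases hτ with h | h <;> rw [h] <;> norm_num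
  have es : Real.exp s ≠ 0 := (Real.exp_pos s).ne'
  have et : Real.exp t ≠ 0 := (Real.exp_pos t).ne'
  let L : P ≃ₗ[ℝ] P :=
    { toFun := fun p => (σ * Real.exp s * p.1, τ * Real.exp t * p.2)
      map_add' := by
        intro p q
        ext <;> simp <;> ring
      map_smul' := by
        intro c p
        ext <;> simp <;> ring
      invFun := fun p => (p.1 / (σ * Real.exp s), p.2 / (τ * Real.exp t))
      left_inv := by
        intro p
        ext <;> simp <;> field_simp
      right_inv := by
        intro p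
        ext <;> simp <;> field_simp }
  refine ⟨L.toAffineEquiv, ?_⟩
  have hLx : ∀ i : ℕ, σ * Real.exp (s + i * δ) = σ * Real.exp s * Real.exp δ ^ i := by
    intro i
    rw [Real.exp_add, ← Real.exp_nat_mul]
    ring
  have hLy : ∀ i : ℕ, τ * Real.exp (t + i * δ) = τ * Real.exp t * Real.exp δ ^ i := by
    intro i
    rw [Real.exp_add, ← Real.exp_nat_mul]
    ring
  have h00 : ((0, 0) : P) ∈ S := by
    by_contra hn
    rw [kc_l0, if_neg hn] at ho1
    omega
  ext p
  constructor
  · intro hp
    rcases hpos p hp with h | ⟨h, h'⟩ | ⟨h, h'⟩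
    · exact ⟨(0, 0), Or.inl rfl, by simp [L, h]⟩
    · have hm : Real.log (σ * p.1) ∈ lx S σ := by
        unfold lx
        rw [mem_image]
        exact ⟨p, by rw [mem_filter]; exact ⟨hp, h, h'⟩, rfl⟩
      rw [hs, mem_image] at hm
      obtain ⟨i, hi, hi'⟩ := hm
      have he : σ * p.1 = Real.exp (s + i * δ) := by
        rw [hi', Real.exp_log h']
      refine ⟨(Real.exp δ ^ i, 0), Or.inr ⟨i, mem_range.1 hi, Or.inl rfl⟩, ?_⟩
      apply Prod.ext
      · simp only [L, LinearEquiv.coe_toAffineEquiv, LinearEquiv.coe_mk, LinearMap.coe_mk,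
          AddHom.coe_mk]
        rw [← hLx i, ← he]
        linear_combination p.1 * hss
      · simp [L, h]
    · have hm : Real.log (τ * p.2) ∈ ly S τ := by
        unfold ly
        rw [mem_image]
        exact ⟨p, by rw [mem_filter]; exact ⟨hp, h, h'⟩, rfl⟩
      rw [ht, mem_image] at hm
      obtain ⟨i, hi, hi'⟩ := hm
      have he : τ * p.2 = Real.exp (t + i * δ) := by
        rw [hi', Real.exp_log h']
      refine ⟨(0, Real.exp δ ^ i), Or.inr ⟨i, mem_range.1 hi, Or.inr rfl⟩, ?_⟩
      apply Prod.ext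
      · simp [L, h]
      · simp only [L, LinearEquiv.coe_toAffineEquiv, LinearEquiv.coe_mk, LinearMap.coe_mk,
          AddHom.coe_mk]
        rw [← hLy i, ← he]
        linear_combination p.2 * htt
  · rintro ⟨q, hq, rfl⟩
    rcases hq with rfl | ⟨i, hi, rfl | rfl⟩
    · have e : (L.toAffineEquiv : P ≃ᵃ[ℝ] P) (0, 0) = (0, 0) := by simp [L]
      rw [e]
      exact h00
    · have e : (L.toAffineEquiv : P ≃ᵃ[ℝ] P) (Real.exp δ ^ i, 0) =
          (σ * Real.exp (s + i * δ), 0) := by
        rw [hLx]
        simp [L]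
      rw [e]
      have : s + i * δ ∈ lx S σ := by
        rw [hs, mem_image]
        exact ⟨i, mem_range.2 hi, rfl⟩
      exact (kc_lx hσ).1 this
    · have e : (L.toAffineEquiv : P ≃ᵃ[ℝ] P) (0, Real.exp δ ^ i) =
          (0, τ * Real.exp (t + i * δ)) := by
        rw [hLy]
        simp [L]
      rw [e]
      have : t + i * δ ∈ ly S τ := by
        rw [ht, mem_image]
        exact ⟨i, mem_range.2 hi, rfl⟩
      exact (kc_ly hτ).1 this

/-- kh (M). Admissible sets on the two axes (not on a line). By `vc_empty` (with suitable signs) `S`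
lies on two half lines and possibly the origin; the directions of the axes and `(max, max)` give
`|X| = |Y| = K`, `o = 1`; `row_even` with `k = K` gives geometric progressions;
`Φ = diag (σ e^s, τ e^t)`, `ρ = e^δ`. -/
theorem crossing_lines {S : Finset P} (h7 : 7 ≤ S.card) (hS : ∀ p ∈ S, p.1 * p.2 = 0)
    (hnc : ¬ Collinear ℝ (S : Set P)) (hA : Adm S ((S.card - 1) / 2)) :
    Odd S.card ∧ ∃ ρ : ℝ, 1 < ρ ∧ ∃ Φ : P ≃ᵃ[ℝ] P,
      (S : Set P) = Φ '' Vee ρ ((S.card - 1) / 2) := by
  have hx : ∃ p ∈ S, p.1 ≠ 0 := by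
    by_contra hn
    push Not at hn
    apply hnc
    rw [collinear_iff_exists_forall_eq_smul_vadd]
    refine ⟨(0, 0), (0, 1), ?_⟩
    intro p hp
    refine ⟨p.2, ?_⟩
    apply Prod.ext
    · simp [hn p hp]
    · simp
  have hy : ∃ p ∈ S, p.2 ≠ 0 := by
    by_contra hn
    push Not at hn
    apply hnc
    rw [collinear_iff_exists_forall_eq_smul_vadd]
    refine ⟨(0, 0), (1, 0), ?_⟩
    intro p hp
    refine ⟨p.1, ?_⟩
    apply Prod.ext
    · simp
    · simp [hn p hp]
  have hX : ∃ σ : ℝ, (σ = 1 ∨ σ = -1) ∧ (lx S σ).Nonempty := by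
    obtain ⟨p, hp, h1⟩ := hx
    have h2 : p.2 = 0 := by
      rcases mul_eq_zero.1 (hS p hp) with h | h
      · exact absurd h h1
      · exact h
    rcases lt_or_gt_of_ne h1 with h | h
    · refine ⟨-1, Or.inr rfl, Real.log (-1 * p.1), ?_⟩
      unfold lx
      rw [mem_image]
      exact ⟨p, by rw [mem_filter]; exact ⟨hp, h2, by linarith⟩, rfl⟩
    · refine ⟨1, Or.inl rfl, Real.log (1 * p.1), ?_⟩
      unfold lx
      rw [mem_image]
      exact ⟨p, by rw [mem_filter]; exact ⟨hp, h2, by linarith⟩, rfl⟩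
  have hY : ∃ τ : ℝ, (τ = 1 ∨ τ = -1) ∧ (ly S τ).Nonempty := by
    obtain ⟨p, hp, h1⟩ := hy
    have h2 : p.1 = 0 := by
      rcases mul_eq_zero.1 (hS p hp) with h | h
      · exact h
      · exact absurd h h1
    rcases lt_or_gt_of_ne h1 with h | h
    · refine ⟨-1, Or.inr rfl, Real.log (-1 * p.2), ?_⟩
      unfold ly
      rw [mem_image]
      exact ⟨p, by rw [mem_filter]; exact ⟨hp, h2, by linarith⟩, rfl⟩
    · refine ⟨1, Or.inl rfl, Real.log (1 * p.2), ?_⟩
      unfold ly
      rw [mem_image]
      exact ⟨p, by rw [mem_filter]; exact ⟨hp, h2, by linarith⟩, rfl⟩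
  obtain ⟨σ, hσ, hXn⟩ := hX
  obtain ⟨τ, hτ, hYn⟩ := hY
  exact kh_fin hσ hτ hS h7 hA hXn hYn

end Cvc
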