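import Mathlib
import Pool.Agent.Cvc.Odd
import Pool.Agent.Cvc.Two
import Pool.Agent.Cvc.Hyp
import Pool.Agent.Cvc.Conic
import Pool.Agent.Cvc.Conv
import Pool.Agent.Cvc.Aff

set_option autoImplicit false

open Finset

namespace Cvc

/-- the list of the classification -/
def Listed (S : Finset P) : Prop :=
  (∃ Φ : P ≃ᵃ[ℝ] P, (S : Set P) = Φ '' Reg S.card) ∨
  (Odd S.card ∧ ∃ Φ : P ≃ᵃ[ℝ] P, (S : Set P) ⊆ Φ '' Reg (S.card + 1)) ∨
  (∃ Φ : P ≃ᵃ[ℝ] P, (S : Set P) ⊆ Φ '' Grid ((S.card + 1) / 2)) ∨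
  (Odd S.card ∧ ∃ z : ℝ, z < -1 ∧ ∃ Φ : P ≃ᵃ[ℝ] P, (S : Set P) = Φ '' Hy z S.card) ∨
  (Odd S.card ∧ ∃ ρ : ℝ, 1 < ρ ∧ ∃ Φ : P ≃ᵃ[ℝ] P, (S : Set P) = Φ '' Vee ρ ((S.card - 1) / 2))

/-- pa (S). Strictly convex position. -/
theorem fwd_convex {S : Finset P} (h7 : 7 ≤ S.card)
    (hS : ConvexIndependent ℝ (fun x : S => (x : P))) (hA : Adm S ((S.card - 1) / 2)) :
    Listed S := by
  rcases Nat.even_or_odd S.card with he | ho
  · exact Or.inl (even_P (by omega) he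
      (fun p hp q hq r hr hpq hqr hpr => tri_ne hS hp hq hr hpq hqr hpr) hA)
  · obtain ⟨b, hb⟩ := ho
    have hA' : Adm S b := by
      have : (S.card - 1) / 2 = b := by omega
      rwa [this] at hA
    rcases convex_odd (by omega) S hb hS hA' with ⟨Φ, h⟩ | ⟨Φ, h⟩
    · left
      exact ⟨Φ, by rw [hb]; exact h⟩
    · right; left
      exact ⟨⟨b, hb⟩, Φ, by rw [hb]; exact h⟩

private theorem pb_move {X : Set P} {S T : Finset P} (Φ : P ≃ᵃ[ℝ] P) (h : (T : Set P) = Φ '' S)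
    {Ψ : P ≃ᵃ[ℝ] P} (hT : (T : Set P) ⊆ Ψ '' X) :
    ∃ Ξ : P ≃ᵃ[ℝ] P, (S : Set P) ⊆ Ξ '' X := by
  refine ⟨Ψ.trans Φ.symm, ?_⟩
  intro p hp
  have h1 : Φ p ∈ (T : Set P) := by rw [h]; exact ⟨p, hp, rfl⟩
  obtain ⟨x, hx, hxp⟩ := hT h1
  refine ⟨x, hx, ?_⟩
  rw [AffineEquiv.trans_apply, hxp, AffineEquiv.symm_apply_apply]

private theorem pb_move' {X : Set P} {S T : Finset P} (Φ : P ≃ᵃ[ℝ] P) (h : (T : Set P) = Φ '' S)
    {Ψ : P ≃ᵃ[ℝ] P} (hT : (T : Set P) = Ψ '' X) :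
    ∃ Ξ : P ≃ᵃ[ℝ] P, (S : Set P) = Ξ '' X := by
  refine ⟨Ψ.trans Φ.symm, ?_⟩
  ext p
  constructor
  · intro hp
    have h1 : Φ p ∈ (T : Set P) := by rw [h]; exact ⟨p, hp, rfl⟩
    rw [hT] at h1
    obtain ⟨x, hx, hxp⟩ := h1
    refine ⟨x, hx, ?_⟩
    rw [AffineEquiv.trans_apply, hxp, AffineEquiv.symm_apply_apply]
  · rintro ⟨x, hx, rfl⟩
    have h1 : Ψ x ∈ (T : Set P) := by rw [hT]; exact ⟨x, hx, rfl⟩
    rw [h] at h1
    obtain ⟨p, hp, hpx⟩ := h1
    rw [AffineEquiv.trans_apply, ← hpx, AffineEquiv.symm_apply_apply]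
    exact hp

private theorem pb_card {S T : Finset P} (Φ : P ≃ᵃ[ℝ] P) (h : (T : Set P) = Φ '' S) :
    T.card = S.card := by
  classical
  have : T = S.image Φ := by
    apply Finset.coe_injective
    rw [h, Finset.coe_image]
  rw [this, Finset.card_image_of_injective _ Φ.injective]

private theorem pb_listed {S T : Finset P} (Φ : P ≃ᵃ[ℝ] P) (h : (T : Set P) = Φ '' S)
    (hT : Listed T) : Listed S := by
  have hc := pb_card Φ h
  unfold Listed at hT ⊢
  rw [hc] at hT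
  rcases hT with ⟨Ψ, h1⟩ | ⟨ho, Ψ, h1⟩ | ⟨Ψ, h1⟩ | ⟨ho, z, hz, Ψ, h1⟩ | ⟨ho, ρ, hρ, Ψ, h1⟩
  · exact Or.inl (pb_move' Φ h h1)
  · exact Or.inr (Or.inl ⟨ho, pb_move Φ h h1⟩)
  · exact Or.inr (Or.inr (Or.inl (pb_move Φ h h1)))
  · exact Or.inr (Or.inr (Or.inr (Or.inl ⟨ho, z, hz, pb_move' Φ h h1⟩)))
  · exact Or.inr (Or.inr (Or.inr (Or.inr ⟨ho, ρ, hρ, pb_move' Φ h h1⟩)))

private theorem pb_line {S : Finset P} {c : ℝ} (h : ∀ p ∈ S, p.2 = c) :
    Collinear ℝ (S : Set P) := by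
  rw [collinear_iff_exists_forall_eq_smul_vadd]
  refine ⟨(0, c), (1, 0), ?_⟩
  intro p hp
  refine ⟨p.1, ?_⟩
  have := h p hp
  ext
  · simp
  · simp [this]

/-- pb (M). On a conic: `conic_nf`, and `adm_affine`, `indep_affine` for `Φ '' S`. Circle, parabola,
one branch of a hyperbola: `fwd_convex`. Both branches: `even_P` (`tri_ne_hyp`) or `hyperbola`.
`x y = 0`: `crossing_lines`. Two parallel lines: `parallel_lines`. -/
theorem fwd_conic {S : Finset P} (h7 : 7 ≤ S.card) (hnc : ¬ Collinear ℝ (S : Set P))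
    (hS : OnConic S) (hA : Adm S ((S.card - 1) / 2)) : Listed S := by
  classical
  obtain ⟨Φ, hΦ⟩ := conic_nf hnc hS
  set T : Finset P := S.image Φ with hT
  have hTS : (T : Set P) = Φ '' S := by rw [hT, Finset.coe_image]
  have hc := pb_card Φ hTS
  have hAT : Adm T ((T.card - 1) / 2) := by rw [hc]; exact adm_affine Φ hTS hA
  have h7T : 7 ≤ T.card := by rw [hc]; exact h7
  have hncT : ¬ Collinear ℝ (T : Set P) := by
    intro h
    apply hnc
    rw [collinear_iff_exists_forall_eq_smul_vadd] at h ⊢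
    obtain ⟨p₀, v, hv⟩ := h
    refine ⟨Φ.symm p₀, Φ.symm.linear v, ?_⟩
    intro p hp
    have h1 : Φ p ∈ (T : Set P) := by rw [hTS]; exact ⟨p, hp, rfl⟩
    obtain ⟨r, hr⟩ := hv (Φ p) h1
    refine ⟨r, ?_⟩
    have h2 : p = Φ.symm (r • v +ᵥ p₀) := by rw [← hr, AffineEquiv.symm_apply_apply]
    rw [h2, AffineEquiv.map_vadd, map_smul]
  apply pb_listed Φ hTS
  have hmem : ∀ {q : P → Prop}, (∀ p ∈ S, q (Φ p)) → ∀ p ∈ T, q p := by
    intro q h p hp
    rw [hT, Finset.mem_image] at hp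
    obtain ⟨x, hx, rfl⟩ := hp
    exact h x hx
  rcases hΦ with h | h | h | h | h
  · exact fwd_convex h7T (circle_indep (hmem (q := fun p => p.1 ^ 2 + p.2 ^ 2 = 1) h)) hAT
  · exact fwd_convex h7T (parabola_indep (hmem (q := fun p => p.2 = p.1 ^ 2) h)) hAT
  · have h' : ∀ p ∈ T, p.1 * p.2 = 1 := hmem (q := fun p => p.1 * p.2 = 1) h
    have hne : ∀ p ∈ T, p.1 ≠ 0 := by
      intro p hp h0
      have := h' p hp
      rw [h0, zero_mul] at this
      exact zero_ne_one this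
    by_cases hpos : ∃ p ∈ T, 0 < p.1
    · by_cases hneg : ∃ p ∈ T, p.1 < 0
      · rcases Nat.even_or_odd T.card with he | ho
        · exact Or.inl (even_P (by omega) he
            (fun p hp q hq r hr hpq hqr hpr =>
              tri_ne_hyp (h' p hp) (h' q hq) (h' r hr) hpq hqr hpr) hAT)
        · exact Or.inr (Or.inr (Or.inr (Or.inl ⟨ho, hyperbola h7T ho h' hpos hneg hAT⟩)))
      · push Not at hneg
        exact fwd_convex h7T (branch_indep h'
          (fun p hp => lt_of_le_of_ne (hneg p hp) (Ne.symm (hne p hp)))) hAT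
    · push Not at hpos
      -- all points on the negative branch
      let N : P ≃ᵃ[ℝ] P := (LinearEquiv.neg ℝ : P ≃ₗ[ℝ] P).toAffineEquiv
      have hN : ∀ p, N p = -p := fun p => rfl
      set T' : Finset P := T.image N with hT'
      have hTT : (T' : Set P) = N '' T := by rw [hT', Finset.coe_image]
      have hi : ConvexIndependent ℝ (fun x : T' => (x : P)) := by
        apply branch_indep
        · intro p hp
          rw [hT', Finset.mem_image] at hp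
          obtain ⟨x, hx, rfl⟩ := hp
          have := h' x hx
          rw [hN, Prod.fst_neg, Prod.snd_neg]
          linarith
        · intro p hp
          rw [hT', Finset.mem_image] at hp
          obtain ⟨x, hx, rfl⟩ := hp
          rw [hN, Prod.fst_neg]
          have := lt_of_le_of_ne (hpos x hx) (hne x hx)
          linarith
      exact fwd_convex h7T (indep_affine N hTT hi) hAT
  · have h' : ∀ p ∈ T, p.1 * p.2 = 0 := hmem (q := fun p => p.1 * p.2 = 0) h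
    obtain ⟨ho, ρ, hρ, Ψ, hΨ⟩ := crossing_lines h7T h' hncT hAT
    exact Or.inr (Or.inr (Or.inr (Or.inr ⟨ho, ρ, hρ, Ψ, hΨ⟩)))
  · have h' : ∀ p ∈ T, p.2 = 0 ∨ p.2 = 1 := hmem (q := fun p => p.2 = 0 ∨ p.2 = 1) h
    have h0 : ∃ p ∈ T, p.2 = 0 := by
      by_contra hno
      push Not at hno
      exact hncT (pb_line (c := 1) (fun p hp => (h' p hp).resolve_left (hno p hp)))
    have h1 : ∃ p ∈ T, p.2 = 1 := by
      by_contra hno
      push Not at hno
      exact hncT (pb_line (c := 0) (fun p hp => (h' p hp).resolve_right (hno p hp)))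
    exact Or.inr (Or.inr (Or.inl (parallel_lines h7T h' h0 h1 hAT)))

private theorem pc_pre {S : Finset P} (Φ : P ≃ᵃ[ℝ] P) :
    ∃ T : Finset P, (S : Set P) = Φ '' T ∧ T.card = S.card := by
  classical
  refine ⟨S.image Φ.symm, ?_, Finset.card_image_of_injective _ Φ.symm.injective⟩
  rw [Finset.coe_image, ← Set.image_comp]
  have : (Φ : P → P) ∘ (Φ.symm : P → P) = id := by
    funext p
    exact Φ.apply_symm_apply p
  rw [this, Set.image_id]

private theorem pc_sub {S T : Finset P} {Φ : P ≃ᵃ[ℝ] P} {X : Set P} (h : (S : Set P) = Φ '' T)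
    (hX : (S : Set P) ⊆ Φ '' X) : (T : Set P) ⊆ X := by
  intro p hp
  have h1 : Φ p ∈ (S : Set P) := by rw [h]; exact ⟨p, hp, rfl⟩
  obtain ⟨x, hx, hxp⟩ := hX h1
  rwa [Φ.injective hxp] at hx

private theorem pc_eq {S T : Finset P} {Φ : P ≃ᵃ[ℝ] P} {X : Set P} (h : (S : Set P) = Φ '' T)
    (hX : (S : Set P) = Φ '' X) : (T : Set P) = X := by
  rw [h] at hX
  exact Φ.injective.image_injective hX

/-- pc (M). The converse. Apply `adm_affine` to the preimages. -/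
theorem bwd {S : Finset P} (h7 : 7 ≤ S.card) (h : Listed S) : Adm S ((S.card - 1) / 2) := by
  rcases h with ⟨Φ, h1⟩ | ⟨ho, Φ, h1⟩ | ⟨Φ, h1⟩ | ⟨ho, z, hz, Φ, h1⟩ | ⟨ho, ρ, hρ, Φ, h1⟩
  · obtain ⟨T, hT, hc⟩ := pc_pre (S := S) Φ
    exact adm_affine Φ hT (adm_reg (by omega) (pc_eq hT h1).subset)
  · obtain ⟨T, hT, hc⟩ := pc_pre (S := S) Φ
    obtain ⟨b, hb⟩ := ho
    have h2 := adm_reg (N := S.card + 1) (by omega) (pc_sub hT h1)
    have h3 : (S.card + 1 - 1) / 2 = (S.card - 1) / 2 := by omega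
    rw [h3] at h2
    exact adm_affine Φ hT h2
  · obtain ⟨T, hT, hc⟩ := pc_pre (S := S) Φ
    have h2 := adm_grid (k := (S.card + 1) / 2) (by omega) (pc_sub hT h1)
    have h3 : (S.card + 1) / 2 - 1 = (S.card - 1) / 2 := by omega
    rw [h3] at h2
    exact adm_affine Φ hT h2
  · obtain ⟨T, hT, hc⟩ := pc_pre (S := S) Φ
    obtain ⟨b, hb⟩ := ho
    have h3 : (S.card - 1) / 2 = b := by omega
    rw [h3]
    rw [hb] at h1
    exact adm_affine Φ hT (adm_hy hz (pc_eq hT h1))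
  · obtain ⟨T, hT, hc⟩ := pc_pre (S := S) Φ
    exact adm_affine Φ hT (adm_vee hρ (by omega) (pc_eq hT h1))

end Cvc
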