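import Mathlib

set_option autoImplicit false

namespace Cvc

/-- `S` lies on a conic (degenerate conics included): a nonzero polynomial of degree at most `2`
vanishes on `S` -/
def LiesOnConic (S : Finset (Fin 2 → ℝ)) : Prop :=
  ∃ a b c d e f : ℝ, ¬ (a = 0 ∧ b = 0 ∧ c = 0 ∧ d = 0 ∧ e = 0 ∧ f = 0) ∧
    ∀ p ∈ S, a * p 0 ^ 2 + b * (p 0 * p 1) + c * p 1 ^ 2 + d * p 0 + e * p 1 + f = 0

/-- the `2 × k` grid `{0, ..., k - 1} × {0, 1}` -/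
def grid (k : ℕ) : Set (Fin 2 → ℝ) :=
  {p | ∃ i : ℕ, i < k ∧ (p = ![(i : ℝ), 0] ∨ p = ![(i : ℝ), 1])}

/-- the points `(z^i, z^(-i))`, `0 ≤ i < n` -/
def powers (z : ℝ) (n : ℕ) : Set (Fin 2 → ℝ) :=
  {p | ∃ i : ℕ, i < n ∧ p = ![z ^ i, (z ^ i)⁻¹]}

/-- the origin and the points `(ρ^i, 0)`, `(0, ρ^i)`, `0 ≤ i < b` -/
def vee (ρ : ℝ) (b : ℕ) : Set (Fin 2 → ℝ) :=
  {p | p = ![0, 0] ∨ ∃ i : ℕ, i < b ∧ (p = ![ρ ^ i, 0] ∨ p = ![0, ρ ^ i])}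

end Cvc
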