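import Mathlib
import Pool.Agent.MP_4c9d8f_co.Defs
import Pool.Agent.Cvc.Sets
import Pool.Agent.Cvc.Fin

set_option autoImplicit false

namespace Cvc

open Pool.Agent.MP4c9d8f

private theorem qa_e (p : Fin 2 → ℝ) : ε p = (p 0, p 1) := rfl

private theorem qa_es (p : P) : ε.symm p = ![p.1, p.2] := by
  rw [LinearEquiv.symm_apply_eq, qa_e]
  simp

private theorem qa_mem {X : Set (Fin 2 → ℝ)} {p : P} : p ∈ ε '' X ↔ ![p.1, p.2] ∈ X := by
  constructor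
  · rintro ⟨x, hx, rfl⟩
    rw [← qa_es, LinearEquiv.symm_apply_apply]
    exact hx
  · intro h
    exact ⟨_, h, by rw [← qa_es, LinearEquiv.apply_symm_apply]⟩

private theorem qa_vec {a b c d : ℝ} : (![a, b] : Fin 2 → ℝ) = ![c, d] ↔ a = c ∧ b = d := by
  constructor
  · intro h
    exact ⟨congrFun h 0, congrFun h 1⟩
  · rintro ⟨rfl, rfl⟩
    rfl

private theorem qa_grid (k : ℕ) : Grid k = ε '' grid k := by
  ext p
  rw [qa_mem]
  simp only [Grid, grid, Set.mem_ofPred_eq, qa_vec, Prod.ext_iff]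

private theorem qa_hy (z : ℝ) (n : ℕ) : Hy z n = ε '' powers z n := by
  ext p
  rw [qa_mem]
  simp only [Hy, powers, Set.mem_ofPred_eq, qa_vec, Prod.ext_iff]

private theorem qa_vee (ρ : ℝ) (b : ℕ) : Vee ρ b = ε '' vee ρ b := by
  ext p
  rw [qa_mem]
  simp only [Vee, vee, Set.mem_ofPred_eq, qa_vec, Prod.ext_iff]

private theorem qa_reg {N : ℕ} (hN : 0 < N) : Reg N = ε '' regularPolygon N := by
  ext p
  rw [qa_mem]
  unfold Reg regularPolygon g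
  simp only [Set.mem_range, qa_vec, Prod.ext_iff]
  constructor
  · rintro ⟨j, h1, h2⟩
    refine ⟨⟨j % N, Nat.mod_lt _ hN⟩, ?_⟩
    have hN' : (N : ℝ) ≠ 0 := by exact_mod_cast hN.ne'
    have key : 2 * Real.pi * (j : ℝ) / N =
        2 * Real.pi * ((j % N : ℕ) : ℝ) / N + ((j / N : ℕ) : ℝ) * (2 * Real.pi) := by
      have : (j : ℝ) = ((j % N : ℕ) : ℝ) + N * ((j / N : ℕ) : ℝ) := by
        exact_mod_cast (Nat.mod_add_div j N).symm
      rw [this]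
      field_simp
      try ring
    constructor
    · rw [← h1]
      simp only
      rw [key, Real.cos_add_nat_mul_two_pi]
    · rw [← h2]
      simp only
      rw [key, Real.sin_add_nat_mul_two_pi]
  · rintro ⟨j, h1, h2⟩
    exact ⟨j, h1, h2⟩

private theorem qa_eq {S : Finset (Fin 2 → ℝ)} {T : Finset P} (h : (T : Set P) = ε '' S)
    {X : Set (Fin 2 → ℝ)} {X' : Set P} (hX : X' = ε '' X) :
    (∃ Ψ : P ≃ᵃ[ℝ] P, (T : Set P) = Ψ '' X') ↔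
      ∃ Φ : (Fin 2 → ℝ) ≃ᵃ[ℝ] (Fin 2 → ℝ), (S : Set (Fin 2 → ℝ)) = Φ '' X := by
  subst hX
  constructor
  · rintro ⟨Ψ, hΨ⟩
    refine ⟨(ε.toAffineEquiv.trans Ψ).trans ε.toAffineEquiv.symm, ?_⟩
    rw [h] at hΨ
    have h1 := congrArg (fun Y => ε.symm '' Y) hΨ
    simp only [← Set.image_comp] at h1
    have h2 : (ε.symm : P → (Fin 2 → ℝ)) ∘ (ε : (Fin 2 → ℝ) → P) = id := by
      funext x; exact ε.symm_apply_apply x
    rw [h2, Set.image_id] at h1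
    rw [h1]
    rfl
  · rintro ⟨Φ, hΦ⟩
    refine ⟨(ε.toAffineEquiv.symm.trans Φ).trans ε.toAffineEquiv, ?_⟩
    rw [h, hΦ, ← Set.image_comp, ← Set.image_comp]
    congr 1
    funext x
    simp only [Function.comp_apply, AffineEquiv.trans_apply]
    have : ε.toAffineEquiv.symm (ε x) = x := ε.symm_apply_apply x
    rw [this]
    rfl

private theorem qa_sub {S : Finset (Fin 2 → ℝ)} {T : Finset P} (h : (T : Set P) = ε '' S)
    {X : Set (Fin 2 → ℝ)} {X' : Set P} (hX : X' = ε '' X) :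
    (∃ Ψ : P ≃ᵃ[ℝ] P, (T : Set P) ⊆ Ψ '' X') ↔
      ∃ Φ : (Fin 2 → ℝ) ≃ᵃ[ℝ] (Fin 2 → ℝ), (S : Set (Fin 2 → ℝ)) ⊆ Φ '' X := by
  subst hX
  constructor
  · rintro ⟨Ψ, hΨ⟩
    refine ⟨(ε.toAffineEquiv.trans Ψ).trans ε.toAffineEquiv.symm, ?_⟩
    intro p hp
    have h1 : ε p ∈ (T : Set P) := by rw [h]; exact ⟨p, hp, rfl⟩
    obtain ⟨y, ⟨x, hx, rfl⟩, hy⟩ := hΨ h1
    refine ⟨x, hx, ?_⟩
    have h2 : ((ε.toAffineEquiv.trans Ψ).trans ε.toAffineEquiv.symm) x = ε.symm (Ψ (ε x)) := rfl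
    rw [h2, hy, ε.symm_apply_apply]
  · rintro ⟨Φ, hΦ⟩
    refine ⟨(ε.toAffineEquiv.symm.trans Φ).trans ε.toAffineEquiv, ?_⟩
    intro q hq
    rw [h] at hq
    obtain ⟨p, hp, rfl⟩ := hq
    obtain ⟨x, hx, hxp⟩ := hΦ hp
    refine ⟨ε x, ⟨x, hx, rfl⟩, ?_⟩
    have h2 : ((ε.toAffineEquiv.symm.trans Φ).trans ε.toAffineEquiv) (ε x) =
        ε (Φ (ε.symm (ε x))) := rfl
    rw [h2, ε.symm_apply_apply, hxp]

private theorem qa_card {S : Finset (Fin 2 → ℝ)} {T : Finset P} (h : (T : Set P) = ε '' S) :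
    T.card = S.card := by
  classical
  have : T = S.image ε := by
    apply Finset.coe_injective
    rw [h, Finset.coe_image]
  rw [this, Finset.card_image_of_injective _ ε.injective]

private theorem qa_indep {S : Finset (Fin 2 → ℝ)} {T : Finset P} (h : (T : Set P) = ε '' S)
    (hS : ConvexIndependent ℝ (fun x : S => (x : Fin 2 → ℝ))) :
    ConvexIndependent ℝ (fun x : T => (x : P)) := by
  have h1 := (convexIndependent_set_iff_notMem_convexHull_sdiff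
    (s := (S : Set (Fin 2 → ℝ)))).mp hS
  refine (convexIndependent_set_iff_notMem_convexHull_sdiff (s := (T : Set P))).mpr ?_
  intro q hq hq'
  rw [h] at hq
  obtain ⟨p, hp, rfl⟩ := hq
  apply h1 p hp
  have h2 : (T : Set P) \ {ε p} = ε '' ((S : Set (Fin 2 → ℝ)) \ {p}) := by
    rw [Set.image_sdiff ε.injective, h, Set.image_singleton]
  rw [h2] at hq'
  have h3 : convexHull ℝ (ε '' ((S : Set (Fin 2 → ℝ)) \ {p})) =
      ε '' convexHull ℝ ((S : Set (Fin 2 → ℝ)) \ {p}) :=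
    (LinearMap.image_convexHull (ε : (Fin 2 → ℝ) →ₗ[ℝ] P) _).symm
  rw [h3] at hq'
  obtain ⟨x, hx, hxp⟩ := hq'
  rwa [ε.injective hxp] at hx

/-- qa (M). Transfer from `ℝ × ℝ` to `Fin 2 → ℝ`. -/
theorem main (S : Finset (Fin 2 → ℝ)) (h7 : 7 ≤ S.card)
    (hnc : ¬ Collinear ℝ (S : Set (Fin 2 → ℝ)))
    (hS : ConvexIndependent ℝ (fun x : S => (x : Fin 2 → ℝ)) ∨ LiesOnConic S) :
    Admissible S ↔
      IsAffinelyRegular S.card (S : Set (Fin 2 → ℝ)) ∨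
      (Odd S.card ∧ ∃ Φ : (Fin 2 → ℝ) ≃ᵃ[ℝ] (Fin 2 → ℝ),
        (S : Set (Fin 2 → ℝ)) ⊆ Φ '' regularPolygon (S.card + 1)) ∨
      (∃ Φ : (Fin 2 → ℝ) ≃ᵃ[ℝ] (Fin 2 → ℝ),
        (S : Set (Fin 2 → ℝ)) ⊆ Φ '' grid ((S.card + 1) / 2)) ∨
      (Odd S.card ∧ ∃ z : ℝ, z < -1 ∧ ∃ Φ : (Fin 2 → ℝ) ≃ᵃ[ℝ] (Fin 2 → ℝ),
        (S : Set (Fin 2 → ℝ)) = Φ '' powers z S.card) ∨
      (Odd S.card ∧ ∃ ρ : ℝ, 1 < ρ ∧ ∃ Φ : (Fin 2 → ℝ) ≃ᵃ[ℝ] (Fin 2 → ℝ),
        (S : Set (Fin 2 → ℝ)) = Φ '' vee ρ ((S.card - 1) / 2)) := by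
  classical
  set T : Finset P := S.image ε with hT
  have hTS : (T : Set P) = ε '' S := by rw [hT, Finset.coe_image]
  have hc := qa_card hTS
  have hL : Listed T ↔ (IsAffinelyRegular S.card (S : Set (Fin 2 → ℝ)) ∨
      (Odd S.card ∧ ∃ Φ : (Fin 2 → ℝ) ≃ᵃ[ℝ] (Fin 2 → ℝ),
        (S : Set (Fin 2 → ℝ)) ⊆ Φ '' regularPolygon (S.card + 1)) ∨
      (∃ Φ : (Fin 2 → ℝ) ≃ᵃ[ℝ] (Fin 2 → ℝ),
        (S : Set (Fin 2 → ℝ)) ⊆ Φ '' grid ((S.card + 1) / 2)) ∨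
      (Odd S.card ∧ ∃ z : ℝ, z < -1 ∧ ∃ Φ : (Fin 2 → ℝ) ≃ᵃ[ℝ] (Fin 2 → ℝ),
        (S : Set (Fin 2 → ℝ)) = Φ '' powers z S.card) ∨
      (Odd S.card ∧ ∃ ρ : ℝ, 1 < ρ ∧ ∃ Φ : (Fin 2 → ℝ) ≃ᵃ[ℝ] (Fin 2 → ℝ),
        (S : Set (Fin 2 → ℝ)) = Φ '' vee ρ ((S.card - 1) / 2))) := by
    unfold Listed IsAffinelyRegular
    rw [hc]
    refine or_congr (qa_eq hTS (qa_reg (by omega))) (or_congr (and_congr_right fun _ =>
      qa_sub hTS (qa_reg (by omega))) (or_congr (qa_sub hTS (qa_grid _)) (or_congr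
      (and_congr_right fun _ => exists_congr fun z => and_congr_right fun _ =>
        qa_eq hTS (qa_hy z _)) (and_congr_right fun _ => exists_congr fun ρ =>
          and_congr_right fun _ => qa_eq hTS (qa_vee ρ _)))))
  rw [adm_iff S hTS, ← hL, ← hc]
  have h7T : 7 ≤ T.card := by rw [hc]; exact h7
  constructor
  · intro hA
    rcases hS with hS | hS
    · exact fwd_convex h7T (qa_indep hTS hS) hA
    · apply fwd_conic h7T _ _ hA
      · intro h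
        apply hnc
        rw [collinear_iff_exists_forall_eq_smul_vadd] at h ⊢
        obtain ⟨p₀, v, hv⟩ := h
        refine ⟨ε.symm p₀, ε.symm v, ?_⟩
        intro p hp
        have h1 : ε p ∈ (T : Set P) := by rw [hTS]; exact ⟨p, hp, rfl⟩
        obtain ⟨r, hr⟩ := hv (ε p) h1
        refine ⟨r, ?_⟩
        have h2 : p = ε.symm (r • v +ᵥ p₀) := by rw [← hr, ε.symm_apply_apply]
        rw [h2, vadd_eq_add, vadd_eq_add, map_add, map_smul]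
      · obtain ⟨a, b, c, d, e, f, hne, hf⟩ := hS
        refine ⟨a, b, c, d, e, f, hne, ?_⟩
        intro q hq
        rw [hT, Finset.mem_image] at hq
        obtain ⟨p, hp, rfl⟩ := hq
        exact hf p hp
  · exact bwd h7T

end Cvc
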